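import Pool.Agent.P.MP_8d0004_nt.LR.SB

/-! Statements of the packages. -/

namespace Pool.Agent.P.MP_8d0004_nt.LR

open Real MeasureTheory Set Filter Topology

/-- link with the Eisenstein series of Mathlib -/
def StL : Prop := ∀ (z : UpperHalfPlane) (y : ℝ), (z : ℂ) = Complex.I * y →
  (e2 y : ℂ) = EisensteinSeries.E2 z ∧ (e4 y : ℂ) = ModularForm.E₄ z ∧ (e6 y : ℂ) = ModularForm.E₆ z

/-- level one facts on the imaginary axis -/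
def StM1 : Prop :=
  (∀ y, 0 < y → e4 (1 / y) = y ^ 4 * e4 y) ∧
  (∀ y, 0 < y → HasDerivAt e2 (-(2 * π) * ((e2 y ^ 2 - e4 y) / 12)) y) ∧
  (∀ y, 0 < y → 0 < eta y) ∧
  (∀ y, 0 < y → HasDerivAt eta (-(π / 12) * e2 y * eta y) y) ∧
  (∀ y, 0 < y → eta (1 / y) = √y * eta y) ∧
  (∃ C, ∀ y, 1 / 6 ≤ y → |log (eta y) + π * y / 12| ≤ C * exp (-(2 * π * y)))

/-- level six identities -/
def StM2 : Prop := ∀ y, 0 < y → ∀ Z W h, Z = Zf y → W = Wf y → h = hf y →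
  h ^ 2 = Z ^ 2 + 20 * Z * W + 64 * W ^ 2 ∧
  e4 y = 5 * Z ^ 2 + 160 * Z * W + 1280 * W ^ 2 - 4 * Z * h + 128 * W * h ∧
  e4 (2 * y) = 5 * Z ^ 2 + 40 * Z * W + 80 * W ^ 2 - 4 * Z * h + 8 * W * h ∧
  9 * e4 (3 * y) = 5 * Z ^ 2 + 160 * Z * W + 1280 * W ^ 2 + 4 * Z * h - 128 * W * h ∧
  9 * e4 (6 * y) = 5 * Z ^ 2 + 40 * Z * W + 80 * W ^ 2 + 4 * Z * h - 8 * W * h ∧
  e6 y = -13 * Z ^ 3 - 408 * Z ^ 2 * W - 9984 * Z * W ^ 2 - 53248 * W ^ 3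
    + 14 * Z ^ 2 * h - 224 * Z * W * h - 7168 * W ^ 2 * h ∧
  e6 (2 * y) = -13 * Z ^ 3 - 156 * Z ^ 2 * W - 408 * Z * W ^ 2 - 832 * W ^ 3
    + 14 * Z ^ 2 * h + 28 * Z * W * h - 112 * W ^ 2 * h ∧
  27 * e6 (3 * y) = 13 * Z ^ 3 + 408 * Z ^ 2 * W + 9984 * Z * W ^ 2 + 53248 * W ^ 3
    + 14 * Z ^ 2 * h - 224 * Z * W * h - 7168 * W ^ 2 * h ∧
  27 * e6 (6 * y) = 13 * Z ^ 3 + 156 * Z ^ 2 * W + 408 * Z * W ^ 2 + 832 * W ^ 3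
    + 14 * Z ^ 2 * h + 28 * Z * W * h - 112 * W ^ 2 * h

/-- differential system, eta quotients, the variable Yf and the function Pa -/
def StM3 : Prop :=
  (∀ y, 0 < y → HasDerivAt Zf (-(2 * π) * (Zf y * zf y)) y) ∧
  (∀ y, 0 < y → HasDerivAt Wf (-(2 * π) * (Wf y * (zf y + hf y))) y) ∧
  (∀ y, 0 < y → HasDerivAt hf (-(2 * π) * (hf y * zf y + 10 * Zf y * Wf y + 64 * Wf y ^ 2)) y) ∧
  (∀ y, 0 < y → HasDerivAt zf (-(2 * π) * (zf y ^ 2 / 2 - 4 * Zf y * Wf y - 32 * Wf y ^ 2)) y) ∧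
  (∀ y, 0 < y → 0 < Zf y ∧ 0 < Wf y ∧ ff y = Zf y * Wf y * hf y) ∧
  Tendsto Zf atTop (𝓝 1) ∧
  (∀ y, 0 < y → HasDerivAt Yf (-π * hf y) y) ∧
  Tendsto Yf atTop atBot ∧
  (∀ N : ℕ, ∃ C, ∀ y ∈ Ioc (0 : ℝ) 1, |Yf y - π / (6 * y)| ≤ C * y ^ N) ∧
  (∀ y, 0 < y → HasDerivAt Pa (-(2 * π) * (2 * Wf y * hf y)) y) ∧
  Tendsto Pa atTop (𝓝 0) ∧
  Tendsto (fun y => y ^ 3 * Pa y) (𝓝[>] 0) (𝓝 (π / 216))

/-- what the Bessel half provides, in the variable Y = log x -/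
def BInt (ν : ℝ) : Prop := ∃ g0 g1 g2 g3 P Φ : ℝ → ℝ,
  (∀ Y, HasDerivAt g0 (g1 Y) Y) ∧ (∀ Y, HasDerivAt g1 (g2 Y) Y) ∧ (∀ Y, HasDerivAt g2 (g3 Y) Y) ∧
  (∀ Y, 64 * g3 Y + 2 * exp (2 * Y) * (10 * g3 Y + 30 * g2 Y + 36 * g1 Y + 16 * g0 Y)
    + exp (2 * Y) ^ 2 * (g3 Y + 6 * g2 Y + 12 * g1 Y + 8 * g0 Y) = 0) ∧
  (∃ C, ∀ Y, Y ≤ 0 → |g0 Y| ≤ C) ∧
  (∀ Y, HasDerivAt P (g0 Y * exp (2 * Y)) Y) ∧ Tendsto P atBot (𝓝 0) ∧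
  Tendsto (fun Y => P Y / Y ^ 3) atTop (𝓝 1) ∧
  (∀ Y, HasDerivAt Φ (P Y ^ 2) Y) ∧ Tendsto Φ atBot (𝓝 0) ∧
  ∃ p : Polynomial ℝ, p.coeff 0 = 0 ∧ Tendsto (fun Y => Φ Y - p.eval Y) atTop (𝓝 ν)

/-- transfer to the modular variable -/
def StM4 : Prop := ∀ ν, BInt ν → ∃ Ψ : ℝ → ℝ,
  (∀ y, 0 < y → HasDerivAt Ψ (-(π ^ 5 * (hf y * Pa y ^ 2))) y) ∧ Tendsto Ψ atTop (𝓝 0) ∧
  HasCT Ψ ν

/-- the localised functions -/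
def StE0 : Prop :=
  ContinuousOn Lw (Ioi 0) ∧ (∀ n, 1 ≤ n → ContinuousOn (LC n) (Ici 0)) ∧
  (∀ N : ℕ, ∃ C, ∀ s, 0 < s → |Lw s| ≤ C / s ^ N) ∧
  (∀ n, 1 ≤ n → ∀ N : ℕ, ∃ C, ∀ s, 0 < s → |LC n s| ≤ C / s ^ N) ∧
  (∀ n, 1 ≤ n → ∀ s, 0 < s → HasDerivAt (LC n) (-(s ^ n * lam s)) s) ∧
  (∀ n, 1 ≤ n → LC n 0 = n.factorial * zt (n + 1) / (2 * π) ^ (n + 1)) ∧
  (∀ d : ℕ, ∫ s in Ioi (0 : ℝ), s ^ d * Lw s = (d + 1).factorial * zt (d + 2) / (2 * π) ^ (d + 2)) ∧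
  (∀ n, 1 ≤ n → ∀ d : ℕ, ∫ s in Ioi (0 : ℝ), s ^ d * LC n s
    = (d + n + 1).factorial * zt (d + n + 2) / (2 * π) ^ (d + n + 2) / (d + 1)) ∧
  zt 2 = π ^ 2 / 6 ∧ zt 4 = π ^ 4 / 90 ∧ zt 6 = π ^ 6 / 945

/-- inversion formulas for the twisted series, in asymptotic form -/
def StE1 : Prop := ∀ N : ℕ, ∃ C, ∀ y ∈ Ioc (0 : ℝ) 1,
  (∀ v ∈ Ioo (0 : ℝ) 1, |wS y v - ((v ^ 2 - v + 1 / 6) / (2 * y ^ 2) + 1 / 12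
    - (Lw (v / y) + Lw ((1 - v) / y)) / y)| ≤ C * y ^ N) ∧
  (∀ v ∈ Ioo (0 : ℝ) 1, |pS y v - 2 * π * ((v ^ 3 - 3 / 2 * v ^ 2 + v / 2) / (6 * y ^ 2)
    + (v - 1 / 2) / 12 + LC 1 (v / y) - LC 1 ((1 - v) / y))| ≤ C * y ^ N) ∧
  (∀ v ∈ Icc (0 : ℝ) 1, |rS 2 y v - 2 * π * (-(v ^ 4 - 2 * v ^ 3 + v ^ 2 - 1 / 30) / (12 * y ^ 3)
    + y / 120 - LC 2 (v / y) - LC 2 ((1 - v) / y))| ≤ C * y ^ N) ∧
  (∀ v ∈ Icc (0 : ℝ) 1, |rS 4 y v + 2 * π *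
    (-(v ^ 6 - 3 * v ^ 5 + 5 / 2 * v ^ 4 - v ^ 2 / 2 + 1 / 42) / (30 * y ^ 5)
    + y / 252 - LC 4 (v / y) - LC 4 ((1 - v) / y))| ≤ C * y ^ N)

/-- integral representations of the twisted multiple sums -/
def StE2 : Prop := ∀ y, 0 < y →
  (Continuous (wS y) ∧ Continuous (pS y) ∧ Continuous (rS 2 y)) ∧
  (∀ α β γ : ℝ,
    S3 (fun a b c => cos (2 * π * (a * α + b * β + c * γ)) / (b * c * (a + b + c))) 1 1 2 y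
      = -(2 * π) * ∫ v in (0 : ℝ)..1, (v - 1 / 2) * wS y (v + α) * pS y (v + β) * rS 2 y (v + γ)) ∧
  (∀ α β γ : ℝ,
    S3 (fun a b c => cos (2 * π * (a * α + b * β + c * γ)) / (a * b * (b + c))) 2 1 1 y
      = -(2 * π) * ∫ v in (0 : ℝ)..1, (v - 1 / 2) * rS 2 y α * pS y (v + β) * wS y (v + γ)) ∧
  (∀ α β γ : ℝ,
    S3 (fun a b c => cos (2 * π * (a * α + b * β + c * γ)) / (a * b * (b + c))) 1 2 1 y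
      = -(2 * π) * ∫ v in (0 : ℝ)..1, (v - 1 / 2) * pS y α * rS 2 y (v + β) * wS y (v + γ)) ∧
  (∀ n, n = 2 ∨ n = 4 → ∀ α β : ℝ,
    S2 (fun a b => cos (2 * π * (a * α + b * β)) / (a * b ^ 2)) n 1 y
      = -(2 * π) * ∫ v in (0 : ℝ)..1, (v - 1 / 2) * rS n y α * pS y (v + β))

/-- the constant term of the primitive -/
def StE4 : Prop := HasCT KK (30665 / 1724976 * zt 3 - 10918117 / 383328 * zt 7 / π ^ 4)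

/-- the swap of Rogers and Zudilin, and Mellin transforms of Eisenstein series -/
def StF1 : Prop :=
  (∀ a b : ℝ, 0 < a → 0 < b →
    IntegrableOn (fun y => T 3 0 (a / y) * T 3 2 (b * y) / y ^ 4) (Ioi 0) ∧
    ∫ y in Ioi (0 : ℝ), T 3 0 (a / y) * T 3 2 (b * y) / y ^ 4
      = ∫ u in Ioi (0 : ℝ), T 1 0 (a / u) * T 3 0 (b * u) / u ^ 4) ∧
  (∀ j s : ℕ, Odd j → j + 1 ≤ s → IntegrableOn (fun w => w ^ s * T j 0 w) (Ioi 0) ∧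
    ∫ w in Ioi (0 : ℝ), w ^ s * T j 0 w
      = 2 * s.factorial * zt (s + 1) * zt (s + 1 - j) / (2 * π) ^ (s + 1)) ∧
  (∀ j N : ℕ, Odd j → j + 1 ≤ N → ∃ C, ∀ w, 0 < w → 0 ≤ T j 0 w ∧ T j 0 w ≤ C / w ^ N) ∧
  (∀ j e : ℕ, 1 ≤ j → ContinuousOn (T j e) (Ioi 0))

/-- the integral of the length two remainder -/
def StF : Prop := ContinuousOn BB (Ioi 0) ∧ IntegrableOn BB (Ioi 0) ∧
  ∫ y in Ioi (0 : ℝ), BB y = -(216 / 7) * (∫ w in Ioi (0 : ℝ), ff w * w ^ 6)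
    + 30665 / 3449952 * zt 3 / π - 75995575 / 5366592 * zt 7 / π ^ 5

/-- the length reduction -/
def StD : Prop :=
  (∀ y, 0 < y → HasDerivAt KK (-(2 * π) * (hf y * Pa y ^ 2 + BB y)) y) ∧ Tendsto KK atTop (𝓝 0)

end Pool.Agent.P.MP_8d0004_nt.LR
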