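import Mathlib

/-! Definitions for the modular half of the eight-Bessel determinant evaluation. -/

namespace Pool.Agent.P.MP_8d0004_nt.LR

open Real MeasureTheory Set Filter Topology

/-- half the hyperbolic cotangent of pi u -/
noncomputable def cth (u : ℝ) : ℝ := (1 + exp (-(2 * π * u))) / (2 * (1 - exp (-(2 * π * u))))

/-- the polynomials expressing the kernels in terms of cth -/
noncomputable def kp : ℕ → Polynomial ℝ
  | 0 => Polynomial.X
  | j + 1 => (Polynomial.X ^ 2 - Polynomial.C (1 / 4)) * Polynomial.derivative (kp j)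

/-- the kernels: for u > 0 and j ≥ 1 this is the sum over d of d ^ j exp (-2 pi d u) -/
noncomputable def K (j : ℕ) (u : ℝ) : ℝ := if u = 0 then 0 else (kp j).eval (cth u)

noncomputable def S1 (W : ℤ → ℝ) (j : ℕ) (y : ℝ) : ℝ := ∑' m : ℤ, W m * K j (m * y)

noncomputable def S2 (W : ℤ → ℤ → ℝ) (i j : ℕ) (y : ℝ) : ℝ :=
  ∑' p : ℤ × ℤ, W p.1 p.2 * (K i (p.1 * y) * K j (p.2 * y))

noncomputable def S3 (W : ℤ → ℤ → ℤ → ℝ) (i j k : ℕ) (y : ℝ) : ℝ :=
  ∑' p : ℤ × ℤ × ℤ, W p.1 p.2.1 p.2.2 * (K i (p.1 * y) * (K j (p.2.1 * y) * K k (p.2.2 * y)))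

/-- level one series -/
noncomputable def T (j e : ℕ) (y : ℝ) : ℝ := S1 (fun m => 1 / (m : ℝ) ^ e) j y

noncomputable def e2 (y : ℝ) : ℝ := 1 - 12 * T 1 0 y
noncomputable def e4 (y : ℝ) : ℝ := 1 + 120 * T 3 0 y
noncomputable def e6 (y : ℝ) : ℝ := 1 - 252 * T 5 0 y

noncomputable def eta (y : ℝ) : ℝ :=
  exp (-(π * y / 12)) * ∏' n : ℕ, (1 - exp (-(2 * π * ((n : ℝ) + 1) * y)))

noncomputable def Zf (y : ℝ) : ℝ := (e2 y - 4 * e2 (2 * y) - 3 * e2 (3 * y) + 12 * e2 (6 * y)) / 6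
noncomputable def Wf (y : ℝ) : ℝ := (-e2 y + e2 (2 * y) + 3 * e2 (3 * y) - 3 * e2 (6 * y)) / 24
noncomputable def hf (y : ℝ) : ℝ := (-e2 y + 2 * e2 (2 * y) - 3 * e2 (3 * y) + 6 * e2 (6 * y)) / 4
noncomputable def zf (y : ℝ) : ℝ := (e2 y - e2 (2 * y) + 3 * e2 (3 * y) - 3 * e2 (6 * y)) / 6

/-- the cusp form on the imaginary axis -/
noncomputable def ff (y : ℝ) : ℝ :=
  (eta (2 * y) * eta (3 * y)) ^ 9 / (eta y * eta (6 * y)) ^ 3 +
    (eta y * eta (6 * y)) ^ 9 / (eta (2 * y) * eta (3 * y)) ^ 3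

/-- logarithm of the Bessel variable as a function of the modular variable -/
noncomputable def Yf (y : ℝ) : ℝ := log (64 * Wf y / Zf y) / 2

/-- twice the first integral of the weight four Eisenstein series -/
noncomputable def Pa (y : ℝ) : ℝ :=
  T 2 1 y - T 2 1 (2 * y) / 2 - 3 * T 2 1 (3 * y) + 3 / 2 * T 2 1 (6 * y)

/-- zeta values -/
noncomputable def zt (n : ℕ) : ℝ := ∑' k : ℕ, 1 / ((k : ℝ) + 1) ^ n

/-- constant term at zero -/
def HasCT (f : ℝ → ℝ) (c : ℝ) : Prop :=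
  ∃ p : Polynomial ℝ, p.coeff 0 = 0 ∧ Tendsto (fun y => f y - p.eval y⁻¹) (𝓝[>] 0) (𝓝 c)

noncomputable def lam (s : ℝ) : ℝ := 1 / (exp (2 * π * s) - 1)
noncomputable def Lw (s : ℝ) : ℝ := s * lam s
noncomputable def LC (n : ℕ) (s : ℝ) : ℝ := ∫ t in Ioi s, t ^ n * lam t

noncomputable def wS (y v : ℝ) : ℝ := S1 (fun m => cos (2 * π * m * v)) 1 y
noncomputable def pS (y v : ℝ) : ℝ := S1 (fun m => sin (2 * π * m * v) / m) 1 y
noncomputable def rS (n : ℕ) (y v : ℝ) : ℝ := S1 (fun m => cos (2 * π * m * v) / m) n y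

/-- twice the cosine of a sixth of a turn -/
def cos2 (r : ZMod 6) : ℤ := [2, 1, -1, -2, -1, 1].getD r.val 0

def solA : List (ℕ × ℕ × ℕ × ℤ) :=
  [(0, 0, 1, 1044010032), (0, 0, 2, -861403812), (0, 0, 3, -182606220), (0, 1, 0, 113212434),
   (0, 1, 1, -836059289), (0, 1, 2, 798330549), (0, 1, 3, -949372238), (0, 1, 4, 362286723),
   (0, 1, 5, 511601821), (0, 2, 0, 2542251000), (0, 2, 1, -886755135), (0, 2, 2, 359248272),
   (0, 2, 3, -41537199), (0, 2, 4, -1500438576), (0, 2, 5, -472768362), (0, 3, 0, -833768394),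
   (0, 3, 1, 360510565), (0, 3, 2, 386553084), (0, 3, 3, 86704745), (1, 0, 0, 1448945843),
   (1, 0, 1, 59827006), (1, 0, 2, -976636432), (1, 0, 3, 666397966), (1, 0, 4, 959212373),
   (1, 0, 5, -2157746756), (1, 1, 0, -421708440), (1, 1, 1, -1019781184), (1, 1, 2, -393267174),
   (1, 1, 3, 1625376146), (1, 1, 4, -102005928), (1, 1, 5, 311386580), (1, 2, 0, -668245882),
   (1, 2, 1, 709673842), (1, 2, 2, 508434623), (1, 2, 3, 139974928), (1, 2, 4, 219561323),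
   (1, 2, 5, -909398834), (1, 3, 0, -497673285), (1, 3, 1, -563300482), (1, 3, 2, 279143073),
   (1, 3, 3, -1404752470), (1, 3, 4, -726973122), (1, 3, 5, 2913556286), (1, 4, 0, -1156213732),
   (1, 4, 1, -368002958), (1, 4, 2, 1199711375), (1, 4, 3, 622122484), (1, 4, 4, 656487005),
   (1, 4, 5, -954104174), (1, 5, 0, 1015435128), (1, 5, 1, -1625815456), (1, 5, 2, 330890391),
   (1, 5, 3, -245419438), (1, 5, 4, 80529261), (1, 5, 5, 444380114), (2, 0, 0, -384281250),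
   (2, 0, 1, -1261655712), (2, 0, 2, 363301032), (2, 0, 3, 342996516), (2, 0, 4, 467795790),
   (2, 0, 5, 471843624), (2, 1, 0, 502164492), (2, 1, 1, -668871416), (2, 1, 2, 839015022),
   (2, 1, 3, 357138715), (2, 1, 4, -1329003810), (2, 1, 5, 299556997), (2, 2, 0, 859000416),
   (2, 2, 1, 331952748), (2, 2, 2, -599036736), (2, 2, 3, -457803600), (2, 2, 4, -303231084),
   (2, 2, 5, 169118256), (2, 3, 0, -46826517), (2, 3, 1, 202947232), (2, 3, 2, -860988084),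
   (2, 3, 3, -124806803), (2, 3, 4, 532596519), (2, 3, 5, 297077653), (2, 4, 0, -1523068158),
   (2, 4, 1, 1904170434), (2, 4, 2, -961110048), (2, 4, 3, 422020215), (2, 4, 4, -280601502),
   (2, 4, 5, 438589059), (2, 5, 0, 137587257), (2, 5, 1, 439732570), (2, 5, 2, 1852596222),
   (2, 5, 3, -1208360531), (2, 5, 4, -632180841), (2, 5, 5, -589374677), (3, 0, 0, -153817073),
   (3, 0, 1, 440022190), (3, 0, 2, 364619753), (3, 0, 3, -650824870), (3, 1, 0, -222451623),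
   (3, 1, 1, 1266006836), (3, 1, 2, 431812431), (3, 1, 3, 244673954), (3, 1, 4, -1607615694),
   (3, 1, 5, -112425904), (3, 2, 0, -826036108), (3, 2, 1, 184680268), (3, 2, 2, -327642958),
   (3, 2, 3, -860740220), (3, 2, 4, 573194546), (3, 2, 5, 1256544472), (3, 3, 0, 115493892),
   (3, 3, 1, -1631128246), (3, 3, 2, -103183566), (3, 3, 3, 1618817920)]

def solB : List (ℕ × ℕ × ℕ × ℤ) :=
  [(0, 0, 1, 5517374568), (0, 0, 2, 2259948248), (0, 0, 3, -182943524), (0, 1, 0, 5463989140),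
   (0, 1, 1, -4875314976), (0, 1, 2, -1266890656), (0, 1, 3, -807974436), (0, 1, 4, -360162612),
   (0, 1, 5, -6189589948), (0, 2, 0, 80998280), (0, 2, 1, -1137549476), (0, 2, 2, -362073312),
   (0, 2, 3, -247864), (0, 2, 5, 1860436568), (1, 0, 0, 668779522), (1, 0, 1, -8006100194),
   (1, 0, 2, -440864301), (1, 0, 3, -4109188), (1, 1, 0, -7209333315), (1, 1, 1, 5677269377),
   (1, 1, 2, 2046583311), (1, 1, 3, 957273051), (1, 1, 4, 1028177364), (1, 1, 5, 2783532114),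
   (1, 2, 1, 1894661869), (1, 2, 2, 555489789), (1, 2, 3, -167411159), (1, 2, 5, 216051760),
   (2, 0, 0, -8373874956), (2, 0, 1, 5790332475), (2, 0, 2, -1224704844), (2, 0, 3, -53469106),
   (2, 1, 0, 3138366413), (2, 1, 1, 10775046012), (2, 1, 2, -5545595585), (2, 1, 3, 355222884),
   (2, 1, 4, -5072856012), (2, 1, 5, 12186503016), (2, 2, 1, -5603010997), (2, 2, 2, -181036656),
   (2, 2, 3, -955454738), (2, 2, 5, -5235467906), (3, 0, 0, 7867091994), (3, 0, 1, -3301606849),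
   (3, 0, 2, -513380823), (3, 0, 3, 240521818), (3, 1, 0, -1393022238), (3, 1, 1, -11738996973),
   (3, 1, 2, 4765902930), (3, 1, 3, -504521499), (3, 1, 4, 4404841260), (3, 1, 5, -8942441742),
   (3, 2, 1, 4845898604), (3, 2, 2, -12379821), (3, 2, 3, 1123113761), (3, 2, 5, 3158979578)]

def solC : List (ℕ × ℕ × ℕ × ℤ) :=
  [(1, 0, 1, 1064369972), (1, 0, 2, -24831196), (1, 1, 0, 836140907), (1, 1, 1, -960154622),
   (1, 1, 2, -1475301207), (1, 1, 3, 1413885279), (1, 1, 4, 1249993344), (1, 1, 5, 163172523),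
   (1, 2, 0, 396065057), (1, 2, 1, -1430588037), (1, 2, 2, 1920309244), (1, 2, 3, -183515895),
   (1, 2, 4, -829816503), (1, 2, 5, -1489545210), (2, 0, 2, -1089201168), (2, 1, 0, 948275856),
   (2, 1, 2, 948275856), (2, 1, 4, -140925312), (2, 2, 0, -1089201168)]

def solD : List (ℕ × ℕ × ℤ) :=
  [(0, 0, -455423760), (0, 1, 748381392), (0, 2, -349465248), (0, 3, 56507616),
   (1, 0, 655318224), (1, 1, -1124239248), (1, 2, 355832928), (1, 3, 113088096),
   (2, 0, 32576544), (2, 1, -3906144), (2, 2, 772312464), (2, 3, -800982864), (3, 0, -232471008),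
   (3, 1, 379764000), (3, 2, -778680144), (3, 3, 631387152)]

def solE : List (ℕ × ℕ × ℤ) :=
  [(0, 0, 18974736), (0, 1, -33658416), (0, 2, -38586240), (0, 3, 53269920), (1, 0, -80190000),
   (1, 1, 170772624), (1, 2, -80837856), (1, 3, -9744768), (2, 0, 152434656), (2, 1, -260707392),
   (2, 2, 170772624), (2, 3, -62499888), (3, 0, -91219392), (3, 1, 123593184), (3, 2, -51348528),
   (3, 3, 18974736)]

def den : ℕ := 37949472

def om3 (L : List (ℕ × ℕ × ℕ × ℤ)) (r s t : ZMod 6) : ℤ :=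
  (L.map fun x => x.2.2.2 * cos2 (x.1 * r + x.2.1 * s + x.2.2.1 * t)).sum

def om2 (L : List (ℕ × ℕ × ℤ)) (r s : ZMod 6) : ℤ :=
  (L.map fun x => x.2.2 * cos2 (x.1 * r + x.2.1 * s)).sum

/-- the length three primitive -/
noncomputable def KK (y : ℝ) : ℝ :=
  (S3 (fun a b c => (om3 solA a b c : ℝ) / (b * c * (a + b + c))) 1 1 2 y
    + S3 (fun a b c => (om3 solB a b c : ℝ) / (a * b * (b + c))) 2 1 1 y
    + S3 (fun a b c => (om3 solC a b c : ℝ) / (a * b * (b + c))) 1 2 1 y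
    + S2 (fun a b => (om2 solD a b : ℝ) / (a * b ^ 2)) 2 1 y
    + S2 (fun a b => (om2 solE a b : ℝ) / (a * b ^ 2)) 4 1 y) / den

/-- one row of the length two remainder -/
noncomputable def Brow (c1 c2 c3 c6 : ℝ) (y : ℝ) : ℝ :=
  c1 * T 3 2 y + c2 * T 3 2 (2 * y) / 4 + c3 * T 3 2 (3 * y) / 9 + c6 * T 3 2 (6 * y) / 36

/-- the length two remainder -/
noncomputable def BB (y : ℝ) : ℝ :=
  (T 3 0 y * Brow 1331 1313 25357 (-28001) y
    + T 3 0 (2 * y) * Brow (-33128) 30484 (-409852) 412496 y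
    + T 3 0 (3 * y) * Brow 61773 (-275937) (-3277) 217441 y
    + T 3 0 (6 * y) * Brow (-29976) 244140 387772 (-601936) y) / 1331

end Pool.Agent.P.MP_8d0004_nt.LR
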