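import Pool.Agent.P.MP_8d0004_nt.LR.DCert
import Pool.Agent.P.MP_8d0004_nt.LR.Stm

/-! The length reduction. -/

namespace Pool.Agent.P.MP_8d0004_nt.LR

open Real Filter Topology

namespace D

def ind (t : ℕ) (r : R6) : ℚ := if r.val % t = 0 then 1 else 0

lemma ind_cast (t : ℕ) (ht : t = 2 ∨ t = 3 ∨ t = 6) (m : ℤ) :
    (ind t m : ℝ) = if (t : ℤ) ∣ m then 1 else 0 := by
  have h : (((m : R6).val : ℕ) : ℤ) = m % 6 := ZMod.val_intCast m
  have h2 : (m : R6).val % t = 0 ↔ (t : ℤ) ∣ m := by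
    rcases ht with rfl | rfl | rfl <;> omega
  unfold ind
  by_cases h3 : (t : ℤ) ∣ m
  · rw [if_pos h3, if_pos (h2.2 h3)]; simp
  · rw [if_neg h3, if_neg (fun h => h3 (h2.1 h))]; simp

lemma S1_dist (t : ℕ) (ht : t = 2 ∨ t = 3 ∨ t = 6) (e j : ℕ) (y : ℝ) :
    S1 (fun m => (ind t m : ℝ) / (m : ℝ) ^ e) j y = T j e (t * y) / (t : ℝ) ^ e := by
  have ht0 : (t : ℤ) ≠ 0 := by rcases ht with rfl | rfl | rfl <;> norm_num
  have ht1 : (t : ℝ) ≠ 0 := by exact_mod_cast ht0
  unfold T S1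
  rw [← (mul_right_injective₀ ht0).tsum_eq, ← tsum_div_const]
  · refine tsum_congr fun m => ?_
    beta_reduce
    rw [ind_cast t ht, if_pos (dvd_mul_right _ _)]
    push_cast
    rw [mul_pow, show (t : ℝ) * m * y = m * (t * y) by ring]
    ring
  · intro m hm
    by_contra h
    apply hm
    have : ¬ (t : ℤ) ∣ m := fun ⟨k, hk⟩ => h ⟨k, hk.symm⟩
    simp only [ind_cast t ht, if_neg this, zero_div, zero_mul]

lemma Bd1.smul {W : ℤ → ℝ} (h : Bd1 W) (c : ℝ) : Bd1 fun a => c * W a := by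
  obtain ⟨C, h⟩ := h
  exact ⟨|c| * C, fun a => by rw [abs_mul]; gcongr; exact h a⟩

lemma Bd1.add {W W' : ℤ → ℝ} (h : Bd1 W) (h' : Bd1 W') : Bd1 fun a => W a + W' a := by
  obtain ⟨C, h⟩ := h
  obtain ⟨C', h'⟩ := h'
  exact ⟨C + C', fun a => (abs_add_le _ _).trans (add_le_add (h a) (h' a))⟩

lemma S1_comb (c1 c2 c3 c6 : ℝ) (e : ℕ) {j : ℕ} (hj : 1 ≤ j) {y : ℝ} (hy : 0 < y) {W : ℤ → ℝ}
    (hW : ∀ m : ℤ, W m = (c1 + c2 * ind 2 m + c3 * ind 3 m + c6 * ind 6 m) / (m : ℝ) ^ e) :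
    S1 W j y = c1 * T j e y + c2 * (T j e (2 * y) / 2 ^ e) + c3 * (T j e (3 * y) / 3 ^ e)
      + c6 * (T j e (6 * y) / 6 ^ e) := by
  have b : ∀ t, Bd1 fun m : ℤ => (ind t m : ℝ) / (m : ℝ) ^ e := fun t =>
    bd1q (ind t) (fun m => m ^ e) fun m => by push_cast; rfl
  have b1 : Bd1 fun m : ℤ => 1 / (m : ℝ) ^ e :=
    bd1q (fun _ => 1) (fun m => m ^ e) fun m => by push_cast; rfl
  have h2 := S1_dist 2 (by simp) e j y
  have h3 := S1_dist 3 (by simp) e j y
  have h6 := S1_dist 6 (by simp) e j y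
  push_cast at h2 h3 h6
  rw [← h2, ← h3, ← h6, T, ← S1_smul, ← S1_smul, ← S1_smul, ← S1_smul,
    ← S1_add (b1.smul _).pg ((b 2).smul _).pg hj hy,
    ← S1_add ((b1.smul _).add ((b 2).smul _)).pg ((b 3).smul _).pg hj hy,
    ← S1_add (((b1.smul _).add ((b 2).smul _)).add ((b 3).smul _)).pg ((b 6).smul _).pg hj hy]
  congr 1
  funext m
  rw [hW]
  ring

lemma qa_eq : ∀ r, qa r = 1 + (-1) * ind 2 r + (-9) * ind 3 r + 9 * ind 6 r := by decide +kernel
lemma qp_eq : ∀ r, qp r = 1 + (-2) * ind 2 r + 3 * ind 3 r + (-6) * ind 6 r := by decide +kernel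

def row (c1 c2 c3 c6 : ℚ) (s : R6) : ℚ := c1 + c2 * ind 2 s + c3 * ind 3 s + c6 * ind 6 s

lemma qF_eq : ∀ r s, qF r s = row 1331 1313 25357 (-28001) s
    + row (-33128) 30484 (-409852) 412496 s * ind 2 r
    + row 61773 (-275937) (-3277) 217441 s * ind 3 r
    + row (-29976) 244140 387772 (-601936) s * ind 6 r := by decide +kernel

lemma Pa_eq {y : ℝ} (hy : 0 < y) : S1 (fun m => (qa m : ℝ) / m) 2 y = Pa y := by
  rw [S1_comb 1 (-1) (-9) 9 1 (by norm_num) hy fun m => by rw [qa_eq]; push_cast; ring]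
  unfold Pa
  ring

lemma hf_eq {y : ℝ} (hy : 0 < y) : 1 + 3 * S1 (fun m => (qp m : ℝ)) 1 y = hf y := by
  rw [S1_comb 1 (-2) 3 (-6) 0 le_rfl hy fun m => by rw [qp_eq]; push_cast; ring]
  unfold hf e2
  ring

lemma pp_eq (c : ℚ) {y : ℝ} (hy : 0 < y) :
    (Ob.pp (fun s t => c * (qa s * qa t)) 2 2).ev y = c * Pa y ^ 2 := by
  have b : Bd2 fun a b : ℤ => ((c * (qa a * qa b) : ℚ) : ℝ) / (a * b) :=
    bd2q (fun s t => c * (qa s * qa t)) (fun a b => a * b) fun _ _ => by push_cast; rfl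
  simp only [Ob.ev]
  rw [S2_fubini b.pg (by norm_num) (by norm_num) hy, pow_two, ← mul_assoc]
  nth_rewrite 2 [← Pa_eq hy]
  rw [← S1_smul]
  congr 1
  funext a
  rw [← Pa_eq hy, mul_right_comm, ← S1_smul]
  congr 1
  funext b
  push_cast
  ring

lemma row_eq (c1 c2 c3 c6 : ℚ) {y : ℝ} (hy : 0 < y) :
    S1 (fun m => (row c1 c2 c3 c6 m : ℝ) / (m : ℝ) ^ 2) 3 y = Brow c1 c2 c3 c6 y := by
  rw [S1_comb c1 c2 c3 c6 2 (by norm_num) hy fun m => by unfold row; push_cast; ring]
  unfold Brow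
  ring

lemma p2_eq (r : R6) {y : ℝ} (hy : 0 < y) : (Ob.p2 (fun s => -28512 * qF r s) 3).ev y
    = -28512 * (Brow 1331 1313 25357 (-28001) y + Brow (-33128) 30484 (-409852) 412496 y * ind 2 r
      + Brow 61773 (-275937) (-3277) 217441 y * ind 3 r
      + Brow (-29976) 244140 387772 (-601936) y * ind 6 r) := by
  simp only [Ob.ev]
  rw [S1_comb (-28512 * (1331 + (-33128) * ind 2 r + 61773 * ind 3 r + (-29976) * ind 6 r))
    (-28512 * (1313 + 30484 * ind 2 r + (-275937) * ind 3 r + 244140 * ind 6 r))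
    (-28512 * (25357 + (-409852) * ind 2 r + (-3277) * ind 3 r + 387772 * ind 6 r))
    (-28512 * (-28001 + 412496 * ind 2 r + 217441 * ind 3 r + (-601936) * ind 6 r)) 2
    (by norm_num) hy fun m => by rw [qF_eq]; unfold row; push_cast; ring]
  unfold Brow
  ring

lemma theta_eq {j : ℕ} (h : (res6.all fun r => chk (tg j r ++ theta allLT j r)) = true) (r : R6)
    {y : ℝ} (hy : 0 < y) : evObs (theta allLT j r) y = -evObs (tg j r) y := by
  simp only [List.all_eq_true] at h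
  have := evObs_zero (h r (mem_res6 r)) hy
  simp only [evObs, List.map_append, List.sum_append] at this ⊢
  linarith

lemma total {y : ℝ} (hy : 0 < y) :
    evLT allLT y + evObs allLow y = 37949472 * (hf y * Pa y ^ 2 + BB y) := by
  have h0 : evObs allLow y = 37949472 * Pa y ^ 2 := by
    have := evObs_zero certLow hy
    simp only [evObs, List.map_cons, List.sum_cons] at this ⊢
    rw [pp_eq _ hy] at this
    push_cast at this
    linarith
  have h1 : S1 (fun m => evObs (theta allLT 1 m) y) 1 y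
      = 113848416 * Pa y ^ 2 * S1 (fun m => (qp m : ℝ)) 1 y := by
    rw [← S1_smul]
    congr 1
    funext m
    rw [theta_eq cert1 _ hy]
    simp only [tg, if_true, evObs, List.map_cons, List.sum_cons, List.map_nil, List.sum_nil]
    rw [pp_eq _ hy]
    push_cast
    ring
  have h3 : S1 (fun m => evObs (theta allLT 3 m) y) 3 y = 37949472 * BB y := by
    rw [S1_comb (28512 * Brow 1331 1313 25357 (-28001) y)
      (28512 * Brow (-33128) 30484 (-409852) 412496 y)
      (28512 * Brow 61773 (-275937) (-3277) 217441 y)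
      (28512 * Brow (-29976) 244140 387772 (-601936) y) 0 (by norm_num) hy fun m => ?_]
    · unfold BB
      ring
    · rw [theta_eq cert3 _ hy]
      simp only [tg, if_true, evObs, List.map_cons, List.sum_cons, List.map_nil, List.sum_nil,
        OfNat.ofNat_ne_one, if_false]
      rw [p2_eq _ hy]
      ring
  have hz : ∀ j, j ≠ 1 → j ≠ 3 → (res6.all fun r => chk (tg j r ++ theta allLT j r)) = true →
      S1 (fun m => evObs (theta allLT j m) y) j y = 0 := fun j a b h => by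
    have : ∀ r, evObs (theta allLT j r) y = 0 := fun r => by
      rw [theta_eq h _ hy]
      simp [tg, a, b, evObs]
    simp [S1, this]
  rw [evLT_eq allLT allLT_mem hy, show Finset.Icc 1 5 = {1, 2, 3, 4, 5} from rfl,
    Finset.sum_insert (by decide), Finset.sum_insert (by decide), Finset.sum_insert (by decide),
    Finset.sum_insert (by decide), Finset.sum_singleton, h0, h1, h3,
    hz 2 (by decide) (by decide) cert2, hz 4 (by decide) (by decide) cert4,
    hz 5 (by decide) (by decide) cert5, ← hf_eq hy]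
  ring

lemma KK_eq : KK = fun y =>
    (S3 (fun a b c => (qA a b c : ℝ) / (b * c * (a + b + c))) 1 1 2 y
    + S3 (fun a b c => (qB a b c : ℝ) / (a * b * (b + c))) 2 1 1 y
    + S3 (fun a b c => (qC a b c : ℝ) / (a * b * (b + c))) 1 2 1 y
    + S2 (fun a b => (qD a b : ℝ) / (a * b ^ 2)) 2 1 y
    + S2 (fun a b => (qE a b : ℝ) / (a * b ^ 2)) 4 1 y) / 37949472 := by
  funext y
  simp only [KK, omA, omB, omC, omD, omE, qA, qB, qC, qD, qE, den, Rat.cast_intCast, Nat.cast_ofNat]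

end D

open D in
theorem stD : StD := by
  rw [StD, KK_eq]
  constructor
  · intro y hy
    have h := (((((psi_deriv qA hy).fun_add (pj_deriv (i := 2) (j := 1) (k := 1) (by norm_num) rfl qB hy)).fun_add
      (pj_deriv (i := 1) (j := 2) (k := 1) le_rfl rfl qC hy)).fun_add
      (pq_deriv (n := 2) (by norm_num) qD hy)).fun_add (pq_deriv (n := 4) (by norm_num) qE hy)).div_const
      37949472
    refine h.congr_deriv ?_
    have ht := total hy
    simp only [allLT, allLow, evLT, evObs, List.map_append, List.sum_append] at ht ⊢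
    linear_combination (-(2 * π) / 37949472) * ht
  · have bA : Bd3 fun a b c => (qA a b c : ℝ) / (b * c * (a + b + c)) :=
      bd3q qA (fun a b c => b * c * (a + b + c)) fun _ _ _ => by push_cast; rfl
    have bB : ∀ B : R6 → R6 → R6 → ℚ, Bd3 fun a b c => (B a b c : ℝ) / (a * b * (b + c)) := fun B =>
      bd3q B (fun a b c => a * b * (b + c)) fun _ _ _ => by push_cast; rfl
    have bD : ∀ D : R6 → R6 → ℚ, Bd2 fun a b => (D a b : ℝ) / (a * b ^ 2) := fun D =>
      bd2q D (fun a b => a * b ^ 2) fun _ _ => by push_cast; rfl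
    have h := (((((S3_tendsto bA.pg (i := 1) (j := 1) (k := 2) le_rfl le_rfl (by norm_num)).add
      (S3_tendsto (bB qB).pg (i := 2) (j := 1) (k := 1) (by norm_num) le_rfl le_rfl)).add
      (S3_tendsto (bB qC).pg (i := 1) (j := 2) (k := 1) le_rfl (by norm_num) le_rfl)).add
      (S2_tendsto (bD qD).pg (i := 2) (j := 1) (by norm_num) le_rfl)).add
      (S2_tendsto (bD qE).pg (i := 4) (j := 1) (by norm_num) le_rfl)).div_const 37949472
    simpa using h

end Pool.Agent.P.MP_8d0004_nt.LR
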