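import Pool.Agent.P.MP_8d0004_nt.LR.DTab

/-! The finite checks. -/

namespace Pool.Agent.P.MP_8d0004_nt.LR.D

def tg (j : ℕ) (r : R6) : List Ob :=
  if j = 1 then [Ob.pp (fun s t => -113848416 * qp r * (qa s * qa t)) 2 2]
  else if j = 3 then [Ob.p2 (fun s => -28512 * qF r s) 3] else []

lemma certLow : chk (Ob.pp (fun s t => -37949472 * (qa s * qa t)) 2 2 :: allLow) = true := by
  decide +kernel

lemma cert1 : (res6.all fun r => chk (tg 1 r ++ theta allLT 1 r)) = true := by decide +kernel
lemma cert2 : (res6.all fun r => chk (tg 2 r ++ theta allLT 2 r)) = true := by decide +kernel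
lemma cert3 : (res6.all fun r => chk (tg 3 r ++ theta allLT 3 r)) = true := by decide +kernel
lemma cert4 : (res6.all fun r => chk (tg 4 r ++ theta allLT 4 r)) = true := by decide +kernel
lemma cert5 : (res6.all fun r => chk (tg 5 r ++ theta allLT 5 r)) = true := by decide +kernel

lemma allLT_mem : ∀ e ∈ allLT, e.1 ∈ Finset.Icc 1 5 := by
  have h : (allLT.all fun e => 1 ≤ e.1 && e.1 ≤ 5) = true := by decide +kernel
  simp only [List.all_eq_true, Bool.and_eq_true, decide_eq_true_eq] at h
  exact fun e he => Finset.mem_Icc.2 (h e he)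

end Pool.Agent.P.MP_8d0004_nt.LR.D
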