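import Pool.Agent.P.MP_8d0004_nt.LR.DOb

/-! A decidable criterion for the vanishing of a sum of formal objects. -/

namespace Pool.Agent.P.MP_8d0004_nt.LR.D

open Real Filter Topology

def res6 : List R6 := [0, 1, 2, 3, 4, 5]

lemma mem_res6 : ∀ r : R6, r ∈ res6 := by decide

def sg (n : ℕ) : ℚ := if n % 2 = 0 then 1 else -1

lemma sg_cast (n : ℕ) : (sg n : ℝ) = (-1) ^ n := by
  unfold sg
  split_ifs with h
  · rw [(Nat.even_iff.2 h).neg_one_pow]; simp
  · rw [(Nat.odd_iff.2 (by omega)).neg_one_pow]; simp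

def tot2 (F : List (ℕ × ℕ × (R6 → R6 → ℚ))) (r s : R6) : ℚ := (F.map fun e => e.2.2 r s).sum

def tot1 (F : List (ℕ × (R6 → ℚ))) (r : R6) : ℚ := (F.map fun e => e.2 r).sum

def sym2 (ω : R6 → R6 → ℚ) (i j : ℕ) : Bool := res6.all fun r => res6.all fun s =>
  ω r s + sg (i + 1) * ω (-r) s + sg j * (ω r (-s) + sg (i + 1) * ω (-r) (-s)) == 0

def sym1 (w : R6 → ℚ) (t : ℕ) : Bool := res6.all fun r => w r + sg t * w (-r) == 0

def symL (F : List (ℕ × ℕ × (R6 → R6 → ℚ))) (i j : ℕ) : Bool :=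
  match F with
  | [] => true
  | e :: F => sym2 (tot2 (e :: F)) i j

def chkLP (E : List (ℕ × ℕ × (R6 → R6 → ℚ))) : Bool :=
  (E.all fun e => 1 ≤ e.1 && e.1 ≤ 8 && 1 ≤ e.2.1 && e.2.1 ≤ 8) &&
  (List.range 9).all fun i => (List.range 9).all fun j =>
    symL (E.filter fun e => e.1 == i && e.2.1 == j) i j

def chkP (E : List (ℕ × (R6 → ℚ))) : Bool :=
  (E.all fun e => 1 ≤ e.1 && e.1 ≤ 8) &&
  (List.range 9).all fun t => sym1 (tot1 (E.filter fun e => e.1 == t)) t

lemma bdLP (ω : R6 → R6 → ℚ) : Bd2 fun a b => (ω a b : ℝ) / b := bd2q ω (fun _ b => b) fun _ _ => rfl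
lemma bdP (w : R6 → ℚ) : Bd1 fun a => (w a : ℝ) / a := bd1q w (fun a => a) fun _ => rfl

lemma LP_add (ω ω' : R6 → R6 → ℚ) {i j : ℕ} (hi : 1 ≤ i) (hj : 1 ≤ j) {y : ℝ} (hy : 0 < y) :
    LP (fun r s => ω r s + ω' r s) i j y = LP ω i j y + LP ω' i j y := by
  unfold LP
  rw [← S2_add (bdLP ω).pg (bdLP ω').pg hi hj hy]
  congr 1
  funext a b
  push_cast
  ring

lemma P1_add (w w' : R6 → ℚ) {t : ℕ} (ht : 1 ≤ t) {y : ℝ} (hy : 0 < y) :
    P1 (fun r => w r + w' r) t y = P1 w t y + P1 w' t y := by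
  unfold P1
  rw [← S1_add (bdP w).pg (bdP w').pg ht hy]
  congr 1
  funext a
  push_cast
  ring

lemma LP_zero {ω : R6 → R6 → ℚ} (h : ∀ r s, ω r s = 0) (i j : ℕ) (y : ℝ) : LP ω i j y = 0 := by
  simp [LP, S2, h]

lemma P1_zero {w : R6 → ℚ} (h : ∀ r, w r = 0) (t : ℕ) (y : ℝ) : P1 w t y = 0 := by
  simp [P1, S1, h]

lemma LP_neg1 (ω : R6 → R6 → ℚ) (i j : ℕ) (y : ℝ) :
    LP ω i j y = LP (fun r s => sg (i + 1) * ω (-r) s) i j y := by
  unfold LP
  rw [S2_neg1]
  congr 1
  funext a b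
  push_cast
  rw [sg_cast]
  ring

lemma LP_neg2 (ω : R6 → R6 → ℚ) (i j : ℕ) (y : ℝ) :
    LP ω i j y = LP (fun r s => sg j * ω r (-s)) i j y := by
  unfold LP
  rw [S2_neg2]
  congr 1
  funext a b
  push_cast
  rw [sg_cast]
  ring

lemma P1_neg (w : R6 → ℚ) (t : ℕ) (y : ℝ) : P1 w t y = P1 (fun r => sg t * w (-r)) t y := by
  unfold P1
  rw [S1_neg]
  congr 1
  funext a
  push_cast
  rw [sg_cast]
  ring

lemma LP_of_sym {ω : R6 → R6 → ℚ} {i j : ℕ} (h : sym2 ω i j = true) (hi : 1 ≤ i) (hj : 1 ≤ j)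
    {y : ℝ} (hy : 0 < y) : LP ω i j y = 0 := by
  have h1 := LP_add ω (fun r s => sg (i + 1) * ω (-r) s) hi hj hy
  rw [← LP_neg1] at h1
  have h2 := LP_add (fun r s => ω r s + sg (i + 1) * ω (-r) s)
    (fun r s => sg j * (ω r (-s) + sg (i + 1) * ω (-r) (-s))) hi hj hy
  rw [← LP_neg2 (fun r s => ω r s + sg (i + 1) * ω (-r) s), LP_zero] at h2
  · linarith
  · intro r s
    simp only [sym2, List.all_eq_true, beq_iff_eq] at h
    exact h r (mem_res6 r) s (mem_res6 s)

lemma LP_of_symL {F : List (ℕ × ℕ × (R6 → R6 → ℚ))} {i j : ℕ} (h : symL F i j = true) (hi : 1 ≤ i)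
    (hj : 1 ≤ j) {y : ℝ} (hy : 0 < y) : LP (tot2 F) i j y = 0 := by
  cases F with
  | nil => exact LP_zero (fun _ _ => rfl) _ _ _
  | cons e F => exact LP_of_sym h hi hj hy

lemma P1_of_sym {w : R6 → ℚ} {t : ℕ} (h : sym1 w t = true) (ht : 1 ≤ t) {y : ℝ} (hy : 0 < y) :
    P1 w t y = 0 := by
  have h1 := P1_add w (fun r => sg t * w (-r)) ht hy
  rw [← P1_neg, P1_zero] at h1
  · linarith
  · intro r
    simp only [sym1, List.all_eq_true, beq_iff_eq] at h
    exact h r (mem_res6 r)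

lemma evLP_eq (E : List (ℕ × ℕ × (R6 → R6 → ℚ)))
    (h : ∀ e ∈ E, e.1 ∈ Finset.Icc 1 8 ∧ e.2.1 ∈ Finset.Icc 1 8) {y : ℝ} (hy : 0 < y) :
    evLP E y = ∑ i ∈ Finset.Icc 1 8, ∑ j ∈ Finset.Icc 1 8,
      LP (tot2 (E.filter fun e => e.1 == i && e.2.1 == j)) i j y := by
  induction E with
  | nil =>
    simp only [evLP, List.map_nil, List.sum_nil, List.filter_nil]
    symm
    exact Finset.sum_eq_zero fun i _ => Finset.sum_eq_zero fun j _ => LP_zero (fun _ _ => rfl) _ _ _
  | cons e E ih =>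
    have h1 := h e (by simp)
    have ih := ih fun e he => h e (by simp [he])
    have e1 : LP e.2.2 e.1 e.2.1 y = ∑ i ∈ Finset.Icc 1 8, ∑ j ∈ Finset.Icc 1 8,
        if e.2.1 = j then (if e.1 = i then LP e.2.2 i j y else 0) else 0 := by
      simp only [Finset.sum_ite_eq, h1.1, h1.2, if_true]
    simp only [evLP, List.map_cons, List.sum_cons] at ih ⊢
    rw [ih, e1, ← Finset.sum_add_distrib]
    refine Finset.sum_congr rfl fun i hi => ?_
    rw [← Finset.sum_add_distrib]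
    refine Finset.sum_congr rfl fun j hj => ?_
    by_cases hij : e.1 = i ∧ e.2.1 = j
    · rw [List.filter_cons_of_pos (by simp [hij]), if_pos hij.2, if_pos hij.1,
        ← LP_add _ _ (Finset.mem_Icc.1 hi).1 (Finset.mem_Icc.1 hj).1 hy]
      rfl
    · rw [List.filter_cons_of_neg (by simpa using hij)]
      have : (if e.2.1 = j then (if e.1 = i then LP e.2.2 i j y else 0) else 0) = 0 := by
        split_ifs with h2 h3
        · exact absurd ⟨h3, h2⟩ hij
        · rfl
        · rfl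
      rw [this, zero_add]

lemma evP_eq (E : List (ℕ × (R6 → ℚ))) (h : ∀ e ∈ E, e.1 ∈ Finset.Icc 1 8) {y : ℝ} (hy : 0 < y) :
    evP E y = ∑ t ∈ Finset.Icc 1 8, P1 (tot1 (E.filter fun e => e.1 == t)) t y := by
  induction E with
  | nil =>
    simp only [evP, List.map_nil, List.sum_nil, List.filter_nil]
    symm
    exact Finset.sum_eq_zero fun i _ => P1_zero (fun _ => rfl) _ _
  | cons e E ih =>
    have h1 := h e (by simp)
    have ih := ih fun e he => h e (by simp [he])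
    have e1 : P1 e.2 e.1 y = ∑ t ∈ Finset.Icc 1 8, if e.1 = t then P1 e.2 t y else 0 := by
      simp only [Finset.sum_ite_eq, h1, if_true]
    simp only [evP, List.map_cons, List.sum_cons] at ih ⊢
    rw [ih, e1, ← Finset.sum_add_distrib]
    refine Finset.sum_congr rfl fun t ht => ?_
    by_cases hij : e.1 = t
    · rw [List.filter_cons_of_pos (by simp [hij]), if_pos hij,
        ← P1_add _ _ (Finset.mem_Icc.1 ht).1 hy]
      rfl
    · rw [List.filter_cons_of_neg (by simpa using hij), if_neg hij, zero_add]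

lemma evLP_zero {E : List (ℕ × ℕ × (R6 → R6 → ℚ))} (h : chkLP E = true) {y : ℝ} (hy : 0 < y) :
    evLP E y = 0 := by
  simp only [chkLP, Bool.and_eq_true, List.all_eq_true, decide_eq_true_eq, List.mem_range] at h
  rw [evLP_eq E (fun e he => by have := h.1 e he; simp only [Finset.mem_Icc]; omega) hy]
  refine Finset.sum_eq_zero fun i hi => Finset.sum_eq_zero fun j hj => ?_
  rw [Finset.mem_Icc] at hi hj
  exact LP_of_symL (h.2 i (by omega) j (by omega)) hi.1 hj.1 hy

lemma evP_zero {E : List (ℕ × (R6 → ℚ))} (h : chkP E = true) {y : ℝ} (hy : 0 < y) :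
    evP E y = 0 := by
  simp only [chkP, Bool.and_eq_true, List.all_eq_true, decide_eq_true_eq, List.mem_range] at h
  rw [evP_eq E (fun e he => by have := h.1 e he; simp only [Finset.mem_Icc]; omega) hy]
  refine Finset.sum_eq_zero fun t ht => ?_
  rw [Finset.mem_Icc] at ht
  exact P1_of_sym (h.2 t (by omega)) ht.1 hy

noncomputable def evObs (L : List Ob) (y : ℝ) : ℝ := (L.map fun o => o.ev y).sum

def chk (L : List Ob) : Bool := L.all Ob.ok && chkLP (L.flatMap Ob.dLP) && chkP (L.flatMap Ob.dP)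

lemma evObs_deriv (L : List Ob) (h : ∀ o ∈ L, o.ok = true) {y : ℝ} (hy : 0 < y) :
    HasDerivAt (evObs L) (-(2 * π) * (evLP (L.flatMap Ob.dLP) y + evP (L.flatMap Ob.dP) y)) y := by
  induction L with
  | nil => exact (hasDerivAt_const y (0 : ℝ)).congr_deriv (by simp [evLP, evP])
  | cons o L ih =>
    have h1 := (o.deriv (h o (by simp)) hy).fun_add (ih fun e he => h e (by simp [he]))
    refine h1.congr_deriv ?_
    simp only [evLP, evP, List.flatMap_cons, List.map_append, List.sum_append]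
    ring

lemma evObs_tendsto (L : List Ob) (h : ∀ o ∈ L, o.ok = true) : Tendsto (evObs L) atTop (𝓝 0) := by
  induction L with
  | nil => exact tendsto_const_nhds
  | cons o L ih =>
    have h1 := (o.tendsto (h o (by simp))).add (ih fun e he => h e (by simp [he]))
    rw [add_zero] at h1
    exact h1

lemma eq_zero_of_deriv {f : ℝ → ℝ} (h : ∀ y, 0 < y → HasDerivAt f 0 y) (h0 : Tendsto f atTop (𝓝 0))
    {y : ℝ} (hy : 0 < y) : f y = 0 := by
  have h1 : ∀ z, 0 < z → f z = f y := fun z hz =>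
    isOpen_Ioi.is_const_of_deriv_eq_zero isPreconnected_Ioi
      (fun x hx => (h x hx).differentiableAt.differentiableWithinAt)
      (fun x hx => (h x hx).deriv) hz hy
  have h2 : Tendsto f atTop (𝓝 (f y)) := tendsto_const_nhds.congr' (by
    filter_upwards [eventually_gt_atTop 0] with z hz using (h1 z hz).symm)
  exact tendsto_nhds_unique h2 h0

theorem evObs_zero {L : List Ob} (h : chk L = true) {y : ℝ} (hy : 0 < y) : evObs L y = 0 := by
  simp only [chk, Bool.and_eq_true, List.all_eq_true] at h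
  refine eq_zero_of_deriv (fun z hz => ?_) (evObs_tendsto L h.1.1) hy
  have := evObs_deriv L h.1.1 hz
  rwa [evLP_zero h.1.2 hz, evP_zero h.2 hz, add_zero, mul_zero] at this

end Pool.Agent.P.MP_8d0004_nt.LR.D
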