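import Pool.Agent.P.MP_8d0004_nt.LR.SB

/-! Fay type identities for the kernels. -/

namespace Pool.Agent.P.MP_8d0004_nt.LR.D

open Real

set_option linter.unusedSimpArgs false

def FS : ℕ → ℕ → List (ℚ × ℕ × ℕ × Bool)
  | 1, 1 => [(1, 1, 2, true), (1, 2, 1, true), (-1, 1, 2, false), (-1, 2, 1, false)]
  | 1, 2 => [(1, 1, 3, true), (2, 2, 2, true), (1, 3, 1, true), (-1, 1, 3, false), (-1, 2, 2, false)]
  | 1, 3 => [(1, 1, 4, true), (3, 2, 3, true), (3, 3, 2, true), (1, 4, 1, true), (-1, 1, 4, false), (-1, 2, 3, false)]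
  | 1, 5 => [(1, 1, 6, true), (5, 2, 5, true), (10, 3, 4, true), (10, 4, 3, true), (5, 5, 2, true), (1, 6, 1, true), (-1, 1, 6, false), (-1, 2, 5, false)]
  | 2, 1 => [(1, 1, 3, true), (1, 2, 2, true), (-1, 1, 3, false), (-2, 2, 2, false), (-1, 3, 1, false)]
  | 2, 2 => [(1, 1, 4, true), (2, 2, 3, true), (1, 3, 2, true), (-1, 1, 4, false), (-2, 2, 3, false), (-1, 3, 2, false)]
  | 2, 4 => [(1, 1, 6, true), (4, 2, 5, true), (6, 3, 4, true), (4, 4, 3, true), (1, 5, 2, true), (-1, 1, 6, false), (-2, 2, 5, false), (-1, 3, 4, false)]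
  | _, _ => []

def FD : ℕ → ℕ → List (ℚ × ℕ × ℕ)
  | 1, 1 => [(1 / 6, 2, 0), (-1 / 6, 4, 0), (-1 / 6, 2, 1), (1 / 6, 4, 1), (1 / 6, 2, 2), (-1 / 6, 4, 2)]
  | 1, 2 => [(1 / 6, 3, 0), (-1 / 6, 5, 0), (-1 / 12, 3, 1), (1 / 12, 5, 1), (-1 / 12, 3, 2), (1 / 12, 5, 2)]
  | 1, 3 => [(1 / 6, 4, 0), (-1 / 6, 6, 0), (1 / 30, 2, 1), (-1 / 12, 4, 1), (1 / 20, 6, 1), (-1 / 30, 2, 2), (1 / 12, 4, 2), (-1 / 20, 6, 2)]
  | 1, 5 => [(1 / 6, 6, 0), (-1 / 6, 8, 0), (-1 / 42, 2, 1), (1 / 12, 4, 1), (-1 / 12, 6, 1), (1 / 42, 8, 1), (1 / 42, 2, 2), (-1 / 12, 4, 2), (1 / 12, 6, 2), (-1 / 42, 8, 2)]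
  | 2, 1 => [(1 / 12, 3, 0), (-1 / 12, 5, 0), (-1 / 6, 3, 1), (1 / 6, 5, 1), (1 / 12, 3, 2), (-1 / 12, 5, 2)]
  | 2, 2 => [(1 / 12, 4, 0), (-1 / 12, 6, 0), (-1 / 12, 4, 1), (1 / 12, 6, 1), (-1 / 30, 2, 2), (1 / 30, 6, 2)]
  | 2, 4 => [(1 / 12, 6, 0), (-1 / 12, 8, 0), (1 / 20, 4, 1), (-1 / 12, 6, 1), (1 / 30, 8, 1), (1 / 42, 2, 2), (-1 / 30, 4, 2), (1 / 105, 8, 2)]
  | _, _ => []

def AD : ℕ → ℕ → List (ℚ × ℕ)
  | 1, 1 => [(-1 / 6, 1), (1 / 6, 3)]
  | 1, 2 => [(1 / 12, 2), (-1 / 12, 4)]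
  | 1, 3 => [(1 / 30, 1), (-1 / 12, 3), (1 / 20, 5)]
  | 1, 4 => [(-1 / 20, 2), (1 / 12, 4), (-1 / 30, 6)]
  | 1, 5 => [(-1 / 42, 1), (1 / 12, 3), (-1 / 12, 5), (1 / 42, 7)]
  | 1, 6 => [(5 / 84, 2), (-1 / 8, 4), (1 / 12, 6), (-1 / 56, 8)]
  | 2, 1 => [(-1 / 12, 2), (1 / 12, 4)]
  | 2, 2 => [(1 / 30, 1), (-1 / 30, 5)]
  | 2, 3 => [(-1 / 60, 2), (1 / 60, 6)]
  | 2, 4 => [(-1 / 42, 1), (1 / 30, 3), (-1 / 105, 7)]
  | 2, 5 => [(1 / 28, 2), (-1 / 24, 4), (1 / 168, 8)]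
  | _, _ => []

lemma kp_step (j : ℕ) {f : ℝ → ℝ} (h : ∀ c, (kp j).eval c = f c) {c d : ℝ} (hf : HasDerivAt f d c) :
    (kp (j + 1)).eval c = (c ^ 2 - 1 / 4) * d := by
  have e : (fun c => (kp j).eval c) = f := funext h
  have h1 := (kp j).hasDerivAt c
  rw [e] at h1
  simp only [kp, Polynomial.eval_mul, Polynomial.eval_sub, Polynomial.eval_pow, Polynomial.eval_X,
    Polynomial.eval_C]
  rw [h1.unique hf]

lemma hd (a : ℝ) (n : ℕ) (c : ℝ) : HasDerivAt (fun c : ℝ => a * c ^ n) (a * (n * c ^ (n - 1))) c :=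
  (hasDerivAt_pow n c).const_mul a

lemma kp0 (c : ℝ) : (kp 0).eval c = 1 * c ^ 1 := by simp [kp]

lemma kp1 (c : ℝ) : (kp 1).eval c = (-1 / 4) * c ^ 0 + (1) * c ^ 2 := by
  rw [kp_step 0 kp0 (hd (1) 1 c)]
  norm_num
  ring

lemma kp2 (c : ℝ) : (kp 2).eval c = (-1 / 2) * c ^ 1 + (2) * c ^ 3 := by
  rw [kp_step 1 kp1 ((hd (-1 / 4) 0 c).fun_add (hd (1) 2 c))]
  norm_num
  ring

lemma kp3 (c : ℝ) : (kp 3).eval c = (1 / 8) * c ^ 0 + (-2) * c ^ 2 + (6) * c ^ 4 := by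
  rw [kp_step 2 kp2 ((hd (-1 / 2) 1 c).fun_add (hd (2) 3 c))]
  norm_num
  ring

lemma kp4 (c : ℝ) : (kp 4).eval c = (1) * c ^ 1 + (-10) * c ^ 3 + (24) * c ^ 5 := by
  rw [kp_step 3 kp3 (((hd (1 / 8) 0 c).fun_add (hd (-2) 2 c)).fun_add (hd (6) 4 c))]
  norm_num
  ring

lemma kp5 (c : ℝ) : (kp 5).eval c = (-1 / 4) * c ^ 0 + (17 / 2) * c ^ 2 + (-60) * c ^ 4 + (120) * c ^ 6 := by
  rw [kp_step 4 kp4 (((hd (1) 1 c).fun_add (hd (-10) 3 c)).fun_add (hd (24) 5 c))]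
  norm_num
  ring

lemma kp6 (c : ℝ) : (kp 6).eval c = (-17 / 4) * c ^ 1 + (77) * c ^ 3 + (-420) * c ^ 5 + (720) * c ^ 7 := by
  rw [kp_step 5 kp5 ((((hd (-1 / 4) 0 c).fun_add (hd (17 / 2) 2 c)).fun_add (hd (-60) 4 c)).fun_add (hd (120) 6 c))]
  norm_num
  ring

lemma kp7 (c : ℝ) : (kp 7).eval c = (17 / 16) * c ^ 0 + (-62) * c ^ 2 + (756) * c ^ 4 + (-3360) * c ^ 6 + (5040) * c ^ 8 := by
  rw [kp_step 6 kp6 ((((hd (-17 / 4) 1 c).fun_add (hd (77) 3 c)).fun_add (hd (-420) 5 c)).fun_add (hd (720) 7 c))]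
  norm_num
  ring

lemma kp8 (c : ℝ) : (kp 8).eval c = (31) * c ^ 1 + (-880) * c ^ 3 + (8064) * c ^ 5 + (-30240) * c ^ 7 + (40320) * c ^ 9 := by
  rw [kp_step 7 kp7 (((((hd (17 / 16) 0 c).fun_add (hd (-62) 2 c)).fun_add (hd (756) 4 c)).fun_add (hd (-3360) 6 c)).fun_add (hd (5040) 8 c))]
  norm_num
  ring

lemma cth_add {u v : ℝ} (hu : u ≠ 0) (hv : v ≠ 0) (h : u + v ≠ 0) :
    cth u + cth v ≠ 0 ∧ cth (u + v) = (cth u * cth v + 1 / 4) / (cth u + cth v) := by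
  have h1 := one_sub_exp_ne hu
  have h2 := one_sub_exp_ne hv
  have h3 := one_sub_exp_ne h
  have e : exp (-(2 * π * (u + v))) = exp (-(2 * π * u)) * exp (-(2 * π * v)) := by
    rw [← exp_add]; congr 1; ring
  unfold cth
  rw [e] at h3 ⊢
  generalize exp (-(2 * π * u)) = a at *
  generalize exp (-(2 * π * v)) = b at *
  have h4 : (1 + a) / (2 * (1 - a)) + (1 + b) / (2 * (1 - b)) = (1 - a * b) / ((1 - a) * (1 - b)) := by
    field_simp
    ring
  rw [h4]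
  refine ⟨div_ne_zero h3 (mul_ne_zero h1 h2), ?_⟩
  field_simp
  ring

/-- the diagonal corrections -/
noncomputable def dg (k t : ℕ) (u v : ℝ) : ℝ :=
  if k = 0 then (if u = 0 then K t v else 0) else if k = 1 then (if v = 0 then K t u else 0)
  else (if u + v = 0 then K t u else 0)

def Fay (i j : ℕ) : Prop :=
  (∀ e ∈ FS i j, 1 ≤ e.2.1 ∧ 1 ≤ e.2.2.1) ∧ (∀ e ∈ FD i j, 1 ≤ e.2.1) ∧
  ∀ u v : ℝ, K i u * K (j + 1) v - K (i + 1) u * K j v
    = ((FS i j).map fun e => (e.1 : ℝ) * (K e.2.1 (if e.2.2.2 then v else u) * K e.2.2.1 (u + v))).sum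
      + ((FD i j).map fun e => (e.1 : ℝ) * dg e.2.2 e.2.1 u v).sum

def Anti (a b : ℕ) : Prop :=
  (∀ e ∈ AD a b, 1 ≤ e.2) ∧
  ∀ u : ℝ, K a u * K b (-u) = ((AD a b).map fun e => (e.1 : ℝ) * K e.2 u).sum

lemma anti11 : Anti 1 1 := by
  refine ⟨by decide, fun u => ?_⟩
  by_cases hu : u = 0
  · simp [AD, hu]
  simp only [AD, List.map, List.sum_cons, List.sum_nil, K_neg, K_of_ne hu, kp1, kp2, kp3, kp4, kp5, kp6, kp7, kp8]
  push_cast
  ring

lemma anti12 : Anti 1 2 := by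
  refine ⟨by decide, fun u => ?_⟩
  by_cases hu : u = 0
  · simp [AD, hu]
  simp only [AD, List.map, List.sum_cons, List.sum_nil, K_neg, K_of_ne hu, kp1, kp2, kp3, kp4, kp5, kp6, kp7, kp8]
  push_cast
  ring

lemma anti13 : Anti 1 3 := by
  refine ⟨by decide, fun u => ?_⟩
  by_cases hu : u = 0
  · simp [AD, hu]
  simp only [AD, List.map, List.sum_cons, List.sum_nil, K_neg, K_of_ne hu, kp1, kp2, kp3, kp4, kp5, kp6, kp7, kp8]
  push_cast
  ring

lemma anti14 : Anti 1 4 := by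
  refine ⟨by decide, fun u => ?_⟩
  by_cases hu : u = 0
  · simp [AD, hu]
  simp only [AD, List.map, List.sum_cons, List.sum_nil, K_neg, K_of_ne hu, kp1, kp2, kp3, kp4, kp5, kp6, kp7, kp8]
  push_cast
  ring

lemma anti15 : Anti 1 5 := by
  refine ⟨by decide, fun u => ?_⟩
  by_cases hu : u = 0
  · simp [AD, hu]
  simp only [AD, List.map, List.sum_cons, List.sum_nil, K_neg, K_of_ne hu, kp1, kp2, kp3, kp4, kp5, kp6, kp7, kp8]
  push_cast
  ring

lemma anti16 : Anti 1 6 := by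
  refine ⟨by decide, fun u => ?_⟩
  by_cases hu : u = 0
  · simp [AD, hu]
  simp only [AD, List.map, List.sum_cons, List.sum_nil, K_neg, K_of_ne hu, kp1, kp2, kp3, kp4, kp5, kp6, kp7, kp8]
  push_cast
  ring

lemma anti21 : Anti 2 1 := by
  refine ⟨by decide, fun u => ?_⟩
  by_cases hu : u = 0
  · simp [AD, hu]
  simp only [AD, List.map, List.sum_cons, List.sum_nil, K_neg, K_of_ne hu, kp1, kp2, kp3, kp4, kp5, kp6, kp7, kp8]
  push_cast
  ring

lemma anti22 : Anti 2 2 := by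
  refine ⟨by decide, fun u => ?_⟩
  by_cases hu : u = 0
  · simp [AD, hu]
  simp only [AD, List.map, List.sum_cons, List.sum_nil, K_neg, K_of_ne hu, kp1, kp2, kp3, kp4, kp5, kp6, kp7, kp8]
  push_cast
  ring

lemma anti23 : Anti 2 3 := by
  refine ⟨by decide, fun u => ?_⟩
  by_cases hu : u = 0
  · simp [AD, hu]
  simp only [AD, List.map, List.sum_cons, List.sum_nil, K_neg, K_of_ne hu, kp1, kp2, kp3, kp4, kp5, kp6, kp7, kp8]
  push_cast
  ring

lemma anti24 : Anti 2 4 := by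
  refine ⟨by decide, fun u => ?_⟩
  by_cases hu : u = 0
  · simp [AD, hu]
  simp only [AD, List.map, List.sum_cons, List.sum_nil, K_neg, K_of_ne hu, kp1, kp2, kp3, kp4, kp5, kp6, kp7, kp8]
  push_cast
  ring

lemma anti25 : Anti 2 5 := by
  refine ⟨by decide, fun u => ?_⟩
  by_cases hu : u = 0
  · simp [AD, hu]
  simp only [AD, List.map, List.sum_cons, List.sum_nil, K_neg, K_of_ne hu, kp1, kp2, kp3, kp4, kp5, kp6, kp7, kp8]
  push_cast
  ring

lemma fay11 : Fay 1 1 := by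
  refine ⟨by decide, by decide, fun u v => ?_⟩
  simp only [FS, FD, List.map, List.sum_cons, List.sum_nil, dg, if_true, Bool.false_eq_true,
    if_false, one_ne_zero, OfNat.ofNat_ne_zero, OfNat.ofNat_ne_one]
  push_cast
  by_cases hu : u = 0
  · by_cases hv : v = 0
    · simp [hu, hv]
    · simp only [hu, hv, K_zero, zero_add, if_true, if_false, K_of_ne hv, kp1, kp2, kp3, kp4, kp5, kp6, kp7, kp8]
      ring
  by_cases hv : v = 0
  · simp only [hu, hv, K_zero, add_zero, if_true, if_false, K_of_ne hu, kp1, kp2, kp3, kp4, kp5, kp6, kp7, kp8]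
    ring
  by_cases h : u + v = 0
  · obtain rfl : v = -u := by linarith
    simp only [hu, hv, h, K_zero, if_true, if_false, K_neg, K_of_ne hu, kp1, kp2, kp3, kp4, kp5, kp6, kp7, kp8]
    ring
  obtain ⟨h1, h2⟩ := cth_add hu hv h
  simp only [hu, hv, h, if_false, K_of_ne hu, K_of_ne hv, K_of_ne h, h2, kp1, kp2, kp3, kp4, kp5, kp6, kp7, kp8]
  field_simp
  ring

lemma fay12 : Fay 1 2 := by
  refine ⟨by decide, by decide, fun u v => ?_⟩
  simp only [FS, FD, List.map, List.sum_cons, List.sum_nil, dg, if_true, Bool.false_eq_true,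
    if_false, one_ne_zero, OfNat.ofNat_ne_zero, OfNat.ofNat_ne_one]
  push_cast
  by_cases hu : u = 0
  · by_cases hv : v = 0
    · simp [hu, hv]
    · simp only [hu, hv, K_zero, zero_add, if_true, if_false, K_of_ne hv, kp1, kp2, kp3, kp4, kp5, kp6, kp7, kp8]
      ring
  by_cases hv : v = 0
  · simp only [hu, hv, K_zero, add_zero, if_true, if_false, K_of_ne hu, kp1, kp2, kp3, kp4, kp5, kp6, kp7, kp8]
    ring
  by_cases h : u + v = 0
  · obtain rfl : v = -u := by linarith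
    simp only [hu, hv, h, K_zero, if_true, if_false, K_neg, K_of_ne hu, kp1, kp2, kp3, kp4, kp5, kp6, kp7, kp8]
    ring
  obtain ⟨h1, h2⟩ := cth_add hu hv h
  simp only [hu, hv, h, if_false, K_of_ne hu, K_of_ne hv, K_of_ne h, h2, kp1, kp2, kp3, kp4, kp5, kp6, kp7, kp8]
  field_simp
  ring

lemma fay13 : Fay 1 3 := by
  refine ⟨by decide, by decide, fun u v => ?_⟩
  simp only [FS, FD, List.map, List.sum_cons, List.sum_nil, dg, if_true, Bool.false_eq_true,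
    if_false, one_ne_zero, OfNat.ofNat_ne_zero, OfNat.ofNat_ne_one]
  push_cast
  by_cases hu : u = 0
  · by_cases hv : v = 0
    · simp [hu, hv]
    · simp only [hu, hv, K_zero, zero_add, if_true, if_false, K_of_ne hv, kp1, kp2, kp3, kp4, kp5, kp6, kp7, kp8]
      ring
  by_cases hv : v = 0
  · simp only [hu, hv, K_zero, add_zero, if_true, if_false, K_of_ne hu, kp1, kp2, kp3, kp4, kp5, kp6, kp7, kp8]
    ring
  by_cases h : u + v = 0
  · obtain rfl : v = -u := by linarith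
    simp only [hu, hv, h, K_zero, if_true, if_false, K_neg, K_of_ne hu, kp1, kp2, kp3, kp4, kp5, kp6, kp7, kp8]
    ring
  obtain ⟨h1, h2⟩ := cth_add hu hv h
  simp only [hu, hv, h, if_false, K_of_ne hu, K_of_ne hv, K_of_ne h, h2, kp1, kp2, kp3, kp4, kp5, kp6, kp7, kp8]
  field_simp
  ring

lemma fay15 : Fay 1 5 := by
  refine ⟨by decide, by decide, fun u v => ?_⟩
  simp only [FS, FD, List.map, List.sum_cons, List.sum_nil, dg, if_true, Bool.false_eq_true,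
    if_false, one_ne_zero, OfNat.ofNat_ne_zero, OfNat.ofNat_ne_one]
  push_cast
  by_cases hu : u = 0
  · by_cases hv : v = 0
    · simp [hu, hv]
    · simp only [hu, hv, K_zero, zero_add, if_true, if_false, K_of_ne hv, kp1, kp2, kp3, kp4, kp5, kp6, kp7, kp8]
      ring
  by_cases hv : v = 0
  · simp only [hu, hv, K_zero, add_zero, if_true, if_false, K_of_ne hu, kp1, kp2, kp3, kp4, kp5, kp6, kp7, kp8]
    ring
  by_cases h : u + v = 0
  · obtain rfl : v = -u := by linarith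
    simp only [hu, hv, h, K_zero, if_true, if_false, K_neg, K_of_ne hu, kp1, kp2, kp3, kp4, kp5, kp6, kp7, kp8]
    ring
  obtain ⟨h1, h2⟩ := cth_add hu hv h
  simp only [hu, hv, h, if_false, K_of_ne hu, K_of_ne hv, K_of_ne h, h2, kp1, kp2, kp3, kp4, kp5, kp6, kp7, kp8]
  field_simp
  ring

lemma fay21 : Fay 2 1 := by
  refine ⟨by decide, by decide, fun u v => ?_⟩
  simp only [FS, FD, List.map, List.sum_cons, List.sum_nil, dg, if_true, Bool.false_eq_true,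
    if_false, one_ne_zero, OfNat.ofNat_ne_zero, OfNat.ofNat_ne_one]
  push_cast
  by_cases hu : u = 0
  · by_cases hv : v = 0
    · simp [hu, hv]
    · simp only [hu, hv, K_zero, zero_add, if_true, if_false, K_of_ne hv, kp1, kp2, kp3, kp4, kp5, kp6, kp7, kp8]
      ring
  by_cases hv : v = 0
  · simp only [hu, hv, K_zero, add_zero, if_true, if_false, K_of_ne hu, kp1, kp2, kp3, kp4, kp5, kp6, kp7, kp8]
    ring
  by_cases h : u + v = 0
  · obtain rfl : v = -u := by linarith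
    simp only [hu, hv, h, K_zero, if_true, if_false, K_neg, K_of_ne hu, kp1, kp2, kp3, kp4, kp5, kp6, kp7, kp8]
    ring
  obtain ⟨h1, h2⟩ := cth_add hu hv h
  simp only [hu, hv, h, if_false, K_of_ne hu, K_of_ne hv, K_of_ne h, h2, kp1, kp2, kp3, kp4, kp5, kp6, kp7, kp8]
  field_simp
  ring

lemma fay22 : Fay 2 2 := by
  refine ⟨by decide, by decide, fun u v => ?_⟩
  simp only [FS, FD, List.map, List.sum_cons, List.sum_nil, dg, if_true, Bool.false_eq_true,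
    if_false, one_ne_zero, OfNat.ofNat_ne_zero, OfNat.ofNat_ne_one]
  push_cast
  by_cases hu : u = 0
  · by_cases hv : v = 0
    · simp [hu, hv]
    · simp only [hu, hv, K_zero, zero_add, if_true, if_false, K_of_ne hv, kp1, kp2, kp3, kp4, kp5, kp6, kp7, kp8]
      ring
  by_cases hv : v = 0
  · simp only [hu, hv, K_zero, add_zero, if_true, if_false, K_of_ne hu, kp1, kp2, kp3, kp4, kp5, kp6, kp7, kp8]
    ring
  by_cases h : u + v = 0
  · obtain rfl : v = -u := by linarith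
    simp only [hu, hv, h, K_zero, if_true, if_false, K_neg, K_of_ne hu, kp1, kp2, kp3, kp4, kp5, kp6, kp7, kp8]
    ring
  obtain ⟨h1, h2⟩ := cth_add hu hv h
  simp only [hu, hv, h, if_false, K_of_ne hu, K_of_ne hv, K_of_ne h, h2, kp1, kp2, kp3, kp4, kp5, kp6, kp7, kp8]
  field_simp
  ring

lemma fay24 : Fay 2 4 := by
  refine ⟨by decide, by decide, fun u v => ?_⟩
  simp only [FS, FD, List.map, List.sum_cons, List.sum_nil, dg, if_true, Bool.false_eq_true,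
    if_false, one_ne_zero, OfNat.ofNat_ne_zero, OfNat.ofNat_ne_one]
  push_cast
  by_cases hu : u = 0
  · by_cases hv : v = 0
    · simp [hu, hv]
    · simp only [hu, hv, K_zero, zero_add, if_true, if_false, K_of_ne hv, kp1, kp2, kp3, kp4, kp5, kp6, kp7, kp8]
      ring
  by_cases hv : v = 0
  · simp only [hu, hv, K_zero, add_zero, if_true, if_false, K_of_ne hu, kp1, kp2, kp3, kp4, kp5, kp6, kp7, kp8]
    ring
  by_cases h : u + v = 0
  · obtain rfl : v = -u := by linarith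
    simp only [hu, hv, h, K_zero, if_true, if_false, K_neg, K_of_ne hu, kp1, kp2, kp3, kp4, kp5, kp6, kp7, kp8]
    ring
  obtain ⟨h1, h2⟩ := cth_add hu hv h
  simp only [hu, hv, h, if_false, K_of_ne hu, K_of_ne hv, K_of_ne h, h2, kp1, kp2, kp3, kp4, kp5, kp6, kp7, kp8]
  field_simp
  ring

end Pool.Agent.P.MP_8d0004_nt.LR.D
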