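import Pool.Agent.P.MP_8d0004_nt.LR.DFay

/-! Rearrangements of the weighted sums. -/

namespace Pool.Agent.P.MP_8d0004_nt.LR.D

open Real Filter Topology

def Bd1 (W : ℤ → ℝ) : Prop := ∃ C, ∀ a, |W a| ≤ C
def Bd2 (W : ℤ → ℤ → ℝ) : Prop := ∃ C, ∀ a b, |W a b| ≤ C
def Bd3 (W : ℤ → ℤ → ℤ → ℝ) : Prop := ∃ C, ∀ a b c, |W a b c| ≤ C

lemma Bd1.pg {W : ℤ → ℝ} (h : Bd1 W) : PG1 W := let ⟨C, h⟩ := h; PG1_of_bdd C h
lemma Bd2.pg {W : ℤ → ℤ → ℝ} (h : Bd2 W) : PG2 W := let ⟨C, h⟩ := h; PG2_of_bdd C h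
lemma Bd3.pg {W : ℤ → ℤ → ℤ → ℝ} (h : Bd3 W) : PG3 W := let ⟨C, h⟩ := h; PG3_of_bdd C h

lemma hs_congr {ι : Type*} {f g : ι → ℝ} {a : ℝ} (h : HasSum f a) (e : ∀ p, f p = g p) :
    HasSum g a := (funext e : f = g) ▸ h

lemma hasSum_list {ι α : Type*} (L : List α) (f : α → ι → ℝ) (a : α → ℝ)
    (h : ∀ e ∈ L, HasSum (f e) (a e)) :
    HasSum (fun p => (L.map fun e => f e p).sum) (L.map a).sum := by
  induction L with
  | nil => simp
  | cons e L ih =>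
    simp only [List.map_cons, List.sum_cons]
    exact (h e (by simp)).add (ih fun e he => h e (by simp [he]))

lemma summable_absK {j : ℕ} (hj : 1 ≤ j) {y : ℝ} (hy : 0 < y) :
    Summable fun m : ℤ => |K j (m * y)| := by
  have := (summable_S1 (W := fun _ => 1) (PG1_of_bdd 1 (by simp)) hj hy).abs
  simpa using this

section spectator

variable {σ : Type}

noncomputable def SG (V : σ → ℤ → ℤ → ℝ) (φ : σ → ℝ) (i j : ℕ) (y : ℝ) : ℝ :=
  ∑' p : σ × ℤ × ℤ, V p.1 p.2.1 p.2.2 * (φ p.1 * (K i (p.2.1 * y) * K j (p.2.2 * y)))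

noncomputable def SG1 (U : σ → ℤ → ℝ) (φ : σ → ℝ) (t : ℕ) (y : ℝ) : ℝ :=
  ∑' p : σ × ℤ, U p.1 p.2 * (φ p.1 * K t (p.2 * y))

lemma hasSum_SG {V : σ → ℤ → ℤ → ℝ} {C : ℝ} (hV : ∀ s a b, |V s a b| ≤ C) {φ : σ → ℝ}
    (hφ : Summable fun s => |φ s|) {i j : ℕ} (hi : 1 ≤ i) (hj : 1 ≤ j) {y : ℝ} (hy : 0 < y) :
    HasSum (fun p : σ × ℤ × ℤ => V p.1 p.2.1 p.2.2 * (φ p.1 * (K i (p.2.1 * y) * K j (p.2.2 * y))))
      (SG V φ i j y) := by
  apply Summable.hasSum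
  have h1 := (summable_absK hi hy).mul_of_nonneg (summable_absK hj hy) (fun _ => abs_nonneg _)
    (fun _ => abs_nonneg _)
  have h2 := (hφ.mul_of_nonneg h1 (fun _ => abs_nonneg _)
    (fun _ => mul_nonneg (abs_nonneg _) (abs_nonneg _))).mul_left C
  refine Summable.of_norm_bounded h2 fun p => ?_
  rw [Real.norm_eq_abs, abs_mul, abs_mul, abs_mul]
  exact mul_le_mul_of_nonneg_right (hV _ _ _) (by positivity)

lemma hasSum_SG1 {U : σ → ℤ → ℝ} {C : ℝ} (hU : ∀ s a, |U s a| ≤ C) {φ : σ → ℝ}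
    (hφ : Summable fun s => |φ s|) {t : ℕ} (ht : 1 ≤ t) {y : ℝ} (hy : 0 < y) :
    HasSum (fun p : σ × ℤ => U p.1 p.2 * (φ p.1 * K t (p.2 * y))) (SG1 U φ t y) := by
  apply Summable.hasSum
  have h2 := (hφ.mul_of_nonneg (summable_absK ht hy) (fun _ => abs_nonneg _)
    (fun _ => abs_nonneg _)).mul_left C
  refine Summable.of_norm_bounded h2 fun p => ?_
  rw [Real.norm_eq_abs, abs_mul, abs_mul]
  exact mul_le_mul_of_nonneg_right (hU _ _) (by positivity)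

def shW (b : Bool) (V : σ → ℤ → ℤ → ℝ) (s : σ) (r k : ℤ) : ℝ :=
  if b then V s (k - r) r else V s r (k - r)

def dgW (k : ℕ) (V : σ → ℤ → ℤ → ℝ) (s : σ) (r : ℤ) : ℝ :=
  if k = 0 then V s 0 r else if k = 1 then V s r 0 else V s r (-r)

def shE (b : Bool) : σ × ℤ × ℤ ≃ σ × ℤ × ℤ where
  toFun p := if b then (p.1, p.2.2 - p.2.1, p.2.1) else (p.1, p.2.1, p.2.2 - p.2.1)
  invFun p := if b then (p.1, p.2.2, p.2.1 + p.2.2) else (p.1, p.2.1, p.2.1 + p.2.2)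
  left_inv p := by cases b <;> simp
  right_inv p := by cases b <;> simp

lemma hasSum_shear {V : σ → ℤ → ℤ → ℝ} {C : ℝ} (hV : ∀ s a b, |V s a b| ≤ C) {φ : σ → ℝ}
    (hφ : Summable fun s => |φ s|) {i j : ℕ} (hi : 1 ≤ i) (hj : 1 ≤ j) {y : ℝ} (hy : 0 < y)
    (b : Bool) :
    HasSum (fun p : σ × ℤ × ℤ => V p.1 p.2.1 p.2.2 * (φ p.1 *
      (K i (if b then p.2.2 * y else p.2.1 * y) * K j (p.2.1 * y + p.2.2 * y))))
      (SG (shW b V) φ i j y) := by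
  have h := hasSum_SG (V := shW b V) (C := C) (fun s r k => by
    unfold shW; split_ifs <;> apply hV) hφ hi hj hy
  rw [← (shE b).hasSum_iff]
  refine hs_congr h fun p => ?_
  cases b
  · simp only [shW, shE, Equiv.coe_fn_mk, Function.comp_apply, Bool.false_eq_true, if_false]
    push_cast
    rw [show (p.2.1 : ℝ) * y + (p.2.2 - p.2.1) * y = p.2.2 * y by ring]
  · simp only [shW, shE, Equiv.coe_fn_mk, Function.comp_apply, if_true]
    push_cast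
    rw [show ((p.2.2 : ℝ) - p.2.1) * y + p.2.1 * y = p.2.2 * y by ring]

def dgE (k : ℕ) (p : σ × ℤ) : σ × ℤ × ℤ :=
  if k = 0 then (p.1, 0, p.2) else if k = 1 then (p.1, p.2, 0) else (p.1, p.2, -p.2)

lemma dgE_inj (k : ℕ) : Function.Injective (dgE (σ := σ) k) := by
  intro p q h
  unfold dgE at h
  split_ifs at h <;> simp only [Prod.mk.injEq] at h <;> ext <;> tauto

lemma hasSum_diag {V : σ → ℤ → ℤ → ℝ} {C : ℝ} (hV : ∀ s a b, |V s a b| ≤ C) {φ : σ → ℝ}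
    (hφ : Summable fun s => |φ s|) {t : ℕ} (ht : 1 ≤ t) {y : ℝ} (hy : 0 < y) (k : ℕ) :
    HasSum (fun p : σ × ℤ × ℤ => V p.1 p.2.1 p.2.2 * (φ p.1 * dg k t (p.2.1 * y) (p.2.2 * y)))
      (SG1 (dgW k V) φ t y) := by
  have h := hasSum_SG1 (U := dgW k V) (C := C) (fun s r => by
    unfold dgW; split_ifs <;> apply hV) hφ ht hy
  rw [← (dgE_inj k).hasSum_iff]
  · refine hs_congr h fun p => ?_
    simp only [dgW, dgE, dg, Function.comp_apply]
    split_ifs <;> simp_all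
  · rintro ⟨s, a, b⟩ hp
    simp only [Set.mem_range, not_exists, dgE] at hp
    unfold dg
    split_ifs with h0 h1 h2 h3 h4
    · have : a = 0 := by simpa [hy.ne'] using h1
      exact absurd (by simp [h0, this]) (hp (s, b))
    · simp
    · have : b = 0 := by simpa [hy.ne'] using h3
      exact absurd (by simp [h2, this]) (hp (s, a))
    · simp
    · have h5 : ((a + b : ℤ) : ℝ) * y = 0 := by push_cast; linarith
      have h6 : a + b = 0 := by exact_mod_cast (mul_eq_zero.1 h5).resolve_right hy.ne'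
      have : b = -a := by omega
      exact absurd (by simp [h0, h2, this]) (hp (s, a))
    · simp

theorem fayG {i j : ℕ} (hF : Fay i j) (hi : 1 ≤ i) (hj : 1 ≤ j) {V : σ → ℤ → ℤ → ℝ} {C : ℝ}
    (hV : ∀ s a b, |V s a b| ≤ C) {φ : σ → ℝ} (hφ : Summable fun s => |φ s|) {y : ℝ} (hy : 0 < y) :
    SG V φ i (j + 1) y - SG V φ (i + 1) j y
      = ((FS i j).map fun e => (e.1 : ℝ) * SG (shW e.2.2.2 V) φ e.2.1 e.2.2.1 y).sum
        + ((FD i j).map fun e => (e.1 : ℝ) * SG1 (dgW e.2.2 V) φ e.2.1 y).sum := by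
  obtain ⟨h1, h2, h3⟩ := hF
  have a1 := (hasSum_SG hV hφ hi (j := j + 1) (by omega) hy).sub
    (hasSum_SG hV hφ (i := i + 1) (by omega) hj hy)
  have a2 := hasSum_list (FS i j) _ _ fun e he =>
    (hasSum_shear hV hφ (h1 e he).1 (h1 e he).2 hy e.2.2.2).mul_left (e.1 : ℝ)
  have a3 := hasSum_list (FD i j) _ _ fun e he =>
    (hasSum_diag hV hφ (h2 e he) hy e.2.2).mul_left (e.1 : ℝ)
  refine a1.unique (hs_congr (a2.add a3) fun p => ?_)
  have h4 := h3 (p.2.1 * y) (p.2.2 * y)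
  have h5 : ∀ (L : List (ℚ × ℕ × ℕ × Bool)) (f : ℚ × ℕ × ℕ × Bool → ℝ) (a b : ℝ),
      (L.map fun e => (e.1 : ℝ) * (a * (b * f e))).sum = a * (b * (L.map fun e => (e.1 : ℝ) * f e).sum) := by
    intro L f a b
    rw [← List.sum_map_mul_left, ← List.sum_map_mul_left]
    congr 2; funext e; ring
  have h6 : ∀ (L : List (ℚ × ℕ × ℕ)) (f : ℚ × ℕ × ℕ → ℝ) (a b : ℝ),
      (L.map fun e => (e.1 : ℝ) * (a * (b * f e))).sum = a * (b * (L.map fun e => (e.1 : ℝ) * f e).sum) := by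
    intro L f a b
    rw [← List.sum_map_mul_left, ← List.sum_map_mul_left]
    congr 2; funext e; ring
  rw [h5, h6, ← mul_add, ← mul_add, ← h4]
  ring

end spectator

lemma S3_eq_SG (W : ℤ → ℤ → ℤ → ℝ) (k i j : ℕ) (y : ℝ) :
    S3 W k i j y = SG W (fun c : ℤ => K k (c * y)) i j y := rfl

lemma S2_eq_SG1 (W : ℤ → ℤ → ℝ) (k t : ℕ) (y : ℝ) :
    S2 W k t y = SG1 W (fun c : ℤ => K k (c * y)) t y := rfl

lemma S2_eq_SG (W : ℤ → ℤ → ℝ) (i j : ℕ) (y : ℝ) :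
    SG (fun _ : Unit => W) (fun _ => 1) i j y = S2 W i j y := by
  unfold SG S2
  rw [← (Equiv.punitProd (ℤ × ℤ)).symm.tsum_eq]
  simp

lemma S1_eq_SG1 (W : ℤ → ℝ) (t : ℕ) (y : ℝ) :
    SG1 (fun _ : Unit => W) (fun _ => 1) t y = S1 W t y := by
  unfold SG1 S1
  rw [← (Equiv.punitProd ℤ).symm.tsum_eq]
  simp

def sh2 (b : Bool) (V : ℤ → ℤ → ℝ) (r k : ℤ) : ℝ := if b then V (k - r) r else V r (k - r)

def dg2 (k : ℕ) (V : ℤ → ℤ → ℝ) (r : ℤ) : ℝ :=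
  if k = 0 then V 0 r else if k = 1 then V r 0 else V r (-r)

theorem fay2 {i j : ℕ} (hF : Fay i j) (hi : 1 ≤ i) (hj : 1 ≤ j) {V : ℤ → ℤ → ℝ} (hV : Bd2 V)
    {y : ℝ} (hy : 0 < y) :
    S2 V i (j + 1) y - S2 V (i + 1) j y
      = ((FS i j).map fun e => (e.1 : ℝ) * S2 (sh2 e.2.2.2 V) e.2.1 e.2.2.1 y).sum
        + ((FD i j).map fun e => (e.1 : ℝ) * S1 (dg2 e.2.2 V) e.2.1 y).sum := by
  obtain ⟨C, hV⟩ := hV
  have := fayG (σ := Unit) hF hi hj (V := fun _ => V) (fun _ => hV) (φ := fun _ => 1)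
    (Summable.of_finite) hy
  simp only [← S2_eq_SG, ← S1_eq_SG1]
  exact this

theorem fay3 {i j k : ℕ} (hF : Fay i j) (hi : 1 ≤ i) (hj : 1 ≤ j) (hk : 1 ≤ k)
    {V : ℤ → ℤ → ℤ → ℝ} (hV : Bd3 V) {y : ℝ} (hy : 0 < y) :
    S3 V k i (j + 1) y - S3 V k (i + 1) j y
      = ((FS i j).map fun e => (e.1 : ℝ) * S3 (fun s => sh2 e.2.2.2 (V s)) k e.2.1 e.2.2.1 y).sum
        + ((FD i j).map fun e => (e.1 : ℝ) * S2 (fun s => dg2 e.2.2 (V s)) k e.2.1 y).sum := by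
  obtain ⟨C, hV⟩ := hV
  exact fayG (σ := ℤ) hF hi hj hV (summable_absK hk hy) hy

/-! congruence, linearity, symmetries -/

lemma S2_congr {W W' : ℤ → ℤ → ℝ} (h : ∀ a b, a ≠ 0 → b ≠ 0 → W a b = W' a b) (i j : ℕ) (y : ℝ) :
    S2 W i j y = S2 W' i j y := by
  refine tsum_congr fun p => ?_
  by_cases h1 : p.1 = 0
  · simp [h1]
  by_cases h2 : p.2 = 0
  · simp [h2]
  rw [h _ _ h1 h2]

lemma S3_congr {W W' : ℤ → ℤ → ℤ → ℝ} (h : ∀ a b c, a ≠ 0 → b ≠ 0 → c ≠ 0 → W a b c = W' a b c)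
    (i j k : ℕ) (y : ℝ) : S3 W i j k y = S3 W' i j k y := by
  refine tsum_congr fun p => ?_
  by_cases h1 : p.1 = 0
  · simp [h1]
  by_cases h2 : p.2.1 = 0
  · simp [h2]
  by_cases h3 : p.2.2 = 0
  · simp [h3]
  rw [h _ _ _ h1 h2 h3]

lemma S1_add {W W' : ℤ → ℝ} (h : PG1 W) (h' : PG1 W') {j : ℕ} (hj : 1 ≤ j) {y : ℝ} (hy : 0 < y) :
    S1 (fun a => W a + W' a) j y = S1 W j y + S1 W' j y := by
  unfold S1
  rw [← (summable_S1 h hj hy).tsum_add (summable_S1 h' hj hy)]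
  exact tsum_congr fun _ => by ring

lemma S2_add {W W' : ℤ → ℤ → ℝ} (h : PG2 W) (h' : PG2 W') {i j : ℕ} (hi : 1 ≤ i) (hj : 1 ≤ j)
    {y : ℝ} (hy : 0 < y) : S2 (fun a b => W a b + W' a b) i j y = S2 W i j y + S2 W' i j y := by
  unfold S2
  rw [← (summable_S2 h hi hj hy).tsum_add (summable_S2 h' hi hj hy)]
  exact tsum_congr fun _ => by ring

lemma S3_add {W W' : ℤ → ℤ → ℤ → ℝ} (h : PG3 W) (h' : PG3 W') {i j k : ℕ} (hi : 1 ≤ i) (hj : 1 ≤ j)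
    (hk : 1 ≤ k) {y : ℝ} (hy : 0 < y) :
    S3 (fun a b c => W a b c + W' a b c) i j k y = S3 W i j k y + S3 W' i j k y := by
  unfold S3
  rw [← (summable_S3 h hi hj hk hy).tsum_add (summable_S3 h' hi hj hk hy)]
  exact tsum_congr fun _ => by ring

lemma S1_smul (c : ℝ) (W : ℤ → ℝ) (j : ℕ) (y : ℝ) : S1 (fun a => c * W a) j y = c * S1 W j y := by
  unfold S1
  rw [← tsum_mul_left]
  exact tsum_congr fun _ => by ring

lemma S2_smul (c : ℝ) (W : ℤ → ℤ → ℝ) (i j : ℕ) (y : ℝ) :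
    S2 (fun a b => c * W a b) i j y = c * S2 W i j y := by
  unfold S2
  rw [← tsum_mul_left]
  exact tsum_congr fun _ => by ring

lemma S3_smul (c : ℝ) (W : ℤ → ℤ → ℤ → ℝ) (i j k : ℕ) (y : ℝ) :
    S3 (fun a b d => c * W a b d) i j k y = c * S3 W i j k y := by
  unfold S3
  rw [← tsum_mul_left]
  exact tsum_congr fun _ => by ring

lemma S2_swap (W : ℤ → ℤ → ℝ) (i j : ℕ) (y : ℝ) : S2 W i j y = S2 (fun a b => W b a) j i y := by
  unfold S2
  rw [← (Equiv.prodComm ℤ ℤ).tsum_eq]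
  exact tsum_congr fun _ => by simp [mul_comm]

lemma S3_swap23 (W : ℤ → ℤ → ℤ → ℝ) (i j k : ℕ) (y : ℝ) :
    S3 W i j k y = S3 (fun a b c => W a c b) i k j y := by
  unfold S3
  rw [← ((Equiv.refl ℤ).prodCongr (Equiv.prodComm ℤ ℤ)).tsum_eq]
  exact tsum_congr fun _ => by simp [mul_comm]

def swE : ℤ × ℤ × ℤ ≃ ℤ × ℤ × ℤ where
  toFun p := (p.2.1, p.1, p.2.2)
  invFun p := (p.2.1, p.1, p.2.2)
  left_inv _ := rfl
  right_inv _ := rfl

lemma S3_swap12 (W : ℤ → ℤ → ℤ → ℝ) (i j k : ℕ) (y : ℝ) :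
    S3 W i j k y = S3 (fun a b c => W b a c) j i k y := by
  unfold S3
  rw [← swE.tsum_eq]
  exact tsum_congr fun _ => by simp only [swE, Equiv.coe_fn_mk]; ring

lemma S1_neg (W : ℤ → ℝ) (j : ℕ) (y : ℝ) :
    S1 W j y = S1 (fun a => (-1) ^ (j + 1) * W (-a)) j y := by
  unfold S1
  rw [← (Equiv.neg ℤ).tsum_eq]
  refine tsum_congr fun a => ?_
  simp only [Equiv.neg_apply, Int.cast_neg, neg_mul, K_neg]
  ring

lemma S2_neg1 (W : ℤ → ℤ → ℝ) (i j : ℕ) (y : ℝ) :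
    S2 W i j y = S2 (fun a b => (-1) ^ (i + 1) * W (-a) b) i j y := by
  unfold S2
  rw [← ((Equiv.neg ℤ).prodCongr (Equiv.refl ℤ)).tsum_eq]
  refine tsum_congr fun a => ?_
  simp only [Equiv.prodCongr_apply, Equiv.coe_refl, Prod.map_fst, Prod.map_snd, Equiv.neg_apply,
    id, Int.cast_neg, neg_mul, K_neg]
  ring

lemma S2_neg2 (W : ℤ → ℤ → ℝ) (i j : ℕ) (y : ℝ) :
    S2 W i j y = S2 (fun a b => (-1) ^ (j + 1) * W a (-b)) i j y := by
  rw [S2_swap, S2_neg1, S2_swap]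

lemma S2_fubini {W : ℤ → ℤ → ℝ} (h : PG2 W) {i j : ℕ} (hi : 1 ≤ i) (hj : 1 ≤ j) {y : ℝ}
    (hy : 0 < y) : S2 W i j y = S1 (fun a => S1 (W a) j y) i y := by
  unfold S2 S1
  rw [(summable_S2 h hi hj hy).tsum_prod]
  refine tsum_congr fun a => ?_
  rw [← tsum_mul_right]
  exact tsum_congr fun _ => by ring

lemma S3_fubini {W : ℤ → ℤ → ℤ → ℝ} (h : PG3 W) {i j k : ℕ} (hi : 1 ≤ i) (hj : 1 ≤ j) (hk : 1 ≤ k)
    {y : ℝ} (hy : 0 < y) : S3 W i j k y = S1 (fun a => S2 (W a) j k y) i y := by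
  unfold S3 S2 S1
  rw [(summable_S3 h hi hj hk hy).tsum_prod]
  refine tsum_congr fun a => ?_
  rw [← tsum_mul_right]
  exact tsum_congr fun _ => by ring

/-- collapse of a double sum supported on the antidiagonal -/
lemma S2_anti {a b : ℕ} (hA : Anti a b) {W : ℤ → ℝ} (hW : Bd1 W) {y : ℝ} (hy : 0 < y) :
    S2 (fun m n => if m + n = 0 then W m else 0) a b y
      = ((AD a b).map fun f => (f.1 : ℝ) * S1 W f.2 y).sum := by
  have h1 := hasSum_list (AD a b) _ _ fun f hf =>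
    (summable_S1 hW.pg (hA.1 f hf) hy).hasSum.mul_left (f.1 : ℝ)
  have hinj : Function.Injective fun m : ℤ => (m, -m) := fun m n h => (Prod.mk.inj h).1
  refine HasSum.tsum_eq ?_
  rw [← hinj.hasSum_iff]
  · refine hs_congr h1 fun m => ?_
    simp only [Function.comp_apply, add_neg_cancel, if_true, Int.cast_neg, neg_mul]
    rw [hA.2, ← List.sum_map_mul_left]
    congr 2; funext e; ring
  · rintro ⟨m, n⟩ hp
    have : m + n ≠ 0 := fun h => hp ⟨m, by simp only [Prod.mk.injEq, true_and]; omega⟩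
    simp [this]

/-- collapse of a triple sum supported on the antidiagonal of the last two variables -/
lemma S3_anti {a b k : ℕ} (hA : Anti a b) (hk : 1 ≤ k) {W : ℤ → ℤ → ℝ} (hW : Bd2 W) {y : ℝ}
    (hy : 0 < y) : S3 (fun s m n => if m + n = 0 then W s m else 0) k a b y
      = ((AD a b).map fun f => (f.1 : ℝ) * S2 W k f.2 y).sum := by
  have h1 := hasSum_list (AD a b) _ _ fun f hf =>
    (summable_S2 hW.pg hk (hA.1 f hf) hy).hasSum.mul_left (f.1 : ℝ)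
  have hinj : Function.Injective fun p : ℤ × ℤ => (p.1, p.2, -p.2) := fun m n h => by
    simp only [Prod.mk.injEq] at h
    ext <;> tauto
  refine HasSum.tsum_eq ?_
  rw [← hinj.hasSum_iff]
  · refine hs_congr h1 fun m => ?_
    simp only [Function.comp_apply, add_neg_cancel, if_true, Int.cast_neg, neg_mul]
    rw [hA.2, ← List.sum_map_mul_left, ← List.sum_map_mul_left]
    congr 2; funext e; ring
  · rintro ⟨s, m, n⟩ hp
    have : m + n ≠ 0 := fun h => hp ⟨(s, m), by simp only [Prod.mk.injEq, true_and]; omega⟩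
    simp [this]

end Pool.Agent.P.MP_8d0004_nt.LR.D
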