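import Pool.Agent.P.MP_8d0004_nt.LR.DGen

/-! Formal objects of length two and their derivatives. -/

namespace Pool.Agent.P.MP_8d0004_nt.LR.D

open Real Filter Topology

abbrev R6 := ZMod 6

inductive Ob
  | pp (ω : R6 → R6 → ℚ) (i j : ℕ)
  | jj (ω : R6 → R6 → ℚ) (i j : ℕ)
  | zz (ω : R6 → R6 → ℚ)
  | p2 (w : R6 → ℚ) (t : ℕ)

noncomputable def LP (ω : R6 → R6 → ℚ) (i j : ℕ) (y : ℝ) : ℝ :=
  S2 (fun a b => (ω a b : ℝ) / b) i j y

noncomputable def P1 (w : R6 → ℚ) (t : ℕ) (y : ℝ) : ℝ := S1 (fun a => (w a : ℝ) / a) t y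

noncomputable def Ob.ev : Ob → ℝ → ℝ
  | pp ω i j => S2 (fun a b => (ω a b : ℝ) / (a * b)) i j
  | jj ω i j => S2 (fun a b => (ω a b : ℝ) / (a * (a + b))) i j
  | zz ω => S3 (fun a b c => if a + b + c = 0 then (ω b c : ℝ) / (b * c) else 0) 2 1 2
  | p2 w t => S1 (fun a => (w a : ℝ) / a ^ 2) t

def shq (b : Bool) (ω : R6 → R6 → ℚ) (r s : R6) : ℚ := if b then ω (s - r) r else ω r (s - r)

def dgq (k : ℕ) (ω : R6 → R6 → ℚ) (r : R6) : ℚ :=
  if k = 0 then ω 0 r else if k = 1 then ω r 0 else 0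

/-- one half of the derivative of the triple sum on the plane; `ω n c`, spectator `c` -/
def zLP (j k : ℕ) (ω : R6 → R6 → ℚ) : List (ℕ × ℕ × (R6 → R6 → ℚ)) :=
  (FS 2 j).flatMap fun e => (AD k e.2.2.1).map fun f =>
    (e.2.1, f.2, fun r c => e.1 * (f.1 * if e.2.2.2 then ω r c else ω (-c - r) c))

def zP (j k : ℕ) (ω : R6 → R6 → ℚ) : List (ℕ × (R6 → ℚ)) :=
  (FD 2 j).flatMap fun e => (AD k e.2.1).map fun f =>
    (f.2, fun c => e.1 * (f.1 * if e.2.2 = 0 then ω (-c) c else if e.2.2 = 1 then ω 0 c else 0))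

def Ob.dLP : Ob → List (ℕ × ℕ × (R6 → R6 → ℚ))
  | pp ω i j => [(i + 1, j, ω), (j + 1, i, fun r s => ω s r)]
  | jj ω i j => (j + 1, i, fun r s => ω s r) ::
      (FS i j).map fun e => (e.2.1, e.2.2.1, fun r s => -e.1 * shq e.2.2.2 ω r s)
  | zz ω => zLP 1 2 ω ++ zLP 2 1 fun r s => ω s r
  | p2 _ _ => []

def Ob.dP : Ob → List (ℕ × (R6 → ℚ))
  | pp _ _ _ => []
  | jj ω i j => ((AD i (j + 1)).map fun f => (f.2, fun r => -f.1 * ω r (-r))) ++
      (FD i j).map fun e => (e.2.1, fun r => -e.1 * dgq e.2.2 ω r)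
  | zz ω => zP 1 2 ω ++ zP 2 1 fun r s => ω s r
  | p2 w t => [(t + 1, w)]

def okF (i j : ℕ) : Bool := (i, j) ∈ [(1, 1), (1, 2), (1, 3), (1, 5), (2, 1), (2, 2), (2, 4)]

def okA (a b : ℕ) : Bool := (a, b) ∈ [(1, 1), (1, 2), (1, 3), (1, 4), (1, 5), (1, 6), (2, 1), (2, 2),
  (2, 3), (2, 4), (2, 5)]

def Ob.ok : Ob → Bool
  | pp _ i j => 1 ≤ i && 1 ≤ j
  | jj _ i j => okF i j
  | zz _ => true
  | p2 _ t => 1 ≤ t

lemma fay_of_ok {i j : ℕ} (h : okF i j = true) : Fay i j ∧ Anti i (j + 1) ∧ 1 ≤ i ∧ 1 ≤ j := by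
  simp only [okF, List.mem_cons, Prod.mk.injEq, List.not_mem_nil, or_false, decide_eq_true_eq] at h
  rcases h with ⟨rfl, rfl⟩ | ⟨rfl, rfl⟩ | ⟨rfl, rfl⟩ | ⟨rfl, rfl⟩ | ⟨rfl, rfl⟩ | ⟨rfl, rfl⟩ | ⟨rfl, rfl⟩
  exacts [⟨fay11, anti12, by decide⟩, ⟨fay12, anti13, by decide⟩, ⟨fay13, anti14, by decide⟩,
    ⟨fay15, anti16, by decide⟩, ⟨fay21, anti22, by decide⟩, ⟨fay22, anti23, by decide⟩,
    ⟨fay24, anti25, by decide⟩]

lemma anti_of_ok {a b : ℕ} (h : okA a b = true) : Anti a b := by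
  simp only [okA, List.mem_cons, Prod.mk.injEq, List.not_mem_nil, or_false, decide_eq_true_eq] at h
  rcases h with ⟨rfl, rfl⟩ | ⟨rfl, rfl⟩ | ⟨rfl, rfl⟩ | ⟨rfl, rfl⟩ | ⟨rfl, rfl⟩ | ⟨rfl, rfl⟩ | ⟨rfl, rfl⟩
    | ⟨rfl, rfl⟩ | ⟨rfl, rfl⟩ | ⟨rfl, rfl⟩ | ⟨rfl, rfl⟩
  exacts [anti11, anti12, anti13, anti14, anti15, anti16, anti21, anti22, anti23, anti24, anti25]

noncomputable def evLP (E : List (ℕ × ℕ × (R6 → R6 → ℚ))) (y : ℝ) : ℝ :=
  (E.map fun e => LP e.2.2 e.1 e.2.1 y).sum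

noncomputable def evP (E : List (ℕ × (R6 → ℚ))) (y : ℝ) : ℝ := (E.map fun e => P1 e.2 e.1 y).sum

lemma bdq {α : Type} [Finite α] (ω : α → ℚ) : ∃ C, 0 ≤ C ∧ ∀ x (g : ℤ), |(ω x : ℝ) / g| ≤ C := by
  obtain ⟨C, hC⟩ := (Set.finite_range fun x => |(ω x : ℝ)|).bddAbove
  refine ⟨max C 0, le_max_right _ _, fun x g => (abs_div_int_le _ g).trans ?_⟩
  exact (hC ⟨x, rfl⟩).trans (le_max_left _ _)

lemma bd1q (ω : R6 → ℚ) (g : ℤ → ℤ) {W : ℤ → ℝ} (h : ∀ a, W a = ω a / g a) : Bd1 W := by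
  obtain ⟨C, -, hC⟩ := bdq ω
  exact ⟨C, fun a => by rw [h]; apply hC⟩

lemma bd2q (ω : R6 → R6 → ℚ) (g : ℤ → ℤ → ℤ) {W : ℤ → ℤ → ℝ} (h : ∀ a b, W a b = ω a b / g a b) :
    Bd2 W := by
  obtain ⟨C, -, hC⟩ := bdq fun p : R6 × R6 => ω p.1 p.2
  exact ⟨C, fun a b => by rw [h]; exact hC (a, b) _⟩

lemma bd3q (ω : R6 → R6 → R6 → ℚ) (g : ℤ → ℤ → ℤ → ℤ) {W : ℤ → ℤ → ℤ → ℝ}
    (h : ∀ a b c, W a b c = ω a b c / g a b c) : Bd3 W := by
  obtain ⟨C, -, hC⟩ := bdq fun p : R6 × R6 × R6 => ω p.1 p.2.1 p.2.2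
  exact ⟨C, fun a b c => by rw [h]; exact hC (a, b, c) _⟩

lemma Bd2.ite {W : ℤ → ℤ → ℝ} (h : Bd2 W) (P : ℤ → ℤ → Prop) [∀ a b, Decidable (P a b)] :
    Bd2 fun a b => if P a b then W a b else 0 := by
  obtain ⟨C, h⟩ := h
  refine ⟨C, fun a b => ?_⟩
  beta_reduce
  split_ifs
  · exact h a b
  · simpa using (abs_nonneg _).trans (h a b)

lemma Bd3.ite {W : ℤ → ℤ → ℤ → ℝ} (h : Bd3 W) (P : ℤ → ℤ → ℤ → Prop)
    [∀ a b c, Decidable (P a b c)] : Bd3 fun a b c => if P a b c then W a b c else 0 := by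
  obtain ⟨C, h⟩ := h
  refine ⟨C, fun a b c => ?_⟩
  beta_reduce
  split_ifs
  · exact h a b c
  · simpa using (abs_nonneg _).trans (h a b c)

lemma Bd2.smul {W : ℤ → ℤ → ℝ} (h : Bd2 W) (c : ℝ) : Bd2 fun a b => c * W a b := by
  obtain ⟨C, h⟩ := h
  exact ⟨|c| * C, fun a b => by rw [abs_mul]; gcongr; exact h a b⟩

lemma Bd2.add {W W' : ℤ → ℤ → ℝ} (h : Bd2 W) (h' : Bd2 W') : Bd2 fun a b => W a b + W' a b := by
  obtain ⟨C, h⟩ := h
  obtain ⟨C', h'⟩ := h'
  exact ⟨C + C', fun a b => (abs_add_le _ _).trans (add_le_add (h a b) (h' a b))⟩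

lemma Bd3.smul {W : ℤ → ℤ → ℤ → ℝ} (h : Bd3 W) (c : ℝ) : Bd3 fun a b d => c * W a b d := by
  obtain ⟨C, h⟩ := h
  exact ⟨|c| * C, fun a b d => by rw [abs_mul]; gcongr; exact h a b d⟩

lemma Bd3.add {W W' : ℤ → ℤ → ℤ → ℝ} (h : Bd3 W) (h' : Bd3 W') :
    Bd3 fun a b c => W a b c + W' a b c := by
  obtain ⟨C, h⟩ := h
  obtain ⟨C', h'⟩ := h'
  exact ⟨C + C', fun a b c => (abs_add_le _ _).trans (add_le_add (h a b c) (h' a b c))⟩

lemma sum_map_congr {α : Type*} (L : List α) {f g : α → ℝ} (h : ∀ e ∈ L, f e = g e) :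
    (L.map f).sum = (L.map g).sum := by rw [List.map_congr_left h]

lemma sum_map_neg' {α : Type*} (L : List α) {f g : α → ℝ} (h : ∀ e ∈ L, f e = -g e) :
    (L.map f).sum = -(L.map g).sum := by
  rw [sum_map_congr L h]
  induction L with
  | nil => simp
  | cons e L ih =>
    simp only [List.map_cons, List.sum_cons]
    rw [ih fun e he => h e (by simp [he])]
    ring

lemma sum_flatMap {α β : Type*} (L : List α) (F : α → List β) (f : β → ℝ) :
    ((L.flatMap F).map f).sum = (L.map fun e => ((F e).map f).sum).sum := by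
  induction L with
  | nil => simp
  | cons e L ih => simp only [List.flatMap_cons, List.map_append, List.sum_append, List.map_cons,
      List.sum_cons, ih]

lemma split_frac {a b x : ℝ} (ha : a ≠ 0) (P : Prop) [Decidable P] (hP : P ↔ a + b = 0) :
    b * (x / (a * (a + b))) = x / a + (-1) * (if P then x / a else 0) + (-1) * (x / (a + b)) := by
  split_ifs with h
  · rw [hP.1 h]; simp
  · have : a + b ≠ 0 := fun h' => h (hP.2 h')
    field_simp
    ring

lemma cast_add_zero (a b : ℤ) : a + b = 0 ↔ (a : ℝ) + b = 0 := by exact_mod_cast Iff.rfl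

lemma jj_deriv {i j : ℕ} (h : okF i j = true) (ω : R6 → R6 → ℚ) {y : ℝ} (hy : 0 < y) :
    HasDerivAt (Ob.jj ω i j).ev (-(2 * π) * (evLP (Ob.jj ω i j).dLP y + evP (Ob.jj ω i j).dP y)) y := by
  obtain ⟨hF, hA, hi, hj⟩ := fay_of_ok h
  have bW : Bd2 fun a b => (ω a b : ℝ) / (a * (a + b)) :=
    bd2q ω (fun a b => a * (a + b)) fun a b => by push_cast; rfl
  have bV : Bd2 fun a b => (ω a b : ℝ) / (a + b) :=
    bd2q ω (fun a b => a + b) fun a b => by push_cast; rfl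
  have b1 : Bd2 fun a b => (ω a b : ℝ) / a := bd2q ω (fun a _ => a) fun a b => rfl
  have b2 : Bd1 fun a => (ω a (-a) : ℝ) / a := bd1q (fun r => ω r (-r)) (fun a => a) fun a => rfl
  have b3 : Bd2 fun a b => if a + b = 0 then (ω a (-a) : ℝ) / a else 0 :=
    (bd2q (fun r _ => ω r (-r)) (fun a _ => a) fun a b => rfl).ite _
  refine (S2_hasDerivAt bW.pg hi hj hy).congr_deriv ?_
  congr 1
  have e1 : S2 (fun a b => a * ((ω a b : ℝ) / (a * (a + b)))) (i + 1) j y
      = S2 (fun a b => (ω a b : ℝ) / (a + b)) (i + 1) j y :=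
    S2_congr (fun a b ha _ => by
      have : (a : ℝ) ≠ 0 := by exact_mod_cast ha
      rw [← div_div, div_right_comm, mul_div_cancel₀ _ this]) _ _ _
  have e2 : S2 (fun a b => b * ((ω a b : ℝ) / (a * (a + b)))) i (j + 1) y
      = S2 (fun a b => (ω a b : ℝ) / a) i (j + 1) y
        + (-1) * S2 (fun a b => if a + b = 0 then (ω a (-a) : ℝ) / a else 0) i (j + 1) y
        + (-1) * S2 (fun a b => (ω a b : ℝ) / (a + b)) i (j + 1) y := by
    rw [← S2_smul, ← S2_smul, ← S2_add b1.pg (b3.smul _).pg hi (by omega) hy,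
      ← S2_add (b1.add (b3.smul _)).pg (bV.smul _).pg hi (by omega) hy]
    refine S2_congr (fun a b ha _ => ?_) _ _ _
    have : (a : ℝ) ≠ 0 := by exact_mod_cast ha
    rw [split_frac this (a + b = 0) (cast_add_zero a b)]
    split_ifs with h0
    · obtain rfl : b = -a := by omega
      push_cast
      rfl
    · rfl
  have e3 := fay2 hF hi hj bV hy
  have e4 := S2_anti hA b2 hy
  have e5 : evLP (Ob.jj ω i j).dLP y = S2 (fun a b => (ω a b : ℝ) / a) i (j + 1) y
      - ((FS i j).map fun e => (e.1 : ℝ) *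
        S2 (sh2 e.2.2.2 fun a b => (ω a b : ℝ) / (a + b)) e.2.1 e.2.2.1 y).sum := by
    simp only [evLP, Ob.dLP, List.map_cons, List.sum_cons, List.map_map]
    rw [sub_eq_add_neg, S2_swap]
    congr 1
    refine sum_map_neg' _ fun e _ => ?_
    simp only [Function.comp_apply, LP]
    rw [← neg_mul, ← S2_smul]
    congr 1
    funext a b
    simp only [sh2, shq]
    split_ifs <;> push_cast <;> ring_nf
  have e6 : evP (Ob.jj ω i j).dP y
      = -((AD i (j + 1)).map fun f => (f.1 : ℝ) * S1 (fun a => (ω a (-a) : ℝ) / a) f.2 y).sum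
      - ((FD i j).map fun e => (e.1 : ℝ) *
        S1 (dg2 e.2.2 fun a b => (ω a b : ℝ) / (a + b)) e.2.1 y).sum := by
    simp only [evP, Ob.dP, List.map_append, List.sum_append, List.map_map]
    rw [sub_eq_add_neg]
    congr 1
    · refine sum_map_neg' _ fun e _ => ?_
      simp only [Function.comp_apply, P1]
      rw [← neg_mul, ← S1_smul]
      congr 1
      funext a
      push_cast
      ring
    · refine sum_map_neg' _ fun e _ => ?_
      simp only [Function.comp_apply, P1]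
      rw [← neg_mul, ← S1_smul]
      congr 1
      funext a
      simp only [dg2, dgq]
      split_ifs <;> push_cast <;> simp <;> ring
  rw [e1, e2, e4, e5, e6]
  linarith

lemma pp_deriv {i j : ℕ} (hi : 1 ≤ i) (hj : 1 ≤ j) (ω : R6 → R6 → ℚ) {y : ℝ} (hy : 0 < y) :
    HasDerivAt (Ob.pp ω i j).ev (-(2 * π) * (evLP (Ob.pp ω i j).dLP y + evP (Ob.pp ω i j).dP y)) y := by
  have bW : Bd2 fun a b => (ω a b : ℝ) / (a * b) :=
    bd2q ω (fun a b => a * b) fun a b => by push_cast; rfl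
  refine (S2_hasDerivAt bW.pg hi hj hy).congr_deriv ?_
  congr 1
  simp only [evLP, evP, Ob.dLP, Ob.dP, List.map_cons, List.sum_cons, List.map_nil, List.sum_nil,
    add_zero, LP]
  rw [S2_swap _ i]
  congr 1
  · refine S2_congr (fun a b ha _ => ?_) _ _ _
    have : (a : ℝ) ≠ 0 := by exact_mod_cast ha
    field_simp
  · refine S2_congr (fun a b ha _ => ?_) _ _ _
    have : (a : ℝ) ≠ 0 := by exact_mod_cast ha
    field_simp

lemma p2_deriv {t : ℕ} (ht : 1 ≤ t) (w : R6 → ℚ) {y : ℝ} (hy : 0 < y) :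
    HasDerivAt (Ob.p2 w t).ev (-(2 * π) * (evLP (Ob.p2 w t).dLP y + evP (Ob.p2 w t).dP y)) y := by
  have bW : Bd1 fun a => (w a : ℝ) / a ^ 2 := bd1q w (fun a => a ^ 2) fun a => by push_cast; rfl
  refine (S1_hasDerivAt bW.pg ht hy).congr_deriv ?_
  congr 1
  simp only [evLP, evP, Ob.dLP, Ob.dP, List.map_cons, List.sum_cons, List.map_nil, List.sum_nil,
    add_zero, zero_add, P1]
  refine S1_congr (fun a ha => ?_) _ _
  have : (a : ℝ) ≠ 0 := by exact_mod_cast ha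
  field_simp

lemma zz_half {j k : ℕ} (hF : Fay 2 j) (hj : 1 ≤ j) (hk : 1 ≤ k)
    (h1 : ∀ e ∈ FS 2 j, okA k e.2.2.1 = true) (h2 : ∀ e ∈ FD 2 j, okA k e.2.1 = true)
    (ω : R6 → R6 → ℚ) {y : ℝ} (hy : 0 < y) :
    S3 (fun c a b => if a + b + c = 0 then (ω b c : ℝ) / c else 0) k 2 (j + 1) y
      - S3 (fun c a b => if a + b + c = 0 then (ω b c : ℝ) / c else 0) k (2 + 1) j y
      = evLP (zLP j k ω) y + evP (zP j k ω) y := by
  have bV : Bd3 fun c a b => if a + b + c = 0 then (ω b c : ℝ) / c else 0 :=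
    (bd3q (fun c _ b => ω b c) (fun c _ _ => c) fun _ _ _ => rfl).ite _
  rw [fay3 hF (by norm_num) hj hk bV hy]
  simp only [evLP, evP, zLP, zP, sum_flatMap, List.map_map]
  congr 1
  · refine sum_map_congr _ fun e he => ?_
    have b1 : Bd2 fun r c : ℤ => ((if e.2.2.2 then ω r c else ω (-c - r) c : ℚ) : ℝ) / c :=
      bd2q (fun r c => if e.2.2.2 then ω r c else ω (-c - r) c) (fun _ c => c) fun _ _ => rfl
    have := S3_anti (anti_of_ok (h1 e he)) (hF.1 e he).1 b1 hy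
    rw [S3_swap12, show (fun a b c => (fun s => sh2 e.2.2.2
        fun a b => if a + b + s = 0 then (ω b s : ℝ) / s else 0) b a c) = fun r c s : ℤ =>
        if c + s = 0 then ((if e.2.2.2 then ω r c else ω (-c - r) c : ℚ) : ℝ) / c else 0 from ?_,
      this, ← List.sum_map_mul_left]
    · refine sum_map_congr _ fun f _ => ?_
      simp only [Function.comp_apply, LP]
      rw [← S2_smul, ← S2_smul]
      congr 1
      funext a b
      push_cast
      ring
    · funext r c s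
      simp only [sh2]
      by_cases h0 : c + s = 0
      · obtain rfl : s = -c := by omega
        cases e.2.2.2 <;> simp
      · have h3 : ¬ (s + c = 0) := by omega
        simp [h0, h3]
  · refine sum_map_congr _ fun e he => ?_
    have b1 : Bd1 fun c : ℤ =>
        ((if e.2.2 = 0 then ω (-c) c else if e.2.2 = 1 then ω 0 c else 0 : ℚ) : ℝ) / c :=
      bd1q (fun c => if e.2.2 = 0 then ω (-c) c else if e.2.2 = 1 then ω 0 c else 0) (fun c => c)
        fun _ => rfl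
    have := S2_anti (anti_of_ok (h2 e he)) b1 hy
    rw [S2_congr (W' := fun c n : ℤ => if c + n = 0 then
        ((if e.2.2 = 0 then ω (-c) c else if e.2.2 = 1 then ω 0 c else 0 : ℚ) : ℝ) / c else 0) ?_,
      this, ← List.sum_map_mul_left]
    · refine sum_map_congr _ fun f _ => ?_
      simp only [Function.comp_apply, P1]
      rw [← S1_smul, ← S1_smul]
      congr 1
      funext a
      push_cast
      ring
    · intro c n hc _
      simp only [dg2]
      by_cases h0 : c + n = 0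
      · obtain rfl : n = -c := by omega
        split_ifs <;> simp_all
      · have h3 : ¬ (n + c = 0) := by omega
        split_ifs <;> simp_all

lemma zz_deriv (ω : R6 → R6 → ℚ) {y : ℝ} (hy : 0 < y) :
    HasDerivAt (Ob.zz ω).ev (-(2 * π) * (evLP (Ob.zz ω).dLP y + evP (Ob.zz ω).dP y)) y := by
  have bW : Bd3 fun a b c => if a + b + c = 0 then (ω b c : ℝ) / (b * c) else 0 :=
    (bd3q (fun _ b c => ω b c) (fun _ b c => b * c) fun _ _ _ => by push_cast; rfl).ite _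
  have b1 : Bd3 fun a b c => if a + b + c = 0 then (ω b c : ℝ) / c else 0 :=
    (bd3q (fun _ b c => ω b c) (fun _ _ c => c) fun _ _ _ => rfl).ite _
  have b2 : Bd3 fun a b c => if a + b + c = 0 then (ω b c : ℝ) / b else 0 :=
    (bd3q (fun _ b c => ω b c) (fun _ b _ => b) fun _ _ _ => rfl).ite _
  refine (S3_hasDerivAt bW.pg (by norm_num) le_rfl (by norm_num) hy).congr_deriv ?_
  congr 1
  have z1 := zz_half fay21 le_rfl (k := 2) (by norm_num) (by decide) (by decide) ω hy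
  have z2 := zz_half fay22 (by norm_num) (k := 1) le_rfl (by decide) (by decide) (fun r s => ω s r) hy
  have e1 : S3 (fun a b c => a * if a + b + c = 0 then (ω b c : ℝ) / (b * c) else 0) (2 + 1) 1 2 y
      = (-1) * S3 (fun a b c => if a + b + c = 0 then (ω b c : ℝ) / c else 0) (2 + 1) 1 2 y
        + (-1) * S3 (fun a b c => if a + b + c = 0 then (ω b c : ℝ) / b else 0) (2 + 1) 1 2 y := by
    rw [← S3_smul, ← S3_smul, ← S3_add (b1.smul _).pg (b2.smul _).pg (by norm_num) le_rfl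
      (by norm_num) hy]
    refine S3_congr (fun a b c _ hb hc => ?_) _ _ _ _
    have hb' : (b : ℝ) ≠ 0 := by exact_mod_cast hb
    have hc' : (c : ℝ) ≠ 0 := by exact_mod_cast hc
    split_ifs with h0
    · obtain rfl : a = -b - c := by omega
      push_cast
      field_simp
      ring
    · simp
  have e2 : S3 (fun a b c => b * if a + b + c = 0 then (ω b c : ℝ) / (b * c) else 0) 2 (1 + 1) 2 y
      = S3 (fun a b c => if a + b + c = 0 then (ω b c : ℝ) / c else 0) 2 (1 + 1) 2 y := by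
    refine S3_congr (fun a b c _ hb hc => ?_) _ _ _ _
    have hb' : (b : ℝ) ≠ 0 := by exact_mod_cast hb
    split_ifs with h0
    · field_simp
    · simp
  have e3 : S3 (fun a b c => c * if a + b + c = 0 then (ω b c : ℝ) / (b * c) else 0) 2 1 (2 + 1) y
      = S3 (fun a b c => if a + b + c = 0 then (ω b c : ℝ) / b else 0) 2 1 (2 + 1) y := by
    refine S3_congr (fun a b c _ hb hc => ?_) _ _ _ _
    have hc' : (c : ℝ) ≠ 0 := by exact_mod_cast hc
    split_ifs with h0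
    · field_simp
    · simp
  have p1 : ∀ i j, S3 (fun a b c => if a + b + c = 0 then (ω b c : ℝ) / c else 0) i j 2 y
      = S3 (fun c a b => if a + b + c = 0 then (ω b c : ℝ) / c else 0) 2 i j y := fun i j => by
    rw [S3_swap23, S3_swap12]
  have p2 : ∀ i j, S3 (fun a b c => if a + b + c = 0 then (ω b c : ℝ) / b else 0) i 1 j y
      = S3 (fun c a b => if a + b + c = 0 then (ω c b : ℝ) / c else 0) 1 i j y := fun i j => by
    rw [S3_swap12]
    congr 1
    funext c a b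
    rw [show a + c + b = a + b + c by ring]
  rw [e1, e2, e3, p1, p1, p2, p2]
  simp only [Ob.dLP, Ob.dP, evLP, evP, List.map_append, List.sum_append] at z1 z2 ⊢
  linarith

theorem Ob.deriv (o : Ob) (h : o.ok = true) {y : ℝ} (hy : 0 < y) :
    HasDerivAt o.ev (-(2 * π) * (evLP o.dLP y + evP o.dP y)) y := by
  cases o with
  | pp ω i j =>
    simp only [Ob.ok, Bool.and_eq_true, decide_eq_true_eq] at h
    exact pp_deriv h.1 h.2 ω hy
  | jj ω i j => exact jj_deriv h ω hy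
  | zz ω => exact zz_deriv ω hy
  | p2 w t =>
    simp only [Ob.ok, decide_eq_true_eq] at h
    exact p2_deriv h w hy

theorem Ob.tendsto (o : Ob) (h : o.ok = true) : Tendsto o.ev atTop (𝓝 0) := by
  cases o with
  | pp ω i j =>
    simp only [Ob.ok, Bool.and_eq_true, decide_eq_true_eq] at h
    have bW : Bd2 fun a b => (ω a b : ℝ) / (a * b) :=
      bd2q ω (fun a b => a * b) fun a b => by push_cast; rfl
    exact S2_tendsto bW.pg h.1 h.2
  | jj ω i j =>
    obtain ⟨-, -, hi, hj⟩ := fay_of_ok h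
    have bW : Bd2 fun a b => (ω a b : ℝ) / (a * (a + b)) :=
      bd2q ω (fun a b => a * (a + b)) fun a b => by push_cast; rfl
    exact S2_tendsto bW.pg hi hj
  | zz ω =>
    have bW : Bd3 fun a b c => if a + b + c = 0 then (ω b c : ℝ) / (b * c) else 0 :=
      (bd3q (fun _ b c => ω b c) (fun _ b c => b * c) fun _ _ _ => by push_cast; rfl).ite _
    exact S3_tendsto bW.pg (by norm_num) le_rfl (by norm_num)
  | p2 w t =>
    simp only [Ob.ok, decide_eq_true_eq] at h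
    have bW : Bd1 fun a => (w a : ℝ) / a ^ 2 := bd1q w (fun a => a ^ 2) fun a => by push_cast; rfl
    exact S1_tendsto bW.pg h

end Pool.Agent.P.MP_8d0004_nt.LR.D
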