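import Pool.Agent.P.MP_8d0004_nt.LR.DChk

/-! Derivatives of the objects of length three. -/

namespace Pool.Agent.P.MP_8d0004_nt.LR.D

open Real Filter Topology

noncomputable def evLT (L : List (ℕ × (R6 → Ob))) (y : ℝ) : ℝ :=
  (L.map fun e => S1 (fun m => (e.2 m).ev y) e.1 y).sum

def psiLT (j k : ℕ) (A : R6 → R6 → R6 → ℚ) : List (ℕ × (R6 → Ob)) :=
  ((FS 1 j).map fun e => (e.2.1, fun r => Ob.jj (fun c s => e.1 * shq e.2.2.2 (A c) r s) k e.2.2.1))
  ++ (FD 1 j).map fun e => (e.2.1, fun r => Ob.p2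
      (fun c => e.1 * if e.2.2 = 0 then 0 else if e.2.2 = 1 then 0 else A c r (-r)) k)

def psiLow (j k : ℕ) (A : R6 → R6 → R6 → ℚ) : List Ob :=
  (FD 1 j).map fun e => Ob.jj (fun c n => e.1 * dgq e.2.2 (A c) n) k e.2.1

lemma sum_map_add' {α : Type*} (L : List α) {f g h : α → ℝ} (H : ∀ e ∈ L, f e = g e + h e) :
    (L.map f).sum = (L.map g).sum + (L.map h).sum := by
  rw [sum_map_congr L H, List.sum_map_add]

lemma Bd3.sh {V : ℤ → ℤ → ℤ → ℝ} (h : Bd3 V) (b : Bool) : Bd3 fun r c s => sh2 b (V c) r s := by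
  obtain ⟨C, h⟩ := h
  exact ⟨C, fun r c s => by simp only [sh2]; split_ifs <;> apply h⟩

lemma psi_half {j k : ℕ} (hF : Fay 1 j) (hj : 1 ≤ j) (hk : 1 ≤ k) (A : R6 → R6 → R6 → ℚ) {y : ℝ}
    (hy : 0 < y) :
    S3 (fun c m n => (A c m n : ℝ) / (c * (m + n + c))) k 1 (j + 1) y
      - S3 (fun c m n => (A c m n : ℝ) / (c * (m + n + c))) k (1 + 1) j y
      = evLT (psiLT j k A) y + evObs (psiLow j k A) y := by
  have bV : Bd3 fun c m n => (A c m n : ℝ) / (c * (m + n + c)) :=
    bd3q A (fun c m n => c * (m + n + c)) fun _ _ _ => by push_cast; rfl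
  rw [fay3 hF le_rfl hj hk bV hy]
  simp only [evLT, evObs, psiLT, psiLow, List.map_append, List.sum_append, List.map_map]
  rw [add_assoc]
  congr 1
  · refine sum_map_congr _ fun e he => ?_
    rw [S3_swap12, S3_fubini (bV.sh _).pg (hF.1 e he).1 hk (hF.1 e he).2 hy, ← S1_smul]
    simp only [Function.comp_apply, Ob.ev]
    congr 1
    funext r
    rw [← S2_smul]
    congr 1
    funext c s
    simp only [sh2, shq]
    split_ifs <;> push_cast <;> ring_nf
  · refine sum_map_add' _ fun e he => ?_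
    unfold dg2
    simp only [Function.comp_apply, Ob.ev, dgq]
    split_ifs with h0 h1
    · rw [← S2_smul]
      simp only [S1, mul_zero, Rat.cast_zero, zero_div, zero_mul, tsum_zero, zero_add]
      congr 1
      funext c n
      push_cast
      ring_nf
    · rw [← S2_smul]
      simp only [S1, mul_zero, Rat.cast_zero, zero_div, zero_mul, tsum_zero, zero_add]
      congr 1
      funext c n
      push_cast
      ring_nf
    · have b1 : Bd2 fun r c : ℤ => (A c r (-r : ℤ) : ℝ) / (c * (r + (-r : ℤ) + c)) := by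
        obtain ⟨C, h⟩ := bV
        exact ⟨C, fun r c => h c r (-r)⟩
      rw [S2_swap, S2_fubini b1.pg (hF.2.1 e he) hk hy, ← S1_smul]
      simp only [S2, mul_zero, Rat.cast_zero, zero_div, zero_mul, tsum_zero, add_zero]
      congr 1
      funext r
      rw [← S1_smul]
      congr 1
      funext c
      push_cast
      ring_nf

def psiLT0 (A : R6 → R6 → R6 → ℚ) : List (ℕ × (R6 → Ob)) :=
  (2, fun r => Ob.pp (A r) 1 2) ::
    (psiLT 1 2 (fun c a b => A a b c) ++ psiLT 2 1 fun b a c => A a b c)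

def psiLow0 (A : R6 → R6 → R6 → ℚ) : List Ob :=
  Ob.zz (fun b c => -A (-b - c) b c) ::
    (psiLow 1 2 (fun c a b => A a b c) ++ psiLow 2 1 fun b a c => A a b c)

lemma split_psi {a b c x : ℝ} (hb : b ≠ 0) (hc : c ≠ 0) (P : Prop) [Decidable P]
    (hP : P ↔ a + b + c = 0) :
    a * (x / (b * c * (a + b + c))) = x / (b * c) + (if P then -x / (b * c) else 0)
      + (-1) * (x / (c * (a + b + c))) + (-1) * (x / (b * (a + c + b))) := by
  rw [show a + c + b = a + b + c by ring]
  split_ifs with h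
  · rw [hP.1 h]; simp [neg_div]
  · have : a + b + c ≠ 0 := fun h' => h (hP.2 h')
    field_simp
    ring

lemma psi_deriv (A : R6 → R6 → R6 → ℚ) {y : ℝ} (hy : 0 < y) :
    HasDerivAt (S3 (fun a b c => (A a b c : ℝ) / (b * c * (a + b + c))) 1 1 2)
      (-(2 * π) * (evLT (psiLT0 A) y + evObs (psiLow0 A) y)) y := by
  have bW : Bd3 fun a b c => (A a b c : ℝ) / (b * c * (a + b + c)) :=
    bd3q A (fun a b c => b * c * (a + b + c)) fun _ _ _ => by push_cast; rfl
  have b0 : Bd3 fun a b c => (A a b c : ℝ) / (b * c) :=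
    bd3q A (fun a b c => b * c) fun _ _ _ => by push_cast; rfl
  have b1 : Bd3 fun a b c => (A a b c : ℝ) / (c * (a + b + c)) :=
    bd3q A (fun a b c => c * (a + b + c)) fun _ _ _ => by push_cast; rfl
  have b2 : Bd3 fun a b c => (A a b c : ℝ) / (b * (a + c + b)) :=
    bd3q A (fun a b c => b * (a + c + b)) fun _ _ _ => by push_cast; rfl
  have b3 : Bd3 fun a b c =>
      if a + b + c = 0 then ((-A (-b - c) b c : ℚ) : ℝ) / (b * c) else 0 :=
    (bd3q (fun _ b c => -A (-b - c) b c) (fun _ b c => b * c) fun _ _ _ => by push_cast; rfl).ite _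
  refine (S3_hasDerivAt bW.pg le_rfl le_rfl (by norm_num) hy).congr_deriv ?_
  congr 1
  have z1 := psi_half fay11 le_rfl (k := 2) (by norm_num) (fun c a b => A a b c) hy
  have z2 := psi_half fay12 (by norm_num) (k := 1) le_rfl (fun b a c => A a b c) hy
  have e1 : S3 (fun a b c => a * ((A a b c : ℝ) / (b * c * (a + b + c)))) (1 + 1) 1 2 y
      = S3 (fun a b c => (A a b c : ℝ) / (b * c)) (1 + 1) 1 2 y
        + S3 (fun a b c => if a + b + c = 0 then ((-A (-b - c) b c : ℚ) : ℝ) / (b * c) else 0)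
          (1 + 1) 1 2 y
        + (-1) * S3 (fun a b c => (A a b c : ℝ) / (c * (a + b + c))) (1 + 1) 1 2 y
        + (-1) * S3 (fun a b c => (A a b c : ℝ) / (b * (a + c + b))) (1 + 1) 1 2 y := by
    rw [← S3_smul, ← S3_smul, ← S3_add b0.pg b3.pg (by norm_num) le_rfl (by norm_num) hy,
      ← S3_add (b0.add b3).pg (b1.smul _).pg (by norm_num) le_rfl (by norm_num) hy,
      ← S3_add ((b0.add b3).add (b1.smul _)).pg (b2.smul _).pg (by norm_num) le_rfl (by norm_num) hy]
    refine S3_congr (fun a b c _ hb hc => ?_) _ _ _ _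
    have hb' : (b : ℝ) ≠ 0 := by exact_mod_cast hb
    have hc' : (c : ℝ) ≠ 0 := by exact_mod_cast hc
    rw [split_psi hb' hc' (a + b + c = 0) (by exact_mod_cast Iff.rfl)]
    split_ifs with h0
    · obtain rfl : a = -b - c := by omega
      push_cast
      rfl
    · rfl
  have e2 : S3 (fun a b c => b * ((A a b c : ℝ) / (b * c * (a + b + c)))) 1 (1 + 1) 2 y
      = S3 (fun a b c => (A a b c : ℝ) / (c * (a + b + c))) 1 (1 + 1) 2 y := by
    refine S3_congr (fun a b c _ hb hc => ?_) _ _ _ _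
    have hb' : (b : ℝ) ≠ 0 := by exact_mod_cast hb
    rw [mul_assoc, ← div_div, div_right_comm, mul_div_cancel₀ _ hb']
  have e3 : S3 (fun a b c => c * ((A a b c : ℝ) / (b * c * (a + b + c)))) 1 1 (2 + 1) y
      = S3 (fun a b c => (A a b c : ℝ) / (b * (a + c + b))) 1 1 (2 + 1) y := by
    refine S3_congr (fun a b c _ hb hc => ?_) _ _ _ _
    have hc' : (c : ℝ) ≠ 0 := by exact_mod_cast hc
    rw [show (b : ℝ) * c * (a + b + c) = c * (b * (a + c + b)) by ring, ← div_div, div_right_comm,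
      mul_div_cancel₀ _ hc']
  have p1 : ∀ i j, S3 (fun a b c => (A a b c : ℝ) / (c * (a + b + c))) i j 2 y
      = S3 (fun c a b => (A a b c : ℝ) / (c * (a + b + c))) 2 i j y := fun i j => by
    rw [S3_swap23, S3_swap12]
  have p2 : ∀ i j, S3 (fun a b c => (A a b c : ℝ) / (b * (a + c + b))) i 1 j y
      = S3 (fun b a c => (A a b c : ℝ) / (b * (a + c + b))) 1 i j y := fun i j => by
    rw [S3_swap12]
  have e4 := S3_fubini b0.pg (i := 1 + 1) (j := 1) (k := 2) (by norm_num) le_rfl (by norm_num) hy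
  rw [e1, e2, e3, p1, p1, p2, p2, e4]
  simp only [psiLT0, psiLow0, evLT, evObs, List.map_append, List.sum_append, List.map_cons,
    List.sum_cons, Ob.ev] at z1 z2 ⊢
  linarith

def pjLT (i j k : ℕ) (B : R6 → R6 → R6 → ℚ) : List (ℕ × (R6 → Ob)) :=
  (i + 1, fun r => Ob.jj (B r) j k) :: (k + 1, fun r => Ob.pp (fun a b => B a b r) i j) ::
    (FS j k).map fun e => (e.2.1, fun r => Ob.pp (fun a s => -e.1 * shq e.2.2.2 (B a) r s) i e.2.2.1)

def pjLow (i j k : ℕ) (B : R6 → R6 → R6 → ℚ) : List Ob :=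
  ((AD j (k + 1)).map fun f => Ob.pp (fun a b => -f.1 * B a b (-b)) i f.2) ++
    (FD j k).map fun e => Ob.pp (fun a n => -e.1 * dgq e.2.2 (B a) n) i e.2.1

lemma pj_deriv {i j k : ℕ} (hi : 1 ≤ i) (h : okF j k = true) (B : R6 → R6 → R6 → ℚ) {y : ℝ}
    (hy : 0 < y) : HasDerivAt (S3 (fun a b c => (B a b c : ℝ) / (a * b * (b + c))) i j k)
      (-(2 * π) * (evLT (pjLT i j k B) y + evObs (pjLow i j k B) y)) y := by
  obtain ⟨hF, hA, hj, hk⟩ := fay_of_ok h
  have bW : Bd3 fun a b c => (B a b c : ℝ) / (a * b * (b + c)) :=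
    bd3q B (fun a b c => a * b * (b + c)) fun _ _ _ => by push_cast; rfl
  have b0 : Bd3 fun a b c => (B a b c : ℝ) / (b * (b + c)) :=
    bd3q B (fun a b c => b * (b + c)) fun _ _ _ => by push_cast; rfl
  have bV : Bd3 fun a b c => (B a b c : ℝ) / (a * (b + c)) :=
    bd3q B (fun a b c => a * (b + c)) fun _ _ _ => by push_cast; rfl
  have b1 : Bd3 fun a b c => (B a b c : ℝ) / (a * b) :=
    bd3q B (fun a b _ => a * b) fun _ _ _ => by push_cast; rfl
  have b1' : Bd3 fun c a b => (B a b c : ℝ) / (a * b) :=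
    bd3q (fun c a b => B a b c) (fun _ a b => a * b) fun _ _ _ => by push_cast; rfl
  have b2 : Bd2 fun a b => (B a b (-b) : ℝ) / (a * b) :=
    bd2q (fun a b => B a b (-b)) (fun a b => a * b) fun _ _ => by push_cast; rfl
  have b3 : Bd3 fun a b c => if b + c = 0 then (B a b (-b) : ℝ) / (a * b) else 0 :=
    (bd3q (fun a b _ => B a b (-b)) (fun a b _ => a * b) fun _ _ _ => by push_cast; rfl).ite _
  refine (S3_hasDerivAt bW.pg hi hj hk hy).congr_deriv ?_
  congr 1
  have e0 : S3 (fun a b c => a * ((B a b c : ℝ) / (a * b * (b + c)))) (i + 1) j k y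
      = S3 (fun a b c => (B a b c : ℝ) / (b * (b + c))) (i + 1) j k y := by
    refine S3_congr (fun a b c ha _ _ => ?_) _ _ _ _
    have ha' : (a : ℝ) ≠ 0 := by exact_mod_cast ha
    rw [mul_assoc, ← div_div, div_right_comm, mul_div_cancel₀ _ ha']
  have e1 : S3 (fun a b c => b * ((B a b c : ℝ) / (a * b * (b + c)))) i (j + 1) k y
      = S3 (fun a b c => (B a b c : ℝ) / (a * (b + c))) i (j + 1) k y := by
    refine S3_congr (fun a b c _ hb _ => ?_) _ _ _ _
    have hb' : (b : ℝ) ≠ 0 := by exact_mod_cast hb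
    rw [show (a : ℝ) * b * (b + c) = b * (a * (b + c)) by ring, ← div_div, div_right_comm,
      mul_div_cancel₀ _ hb']
  have e2 : S3 (fun a b c => c * ((B a b c : ℝ) / (a * b * (b + c)))) i j (k + 1) y
      = S3 (fun a b c => (B a b c : ℝ) / (a * b)) i j (k + 1) y
        + (-1) * S3 (fun a b c => if b + c = 0 then (B a b (-b) : ℝ) / (a * b) else 0) i j (k + 1) y
        + (-1) * S3 (fun a b c => (B a b c : ℝ) / (a * (b + c))) i j (k + 1) y := by
    rw [← S3_smul, ← S3_smul, ← S3_add b1.pg (b3.smul _).pg hi hj (by omega) hy,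
      ← S3_add (b1.add (b3.smul _)).pg (bV.smul _).pg hi hj (by omega) hy]
    refine S3_congr (fun a b c ha hb _ => ?_) _ _ _ _
    have ha' : (a : ℝ) ≠ 0 := by exact_mod_cast ha
    have hb' : (b : ℝ) ≠ 0 := by exact_mod_cast hb
    split_ifs with h0
    · obtain rfl : c = -b := by omega
      push_cast
      simp
    · have : (b : ℝ) + c ≠ 0 := by exact_mod_cast h0
      field_simp
      ring
  have e3 := fay3 hF hj hk hi bV hy
  have e4 := S3_anti hA hi b2 hy
  have e5 : evLT (pjLT i j k B) y = S3 (fun a b c => (B a b c : ℝ) / (b * (b + c))) (i + 1) j k y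
      + (S3 (fun a b c => (B a b c : ℝ) / (a * b)) i j (k + 1) y
      - ((FS j k).map fun e => (e.1 : ℝ) * S3 (fun s => sh2 e.2.2.2
        ((fun a b c : ℤ => (B a b c : ℝ) / (a * (b + c))) s)) i e.2.1 e.2.2.1 y).sum) := by
    simp only [evLT, pjLT, List.map_cons, List.sum_cons, List.map_map, Ob.ev]
    rw [S3_fubini b0.pg (by omega) hj hk hy, S3_swap23 _ i j, S3_swap12 _ i (k + 1),
      S3_fubini b1'.pg (by omega) hi hj hy, sub_eq_add_neg]
    congr 2
    refine sum_map_neg' _ fun e he => ?_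
    rw [S3_swap12, S3_fubini (bV.sh _).pg (hF.1 e he).1 hi (hF.1 e he).2 hy, ← neg_mul, ← S1_smul]
    simp only [Function.comp_apply]
    congr 1
    funext r
    rw [← S2_smul]
    congr 1
    funext c s
    simp only [sh2, shq]
    split_ifs <;> push_cast <;> ring_nf
  have e6 : evObs (pjLow i j k B) y
      = -((AD j (k + 1)).map fun f => (f.1 : ℝ) *
        S2 (fun a b => (B a b (-b) : ℝ) / (a * b)) i f.2 y).sum
      - ((FD j k).map fun e => (e.1 : ℝ) * S2 (fun s => dg2 e.2.2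
        ((fun a b c : ℤ => (B a b c : ℝ) / (a * (b + c))) s)) i e.2.1 y).sum := by
    simp only [evObs, pjLow, List.map_append, List.sum_append, List.map_map]
    rw [sub_eq_add_neg]
    congr 1
    · refine sum_map_neg' _ fun e _ => ?_
      simp only [Function.comp_apply, Ob.ev]
      rw [← neg_mul, ← S2_smul]
      congr 1
      funext a b
      push_cast
      ring
    · refine sum_map_neg' _ fun e _ => ?_
      simp only [Function.comp_apply, Ob.ev]
      rw [← neg_mul, ← S2_smul]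
      congr 1
      funext a b
      simp only [dg2, dgq]
      split_ifs <;> push_cast <;> simp <;> ring
  rw [e0, e1, e2, e4, e5, e6]
  linarith

lemma pq_deriv {n : ℕ} (hn : 1 ≤ n) (D : R6 → R6 → ℚ) {y : ℝ} (hy : 0 < y) :
    HasDerivAt (S2 (fun a b => (D a b : ℝ) / (a * b ^ 2)) n 1)
      (-(2 * π) * (evLT [(n + 1, fun r => Ob.p2 (D r) 1)] y + evObs [Ob.pp D n 2] y)) y := by
  have bW : Bd2 fun a b => (D a b : ℝ) / (a * b ^ 2) :=
    bd2q D (fun a b => a * b ^ 2) fun _ _ => by push_cast; rfl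
  have b0 : Bd2 fun a b => (D a b : ℝ) / b ^ 2 :=
    bd2q D (fun a b => b ^ 2) fun _ _ => by push_cast; rfl
  refine (S2_hasDerivAt bW.pg hn le_rfl hy).congr_deriv ?_
  congr 1
  simp only [evLT, evObs, List.map_cons, List.sum_cons, List.map_nil, List.sum_nil, add_zero, Ob.ev]
  rw [← S2_fubini b0.pg (by omega) le_rfl hy]
  congr 1
  · refine S2_congr (fun a b ha _ => ?_) _ _ _
    have : (a : ℝ) ≠ 0 := by exact_mod_cast ha
    rw [← div_div, div_right_comm, mul_div_cancel₀ _ this]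
  · refine S2_congr (fun a b ha hb => ?_) _ _ _
    have : (a : ℝ) ≠ 0 := by exact_mod_cast ha
    have : (b : ℝ) ≠ 0 := by exact_mod_cast hb
    field_simp

lemma bd1r (f : R6 → ℝ) : Bd1 fun m : ℤ => f m := by
  obtain ⟨C, hC⟩ := (Set.finite_range fun x => |f x|).bddAbove
  exact ⟨C, fun a => hC ⟨a, rfl⟩⟩

def theta (L : List (ℕ × (R6 → Ob))) (j : ℕ) (r : R6) : List Ob :=
  (L.filter fun e => e.1 == j).map fun e => e.2 r

lemma evLT_eq (L : List (ℕ × (R6 → Ob))) (h : ∀ e ∈ L, e.1 ∈ Finset.Icc 1 5) {y : ℝ} (hy : 0 < y) :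
    evLT L y = ∑ j ∈ Finset.Icc 1 5, S1 (fun m => evObs (theta L j m) y) j y := by
  induction L with
  | nil => simp [evLT, theta, evObs, S1]
  | cons e E ih =>
    have h1 := h e (by simp)
    have ih := ih fun e he => h e (by simp [he])
    have e1 : S1 (fun m => (e.2 m).ev y) e.1 y
        = ∑ t ∈ Finset.Icc 1 5, if e.1 = t then S1 (fun m => (e.2 m).ev y) t y else 0 := by
      simp only [Finset.sum_ite_eq, h1, if_true]
    simp only [evLT, List.map_cons, List.sum_cons] at ih ⊢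
    rw [ih, e1, ← Finset.sum_add_distrib]
    refine Finset.sum_congr rfl fun t ht => ?_
    unfold theta
    by_cases hij : e.1 = t
    · rw [List.filter_cons_of_pos (by simp [hij]), if_pos hij,
        ← S1_add (bd1r fun r => (e.2 r).ev y).pg (bd1r fun r => evObs
          ((E.filter fun e => e.1 == t).map fun e => e.2 r) y).pg (Finset.mem_Icc.1 ht).1 hy]
      rfl
    · rw [List.filter_cons_of_neg (by simpa using hij), if_neg hij, zero_add]

end Pool.Agent.P.MP_8d0004_nt.LR.D
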