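import Pool.Agent.P.MP_8d0004_nt.LR.Stm

/-! The localised functions, their moments, and three zeta values. -/

namespace Pool.Agent.P.MP_8d0004_nt.LR

open Real MeasureTheory Set Filter Topology

namespace E0

lemma den_ge {s : ℝ} (hs : 0 < s) : s * exp s ≤ exp (2 * π * s) - 1 := by
  have h1 : exp (s + s) ≤ exp (2 * π * s) := exp_le_exp.2 (by nlinarith [pi_gt_three])
  have h2 : s + 1 ≤ exp s := add_one_le_exp s
  rw [exp_add] at h1
  nlinarith [exp_pos s]

lemma den_pos {s : ℝ} (hs : 0 < s) : 0 < exp (2 * π * s) - 1 :=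
  lt_of_lt_of_le (by positivity) (den_ge hs)

lemma lam_pos {s : ℝ} (hs : 0 < s) : 0 < lam s := one_div_pos.2 (den_pos hs)

lemma Lw_le {s : ℝ} (hs : 0 < s) : s * lam s ≤ exp (-s) := by
  rw [lam, mul_one_div, div_le_iff₀ (den_pos hs)]
  calc s = exp (-s) * (s * exp s) := by rw [exp_neg]; field_simp
    _ ≤ _ := mul_le_mul_of_nonneg_left (den_ge hs) (exp_pos _).le

lemma lam_contAt {s : ℝ} (hs : 0 < s) : ContinuousAt lam s := by
  unfold lam
  exact continuousAt_const.div (by fun_prop) (den_pos hs).ne'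

lemma f_contOn (n : ℕ) : ContinuousOn (fun t : ℝ => t ^ n * lam t) (Ioi 0) := fun _ ht =>
  ((continuous_pow n).continuousAt.mul (lam_contAt ht)).continuousWithinAt

lemma f_int {n : ℕ} (hn : 1 ≤ n) : IntegrableOn (fun t : ℝ => t ^ n * lam t) (Ioi 0) := by
  obtain ⟨m, rfl⟩ := Nat.exists_eq_add_of_le' hn
  have h := GammaIntegral_convergent (s := (m : ℝ) + 1) (by positivity)
  refine h.mono' ((f_contOn _).aestronglyMeasurable measurableSet_Ioi) ?_
  filter_upwards [ae_restrict_mem measurableSet_Ioi] with t ht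
  have ht' : 0 < t := ht
  rw [Real.norm_of_nonneg (mul_nonneg (by positivity) (lam_pos ht').le), add_sub_cancel_right,
    rpow_natCast, pow_succ, mul_assoc, mul_comm (exp (-t))]
  exact mul_le_mul_of_nonneg_left (Lw_le ht') (by positivity)

lemma LC_nonneg (n : ℕ) {s : ℝ} (hs : 0 ≤ s) : 0 ≤ LC n s :=
  setIntegral_nonneg measurableSet_Ioi fun t ht =>
    have ht' : 0 < t := hs.trans_lt ht
    mul_nonneg (by positivity) (lam_pos ht').le

lemma LC_eq {n : ℕ} (hn : 1 ≤ n) {s : ℝ} (hs : 0 ≤ s) :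
    LC n s = LC n 0 - ∫ t in (0 : ℝ)..s, t ^ n * lam t := by
  have := intervalIntegral.integral_interval_add_Ioi (f_int hn)
    ((f_int hn).mono_set (Ioi_subset_Ioi hs))
  unfold LC
  linarith

lemma f_ii {n : ℕ} (hn : 1 ≤ n) {s : ℝ} (hs : 0 ≤ s) :
    IntervalIntegrable (fun t : ℝ => t ^ n * lam t) volume 0 s :=
  (intervalIntegrable_iff_integrableOn_Ioc_of_le hs).2 ((f_int hn).mono_set Ioc_subset_Ioi_self)

lemma LC_deriv {n : ℕ} (hn : 1 ≤ n) {s : ℝ} (hs : 0 < s) :
    HasDerivAt (LC n) (-(s ^ n * lam s)) s := by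
  have h := intervalIntegral.integral_hasDerivAt_right (f_ii hn hs.le)
    ((f_contOn n).stronglyMeasurableAtFilter isOpen_Ioi s hs)
    ((continuous_pow n).continuousAt.mul (lam_contAt hs))
  refine (h.const_sub (LC n 0)).congr_of_eventuallyEq ?_
  filter_upwards [Ioi_mem_nhds hs] with t ht
  exact LC_eq hn (le_of_lt ht)

lemma LC_cont {n : ℕ} (hn : 1 ≤ n) : ContinuousOn (LC n) (Ici 0) := by
  intro s hs
  rcases eq_or_lt_of_le (show (0 : ℝ) ≤ s from hs) with rfl | hs'
  · have h := intervalIntegral.continuousOn_primitive_interval' (f_ii hn zero_le_one)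
      left_mem_uIcc 0 left_mem_uIcc
    rw [uIcc_of_le zero_le_one] at h
    have h2 : ContinuousWithinAt (fun s => LC n 0 - ∫ t in (0 : ℝ)..s, t ^ n * lam t) (Ici 0) 0 :=
      continuousWithinAt_const.sub (h.mono_of_mem_nhdsWithin (Icc_mem_nhdsGE zero_lt_one))
    exact h2.congr (fun t ht => LC_eq hn ht) (LC_eq hn le_rfl)
  · exact (LC_deriv hn hs').continuousAt.continuousWithinAt

lemma LC_le {n : ℕ} (hn : 1 ≤ n) (N : ℕ) {s : ℝ} (hs : 0 < s) :
    s ^ N * LC n s ≤ LC (N + n) 0 := by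
  have hi := f_int (n := N + n) (by omega)
  have hsub := Ioi_subset_Ioi hs.le
  unfold LC
  rw [← integral_const_mul]
  calc ∫ t in Ioi s, s ^ N * (t ^ n * lam t) ≤ ∫ t in Ioi s, t ^ (N + n) * lam t := by
        refine setIntegral_mono_on (((f_int hn).mono_set hsub).const_mul _) (hi.mono_set hsub)
          measurableSet_Ioi fun t ht => ?_
        have ht' : s < t := ht
        have := (lam_pos (hs.trans ht')).le
        have ht0 := (hs.trans ht').le
        rw [pow_add, mul_assoc]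
        gcongr
    _ ≤ _ := by
        refine setIntegral_mono_set hi ?_ hsub.eventuallyLE
        filter_upwards [ae_restrict_mem measurableSet_Ioi] with t ht
        have ht' : 0 < t := ht
        exact mul_nonneg (by positivity) (lam_pos ht').le

lemma LC_bound {n : ℕ} (hn : 1 ≤ n) (N : ℕ) {s : ℝ} (hs : 0 < s) :
    |LC n s| ≤ LC (N + n) 0 / s ^ N := by
  rw [abs_of_nonneg (LC_nonneg n hs.le), le_div_iff₀ (by positivity), mul_comm]
  exact LC_le hn N hs

lemma tendsto_LC {n : ℕ} (hn : 1 ≤ n) (N : ℕ) :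
    Tendsto (fun s => s ^ N * LC n s) atTop (𝓝 0) := by
  have h : Tendsto (fun s : ℝ => LC (N + 1 + n) 0 / s) atTop (𝓝 0) :=
    tendsto_const_nhds.div_atTop tendsto_id
  refine squeeze_zero' ?_ ?_ h
  · filter_upwards [eventually_gt_atTop 0] with s hs
    exact mul_nonneg (by positivity) (LC_nonneg n hs.le)
  · filter_upwards [eventually_gt_atTop 0] with s hs
    rw [le_div_iff₀ hs]
    have := LC_le hn (N + 1) hs
    rw [pow_succ] at this
    linarith

lemma lam_hasSum {t : ℝ} (ht : 0 < t) :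
    HasSum (fun k : ℕ => exp (-(2 * π * ((k : ℝ) + 1) * t))) (lam t) := by
  have h1 := exp_lt_one' ht
  have h := (hasSum_geometric_of_lt_one (exp_pos _).le h1).mul_left (exp (-(2 * π * t)))
  convert! h using 1
  · funext k
    rw [← pow_succ', ← exp_nat_mul]
    congr 1
    push_cast; ring
  · have h2 := (den_pos ht).ne'
    have h3 : exp (2 * π * t) ≠ 0 := (exp_pos _).ne'
    rw [lam, exp_neg]
    field_simp

lemma term_int (n : ℕ) {r : ℝ} (hr : 0 < r) :
    ∫ t in Ioi (0 : ℝ), t ^ n * exp (-(r * t)) = n.factorial / r ^ (n + 1) := by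
  have h := integral_rpow_mul_exp_neg_mul_Ioi (a := (n : ℝ) + 1) (by positivity) hr
  simp only [add_sub_cancel_right, rpow_natCast] at h
  rw [h, Gamma_nat_eq_factorial, ← Nat.cast_succ, rpow_natCast, one_div, inv_pow, mul_comm,
    div_eq_mul_inv]

lemma term_integrable (n : ℕ) {r : ℝ} (hr : 0 < r) :
    IntegrableOn (fun t : ℝ => t ^ n * exp (-(r * t))) (Ioi 0) := by
  have h := integrableOn_rpow_mul_exp_neg_mul_rpow (s := n) (p := 1) (b := r)
    (lt_of_lt_of_le neg_one_lt_zero (Nat.cast_nonneg n)) one_pos hr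
  simpa using h

lemma zt_summable {m : ℕ} (hm : 2 ≤ m) : Summable fun k : ℕ => 1 / ((k : ℝ) + 1) ^ m := by
  have := (summable_nat_add_iff 1).2 (summable_one_div_nat_pow.2 (show 1 < m by omega))
  simpa using this

lemma LC_zero {n : ℕ} (hn : 1 ≤ n) :
    LC n 0 = n.factorial * zt (n + 1) / (2 * π) ^ (n + 1) := by
  have hr : ∀ k : ℕ, 0 < 2 * π * ((k : ℝ) + 1) := fun k => by positivity
  have hs := ((zt_summable (m := n + 1) (by omega)).hasSum.mul_left
    ((n.factorial : ℝ) / (2 * π) ^ (n + 1)))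
  have e : ∀ k : ℕ, ∫ t in Ioi (0 : ℝ), t ^ n * exp (-(2 * π * ((k : ℝ) + 1) * t)) =
      (n.factorial : ℝ) / (2 * π) ^ (n + 1) * (1 / ((k : ℝ) + 1) ^ (n + 1)) := by
    intro k
    rw [term_int n (hr k), mul_pow]
    field_simp
  have h := hasSum_integral_of_summable_integral_norm (μ := volume.restrict (Ioi (0 : ℝ)))
    (F := fun (k : ℕ) (t : ℝ) => t ^ n * exp (-(2 * π * ((k : ℝ) + 1) * t)))
    (fun k => term_integrable n (hr k)) (by
      refine hs.summable.congr fun k => ?_
      rw [← e k]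
      refine setIntegral_congr_fun measurableSet_Ioi fun t ht => ?_
      have ht' : 0 < t := ht
      exact (Real.norm_of_nonneg (by positivity)).symm)
  simp only [e] at h
  have e2 : LC n 0 = ∫ t in Ioi (0 : ℝ),
      ∑' k : ℕ, t ^ n * exp (-(2 * π * ((k : ℝ) + 1) * t)) :=
    setIntegral_congr_fun measurableSet_Ioi fun t ht =>
      ((lam_hasSum ht).mul_left (t ^ n)).tsum_eq.symm
  rw [e2, h.unique hs, zt]
  ring

lemma LC_moment {n : ℕ} (hn : 1 ≤ n) (d : ℕ) :
    ∫ s in Ioi (0 : ℝ), s ^ d * LC n s = LC (d + n + 1) 0 / (d + 1) := by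
  have hd : (d : ℝ) + 1 ≠ 0 := by positivity
  have hm : 1 ≤ d + n + 1 := by omega
  have h := integral_Ioi_of_hasDerivAt_of_nonneg (a := 0) (l := (0 - 0) / ((d : ℝ) + 1))
    (g := fun s => (s ^ (d + 1) * LC n s - LC (d + n + 1) s) / ((d : ℝ) + 1))
    (g' := fun s => s ^ d * LC n s)
    ((((continuous_pow _).continuousWithinAt.mul (LC_cont hn 0 self_mem_Ici)).sub
      (LC_cont hm 0 self_mem_Ici)).div_const _)
    (fun s hs => by
      have h1 := (((hasDerivAt_pow (d + 1) s).mul (LC_deriv hn hs)).sub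
        (LC_deriv hm hs)).div_const ((d : ℝ) + 1)
      refine h1.congr_deriv ?_
      simp only [Nat.add_sub_cancel]
      push_cast
      field_simp
      ring)
    (fun s hs => have hs' : 0 < s := hs; mul_nonneg (by positivity) (LC_nonneg n hs'.le))
    (((tendsto_LC hn (d + 1)).sub (by simpa using tendsto_LC hm 0)).div_const _)
  rw [h]
  simp [neg_div]

lemma zt_eq {m : ℕ} (hm : m ≠ 0) {c : ℝ} (h : HasSum (fun n : ℕ => 1 / (n : ℝ) ^ m) c) :
    zt m = c := by
  have := (hasSum_nat_add_iff' 1).2 h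
  simp only [Finset.range_one, Finset.sum_singleton, Nat.cast_zero, zero_pow hm, div_zero,
    sub_zero, Nat.cast_add, Nat.cast_one] at this
  exact this.tsum_eq

lemma bernoulli_six : bernoulli 6 = 1 / 42 := by
  have h5 : bernoulli' 5 = 0 := bernoulli'_eq_zero_of_odd (by decide) (by decide)
  rw [bernoulli_eq_bernoulli'_of_ne_one (by decide), bernoulli'_def]
  norm_num [Finset.sum_range_succ, h5, Nat.choose]

end E0

open E0 in
theorem stE0 : StE0 := by
  refine ⟨fun s hs => (continuousAt_id.mul (lam_contAt hs)).continuousWithinAt,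
    fun n hn => LC_cont hn, fun N => ⟨N.factorial, fun s hs => ?_⟩,
    fun n hn N => ⟨_, fun s hs => LC_bound hn N hs⟩, fun n hn s hs => LC_deriv hn hs,
    fun n hn => LC_zero hn, fun d => ?_, fun n hn d => ?_, zt_eq two_ne_zero hasSum_zeta_two,
    zt_eq (by decide) hasSum_zeta_four, ?_⟩
  · rw [Lw, abs_of_nonneg (mul_pos hs (lam_pos hs)).le]
    refine (Lw_le hs).trans ?_
    have h := pow_div_factorial_le_exp s hs.le N
    rw [div_le_iff₀ (by positivity)] at h
    rw [exp_neg, le_div_iff₀ (by positivity), inv_mul_le_iff₀ (exp_pos _)]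
    exact h
  · rw [← LC_zero (n := d + 1) (by omega), LC]
    congr 1
    funext s
    rw [Lw]; ring
  · rw [LC_moment hn d, LC_zero (n := d + n + 1) (by omega)]
  · rw [zt_eq (by decide) (hasSum_zeta_nat (k := 3) (by decide))]
    norm_num [bernoulli_six, Nat.factorial]
    ring

end Pool.Agent.P.MP_8d0004_nt.LR
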