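import Pool.Agent.P.MP_8d0004_nt.LR.E1b

/-! Inversion formulas for the twisted series. -/

namespace Pool.Agent.P.MP_8d0004_nt.LR

open Real MeasureTheory Set Filter Topology

namespace E1

noncomputable def Lw' (s : ℝ) : ℝ := (dslope (fun s => exp (2 * π * s)) 0 s)⁻¹

lemma Lw'_eq {s : ℝ} (hs : s ≠ 0) : Lw' s = Lw s := by
  simp [Lw', Lw, lam, dslope_of_ne _ hs, slope_def_field, div_eq_mul_inv]

lemma Lw'_cont : ContinuousOn Lw' (Ici 0) := by
  have hd : HasDerivAt (fun s : ℝ => exp (2 * π * s)) (2 * π) 0 := by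
    simpa using ((hasDerivAt_id' (0 : ℝ)).const_mul (2 * π)).exp
  have h1 : ContinuousOn (dslope (fun s : ℝ => exp (2 * π * s)) 0) univ :=
    (continuousOn_dslope univ_mem).2 ⟨Continuous.continuousOn (by fun_prop), hd.differentiableAt⟩
  refine (h1.mono (subset_univ _)).inv₀ fun s hs => ?_
  rcases eq_or_lt_of_le (show 0 ≤ s from hs) with h | h
  · rw [← h, dslope_same, hd.deriv]
    positivity
  · rw [dslope_of_ne _ h.ne', slope_def_field]
    have : 1 < exp (2 * π * s) := one_lt_exp_iff.2 (by positivity)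
    simp only [mul_zero, exp_zero, sub_zero]
    exact div_ne_zero (by linarith) h.ne'

lemma integrableOn_lam (h0 : StE0) (k : ℕ) :
    IntegrableOn (fun t => t ^ (k + 1) * lam t) (Ioi 0) := by
  obtain ⟨C0, b0⟩ := h0.2.2.1 k
  obtain ⟨C2, b2⟩ := h0.2.2.1 (k + 2)
  have e : (fun t : ℝ => t ^ (k + 1) * lam t) = fun t => t ^ k * Lw t := by
    funext t
    rw [Lw, pow_succ, mul_assoc]
  rw [e]
  refine integrableOn_of_bounds (C0 := C0) (C := C2)
    ((continuousOn_pow k).mul h0.1) (fun s hs => ?_) (fun s hs => ?_)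
  · have := b0 s hs
    rw [le_div_iff₀ (by positivity)] at this
    rw [abs_mul, abs_of_pos (pow_pos hs k)]
    linarith
  · have := b2 s hs
    rw [le_div_iff₀ (by positivity)] at this ⊢
    rw [abs_mul, abs_of_pos (pow_pos hs k)]
    rw [pow_add] at this
    linarith

lemma cos_one' (h0 : StE0) {x : ℝ} (hx : x ≠ 0) :
    2 * ∫ t : ℝ in Ioi 0, t ^ 1 * lam t * cos (2 * π * x * t) = 1 / (2 * π * x) ^ 2 - K 1 x := by
  rcases lt_or_gt_of_ne hx with h | h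
  · have := cos_one (neg_pos.2 h) (integrableOn_lam h0 0)
    rw [K_neg] at this
    simp only [mul_neg, neg_mul, cos_neg] at this
    linear_combination this
  · exact cos_one h (integrableOn_lam h0 0)

lemma sin_two' (h0 : StE0) {x : ℝ} (hx : x ≠ 0) :
    2 * ∫ t : ℝ in Ioi 0, t ^ 2 * lam t * sin (2 * π * x * t) = 2 / (2 * π * x) ^ 3 - K 2 x := by
  rcases lt_or_gt_of_ne hx with h | h
  · have := sin_two (neg_pos.2 h) (integrableOn_lam h0 1)
    rw [K_neg] at this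
    simp only [mul_neg, neg_mul, sin_neg, integral_neg] at this
    linear_combination -this
  · exact sin_two h (integrableOn_lam h0 1)

lemma sin_four' (h0 : StE0) {x : ℝ} (hx : x ≠ 0) :
    2 * ∫ t : ℝ in Ioi 0, t ^ 4 * lam t * sin (2 * π * x * t) = K 4 x - 24 / (2 * π * x) ^ 5 := by
  rcases lt_or_gt_of_ne hx with h | h
  · have := sin_four (neg_pos.2 h) (integrableOn_lam h0 3)
    rw [K_neg] at this
    simp only [mul_neg, neg_mul, sin_neg, integral_neg] at this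
    linear_combination -this
  · exact sin_four h (integrableOn_lam h0 3)

lemma parts (h0 : StE0) (k : ℕ) {x : ℝ} (hx : x ≠ 0) :
    2 * ∫ s : ℝ in Ioi 0, LC (k + 1) s * cos (2 * π * x * s) =
      (2 * ∫ t : ℝ in Ioi 0, t ^ (k + 1) * lam t * sin (2 * π * x * t)) / (2 * π * x) := by
  have hn : 1 ≤ k + 1 := Nat.le_add_left 1 k
  have hp : 2 * π * x ≠ 0 := mul_ne_zero (by positivity) hx
  obtain ⟨C0, b0⟩ := h0.2.2.2.1 _ hn 0
  obtain ⟨C1, b1⟩ := h0.2.2.2.1 _ hn 1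
  obtain ⟨C2, b2⟩ := h0.2.2.2.1 _ hn 2
  have hc := h0.2.1 _ hn
  have i1 : IntegrableOn (LC (k + 1)) (Ioi 0) :=
    integrableOn_of_bounds (C0 := C0) (hc.mono Ioi_subset_Ici_self) (by simpa using b0) b2
  have hsb : ∀ s : ℝ, ‖sin (2 * π * x * s) / (2 * π * x)‖ ≤ 1 / |2 * π * x| := fun s => by
    rw [Real.norm_eq_abs, abs_div]
    exact div_le_div_of_nonneg_right (abs_sin_le_one _) (abs_nonneg _)
  have h := integral_Ioi_mul_deriv_eq_deriv_mul (a := 0) (a' := 0) (b' := 0) (u := LC (k + 1))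
    (u' := fun s => -(s ^ (k + 1) * lam s)) (v := fun s => sin (2 * π * x * s) / (2 * π * x))
    (v' := fun s => cos (2 * π * x * s)) (fun s hs => h0.2.2.2.2.1 _ hn s hs)
    (fun s _ => by
      refine ((((hasDerivAt_id' s).const_mul (2 * π * x)).sin).div_const (2 * π * x)).congr_deriv ?_
      rw [mul_one, mul_div_cancel_right₀ _ hp])
    (i1.mul_bdd (c := 1) (Continuous.aestronglyMeasurable (by fun_prop))
      (ae_of_all _ fun t => abs_cos_le_one _))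
    ((integrableOn_lam h0 k).neg.mul_bdd (Continuous.aestronglyMeasurable (by fun_prop))
      (ae_of_all _ hsb))
    (by
      have h1 : Tendsto (LC (k + 1)) (𝓝[>] 0) (𝓝 (LC (k + 1) 0)) :=
        (hc 0 self_mem_Ici).mono_left (nhdsWithin_mono _ Ioi_subset_Ici_self)
      have h2 : Tendsto (fun s : ℝ => sin (2 * π * x * s) / (2 * π * x)) (𝓝[>] 0) (𝓝 0) := by
        have : Continuous fun s : ℝ => sin (2 * π * x * s) / (2 * π * x) := by fun_prop
        simpa using (this.tendsto 0).mono_left nhdsWithin_le_nhds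
      have h3 := h1.mul h2
      rw [mul_zero] at h3
      exact h3)
    (by
      have h1 : Tendsto (LC (k + 1)) atTop (𝓝 0) := by
        refine squeeze_zero_norm' (a := fun s => C1 / s) ?_ (tendsto_const_nhds.div_atTop tendsto_id)
        filter_upwards [eventually_gt_atTop 0] with s hs
        simpa using b1 s hs
      exact h1.zero_mul_isBoundedUnder_le (isBoundedUnder_of ⟨_, hsb⟩))
  rw [h]
  simp only [neg_mul, integral_neg, ← mul_div_assoc, integral_div]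
  ring

lemma hasSum_zero_term (a v : ℝ) :
    HasSum (fun m : ℤ => (if m = 0 then a else 0) * cos (2 * π * m * v)) a :=
  hs_congr (hasSum_ite_eq (0 : ℤ) a) (fun m => by split_ifs with h <;> simp [h]) rfl

lemma pg_cos (v : ℝ) : PG1 fun m => cos (2 * π * m * v) := PG1_of_bdd 1 fun _ => abs_cos_le_one _

lemma pg_cos_div (v : ℝ) : PG1 fun m => cos (2 * π * m * v) / m :=
  PG1_of_bdd 1 fun _ => (abs_div_int_le _ _).trans (abs_cos_le_one _)

lemma pg_sin_div (v : ℝ) : PG1 fun m => sin (2 * π * m * v) / m :=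
  PG1_of_bdd 1 fun _ => (abs_div_int_le _ _).trans (abs_sin_le_one _)

lemma exact_of {L : ℝ → ℝ} (hL : ContinuousOn L (Ici 0))
    (hb : ∀ N : ℕ, ∃ C, ∀ s, 0 < s → |L s| ≤ C / s ^ N) {y : ℝ} (hy : 0 < y) {c : ℤ → ℝ}
    (hc : ∀ m : ℤ, 2 * ∫ s in Ioi (0 : ℝ), L s * cos (2 * π * (m * y) * s) = c m) {G : ℝ → ℝ}
    (hG : ∀ v ∈ Icc (0 : ℝ) 1, HasSum (fun m : ℤ => c m * cos (2 * π * m * v)) (G v)) {v : ℝ}
    (hv : v ∈ Icc (0 : ℝ) 1) : ∑' l : ℤ, L (|v + l| / y) = y * G v := by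
  obtain ⟨C0, b0⟩ := hb 0
  obtain ⟨C2, b2⟩ := hb 2
  rw [poisson hL (C0 := C0) (by simpa using b0) b2 hy hc
    (by simpa using (hG 0 ⟨le_rfl, zero_le_one⟩).summable), (hG v hv).tsum_eq]

lemma Lw'_bd (h0 : StE0) (N : ℕ) : ∃ C, ∀ s, 0 < s → |Lw' s| ≤ C / s ^ N := by
  obtain ⟨C, h⟩ := h0.2.2.1 N
  exact ⟨C, fun s hs => by rw [Lw'_eq hs.ne']; exact h s hs⟩

lemma exact_w (h0 : StE0) {y : ℝ} (hy : 0 < y) {v : ℝ} (hv : v ∈ Icc (0 : ℝ) 1) :
    ∑' l : ℤ, Lw' (|v + l| / y) = y * ((v ^ 2 - v + 1 / 6) / (2 * y ^ 2) - wS y v + 1 / 12) := by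
  refine exact_of Lw'_cont (Lw'_bd h0) hy
    (c := fun m => 1 / (2 * π * (m * y)) ^ 2 - K 1 (m * y) + if m = 0 then 1 / 12 else 0)
    (fun m => ?_) (G := fun v => (v ^ 2 - v + 1 / 6) / (2 * y ^ 2) - wS y v + 1 / 12)
    (fun v hv => ?_) hv
  · rw [setIntegral_congr_fun (g := fun t => t ^ 1 * lam t * cos (2 * π * (m * y) * t))
      measurableSet_Ioi fun t ht => by simp only [Lw'_eq (ne_of_gt ht), Lw, pow_one]]
    split_ifs with h
    · have h1 := h0.2.2.2.2.2.2.1 0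
      rw [h0.2.2.2.2.2.2.2.2.1] at h1
      simp only [pow_zero, one_mul, Lw] at h1
      simp only [h, Int.cast_zero, zero_mul, mul_zero, cos_zero, mul_one, pow_one, h1, K_zero]
      have := pi_ne_zero
      norm_num
      field_simp
      norm_num
    · rw [cos_one' h0 (mul_ne_zero (Int.cast_ne_zero.2 h) hy.ne'), add_zero]
  · refine hs_congr ((((hasSum_cos le_rfl hv).mul_left (1 / (2 * π * y) ^ 2)).sub
      (summable_S1 (pg_cos v) le_rfl hy).hasSum).add (hasSum_zero_term (1 / 12) v))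
      (fun m => by ring) ?_
    have := pi_ne_zero
    simp only [wS, S1, mul_one, bernoulliFun_two, Nat.factorial_two]
    congr 2
    field_simp
    ring

lemma exact_r2 (h0 : StE0) {y : ℝ} (hy : 0 < y) {v : ℝ} (hv : v ∈ Icc (0 : ℝ) 1) :
    ∑' l : ℤ, LC 2 (|v + l| / y) = y * (-(v ^ 4 - 2 * v ^ 3 + v ^ 2 - 1 / 30) / (12 * y ^ 4) -
      1 / (2 * π * y) * rS 2 y v + 1 / 120) := by
  refine exact_of (h0.2.1 2 one_le_two) (h0.2.2.2.1 2 one_le_two) hy
    (c := fun m => (2 / (2 * π * (m * y)) ^ 3 - K 2 (m * y)) / (2 * π * (m * y)) +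
      if m = 0 then 1 / 120 else 0)
    (fun m => ?_) (G := fun v => -(v ^ 4 - 2 * v ^ 3 + v ^ 2 - 1 / 30) / (12 * y ^ 4) -
      1 / (2 * π * y) * rS 2 y v + 1 / 120) (fun v hv => ?_) hv
  · split_ifs with h
    · have h1 := h0.2.2.2.2.2.2.2.1 2 one_le_two 0
      rw [h0.2.2.2.2.2.2.2.2.2.1] at h1
      simp only [pow_zero, one_mul] at h1
      simp only [h, Int.cast_zero, zero_mul, mul_zero, cos_zero, mul_one, h1, div_zero]
      have := pi_ne_zero
      norm_num [Nat.factorial]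
      field_simp
      norm_num
    · have hx : (m : ℝ) * y ≠ 0 := mul_ne_zero (Int.cast_ne_zero.2 h) hy.ne'
      rw [parts h0 1 hx, sin_two' h0 hx, add_zero]
  · refine hs_congr ((((hasSum_cos one_le_two hv).mul_left (2 / (2 * π * y) ^ 4)).sub
      ((summable_S1 (pg_cos_div v) one_le_two hy).hasSum.mul_left (1 / (2 * π * y)))).add
      (hasSum_zero_term (1 / 120) v)) (fun m => by ring) ?_
    have := pi_ne_zero
    simp only [rS, S1, Nat.reduceMul, bfun4]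
    congr 2
    norm_num [Nat.factorial]
    field_simp
    ring

lemma exact_r4 (h0 : StE0) {y : ℝ} (hy : 0 < y) {v : ℝ} (hv : v ∈ Icc (0 : ℝ) 1) :
    ∑' l : ℤ, LC 4 (|v + l| / y) =
      y * (-(v ^ 6 - 3 * v ^ 5 + 5 / 2 * v ^ 4 - v ^ 2 / 2 + 1 / 42) / (30 * y ^ 6) +
        1 / (2 * π * y) * rS 4 y v + 1 / 252) := by
  have h4 : 1 ≤ 4 := by norm_num
  refine exact_of (h0.2.1 4 h4) (h0.2.2.2.1 4 h4) hy
    (c := fun m => (K 4 (m * y) - 24 / (2 * π * (m * y)) ^ 5) / (2 * π * (m * y)) +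
      if m = 0 then 1 / 252 else 0)
    (fun m => ?_) (G := fun v =>
      -(v ^ 6 - 3 * v ^ 5 + 5 / 2 * v ^ 4 - v ^ 2 / 2 + 1 / 42) / (30 * y ^ 6) +
        1 / (2 * π * y) * rS 4 y v + 1 / 252) (fun v hv => ?_) hv
  · split_ifs with h
    · have h1 := h0.2.2.2.2.2.2.2.1 4 h4 0
      rw [h0.2.2.2.2.2.2.2.2.2.2] at h1
      simp only [pow_zero, one_mul] at h1
      simp only [h, Int.cast_zero, zero_mul, mul_zero, cos_zero, mul_one, h1, div_zero]
      have := pi_ne_zero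
      norm_num [Nat.factorial]
      field_simp
      norm_num
    · have hx : (m : ℝ) * y ≠ 0 := mul_ne_zero (Int.cast_ne_zero.2 h) hy.ne'
      rw [parts h0 3 hx, sin_four' h0 hx, add_zero]
  · refine hs_congr ((((hasSum_cos (j := 3) (by norm_num) hv).mul_left
      (-24 / (2 * π * y) ^ 6)).add
      ((summable_S1 (pg_cos_div v) h4 hy).hasSum.mul_left (1 / (2 * π * y)))).add
      (hasSum_zero_term (1 / 252) v)) (fun m => by ring) ?_
    have := pi_ne_zero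
    simp only [rS, S1, Nat.reduceMul, bfun6]
    congr 2
    norm_num [Nat.factorial]
    field_simp
    ring

lemma pow_bd {a C y : ℝ} {N k : ℕ} (hy : y ∈ Ioc (0 : ℝ) 1) (h : |a| ≤ C * y ^ (N + k)) :
    |a| ≤ C * y ^ N := by
  have hC : 0 ≤ C := nonneg_of_mul_nonneg_left ((abs_nonneg a).trans h) (pow_pos hy.1 _)
  exact h.trans (mul_le_mul_of_nonneg_left (pow_le_pow_of_le_one hy.1.le hy.2 (by omega)) hC)

lemma est_w (h0 : StE0) (N : ℕ) : ∃ C, ∀ y ∈ Ioc (0 : ℝ) 1, ∀ v ∈ Ioo (0 : ℝ) 1,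
    |wS y v - ((v ^ 2 - v + 1 / 6) / (2 * y ^ 2) + 1 / 12
      - (Lw (v / y) + Lw ((1 - v) / y)) / y)| ≤ C * y ^ N := by
  obtain ⟨C, h⟩ := Lw'_bd h0 (N + 2)
  refine ⟨2 * C * (π ^ 2 / 6), fun y hy v hv => pow_bd (k := 1) hy ?_⟩
  have h1 := tail h hy.1 (Ioo_subset_Icc_self hv)
  rw [exact_w h0 hy.1 (Ioo_subset_Icc_self hv), Lw'_eq (div_pos hv.1 hy.1).ne',
    Lw'_eq (div_pos (sub_pos.2 hv.2) hy.1).ne'] at h1
  have e : wS y v - ((v ^ 2 - v + 1 / 6) / (2 * y ^ 2) + 1 / 12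
      - (Lw (v / y) + Lw ((1 - v) / y)) / y) =
      -(y * ((v ^ 2 - v + 1 / 6) / (2 * y ^ 2) - wS y v + 1 / 12) -
        (Lw (v / y) + Lw ((1 - v) / y))) / y := by
    have := hy.1.ne'
    field_simp
    ring
  rw [e, abs_div, abs_neg, abs_of_pos hy.1, div_le_iff₀ hy.1, mul_assoc _ _ y, ← pow_succ]
  exact h1

lemma est_r2 (h0 : StE0) (N : ℕ) : ∃ C, ∀ y ∈ Ioc (0 : ℝ) 1, ∀ v ∈ Icc (0 : ℝ) 1,
    |rS 2 y v - 2 * π * (-(v ^ 4 - 2 * v ^ 3 + v ^ 2 - 1 / 30) / (12 * y ^ 3)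
      + y / 120 - LC 2 (v / y) - LC 2 ((1 - v) / y))| ≤ C * y ^ N := by
  obtain ⟨C, h⟩ := h0.2.2.2.1 2 one_le_two (N + 2)
  refine ⟨2 * π * (2 * C * (π ^ 2 / 6)), fun y hy v hv => pow_bd (k := 2) hy ?_⟩
  have h1 := tail h hy.1 hv
  rw [exact_r2 h0 hy.1 hv] at h1
  have e : rS 2 y v - 2 * π * (-(v ^ 4 - 2 * v ^ 3 + v ^ 2 - 1 / 30) / (12 * y ^ 3)
      + y / 120 - LC 2 (v / y) - LC 2 ((1 - v) / y)) =
      -(2 * π * (y * (-(v ^ 4 - 2 * v ^ 3 + v ^ 2 - 1 / 30) / (12 * y ^ 4) -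
        1 / (2 * π * y) * rS 2 y v + 1 / 120) - (LC 2 (v / y) + LC 2 ((1 - v) / y)))) := by
    have := hy.1.ne'
    have := pi_ne_zero
    field_simp
    ring
  rw [e, abs_neg, abs_mul, abs_of_pos (show 0 < 2 * π by positivity), mul_assoc (2 * π)]
  exact mul_le_mul_of_nonneg_left h1 (by positivity)

lemma est_r4 (h0 : StE0) (N : ℕ) : ∃ C, ∀ y ∈ Ioc (0 : ℝ) 1, ∀ v ∈ Icc (0 : ℝ) 1,
    |rS 4 y v + 2 * π *
      (-(v ^ 6 - 3 * v ^ 5 + 5 / 2 * v ^ 4 - v ^ 2 / 2 + 1 / 42) / (30 * y ^ 5)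
      + y / 252 - LC 4 (v / y) - LC 4 ((1 - v) / y))| ≤ C * y ^ N := by
  obtain ⟨C, h⟩ := h0.2.2.2.1 4 (by norm_num) (N + 2)
  refine ⟨2 * π * (2 * C * (π ^ 2 / 6)), fun y hy v hv => pow_bd (k := 2) hy ?_⟩
  have h1 := tail h hy.1 hv
  rw [exact_r4 h0 hy.1 hv] at h1
  have e : rS 4 y v + 2 * π *
      (-(v ^ 6 - 3 * v ^ 5 + 5 / 2 * v ^ 4 - v ^ 2 / 2 + 1 / 42) / (30 * y ^ 5)
      + y / 252 - LC 4 (v / y) - LC 4 ((1 - v) / y)) =
      2 * π * (y * (-(v ^ 6 - 3 * v ^ 5 + 5 / 2 * v ^ 4 - v ^ 2 / 2 + 1 / 42) / (30 * y ^ 6) +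
        1 / (2 * π * y) * rS 4 y v + 1 / 252) - (LC 4 (v / y) + LC 4 ((1 - v) / y))) := by
    have := hy.1.ne'
    have := pi_ne_zero
    field_simp
    ring
  rw [e, abs_mul, abs_of_pos (show 0 < 2 * π by positivity), mul_assoc (2 * π)]
  exact mul_le_mul_of_nonneg_left h1 (by positivity)

lemma pS_hasDerivAt {y : ℝ} (hy : 0 < y) (v : ℝ) : HasDerivAt (pS y) (2 * π * wS y v) v := by
  have h := hasDerivAt_tsum (u := fun m : ℤ => 2 * π * |1 * K 1 (m * y)|)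
    (g := fun (m : ℤ) (v : ℝ) => sin (2 * π * m * v) / m * K 1 (m * y))
    (g' := fun (m : ℤ) (v : ℝ) => 2 * π * (cos (2 * π * m * v) * K 1 (m * y))) (y₀ := 0)
    ((summable_S1 (W := fun _ => 1) (PG1_of_bdd 1 (by simp)) le_rfl hy).abs.mul_left _)
    (fun m v => by
      refine (((((hasDerivAt_id' v).const_mul (2 * π * m)).sin).div_const (m : ℝ)).mul_const
        (K 1 (m * y))).congr_deriv ?_
      by_cases hm : m = 0
      · simp [hm]
      · have : (m : ℝ) ≠ 0 := Int.cast_ne_zero.2 hm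
        field_simp)
    (fun m v => by
      rw [norm_mul, norm_mul (cos _), Real.norm_of_nonneg (by positivity), one_mul]
      exact mul_le_mul_of_nonneg_left
        (mul_le_of_le_one_left (norm_nonneg _) (abs_cos_le_one _)) (by positivity))
    (summable_S1 (pg_sin_div 0) le_rfl hy) v
  rw [tsum_mul_left] at h
  exact h

lemma pS_half (y : ℝ) : pS y (1 / 2) = 0 := by
  have : ∀ m : ℤ, sin (2 * π * m * (1 / 2)) = 0 := fun m => by
    rw [show 2 * π * m * (1 / 2) = m * π by ring, sin_int_mul_pi]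
  simp only [pS, S1, this, zero_div, zero_mul, tsum_zero]

lemma est_p (h0 : StE0) (N : ℕ) : ∃ C, ∀ y ∈ Ioc (0 : ℝ) 1, ∀ v ∈ Ioo (0 : ℝ) 1,
    |pS y v - 2 * π * ((v ^ 3 - 3 / 2 * v ^ 2 + v / 2) / (6 * y ^ 2)
      + (v - 1 / 2) / 12 + LC 1 (v / y) - LC 1 ((1 - v) / y))| ≤ C * y ^ N := by
  obtain ⟨C, h⟩ := est_w h0 N
  refine ⟨2 * π * C, fun y hy v hv => ?_⟩
  have hd : ∀ u ∈ Ioo (0 : ℝ) 1, HasDerivWithinAt
      (fun v => pS y v - 2 * π * ((v ^ 3 - 3 / 2 * v ^ 2 + v / 2) / (6 * y ^ 2)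
        + (v - 1 / 2) / 12 + LC 1 (v / y) - LC 1 ((1 - v) / y)))
      (2 * π * (wS y u - ((u ^ 2 - u + 1 / 6) / (2 * y ^ 2) + 1 / 12
        - (Lw (u / y) + Lw ((1 - u) / y)) / y))) (Ioo 0 1) u := fun u hu => by
    have d1 := (h0.2.2.2.2.1 1 le_rfl _ (div_pos hu.1 hy.1)).comp u ((hasDerivAt_id' u).div_const y)
    have d2 := (h0.2.2.2.2.1 1 le_rfl _ (div_pos (sub_pos.2 hu.2) hy.1)).comp u
      (((hasDerivAt_id' u).const_sub 1).div_const y)
    have d3 := ((((hasDerivAt_pow 3 u).sub ((hasDerivAt_pow 2 u).const_mul (3 / 2))).add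
      ((hasDerivAt_id' u).div_const 2)).div_const (6 * y ^ 2)).add
      (((hasDerivAt_id' u).sub_const (1 / 2)).div_const 12)
    refine (((pS_hasDerivAt hy.1 u).sub (((d3.add d1).sub d2).const_mul (2 * π))).congr_deriv
      ?_).hasDerivWithinAt
    simp only [Lw]
    push_cast
    ring
  have hb : ∀ u ∈ Ioo (0 : ℝ) 1, ‖2 * π * (wS y u - ((u ^ 2 - u + 1 / 6) / (2 * y ^ 2) + 1 / 12
      - (Lw (u / y) + Lw ((1 - u) / y)) / y))‖ ≤ 2 * π * C * y ^ N := fun u hu => by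
    rw [norm_mul, Real.norm_of_nonneg (by positivity), mul_assoc (2 * π)]
    exact mul_le_mul_of_nonneg_left (h y hy u hu) (by positivity)
  have hh : (1 / 2 : ℝ) ∈ Ioo (0 : ℝ) 1 := by constructor <;> norm_num
  have h1 := (convex_Ioo (0 : ℝ) 1).norm_image_sub_le_of_norm_hasDerivWithin_le hd hb hh hv
  have h2 : ‖v - 1 / 2‖ ≤ 1 := by
    rw [Real.norm_eq_abs, abs_le]
    constructor <;> linarith [hv.1, hv.2]
  have h3 : (0 : ℝ) ≤ 2 * π * C * y ^ N := (norm_nonneg _).trans (hb v hv)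
  rw [pS_half, show (1 : ℝ) - 1 / 2 = 1 / 2 by norm_num] at h1
  refine le_trans (le_of_eq ?_) (h1.trans (mul_le_of_le_one_right h3 h2))
  rw [Real.norm_eq_abs]
  congr 1
  ring

end E1

open E1 in
theorem stE1 (h0 : StE0) : StE1 := by
  intro N
  obtain ⟨C1, h1⟩ := est_w h0 N
  obtain ⟨C2, h2⟩ := est_p h0 N
  obtain ⟨C3, h3⟩ := est_r2 h0 N
  obtain ⟨C4, h4⟩ := est_r4 h0 N
  refine ⟨max (max C1 C2) (max C3 C4), fun y hy => ?_⟩
  have hp : 0 ≤ y ^ N := (pow_pos hy.1 N).le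
  exact ⟨fun v hv => (h1 y hy v hv).trans
      (mul_le_mul_of_nonneg_right ((le_max_left _ _).trans (le_max_left _ _)) hp),
    fun v hv => (h2 y hy v hv).trans
      (mul_le_mul_of_nonneg_right ((le_max_right _ _).trans (le_max_left _ _)) hp),
    fun v hv => (h3 y hy v hv).trans
      (mul_le_mul_of_nonneg_right ((le_max_left _ _).trans (le_max_right _ _)) hp),
    fun v hv => (h4 y hy v hv).trans
      (mul_le_mul_of_nonneg_right ((le_max_right _ _).trans (le_max_right _ _)) hp)⟩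

end Pool.Agent.P.MP_8d0004_nt.LR
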