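import Pool.Agent.P.MP_8d0004_nt.LR.Stm

/-! Fourier transforms of the localised functions and Poisson summation. -/

namespace Pool.Agent.P.MP_8d0004_nt.LR

open Real MeasureTheory Set Filter Topology

namespace E1

lemma hs_congr {ι E : Type*} [AddCommMonoid E] [TopologicalSpace E] {f g : ι → E} {a b : E}
    (h : HasSum f a) (h1 : ∀ i, g i = f i) (h2 : b = a) : HasSum g b := by
  rw [h2, funext h1]
  exact h

lemma integrableOn_pow_exp (n : ℕ) {b : ℝ} (hb : 0 < b) :
    IntegrableOn (fun t : ℝ => t ^ n * exp (-b * t)) (Ioi 0) := by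
  have h := integrableOn_rpow_mul_exp_neg_mul_rpow (s := n) (p := 1)
    (by have := Nat.cast_nonneg (α := ℝ) n; linarith) one_pos hb
  simpa only [rpow_natCast, rpow_one] using h

lemma norm_pow_cexp (n : ℕ) (c : ℂ) {t : ℝ} (ht : 0 ≤ t) :
    ‖(t : ℂ) ^ n * Complex.exp (-c * t)‖ = t ^ n * exp (-c.re * t) := by
  rw [norm_mul, norm_pow, Complex.norm_real, Real.norm_of_nonneg ht, Complex.norm_exp]
  simp

lemma integrableOn_pow_cexp (n : ℕ) {c : ℂ} (hc : 0 < c.re) :
    IntegrableOn (fun t : ℝ => (t : ℂ) ^ n * Complex.exp (-c * t)) (Ioi 0) := by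
  refine Integrable.mono' (integrableOn_pow_exp n hc) (Continuous.aestronglyMeasurable (by fun_prop))
    ((ae_restrict_iff' measurableSet_Ioi).2 (ae_of_all _ fun t ht => ?_))
  exact (norm_pow_cexp n c (le_of_lt ht)).le

lemma integral_pow_cexp (n : ℕ) {c : ℂ} (hc : 0 < c.re) :
    ∫ t : ℝ in Ioi 0, (t : ℂ) ^ n * Complex.exp (-c * t) = n.factorial / c ^ (n + 1) := by
  have hc0 : c ≠ 0 := by
    rintro rfl
    simp at hc
  induction n with
  | zero =>
    have := integral_exp_mul_complex_Ioi (a := -c) (by simpa using hc) 0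
    simpa using this
  | succ n ih =>
    have hd : ∀ t : ℝ, HasDerivAt (fun t : ℝ => (t : ℂ) ^ (n + 1) * Complex.exp (-c * t))
        ((n + 1 : ℂ) * ((t : ℂ) ^ n * Complex.exp (-c * t)) -
          c * ((t : ℂ) ^ (n + 1) * Complex.exp (-c * t))) t := fun t => by
      have h1 : HasDerivAt (fun z : ℂ => z ^ (n + 1) * Complex.exp (-c * z))
          ((n + 1 : ℂ) * ((t : ℂ) ^ n * Complex.exp (-c * t)) -
            c * ((t : ℂ) ^ (n + 1) * Complex.exp (-c * t))) t := by
        refine ((hasDerivAt_pow (n + 1) (t : ℂ)).mul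
          ((hasDerivAt_id' (t : ℂ)).const_mul (-c)).cexp).congr_deriv ?_
        push_cast
        ring
      exact h1.comp_ofReal
    have i1 := (integrableOn_pow_cexp n hc).const_mul (n + 1 : ℂ)
    have i2 := (integrableOn_pow_cexp (n + 1) hc).const_mul c
    have hlim : Tendsto (fun t : ℝ => (t : ℂ) ^ (n + 1) * Complex.exp (-c * t)) atTop (𝓝 0) := by
      rw [tendsto_zero_iff_norm_tendsto_zero]
      refine (tendsto_rpow_mul_exp_neg_mul_atTop_nhds_zero ((n + 1 : ℕ) : ℝ) c.re hc).congr' ?_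
      filter_upwards [eventually_ge_atTop 0] with t ht
      rw [norm_pow_cexp _ _ ht, rpow_natCast]
    have h := integral_Ioi_of_hasDerivAt_of_tendsto (hd 0).continuousAt.continuousWithinAt
      (fun t _ => hd t) (i1.sub i2) hlim
    rw [integral_sub i1 i2, integral_const_mul, integral_const_mul, ih] at h
    rw [Nat.factorial_succ]
    push_cast
    simp only [Complex.ofReal_zero, ne_eq, Nat.add_eq_zero_iff, one_ne_zero, and_false,
      not_false_eq_true, zero_pow, zero_mul, sub_zero] at h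
    field_simp
    field_simp at h
    linear_combination -h

lemma integral_pow_exp (n : ℕ) {b : ℝ} (hb : 0 < b) :
    ∫ t : ℝ in Ioi 0, t ^ n * exp (-b * t) = n.factorial / b ^ (n + 1) := by
  apply Complex.ofReal_injective
  rw [← integral_complex_ofReal]
  push_cast
  exact integral_pow_cexp n (by simpa using hb)

lemma hasSum_lam {t : ℝ} (ht : 0 < t) :
    HasSum (fun k : ℕ => exp (-(2 * π * (k + 1)) * t)) (lam t) := by
  have h := (hasSum_geometric_of_lt_one (exp_pos _).le (exp_lt_one' ht)).mul_left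
    (exp (-(2 * π * t)))
  have h1 := one_sub_exp_ne ht.ne'
  have h2 : exp (-(2 * π * t)) * exp (2 * π * t) = 1 := by rw [← exp_add]; simp
  have h3 : exp (2 * π * t) - 1 ≠ 0 := fun e => h1 (by linear_combination -h2 + exp (-(2 * π * t)) * e)
  refine hs_congr h (fun k => ?_) ?_
  · rw [← pow_succ', ← exp_nat_mul]
    congr 1
    push_cast
    ring
  · unfold lam
    field_simp
    linear_combination -h2

lemma hasSum_transform {n : ℕ} (hn : 1 ≤ n) (x : ℝ) :
    HasSum (fun k : ℕ => (n.factorial : ℂ) / (2 * π * ((k + 1) - Complex.I * x)) ^ (n + 1))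
      (∫ t : ℝ in Ioi 0, ((t ^ n * lam t : ℝ) : ℂ) * Complex.exp (2 * π * x * t * Complex.I)) := by
  have hre : ∀ k : ℕ, (2 * π * ((k + 1) - Complex.I * x) : ℂ).re = 2 * π * (k + 1) := fun k => by
    simp
  have hpos : ∀ k : ℕ, 0 < 2 * π * ((k : ℝ) + 1) := fun k => by positivity
  have h := hasSum_integral_of_summable_integral_norm (μ := volume.restrict (Ioi 0))
    (F := fun (k : ℕ) (t : ℝ) =>
      (t : ℂ) ^ n * Complex.exp (-(2 * π * ((k + 1) - Complex.I * x)) * t))
    (fun k => integrableOn_pow_cexp n (by rw [hre]; exact hpos k)) ?_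
  · refine hs_congr h (fun k => ?_) ?_
    · rw [integral_pow_cexp n (by rw [hre]; exact hpos k)]
    · refine setIntegral_congr_fun measurableSet_Ioi fun t ht => ?_
      have h1 := ((Complex.hasSum_ofReal.2 (hasSum_lam ht)).mul_left ((t : ℂ) ^ n)).mul_right
        (Complex.exp (2 * π * x * t * Complex.I))
      simp only [Complex.ofReal_mul, Complex.ofReal_pow]
      rw [← h1.tsum_eq]
      refine tsum_congr fun k => ?_
      rw [mul_assoc, Complex.ofReal_exp, ← Complex.exp_add]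
      congr 2
      push_cast
      ring
  · have e : ∀ k : ℕ, ∫ t : ℝ in Ioi 0,
        ‖(t : ℂ) ^ n * Complex.exp (-(2 * π * ((k + 1) - Complex.I * x)) * t)‖ =
        n.factorial / (2 * π) ^ (n + 1) * (1 / ((k + 1 : ℕ) : ℝ) ^ (n + 1)) := fun k => by
      rw [setIntegral_congr_fun measurableSet_Ioi
        (fun t ht => norm_pow_cexp n _ (le_of_lt ht)), hre, integral_pow_exp n (hpos k), mul_pow]
      push_cast
      field_simp
    simp_rw [e]
    exact ((summable_nat_add_iff 1).2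
      (summable_one_div_nat_pow.2 (by omega : 1 < n + 1))).mul_left _

lemma lipschitz {n : ℕ} (hn : 1 ≤ n) {x : ℝ} (hx : 0 < x) :
    (n.factorial : ℂ) / (2 * π * x) ^ (n + 1) + Complex.I ^ (n + 1) *
      ((∫ t : ℝ in Ioi 0, ((t ^ n * lam t : ℝ) : ℂ) *
          Complex.exp (2 * π * (-x : ℝ) * t * Complex.I)) + (-1) ^ (n + 1) *
        ∫ t : ℝ in Ioi 0, ((t ^ n * lam t : ℝ) : ℂ) * Complex.exp (2 * π * x * t * Complex.I)) =
      K n x := by
  have hpi : (π : ℂ) ≠ 0 := Complex.ofReal_ne_zero.2 pi_ne_zero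
  have hx0 : (x : ℂ) ≠ 0 := Complex.ofReal_ne_zero.2 hx.ne'
  have hf : (n.factorial : ℂ) ≠ 0 := Nat.cast_ne_zero.2 n.factorial_ne_zero
  have h1 := EisensteinSeries.qExpansion_identity hn ⟨Complex.I * x, by simpa using hx⟩
  have h2 : ∑' d : ℕ, (d : ℂ) ^ n * Complex.exp (2 * π * Complex.I * (Complex.I * x)) ^ d =
      K n x := by
    rw [← (Complex.hasSum_ofReal.2 (K_hasSum hn hx)).tsum_eq]
    refine tsum_congr fun d => ?_
    rw [← Complex.exp_nat_mul]
    push_cast
    congr 2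
    linear_combination (2 * π * d * x) * Complex.I_mul_I
  have h3 := HasSum.of_add_one_of_neg_add_one
    (f := fun k : ℤ => (n.factorial : ℂ) / (2 * π) ^ (n + 1) * (1 / (Complex.I * x + k) ^ (n + 1)))
    (hs_congr (hasSum_transform hn (-x)) (fun k => by
      rw [div_mul_div_comm, mul_one, ← mul_pow]
      congr 2
      push_cast
      ring) rfl)
    (hs_congr ((hasSum_transform hn x).mul_left ((-1) ^ (n + 1))) (fun k => by
      have e : (Complex.I * x + ((-((k : ℤ) + 1) : ℤ) : ℂ)) = -1 * ((k + 1) - Complex.I * x) := by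
        push_cast
        ring
      have e2 : ((-1 : ℂ) ^ (n + 1))⁻¹ = (-1) ^ (n + 1) := by rw [← inv_pow]; simp
      rw [e, mul_pow (-1 : ℂ), mul_pow (2 * (π : ℂ)), one_div, mul_inv, e2, div_mul_eq_div_div,
        div_eq_mul_inv (_ / _)]
      ring) rfl)
  have h4 := h3.tsum_eq
  rw [tsum_mul_left] at h4
  erw [h1, h2] at h4
  have e1 : Complex.I ^ (n + 1) * (-2 * π * Complex.I) ^ (n + 1) = (2 * π) ^ (n + 1) := by
    rw [← mul_pow]
    congr 1
    linear_combination (-2 * π) * Complex.I_mul_I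
  have e2 : Complex.I ^ (n + 1) * ((n.factorial : ℂ) / (2 * π) ^ (n + 1) *
      (1 / (Complex.I * x + ((0 : ℤ) : ℂ)) ^ (n + 1))) = n.factorial / (2 * π * x) ^ (n + 1) := by
    have hI : Complex.I ^ (n + 1) ≠ 0 := pow_ne_zero _ Complex.I_ne_zero
    rw [Int.cast_zero, add_zero, mul_pow Complex.I, mul_pow (2 * (π : ℂ))]
    field_simp
  have e3 : Complex.I ^ (n + 1) * ((n.factorial : ℂ) / (2 * π) ^ (n + 1) *
      ((-2 * π * Complex.I) ^ (n + 1) / n.factorial * K n x)) = K n x := by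
    have h2p : (2 * π : ℂ) ^ (n + 1) ≠ 0 := pow_ne_zero _ (mul_ne_zero two_ne_zero hpi)
    calc _ = (Complex.I ^ (n + 1) * (-2 * π * Complex.I) ^ (n + 1)) / (2 * π) ^ (n + 1) *
          ((n.factorial : ℂ) / n.factorial) * K n x := by ring
      _ = _ := by rw [e1, div_self h2p, div_self hf, one_mul, one_mul]
  linear_combination e3 - e2 - Complex.I ^ (n + 1) * h4

lemma transform_eq {g : ℝ → ℝ} (hg : IntegrableOn g (Ioi 0)) (x : ℝ) :
    ∫ t : ℝ in Ioi 0, ((g t : ℝ) : ℂ) * Complex.exp (2 * π * x * t * Complex.I) =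
      (∫ t : ℝ in Ioi 0, g t * cos (2 * π * x * t) : ℝ) +
        (∫ t : ℝ in Ioi 0, g t * sin (2 * π * x * t) : ℝ) * Complex.I := by
  have i1 : IntegrableOn (fun t => g t * cos (2 * π * x * t)) (Ioi 0) :=
    hg.mul_bdd (c := 1) (Continuous.aestronglyMeasurable (by fun_prop))
      (ae_of_all _ fun t => abs_cos_le_one _)
  have i2 : IntegrableOn (fun t => g t * sin (2 * π * x * t)) (Ioi 0) :=
    hg.mul_bdd (c := 1) (Continuous.aestronglyMeasurable (by fun_prop))
      (ae_of_all _ fun t => abs_sin_le_one _)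
  rw [← integral_complex_ofReal, ← integral_complex_ofReal, ← integral_mul_const,
    ← integral_add i1.ofReal (i2.ofReal.mul_const _)]
  refine integral_congr_ae (ae_of_all _ fun t => ?_)
  simp only [Complex.exp_mul_I]
  push_cast
  ring

lemma lipschitz' {n : ℕ} (hn : 1 ≤ n) {x : ℝ} (hx : 0 < x)
    (hg : IntegrableOn (fun t => t ^ n * lam t) (Ioi 0)) :
    (n.factorial : ℂ) / (2 * π * x) ^ (n + 1) + Complex.I ^ (n + 1) *
      (((∫ t : ℝ in Ioi 0, t ^ n * lam t * cos (2 * π * x * t) : ℝ) -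
        (∫ t : ℝ in Ioi 0, t ^ n * lam t * sin (2 * π * x * t) : ℝ) * Complex.I) + (-1) ^ (n + 1) *
      ((∫ t : ℝ in Ioi 0, t ^ n * lam t * cos (2 * π * x * t) : ℝ) +
        (∫ t : ℝ in Ioi 0, t ^ n * lam t * sin (2 * π * x * t) : ℝ) * Complex.I)) = K n x := by
  have h := lipschitz hn hx
  rw [transform_eq hg, transform_eq hg] at h
  simpa only [mul_neg, neg_mul, cos_neg, sin_neg, integral_neg, Complex.ofReal_neg,
    ← sub_eq_add_neg] using h

lemma cos_one {x : ℝ} (hx : 0 < x) (hg : IntegrableOn (fun t => t ^ 1 * lam t) (Ioi 0)) :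
    2 * ∫ t : ℝ in Ioi 0, t ^ 1 * lam t * cos (2 * π * x * t) = 1 / (2 * π * x) ^ 2 - K 1 x := by
  have h := lipschitz' le_rfl hx hg
  generalize ∫ t : ℝ in Ioi 0, t ^ 1 * lam t * cos (2 * π * x * t) = a at *
  generalize ∫ t : ℝ in Ioi 0, t ^ 1 * lam t * sin (2 * π * x * t) = b at *
  apply Complex.ofReal_injective
  push_cast
  simp only [Nat.factorial_one, Nat.cast_one, Nat.reduceAdd] at h
  linear_combination -h + 2 * a * Complex.I_mul_I

lemma sin_two {x : ℝ} (hx : 0 < x) (hg : IntegrableOn (fun t => t ^ 2 * lam t) (Ioi 0)) :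
    2 * ∫ t : ℝ in Ioi 0, t ^ 2 * lam t * sin (2 * π * x * t) = 2 / (2 * π * x) ^ 3 - K 2 x := by
  have h := lipschitz' (by norm_num) hx hg
  generalize ∫ t : ℝ in Ioi 0, t ^ 2 * lam t * cos (2 * π * x * t) = a at *
  generalize ∫ t : ℝ in Ioi 0, t ^ 2 * lam t * sin (2 * π * x * t) = b at *
  apply Complex.ofReal_injective
  push_cast
  simp only [Nat.factorial_two, Nat.cast_ofNat, Nat.reduceAdd] at h
  linear_combination -h - 2 * b * (Complex.I ^ 2 - 1) * Complex.I_mul_I

lemma sin_four {x : ℝ} (hx : 0 < x) (hg : IntegrableOn (fun t => t ^ 4 * lam t) (Ioi 0)) :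
    2 * ∫ t : ℝ in Ioi 0, t ^ 4 * lam t * sin (2 * π * x * t) = K 4 x - 24 / (2 * π * x) ^ 5 := by
  have h := lipschitz' (by norm_num) hx hg
  generalize ∫ t : ℝ in Ioi 0, t ^ 4 * lam t * cos (2 * π * x * t) = a at *
  generalize ∫ t : ℝ in Ioi 0, t ^ 4 * lam t * sin (2 * π * x * t) = b at *
  apply Complex.ofReal_injective
  push_cast
  have e : ((Nat.factorial 4 : ℕ) : ℂ) = 24 := by norm_num [Nat.factorial]
  simp only [e, Nat.reduceAdd] at h
  linear_combination h + 2 * b * (Complex.I ^ 4 - Complex.I ^ 2 + 1) * Complex.I_mul_I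

end E1

end Pool.Agent.P.MP_8d0004_nt.LR
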