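import Pool.Agent.P.MP_8d0004_nt.LR.E1a

/-! Poisson summation for even functions, tails and Bernoulli series. -/

namespace Pool.Agent.P.MP_8d0004_nt.LR

open Real MeasureTheory Set Filter Topology Asymptotics
open scoped FourierTransform

namespace E1

lemma le_inv_one_add_sq {a C0 C s : ℝ} (hs : s ≠ 0) (h0 : |a| ≤ C0) (h2 : |a| ≤ C / s ^ 2) :
    ‖a‖ ≤ (C0 + C) * (1 + s ^ 2)⁻¹ := by
  rw [le_div_iff₀ (by positivity)] at h2
  rw [Real.norm_eq_abs, le_mul_inv_iff₀ (by positivity)]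
  linarith

lemma integrableOn_of_bounds {g : ℝ → ℝ} (hg : ContinuousOn g (Ioi 0)) {C0 C : ℝ}
    (h0 : ∀ s, 0 < s → |g s| ≤ C0) (h2 : ∀ s, 0 < s → |g s| ≤ C / s ^ 2) :
    IntegrableOn g (Ioi 0) :=
  Integrable.mono' (integrable_inv_one_add_sq.const_mul (C0 + C)).integrableOn
    (hg.aestronglyMeasurable measurableSet_Ioi)
    ((ae_restrict_iff' measurableSet_Ioi).2 (ae_of_all _ fun s hs =>
      le_inv_one_add_sq (ne_of_gt hs) (h0 s hs) (h2 s hs)))

lemma fourier_even {g : ℝ → ℝ} (hg : Integrable fun v => g |v|) (w : ℝ) :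
    𝓕 (fun v : ℝ => ((g |v| : ℝ) : ℂ)) w =
      (2 * ∫ u in Ioi (0 : ℝ), g u * cos (2 * π * w * u) : ℝ) := by
  have i1 : Integrable fun v => g |v| * cos (2 * π * w * v) :=
    hg.mul_bdd (c := 1) (Continuous.aestronglyMeasurable (by fun_prop))
      (ae_of_all _ fun t => abs_cos_le_one _)
  have i2 : Integrable fun v => g |v| * sin (2 * π * w * v) :=
    hg.mul_bdd (c := 1) (Continuous.aestronglyMeasurable (by fun_prop))
      (ae_of_all _ fun t => abs_sin_le_one _)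
  have e1 : ∫ v, g |v| * sin (2 * π * w * v) = 0 := by
    have := integral_neg_eq_self (fun v => g |v| * sin (2 * π * w * v)) volume
    simp only [abs_neg, mul_neg, sin_neg, integral_neg] at this
    linarith
  have e2 : ∫ v, g |v| * cos (2 * π * w * v) = 2 * ∫ u in Ioi (0 : ℝ), g u * cos (2 * π * w * u) := by
    rw [← integral_comp_abs (f := fun u => g u * cos (2 * π * w * u))]
    refine integral_congr_ae (ae_of_all _ fun v => ?_)
    rcases abs_cases v with h | h <;> simp [h.1]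
  have e3 : ∀ v : ℝ, Complex.exp (↑(-2 * π * v * w) * Complex.I) • ((g |v| : ℝ) : ℂ) =
      ((g |v| * cos (2 * π * w * v) : ℝ) : ℂ) -
        ((g |v| * sin (2 * π * w * v) : ℝ) : ℂ) * Complex.I := fun v => by
    rw [show -2 * π * v * w = -(2 * π * w * v) by ring, Complex.exp_mul_I, ← Complex.ofReal_cos,
      ← Complex.ofReal_sin, cos_neg, sin_neg, smul_eq_mul]
    push_cast
    ring
  rw [fourier_real_eq_integral_exp_smul]
  simp_rw [e3]
  rw [integral_sub i1.ofReal (i2.ofReal.mul_const _), integral_mul_const, integral_complex_ofReal,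
    integral_complex_ofReal, e1, e2]
  simp

lemma poisson {L : ℝ → ℝ} (hL : ContinuousOn L (Ici 0)) {C0 C : ℝ}
    (h0 : ∀ s, 0 < s → |L s| ≤ C0) (h2 : ∀ s, 0 < s → |L s| ≤ C / s ^ 2) {y : ℝ} (hy : 0 < y)
    {c : ℤ → ℝ} (hc : ∀ m : ℤ, 2 * ∫ s in Ioi (0 : ℝ), L s * cos (2 * π * (m * y) * s) = c m)
    (hs : Summable c) (v : ℝ) :
    ∑' l : ℤ, L (|v + l| / y) = y * ∑' m : ℤ, c m * cos (2 * π * m * v) := by
  have hcont : Continuous fun v : ℝ => L (|v| / y) :=
    hL.comp_continuous (by fun_prop) fun v => div_nonneg (abs_nonneg v) hy.le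
  have hb : ∀ v : ℝ, v ≠ 0 → |L (|v| / y)| ≤ C * y ^ 2 / v ^ 2 := fun v hv => by
    have := h2 _ (div_pos (abs_pos.2 hv) hy)
    rwa [div_pow, sq_abs, div_div_eq_mul_div] at this
  have hint : Integrable fun v : ℝ => L (|v| / y) := by
    refine Integrable.mono' (integrable_inv_one_add_sq.const_mul (C0 + C * y ^ 2))
      hcont.aestronglyMeasurable ?_
    filter_upwards [compl_mem_ae_iff.2 (measure_singleton (0 : ℝ))] with v hv
    exact le_inv_one_add_sq hv (h0 _ (div_pos (abs_pos.2 hv) hy)) (hb v hv)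
  have hF : ∀ m : ℤ, 𝓕 (fun v : ℝ => ((L (|v| / y) : ℝ) : ℂ)) m = ((y * c m : ℝ) : ℂ) := fun m => by
    rw [fourier_even (g := fun u => L (u / y)) hint, ← hc]
    have := integral_comp_mul_right_Ioi (fun u => L (u / y) * cos (2 * π * m * u)) 0 hy
    simp only [mul_div_cancel_right₀ _ hy.ne', zero_mul, smul_eq_mul] at this
    have e : ∀ s : ℝ, 2 * π * (m * y) * s = 2 * π * m * (s * y) := fun s => by ring
    simp_rw [e, this]
    congr 1
    rw [mul_left_comm y, mul_inv_cancel_left₀ hy.ne']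
  have hO : (fun v : ℝ => ((L (|v| / y) : ℝ) : ℂ)) =O[cocompact ℝ] fun x : ℝ => |x| ^ (-(2 : ℝ)) := by
    refine IsBigO.of_bound (C * y ^ 2) ?_
    filter_upwards [(isCompact_singleton (x := (0 : ℝ))).compl_mem_cocompact] with v hv
    rw [Complex.norm_real, Real.norm_eq_abs, Real.norm_of_nonneg (by positivity),
      rpow_neg (abs_nonneg v), rpow_two, sq_abs]
    exact hb v hv
  have hsum : Summable fun m : ℤ => ((y * c m : ℝ) : ℂ) :=
    Complex.summable_ofReal.2 (hs.mul_left y)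
  have h := Real.tsum_eq_tsum_fourier_of_rpow_decay_of_summable
    (f := fun v : ℝ => ((L (|v| / y) : ℝ) : ℂ))
    (Complex.continuous_ofReal.comp hcont) one_lt_two hO (by simpa only [← hF] using hsum) v
  simp only [hF] at h
  rw [← Complex.ofReal_tsum] at h
  have hs2 : Summable fun m : ℤ => ((y * c m : ℝ) : ℂ) * fourier m (v : UnitAddCircle) := by
    refine Summable.of_norm ?_
    simpa only [norm_mul, fourier_apply, Circle.norm_coe, mul_one] using hsum.norm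
  have h3 := congrArg Complex.re h
  rw [Complex.ofReal_re, Complex.re_tsum hs2] at h3
  rw [h3, ← tsum_mul_left]
  refine tsum_congr fun m => ?_
  rw [Complex.re_ofReal_mul, fourier_coe_apply, mul_assoc y]
  congr 2
  rw [← Complex.exp_ofReal_mul_I_re]
  congr 2
  push_cast
  ring

lemma tail {L : ℝ → ℝ} {C : ℝ} {M : ℕ} (h : ∀ s, 0 < s → |L s| ≤ C / s ^ (M + 2)) {y v : ℝ}
    (hy : 0 < y) (hv : v ∈ Icc (0 : ℝ) 1) :
    |∑' l : ℤ, L (|v + l| / y) - (L (v / y) + L ((1 - v) / y))| ≤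
      2 * C * (π ^ 2 / 6) * y ^ (M + 2) := by
  have hC : 0 ≤ C := by
    have := (abs_nonneg _).trans (h 1 one_pos)
    simpa using this
  have hz : HasSum (fun n : ℕ => 1 / ((n + 1 : ℕ) : ℝ) ^ 2) (π ^ 2 / 6) := by
    have := (hasSum_nat_add_iff' 1).2 hasSum_zeta_two
    simpa using this
  have hb : ∀ (n : ℕ) (u : ℝ), ((n + 1 : ℕ) : ℝ) ≤ u →
      ‖L (u / y)‖ ≤ C * y ^ (M + 2) * (1 / ((n + 1 : ℕ) : ℝ) ^ 2) := fun n u hu => by
    have h1 : (1 : ℝ) ≤ ((n + 1 : ℕ) : ℝ) := by exact_mod_cast Nat.le_add_left 1 n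
    have hu0 : 0 < u := by linarith
    refine (h _ (div_pos hu0 hy)).trans ?_
    rw [div_pow, div_div_eq_mul_div, mul_one_div]
    refine div_le_div_of_nonneg_left (by positivity) (by positivity) ?_
    calc ((n + 1 : ℕ) : ℝ) ^ 2 ≤ u ^ 2 := by gcongr
      _ ≤ u ^ (M + 2) := pow_le_pow_right₀ (by linarith) (by omega)
  have b1 : ∀ n : ℕ, ‖L (|v + (((n + 1 : ℕ) : ℤ) : ℝ)| / y)‖ ≤
      C * y ^ (M + 2) * (1 / ((n + 1 : ℕ) : ℝ) ^ 2) := fun n =>
    hb n _ (le_trans (by push_cast; linarith [hv.1]) (le_abs_self _))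
  have b2 : ∀ n : ℕ, ‖L (|v + ((-(((n + 1 : ℕ) : ℤ) + 1) : ℤ) : ℝ)| / y)‖ ≤
      C * y ^ (M + 2) * (1 / ((n + 1 : ℕ) : ℝ) ^ 2) := fun n =>
    hb n _ (le_trans (by push_cast; linarith [hv.2]) (neg_le_abs _))
  have hz' := hz.mul_left (C * y ^ (M + 2))
  have s1 := Summable.of_norm_bounded hz'.summable b1
  have s2 := Summable.of_norm_bounded hz'.summable b2
  have t1 := tsum_of_norm_bounded hz' b1
  have t2 := tsum_of_norm_bounded hz' b2
  have a1 := (hasSum_nat_add_iff (f := fun n : ℕ => L (|v + ((n : ℤ) : ℝ)| / y)) 1).1 s1.hasSum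
  have a2 := (hasSum_nat_add_iff
    (f := fun n : ℕ => L (|v + ((-((n : ℤ) + 1) : ℤ) : ℝ)| / y)) 1).1 s2.hasSum
  have a3 := HasSum.of_nat_of_neg_add_one (f := fun l : ℤ => L (|v + l| / y)) a1 a2
  rw [a3.tsum_eq]
  have e1 : |v + (((0 : ℕ) : ℤ) : ℝ)| = v := by simp [abs_of_nonneg hv.1]
  have e2 : |v + ((-(((0 : ℕ) : ℤ) + 1) : ℤ) : ℝ)| = 1 - v := by
    rw [abs_of_nonpos (by push_cast; linarith [hv.2])]
    push_cast
    ring
  rw [Finset.sum_range_one, Finset.sum_range_one, e1, e2]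
  rw [Real.norm_eq_abs, abs_le] at t1 t2
  rw [abs_le]
  constructor <;> linarith [t1.1, t1.2, t2.1, t2.2]

lemma hasSum_cos {j : ℕ} (hj : 1 ≤ j) {v : ℝ} (hv : v ∈ Icc (0 : ℝ) 1) :
    HasSum (fun m : ℤ => 1 / (m : ℝ) ^ (2 * j) * cos (2 * π * m * v))
      (-(-1) ^ j * (2 * π) ^ (2 * j) / (2 * j).factorial * bernoulliFun (2 * j) v) := by
  have h := Complex.hasSum_re
    (hasSum_one_div_pow_mul_fourier_mul_bernoulliFun (k := 2 * j) (by omega) hv)
  refine hs_congr h (fun m => ?_) ?_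
  · rw [show (1 / (m : ℂ) ^ (2 * j)) = ((1 / (m : ℝ) ^ (2 * j) : ℝ) : ℂ) by push_cast; rfl,
      Complex.re_ofReal_mul, fourier_coe_apply, ← Complex.exp_ofReal_mul_I_re]
    congr 3
    push_cast
    ring
  · rw [← Complex.ofReal_re (-(-1) ^ j * _ / _ * _)]
    congr 1
    push_cast
    rw [mul_pow _ Complex.I, pow_mul Complex.I, Complex.I_sq]
    ring

lemma bern5 : bernoulli' 5 = 0 := by
  rw [bernoulli'_def]
  simp [Finset.sum_range_succ, Nat.choose]
  norm_num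

lemma bern6 : bernoulli' 6 = 1 / 42 := by
  rw [bernoulli'_def]
  simp [Finset.sum_range_succ, Nat.choose, bern5]
  norm_num

lemma bfun4 (x : ℝ) : bernoulliFun 4 x = x ^ 4 - 2 * x ^ 3 + x ^ 2 - 1 / 30 := by
  simp [bernoulliFun, Polynomial.bernoulli_def, Finset.sum_range_succ, bernoulli, Nat.choose]
  ring

lemma bfun6 (x : ℝ) :
    bernoulliFun 6 x = x ^ 6 - 3 * x ^ 5 + 5 / 2 * x ^ 4 - x ^ 2 / 2 + 1 / 42 := by
  simp [bernoulliFun, Polynomial.bernoulli_def, Finset.sum_range_succ, bernoulli, Nat.choose,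
    bern5, bern6]
  ring

end E1

end Pool.Agent.P.MP_8d0004_nt.LR
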