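import Pool.Agent.P.MP_8d0004_nt.LR.Stm

/-! Integral representation of the twisted multiple sums. -/

namespace Pool.Agent.P.MP_8d0004_nt.LR

open Real MeasureTheory Set Filter Topology

namespace E2

/-- the character of the circle -/
noncomputable def ch (t : ℝ) : ℂ := Complex.exp (((2 * π * t : ℝ) : ℂ) * Complex.I)

lemma ch_add (s t : ℝ) : ch (s + t) = ch s * ch t := by
  unfold ch; rw [← Complex.exp_add]; congr 1; push_cast; ring

lemma norm_ch (t : ℝ) : ‖ch t‖ = 1 := Complex.norm_exp_ofReal_mul_I _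

lemma ch_re (t : ℝ) : (ch t).re = cos (2 * π * t) := Complex.exp_ofReal_mul_I_re _

lemma ch_im (t : ℝ) : (ch t).im = sin (2 * π * t) := Complex.exp_ofReal_mul_I_im _

lemma tsum_odd {f : ℤ → ℝ} (h : ∀ m, f (-m) = -f m) : ∑' m, f m = 0 := by
  have h1 : ∑' m, f (-m) = ∑' m, f m := (Equiv.neg ℤ).tsum_eq f
  simp only [h, tsum_neg] at h1
  linarith

lemma summ_norm {A : ℤ → ℝ} (hA : Summable A) (v : ℝ) :
    Summable fun m : ℤ => ‖(A m : ℂ) * ch (m * v)‖ := by
  simpa [norm_ch] using hA.abs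

lemma summ_cos {A : ℤ → ℝ} (hA : Summable A) (v : ℝ) :
    Summable fun m : ℤ => A m * cos (2 * π * (m * v)) :=
  Summable.of_norm_bounded hA.abs fun m => by
    rw [Real.norm_eq_abs, abs_mul]
    exact mul_le_of_le_one_right (abs_nonneg _) (abs_cos_le_one _)

lemma summ_sin {A : ℤ → ℝ} (hA : Summable A) (v : ℝ) :
    Summable fun m : ℤ => A m * sin (2 * π * (m * v)) :=
  Summable.of_norm_bounded hA.abs fun m => by
    rw [Real.norm_eq_abs, abs_mul]
    exact mul_le_of_le_one_right (abs_nonneg _) (abs_sin_le_one _)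

lemma has_even {A : ℤ → ℝ} (hA : Summable A) (he : ∀ m, A (-m) = A m) (v : ℝ) :
    HasSum (fun m : ℤ => (A m : ℂ) * ch (m * v))
      ((∑' m : ℤ, A m * cos (2 * π * (m * v)) : ℝ) : ℂ) := by
  rw [Complex.hasSum_iff]
  constructor
  · simpa [ch_re] using (summ_cos hA v).hasSum
  · have h0 : ∑' m : ℤ, A m * sin (2 * π * (m * v)) = 0 := tsum_odd fun m => by
      rw [he]; push_cast
      rw [show 2 * π * (-(m : ℝ) * v) = -(2 * π * (m * v)) by ring, sin_neg]; ring
    have := (summ_sin hA v).hasSum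
    rw [h0] at this
    simpa [ch_im] using this

lemma has_odd {A : ℤ → ℝ} (hA : Summable A) (ho : ∀ m, A (-m) = -A m) (v : ℝ) :
    HasSum (fun m : ℤ => (A m : ℂ) * ch (m * v))
      (((∑' m : ℤ, A m * sin (2 * π * (m * v)) : ℝ) : ℂ) * Complex.I) := by
  rw [Complex.hasSum_iff]
  constructor
  · have h0 : ∑' m : ℤ, A m * cos (2 * π * (m * v)) = 0 := tsum_odd fun m => by
      rw [ho]; push_cast
      rw [show 2 * π * (-(m : ℝ) * v) = -(2 * π * (m * v)) by ring, cos_neg]; ring
    have := (summ_cos hA v).hasSum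
    rw [h0] at this
    simpa [ch_re] using this
  · simpa [ch_im] using (summ_sin hA v).hasSum

lemma int_sin (θ : ℝ) (M : ℤ) :
    ∫ v in (0 : ℝ)..1, (v - 1 / 2) * sin (2 * π * (θ + M * v)) =
      -(cos (2 * π * θ) / M) / (2 * π) := by
  by_cases hM : M = 0
  · subst hM
    simp only [Int.cast_zero, zero_mul, add_zero, div_zero, neg_zero, zero_div]
    rw [intervalIntegral.integral_mul_const, intervalIntegral.integral_sub (by simp) (by simp)]
    simp
  have hM' : (M : ℝ) ≠ 0 := by exact_mod_cast hM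
  have hπ := pi_ne_zero
  have hd : ∀ v ∈ uIcc (0 : ℝ) 1, HasDerivAt (fun v : ℝ =>
      -((v - 1 / 2) * cos (2 * π * (θ + M * v))) / (2 * π * M)
        + sin (2 * π * (θ + M * v)) / (2 * π * M) ^ 2)
      ((v - 1 / 2) * sin (2 * π * (θ + M * v))) v := by
    intro v _
    have h0 : HasDerivAt (fun v : ℝ => 2 * π * (θ + M * v)) (2 * π * M) v := by
      simpa using (((hasDerivAt_id' v).const_mul (M : ℝ)).const_add θ).const_mul (2 * π)
    have h1 := ((((hasDerivAt_id' v).sub_const (1 / 2)).mul h0.cos).neg.div_const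
      (2 * π * M)).add (h0.sin.div_const ((2 * π * M) ^ 2))
    refine h1.congr_deriv ?_
    field_simp
    ring
  rw [intervalIntegral.integral_eq_sub_of_hasDerivAt hd
    (Continuous.intervalIntegrable (by fun_prop) _ _)]
  have e : 2 * π * (θ + M * 1) = 2 * π * θ + M * (2 * π) := by ring
  rw [e, cos_add_int_mul_two_pi, sin_add_int_mul_two_pi]
  simp only [mul_zero, add_zero]
  field_simp
  ring

lemma generic {ι : Type} [Countable ι] (c θ : ι → ℝ) (M : ι → ℤ) (hc : Summable c) (g : ℝ → ℝ)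
    (h : ∀ v, HasSum (fun p => (c p : ℂ) * ch (θ p + M p * v)) ((g v : ℂ) * Complex.I)) :
    ∑' p, c p * (cos (2 * π * θ p) / M p) =
      -(2 * π) * ∫ v in (0 : ℝ)..1, (v - 1 / 2) * g v := by
  have h1 : ∀ v, HasSum (fun p => c p * ((v - 1 / 2) * sin (2 * π * (θ p + M p * v))))
      ((v - 1 / 2) * g v) := by
    intro v
    have h2 := (Complex.hasSum_im (h v)).mul_left (v - 1 / 2)
    simp only [Complex.im_ofReal_mul, ch_im, Complex.I_im, mul_one] at h2
    have e : (fun p => c p * ((v - 1 / 2) * sin (2 * π * (θ p + M p * v)))) =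
        fun p => (v - 1 / 2) * (c p * sin (2 * π * (θ p + M p * v))) := funext fun p => by ring
    rw [e]; exact h2
  have h3 := intervalIntegral.hasSum_integral_of_dominated_convergence (μ := volume) (a := 0)
    (b := 1) (F := fun p v => c p * ((v - 1 / 2) * sin (2 * π * (θ p + M p * v))))
    (f := fun v => (v - 1 / 2) * g v) (fun p _ => |c p|)
    (fun p => Continuous.aestronglyMeasurable (by fun_prop))
    (fun p => Eventually.of_forall fun v hv => by
      rw [uIoc_of_le zero_le_one] at hv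
      rw [Real.norm_eq_abs, abs_mul, abs_mul]
      refine mul_le_of_le_one_right (abs_nonneg _) (mul_le_one₀ ?_ (abs_nonneg _)
        (abs_sin_le_one _))
      rw [abs_le]; constructor <;> linarith [hv.1, hv.2])
    (Eventually.of_forall fun _ _ => hc.abs) (by simp)
    (Eventually.of_forall fun v _ => h1 v)
  simp only [intervalIntegral.integral_const_mul, int_sin] at h3
  have h4 := h3.mul_left (-(2 * π))
  rw [← h4.tsum_eq]
  refine tsum_congr fun p => ?_
  have := pi_ne_zero
  field_simp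

lemma has2 {A B : ℤ → ℝ} (hA : Summable A) (hB : Summable B) {s t : ℝ} {a b : ℂ}
    (ha : HasSum (fun m : ℤ => (A m : ℂ) * ch (m * s)) a)
    (hb : HasSum (fun m : ℤ => (B m : ℂ) * ch (m * t)) b) :
    HasSum (fun p : ℤ × ℤ => ((A p.1 * B p.2 : ℝ) : ℂ) * ch (p.1 * s + p.2 * t)) (a * b) := by
  have hs : Summable fun p : ℤ × ℤ =>
      ((A p.1 : ℂ) * ch (p.1 * s)) * ((B p.2 : ℂ) * ch (p.2 * t)) :=
    summable_mul_of_summable_norm (f := fun m : ℤ => (A m : ℂ) * ch (m * s))
      (g := fun m : ℤ => (B m : ℂ) * ch (m * t)) (summ_norm hA s) (summ_norm hB t)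
  have h := HasSum.mul (f := fun m : ℤ => (A m : ℂ) * ch (m * s))
      (g := fun m : ℤ => (B m : ℂ) * ch (m * t)) ha hb hs
  have e : (fun p : ℤ × ℤ => ((A p.1 * B p.2 : ℝ) : ℂ) * ch (p.1 * s + p.2 * t)) =
      fun p : ℤ × ℤ => ((A p.1 : ℂ) * ch (p.1 * s)) * ((B p.2 : ℂ) * ch (p.2 * t)) := by
    funext p
    rw [ch_add]; push_cast; ring
  rw [e]; exact h

lemma summ2 {A B : ℤ → ℝ} (hA : Summable A) (hB : Summable B) :
    Summable fun p : ℤ × ℤ => A p.1 * B p.2 :=
  summable_mul_of_summable_norm hA.norm hB.norm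

lemma summ3 {A B C : ℤ → ℝ} (hA : Summable A) (hB : Summable B) (hC : Summable C) :
    Summable fun p : ℤ × ℤ × ℤ => A p.1 * (B p.2.1 * C p.2.2) :=
  summable_mul_of_summable_norm (g := fun q : ℤ × ℤ => B q.1 * C q.2) hA.norm (summ2 hB hC).norm

lemma has3 {A B C : ℤ → ℝ} (hA : Summable A) (hB : Summable B) (hC : Summable C) {s t u : ℝ}
    {a b c : ℂ} (ha : HasSum (fun m : ℤ => (A m : ℂ) * ch (m * s)) a)
    (hb : HasSum (fun m : ℤ => (B m : ℂ) * ch (m * t)) b)
    (hc : HasSum (fun m : ℤ => (C m : ℂ) * ch (m * u)) c) :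
    HasSum (fun p : ℤ × ℤ × ℤ => ((A p.1 * (B p.2.1 * C p.2.2) : ℝ) : ℂ) *
      ch (p.1 * s + p.2.1 * t + p.2.2 * u)) (a * (b * c)) := by
  have h2 := has2 hB hC hb hc
  have hn : Summable fun p : ℤ × ℤ => ‖((B p.1 * C p.2 : ℝ) : ℂ) * ch (p.1 * t + p.2 * u)‖ := by
    have := (summ2 hB hC).abs
    simpa [norm_ch] using this
  have hs : Summable fun p : ℤ × ℤ × ℤ => ((A p.1 : ℂ) * ch (p.1 * s)) *
      (((B p.2.1 * C p.2.2 : ℝ) : ℂ) * ch (p.2.1 * t + p.2.2 * u)) :=
    summable_mul_of_summable_norm (f := fun m : ℤ => (A m : ℂ) * ch (m * s))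
      (g := fun p : ℤ × ℤ => ((B p.1 * C p.2 : ℝ) : ℂ) * ch (p.1 * t + p.2 * u))
      (summ_norm hA s) hn
  have h := HasSum.mul (f := fun m : ℤ => (A m : ℂ) * ch (m * s))
      (g := fun p : ℤ × ℤ => ((B p.1 * C p.2 : ℝ) : ℂ) * ch (p.1 * t + p.2 * u)) ha h2 hs
  have e : (fun p : ℤ × ℤ × ℤ => ((A p.1 * (B p.2.1 * C p.2.2) : ℝ) : ℂ) *
      ch (p.1 * s + p.2.1 * t + p.2.2 * u)) = fun p : ℤ × ℤ × ℤ => ((A p.1 : ℂ) * ch (p.1 * s)) *
      (((B p.2.1 * C p.2.2 : ℝ) : ℂ) * ch (p.2.1 * t + p.2.2 * u)) := by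
    funext p
    rw [add_assoc, ch_add]; push_cast; ring
  rw [e]; exact h

section
variable {y : ℝ}

/-- coefficients without denominator -/
noncomputable def cA (y : ℝ) (m : ℤ) : ℝ := K 1 (m * y)

/-- coefficients with denominator -/
noncomputable def cB (n : ℕ) (y : ℝ) (m : ℤ) : ℝ := K n (m * y) / m

lemma sA (hy : 0 < y) : Summable (cA y) := by
  have := summable_S1 (W := fun _ => 1) (PG1_of_bdd 1 fun _ => by simp) (j := 1) le_rfl hy
  refine this.congr fun m => ?_
  unfold cA; ring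

lemma sB {n : ℕ} (hn : 1 ≤ n) (hy : 0 < y) : Summable (cB n y) := by
  have := summable_S1 (PG1_inv_pow 1) hn hy
  refine this.congr fun m => ?_
  unfold cB; ring

lemma hw (hy : 0 < y) (v : ℝ) :
    HasSum (fun m : ℤ => (cA y m : ℂ) * ch (m * v)) (wS y v : ℂ) := by
  have := has_even (sA hy) (fun m => by
    unfold cA; push_cast; rw [neg_mul, K_neg]; norm_num) v
  convert this using 2
  unfold wS S1 cA
  refine tsum_congr fun m => ?_
  beta_reduce
  rw [mul_comm, mul_assoc (2 * π)]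

lemma hp (hy : 0 < y) (v : ℝ) :
    HasSum (fun m : ℤ => (cB 1 y m : ℂ) * ch (m * v)) ((pS y v : ℂ) * Complex.I) := by
  have := has_odd (sB le_rfl hy) (fun m => by
    unfold cB; push_cast; rw [neg_mul, K_neg]; norm_num [div_neg]) v
  convert this using 3
  unfold pS S1 cB
  refine tsum_congr fun m => ?_
  beta_reduce
  rw [mul_assoc (2 * π)]; ring

lemma hr {n : ℕ} (hn : 1 ≤ n) (he : Even n) (hy : 0 < y) (v : ℝ) :
    HasSum (fun m : ℤ => (cB n y m : ℂ) * ch (m * v)) (rS n y v : ℂ) := by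
  have := has_even (sB hn hy) (fun m => by
    unfold cB; push_cast
    rw [neg_mul, K_neg, he.add_one.neg_one_pow]; ring) v
  convert this using 2
  unfold rS S1 cB
  refine tsum_congr fun m => ?_
  beta_reduce
  rw [mul_assoc (2 * π)]; ring

lemma cont_S1 {W : ℝ → ℤ → ℝ} (hW : ∀ m, Continuous fun v => W v m) (h1 : ∀ v m, |W v m| ≤ 1)
    {j : ℕ} (hj : 1 ≤ j) (hy : 0 < y) : Continuous fun v => S1 (W v) j y := by
  have hs := summable_S1 (W := fun _ => 1) (PG1_of_bdd 1 fun _ => by simp) hj hy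
  refine continuous_tsum (fun m => (hW m).mul continuous_const) hs.abs fun m v => ?_
  rw [Real.norm_eq_abs, abs_mul, one_mul]
  exact mul_le_of_le_one_left (abs_nonneg _) (h1 v m)

end

end E2

open E2 in
theorem stE2 : StE2 := by
  intro y hy
  have h2 : (1 : ℕ) ≤ 2 := by norm_num
  refine ⟨⟨?_, ?_, ?_⟩, ?_, ?_, ?_, ?_⟩
  · exact cont_S1 (W := fun v m => cos (2 * π * m * v)) (fun m => by fun_prop)
      (fun v m => abs_cos_le_one _) le_rfl hy
  · exact cont_S1 (W := fun v m => sin (2 * π * m * v) / m) (fun m => by fun_prop)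
      (fun v m => (abs_div_int_le _ m).trans (abs_sin_le_one _)) le_rfl hy
  · exact cont_S1 (W := fun v m => cos (2 * π * m * v) / m) (fun m => by fun_prop)
      (fun v m => (abs_div_int_le _ m).trans (abs_cos_le_one _)) h2 hy
  · intro α β γ
    have := generic (fun p : ℤ × ℤ × ℤ => cA y p.1 * (cB 1 y p.2.1 * cB 2 y p.2.2))
      (fun p => p.1 * α + p.2.1 * β + p.2.2 * γ) (fun p => p.1 + p.2.1 + p.2.2)
      (summ3 (sA hy) (sB le_rfl hy) (sB h2 hy))
      (fun v => wS y (v + α) * pS y (v + β) * rS 2 y (v + γ)) (fun v => by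
        convert has3 (sA hy) (sB le_rfl hy) (sB h2 hy) (hw hy (v + α)) (hp hy (v + β))
          (hr h2 even_two hy (v + γ)) using 1
        · funext p; congr 2; push_cast; ring
        · push_cast; ring)
    simp only [← mul_assoc] at this ⊢
    rw [← this]
    unfold S3 cA cB
    refine tsum_congr fun p => ?_
    push_cast
    simp only [div_eq_mul_inv, mul_inv]
    ring
  · intro α β γ
    have := generic (fun p : ℤ × ℤ × ℤ => cB 2 y p.1 * (cB 1 y p.2.1 * cA y p.2.2))
      (fun p => p.1 * α + p.2.1 * β + p.2.2 * γ) (fun p => p.2.1 + p.2.2)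
      (summ3 (sB h2 hy) (sB le_rfl hy) (sA hy))
      (fun v => rS 2 y α * pS y (v + β) * wS y (v + γ)) (fun v => by
        convert has3 (sB h2 hy) (sB le_rfl hy) (sA hy) (hr h2 even_two hy α) (hp hy (v + β))
          (hw hy (v + γ)) using 1
        · funext p; congr 2; push_cast; ring
        · push_cast; ring)
    simp only [← mul_assoc] at this ⊢
    rw [← this]
    unfold S3 cA cB
    refine tsum_congr fun p => ?_
    push_cast
    simp only [div_eq_mul_inv, mul_inv]
    ring
  · intro α β γ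
    have := generic (fun p : ℤ × ℤ × ℤ => cB 1 y p.1 * (cB 2 y p.2.1 * cA y p.2.2))
      (fun p => p.1 * α + p.2.1 * β + p.2.2 * γ) (fun p => p.2.1 + p.2.2)
      (summ3 (sB le_rfl hy) (sB h2 hy) (sA hy))
      (fun v => pS y α * rS 2 y (v + β) * wS y (v + γ)) (fun v => by
        convert has3 (sB le_rfl hy) (sB h2 hy) (sA hy) (hp hy α) (hr h2 even_two hy (v + β))
          (hw hy (v + γ)) using 1
        · funext p; congr 2; push_cast; ring
        · push_cast; ring)
    simp only [← mul_assoc] at this ⊢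
    rw [← this]
    unfold S3 cA cB
    refine tsum_congr fun p => ?_
    push_cast
    simp only [div_eq_mul_inv, mul_inv]
    ring
  · intro n hn α β
    have hn1 : 1 ≤ n := by omega
    have hne : Even n := by rcases hn with h | h <;> subst h <;> decide
    have := generic (fun p : ℤ × ℤ => cB n y p.1 * cB 1 y p.2)
      (fun p => p.1 * α + p.2 * β) (fun p => p.2)
      (summ2 (sB hn1 hy) (sB le_rfl hy))
      (fun v => rS n y α * pS y (v + β)) (fun v => by
        convert has2 (sB hn1 hy) (sB le_rfl hy) (hr hn1 hne hy α) (hp hy (v + β)) using 1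
        · funext p; congr 2; ring
        · push_cast; ring)
    simp only [← mul_assoc] at this ⊢
    rw [← this]
    unfold S2 cB
    refine tsum_congr fun p => ?_
    simp only [div_eq_mul_inv, mul_inv, sq]
    ring

end Pool.Agent.P.MP_8d0004_nt.LR
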