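import Pool.Agent.P.MP_8d0004_nt.LR.Stm

/-! Constant terms: general lemmas and the analytic part of the term calculus. -/

namespace Pool.Agent.P.MP_8d0004_nt.LR

open Real MeasureTheory Set Filter Topology

namespace HasCT

lemma add {f g : ℝ → ℝ} {a b : ℝ} (hf : HasCT f a) (hg : HasCT g b) :
    HasCT (fun y => f y + g y) (a + b) := by
  obtain ⟨p, hp, h⟩ := hf
  obtain ⟨q, hq, h'⟩ := hg
  refine ⟨p + q, by simp [hp, hq], (h.add h').congr fun y => ?_⟩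
  simp only [Polynomial.eval_add]
  ring

lemma const_mul (c : ℝ) {f : ℝ → ℝ} {a : ℝ} (hf : HasCT f a) :
    HasCT (fun y => c * f y) (c * a) := by
  obtain ⟨p, hp, h⟩ := hf
  refine ⟨Polynomial.C c * p, by simp [hp], (h.const_mul c).congr fun y => ?_⟩
  simp only [Polynomial.eval_mul, Polynomial.eval_C]
  ring

lemma congr {f g : ℝ → ℝ} {a : ℝ} (hf : HasCT f a) (h : ∀ y ∈ Ioc (0 : ℝ) 1, f y = g y) :
    HasCT g a := by
  obtain ⟨p, hp, h1⟩ := hf
  refine ⟨p, hp, h1.congr' ?_⟩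
  filter_upwards [Ioc_mem_nhdsGT one_pos] with y hy
  rw [h y hy]

lemma of_tendsto {f : ℝ → ℝ} {a : ℝ} (h : Tendsto f (𝓝[>] 0) (𝓝 a)) : HasCT f a :=
  ⟨0, by simp, by simpa using h⟩

lemma const (c : ℝ) : HasCT (fun _ => c) c := of_tendsto tendsto_const_nhds

lemma of_small {f : ℝ → ℝ} (C : ℝ) (h : ∀ y ∈ Ioc (0 : ℝ) 1, |f y| ≤ C * y) : HasCT f 0 := by
  apply of_tendsto
  have h1 : Tendsto (fun y : ℝ => C * y) (𝓝[>] 0) (𝓝 0) := by
    have : Tendsto (fun y : ℝ => C * y) (𝓝 0) (𝓝 (C * 0)) := tendsto_id.const_mul C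
    rw [mul_zero] at this
    exact this.mono_left nhdsWithin_le_nhds
  refine squeeze_zero_norm' ?_ h1
  filter_upwards [Ioc_mem_nhdsGT one_pos] with y hy
  exact h y hy

lemma zpow (n : ℤ) : HasCT (fun y => y ^ n) (if n = 0 then 1 else 0) := by
  rcases lt_trichotomy n 0 with h | h | h
  · rw [if_neg h.ne]
    obtain ⟨m, rfl⟩ := Int.exists_eq_neg_ofNat h.le
    have hm : m ≠ 0 := by rintro rfl; simp at h
    refine ⟨Polynomial.X ^ m, by simp [Polynomial.coeff_X_pow, hm.symm], ?_⟩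
    simp
  · subst h
    simpa using const 1
  · rw [if_neg h.ne']
    refine of_small 1 fun y hy => ?_
    rw [abs_of_pos (zpow_pos hy.1 _), one_mul]
    calc y ^ n ≤ y ^ (1 : ℤ) := zpow_le_zpow_right_of_le_one₀ hy.1 hy.2 h
      _ = y := zpow_one y

lemma unique {f : ℝ → ℝ} {a b : ℝ} (hf : HasCT f a) (hg : HasCT f b) : a = b := by
  obtain ⟨p, hp, h⟩ := hf
  obtain ⟨q, hq, h'⟩ := hg
  have h1 : Tendsto (fun x : ℝ => (p - q).eval x) atTop (𝓝 (b - a)) := by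
    refine ((h'.sub h).comp tendsto_inv_atTop_nhdsGT_zero).congr fun x => ?_
    simp
  obtain ⟨h2, h3⟩ := (Polynomial.tendsto_nhds_iff _).1 h1
  have h4 : p - q = 0 := by
    rw [Polynomial.eq_C_of_degree_le_zero h3]
    simp [hp, hq]
  rw [h4] at h2
  simp at h2
  linarith

lemma list_sum {ι : Type*} (L : List ι) {f : ι → ℝ → ℝ} {c : ι → ℝ}
    (h : ∀ e ∈ L, HasCT (f e) (c e)) :
    HasCT (fun y => (L.map fun e => f e y).sum) (L.map c).sum := by
  induction L with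
  | nil => simpa using const 0
  | cons e L ih =>
    simp only [List.map_cons, List.sum_cons]
    exact (h e (by simp)).add (ih fun e he => h e (by simp [he]))

end HasCT

namespace E3

/-- smaller than every power of y -/
def Sm (f : ℝ → ℝ → ℝ) : Prop :=
  ∀ N : ℕ, ∃ C, ∀ y ∈ Ioc (0 : ℝ) 1, ∀ x ∈ Ioc (0 : ℝ) (1 / 12), |f y x| ≤ C * y ^ N

/-- of moderate growth -/
def Md (f : ℝ → ℝ → ℝ) : Prop :=
  ∃ (M : ℕ) (C : ℝ), ∀ y ∈ Ioc (0 : ℝ) 1, ∀ x ∈ Ioc (0 : ℝ) (1 / 12), |f y x| * y ^ M ≤ C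

lemma Sm.congr {f g : ℝ → ℝ → ℝ} (hf : Sm f)
    (h : ∀ y ∈ Ioc (0 : ℝ) 1, ∀ x ∈ Ioc (0 : ℝ) (1 / 12), f y x = g y x) : Sm g := fun N => by
  obtain ⟨C, hC⟩ := hf N
  exact ⟨C, fun y hy x hx => h y hy x hx ▸ hC y hy x hx⟩

lemma Md.congr {f g : ℝ → ℝ → ℝ} (hf : Md f)
    (h : ∀ y ∈ Ioc (0 : ℝ) 1, ∀ x ∈ Ioc (0 : ℝ) (1 / 12), f y x = g y x) : Md g := by
  obtain ⟨M, C, hC⟩ := hf
  exact ⟨M, C, fun y hy x hx => h y hy x hx ▸ hC y hy x hx⟩

lemma Sm.zero : Sm fun _ _ => 0 := fun N => ⟨0, fun y _ x _ => by simp⟩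

lemma Sm.add {f g : ℝ → ℝ → ℝ} (hf : Sm f) (hg : Sm g) : Sm fun y x => f y x + g y x := fun N => by
  obtain ⟨C, hC⟩ := hf N
  obtain ⟨D, hD⟩ := hg N
  refine ⟨C + D, fun y hy x hx => (abs_add_le _ _).trans ?_⟩
  rw [add_mul]
  exact add_le_add (hC y hy x hx) (hD y hy x hx)

lemma Sm.mul {f g : ℝ → ℝ → ℝ} (hf : Sm f) (hg : Md g) : Sm fun y x => f y x * g y x := fun N => by
  obtain ⟨M, D, hD⟩ := hg
  obtain ⟨C, hC⟩ := hf (N + M)
  refine ⟨|C| * D, fun y hy x hx => ?_⟩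
  have h1 := (hC y hy x hx).trans (mul_le_mul_of_nonneg_right (le_abs_self C) (pow_pos hy.1 _).le)
  have h2 := hD y hy x hx
  have h3 := pow_pos hy.1 N
  rw [abs_mul]
  calc |f y x| * |g y x| ≤ |C| * y ^ (N + M) * |g y x| := by gcongr
    _ = |C| * (|g y x| * y ^ M) * y ^ N := by ring
    _ ≤ _ := by gcongr

lemma Sm.md {f : ℝ → ℝ → ℝ} (hf : Sm f) : Md f := by
  obtain ⟨C, hC⟩ := hf 0
  exact ⟨0, C, fun y hy x hx => by simpa using hC y hy x hx⟩

lemma Md.of_bdd {f : ℝ → ℝ → ℝ} (C : ℝ)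
    (h : ∀ y ∈ Ioc (0 : ℝ) 1, ∀ x ∈ Ioc (0 : ℝ) (1 / 12), |f y x| ≤ C) : Md f :=
  ⟨0, C, fun y hy x hx => by simpa using h y hy x hx⟩

lemma Md.const (c : ℝ) : Md fun _ _ => c := Md.of_bdd |c| fun _ _ _ _ => le_rfl

lemma Md.add {f g : ℝ → ℝ → ℝ} (hf : Md f) (hg : Md g) : Md fun y x => f y x + g y x := by
  obtain ⟨M, C, hC⟩ := hf
  obtain ⟨N, D, hD⟩ := hg
  refine ⟨M + N, C + D, fun y hy x hx => ?_⟩
  have h1 : y ^ (M + N) ≤ y ^ M := pow_le_pow_of_le_one hy.1.le hy.2 (by omega)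
  have h2 : y ^ (M + N) ≤ y ^ N := pow_le_pow_of_le_one hy.1.le hy.2 (by omega)
  have h3 := (pow_pos hy.1 (M + N)).le
  calc |f y x + g y x| * y ^ (M + N) ≤ (|f y x| + |g y x|) * y ^ (M + N) := by
        gcongr; exact abs_add_le _ _
    _ = |f y x| * y ^ (M + N) + |g y x| * y ^ (M + N) := by ring
    _ ≤ |f y x| * y ^ M + |g y x| * y ^ N := by gcongr
    _ ≤ _ := add_le_add (hC y hy x hx) (hD y hy x hx)

lemma Md.mul {f g : ℝ → ℝ → ℝ} (hf : Md f) (hg : Md g) : Md fun y x => f y x * g y x := by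
  obtain ⟨M, C, hC⟩ := hf
  obtain ⟨N, D, hD⟩ := hg
  refine ⟨M + N, C * D, fun y hy x hx => ?_⟩
  have h1 := hC y hy x hx
  have h2 := hD y hy x hx
  have h3 : 0 ≤ |f y x| * y ^ M := mul_nonneg (abs_nonneg _) (pow_pos hy.1 _).le
  have h4 : 0 ≤ |g y x| * y ^ N := mul_nonneg (abs_nonneg _) (pow_pos hy.1 _).le
  calc |f y x * g y x| * y ^ (M + N) = (|f y x| * y ^ M) * (|g y x| * y ^ N) := by
        rw [abs_mul]; ring
    _ ≤ _ := mul_le_mul h1 h2 h4 (h3.trans h1)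

lemma zpow_mul_le {y : ℝ} (hy : y ∈ Ioc (0 : ℝ) 1) (m : ℤ) : y ^ m * y ^ m.natAbs ≤ 1 := by
  rw [← zpow_natCast, ← zpow_add₀ hy.1.ne']
  exact zpow_le_one₀ hy.1 hy.2 (by omega)

lemma Md.zpow (m : ℤ) : Md fun y _ => y ^ m :=
  ⟨m.natAbs, 1, fun y hy _ _ => by rw [abs_of_pos (zpow_pos hy.1 _)]; exact zpow_mul_le hy m⟩

lemma Md.x : Md fun _ x => x :=
  Md.of_bdd 1 fun _ _ x hx => by rw [abs_of_pos hx.1]; linarith [hx.2]

lemma Sm.const_mul (c : ℝ) {f : ℝ → ℝ → ℝ} (hf : Sm f) : Sm fun y x => c * f y x :=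
  (hf.mul (Md.const c)).congr fun _ _ _ _ => mul_comm _ _

/-- bounded and continuous on the half line -/
def Bd (F : ℝ → ℝ) : Prop := ContinuousOn F (Ioi 0) ∧ ∃ C, ∀ s, 0 < s → |F s| ≤ C

/-- continuous and rapidly decreasing on the half line -/
def Dec (F : ℝ → ℝ) : Prop := ContinuousOn F (Ioi 0) ∧ ∀ N : ℕ, ∃ C, ∀ s, 0 < s → |F s| ≤ C / s ^ N

lemma Dec.bd {F : ℝ → ℝ} (h : Dec F) : Bd F := by
  obtain ⟨C, hC⟩ := h.2 0
  exact ⟨h.1, C, fun s hs => by simpa using hC s hs⟩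

lemma Bd.mul {F G : ℝ → ℝ} (hF : Bd F) (hG : Bd G) : Bd fun s => F s * G s := by
  obtain ⟨h1, C, hC⟩ := hF
  obtain ⟨h2, D, hD⟩ := hG
  refine ⟨h1.mul h2, C * D, fun s hs => ?_⟩
  rw [abs_mul]
  exact mul_le_mul (hC s hs) (hD s hs) (abs_nonneg _) ((abs_nonneg _).trans (hC s hs))

lemma Bd.pow {F : ℝ → ℝ} (hF : Bd F) (n : ℕ) : Bd fun s => F s ^ n := by
  induction n with
  | zero => exact ⟨by simpa using continuousOn_const, 1, fun s _ => by simp⟩
  | succ n ih => simpa only [pow_succ] using ih.mul hF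

lemma Dec.mul {F G : ℝ → ℝ} (hF : Dec F) (hG : Bd G) : Dec fun s => F s * G s := by
  obtain ⟨h2, D, hD⟩ := hG
  refine ⟨hF.1.mul h2, fun N => ?_⟩
  obtain ⟨C, hC⟩ := hF.2 N
  refine ⟨C * D, fun s hs => ?_⟩
  rw [abs_mul, mul_div_right_comm]
  exact mul_le_mul (hC s hs) (hD s hs) (abs_nonneg _) ((abs_nonneg _).trans (hC s hs))

lemma Bd.md {F : ℝ → ℝ} (hF : Bd F) : Md fun y x => F (x / y) := by
  obtain ⟨-, C, hC⟩ := hF
  exact Md.of_bdd C fun y hy x hx => hC _ (div_pos hx.1 hy.1)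

lemma Dec.sm {F : ℝ → ℝ} (hF : Dec F) {g : ℝ → ℝ} (hg : ∀ x ∈ Ioc (0 : ℝ) (1 / 12), 1 / 12 ≤ g x) :
    Sm fun y x => F (g x / y) := fun N => by
  obtain ⟨C, hC⟩ := hF.2 N
  refine ⟨|C| * 12 ^ N, fun y hy x hx => ?_⟩
  have h1 := hg x hx
  have h2 : 0 < g x := by linarith
  have h0 := hy.1
  refine (hC _ (div_pos h2 hy.1)).trans ?_
  have h3 : (g x / y)⁻¹ ≤ 12 * y := by
    rw [inv_div, div_le_iff₀ h2]
    nlinarith
  calc C / (g x / y) ^ N ≤ |C| / (g x / y) ^ N := by gcongr; exact le_abs_self C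
    _ = |C| * ((g x / y)⁻¹) ^ N := by rw [inv_pow, div_eq_mul_inv]
    _ ≤ |C| * (12 * y) ^ N := by gcongr
    _ = _ := by ring

lemma Dec.integrableOn {F : ℝ → ℝ} (hF : Dec F) (e : ℕ) :
    IntegrableOn (fun s => s ^ e * F s) (Ioi 0) := by
  obtain ⟨C, hC⟩ := hF.2 e
  obtain ⟨D, hD⟩ := hF.2 (e + 2)
  refine Integrable.mono' (g := fun s : ℝ => (C + D) * (1 + s ^ 2)⁻¹)
    ((integrable_inv_one_add_sq.const_mul (C + D)).integrableOn)
    (((continuous_pow e).continuousOn.mul hF.1).aestronglyMeasurable measurableSet_Ioi) ?_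
  refine (ae_restrict_iff' measurableSet_Ioi).2 (Eventually.of_forall fun s hs => ?_)
  have hs' : 0 < s := hs
  have h1 := hC s hs
  have h2 := hD s hs
  rw [le_div_iff₀ (by positivity)] at h1 h2
  rw [Real.norm_eq_abs, abs_mul, abs_of_pos (pow_pos hs' e), ← div_eq_mul_inv,
    le_div_iff₀ (by positivity)]
  calc s ^ e * |F s| * (1 + s ^ 2) = |F s| * s ^ e + |F s| * s ^ (e + 2) := by ring
    _ ≤ _ := add_le_add h1 h2

lemma Dec.tail {F : ℝ → ℝ} (hF : Dec F) (e M : ℕ) : ∃ J, 0 ≤ J ∧ ∀ b, 0 < b →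
    |∫ s in Ioi b, s ^ e * F s| ≤ J * b⁻¹ ^ M := by
  have hI := (hF.integrableOn (e + M)).norm
  refine ⟨∫ s in Ioi (0 : ℝ), ‖s ^ (e + M) * F s‖, integral_nonneg fun s => norm_nonneg _,
    fun b hb => ?_⟩
  have hI' : IntegrableOn (fun s : ℝ => ‖s ^ (e + M) * F s‖) (Ioi b) :=
    IntegrableOn.mono_set hI (Ioi_subset_Ioi hb.le)
  calc |∫ s in Ioi b, s ^ e * F s| ≤ ∫ s in Ioi b, ‖s ^ (e + M) * F s‖ * b⁻¹ ^ M := by
        rw [← Real.norm_eq_abs]
        refine norm_integral_le_of_norm_le (hI'.mul_const _) ?_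
        refine (ae_restrict_iff' measurableSet_Ioi).2 (Eventually.of_forall fun s hs => ?_)
        have hs' : b < s := hs
        have hs0 : 0 < s := hb.trans hs'
        have h1 : 1 ≤ (s * b⁻¹) ^ M := one_le_pow₀ (by
          rw [← div_eq_mul_inv, le_div_iff₀ hb]; linarith)
        rw [norm_mul, norm_mul, Real.norm_of_nonneg (pow_pos hs0 _).le,
          Real.norm_of_nonneg (pow_pos hs0 _).le]
        calc s ^ e * ‖F s‖ = s ^ e * ‖F s‖ * 1 := (mul_one _).symm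
          _ ≤ s ^ e * ‖F s‖ * (s * b⁻¹) ^ M := by gcongr
          _ = _ := by ring
    _ = (∫ s in Ioi b, ‖s ^ (e + M) * F s‖) * b⁻¹ ^ M := integral_mul_const _ _
    _ ≤ _ := by
        gcongr ?_ * _
        exact setIntegral_mono_set hI (Eventually.of_forall fun s => norm_nonneg _)
          (Ioi_subset_Ioi hb.le).eventuallyLE

/-- integrable in the second variable, and the integral has the given constant term -/
def CT2 (f : ℝ → ℝ → ℝ) (c : ℝ) : Prop :=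
  (∀ y ∈ Ioc (0 : ℝ) 1, IntervalIntegrable (f y) volume 0 (1 / 12)) ∧
    HasCT (fun y => ∫ x in (0 : ℝ)..(1 / 12), f y x) c

lemma CT2.congr {f g : ℝ → ℝ → ℝ} {a b : ℝ} (hf : CT2 f a) (h : ∀ y x, f y x = g y x)
    (hab : a = b) : CT2 g b := by
  have : f = g := by funext y x; exact h y x
  rw [← this, ← hab]
  exact hf

lemma CT2.zero : CT2 (fun _ _ => 0) 0 :=
  ⟨fun _ _ => intervalIntegrable_const, by simpa using HasCT.const 0⟩

lemma CT2.add {f g : ℝ → ℝ → ℝ} {a b : ℝ} (hf : CT2 f a) (hg : CT2 g b) :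
    CT2 (fun y x => f y x + g y x) (a + b) :=
  ⟨fun y hy => (hf.1 y hy).add (hg.1 y hy), (hf.2.add hg.2).congr fun y hy =>
    (intervalIntegral.integral_add (hf.1 y hy) (hg.1 y hy)).symm⟩

lemma CT2.const_mul (c : ℝ) {f : ℝ → ℝ → ℝ} {a : ℝ} (hf : CT2 f a) :
    CT2 (fun y x => c * f y x) (c * a) :=
  ⟨fun y hy => (hf.1 y hy).const_mul c, (hf.2.const_mul c).congr fun _ _ =>
    (intervalIntegral.integral_const_mul _ _).symm⟩

lemma CT2.pure (n : ℤ) (e : ℕ) : CT2 (fun y x => x ^ e * y ^ n)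
    (if n = 0 then (1 / 12) ^ (e + 1) / (e + 1) else 0) := by
  refine ⟨fun y _ => ((continuous_pow e).mul continuous_const).intervalIntegrable _ _, ?_⟩
  have h := (HasCT.zpow n).const_mul ((1 / 12) ^ (e + 1) / (e + 1))
  rw [mul_ite, mul_one, mul_zero] at h
  refine h.congr fun y _ => ?_
  rw [intervalIntegral.integral_mul_const, integral_pow]
  simp

lemma CT2.loc {F : ℝ → ℝ} (hF : Dec F) (n : ℤ) (e : ℕ) :
    CT2 (fun y x => x ^ e * (y ^ n * F (x / y)))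
      (if n + e + 1 = 0 then ∫ s in Ioi (0 : ℝ), s ^ e * F s else 0) := by
  have key : ∀ y, 0 < y → (fun x => x ^ e * (y ^ n * F (x / y)))
      = fun x => y ^ (n + e) * ((x / y) ^ e * F (x / y)) := by
    intro y hy
    funext x
    rw [zpow_add₀ hy.ne', zpow_natCast, div_pow]
    field_simp
  have hI := hF.integrableOn e
  refine ⟨fun y hy => ?_, ?_⟩
  · beta_reduce
    rw [key y hy.1]
    have h0 := hy.1
    have h1 : IntervalIntegrable (fun s => s ^ e * F s) volume 0 (1 / 12 / y) :=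
      (intervalIntegrable_iff_integrableOn_Ioc_of_le (by positivity)).2
        (hI.mono_set Ioc_subset_Ioi_self)
    have h2 := h1.comp_mul_right (c := y⁻¹)
    have e1 : (1 / 12 / y) / y⁻¹ = 1 / 12 := by field_simp
    rw [e1, zero_div] at h2
    simpa only [div_eq_mul_inv] using h2.const_mul (y ^ (n + e))
  · obtain ⟨J, hJ, h⟩ := hF.tail e ((n + e + 1).natAbs + 1)
    have h1 := (HasCT.zpow (n + e + 1)).const_mul (∫ s in Ioi (0 : ℝ), s ^ e * F s)
    rw [mul_ite, mul_one, mul_zero] at h1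
    have h2 : HasCT (fun y => -(y ^ (n + e + 1) * ∫ s in Ioi (1 / 12 / y), s ^ e * F s)) 0 := by
      refine HasCT.of_small (J * 12 ^ ((n + e + 1).natAbs + 1)) fun y hy => ?_
      have h0 := hy.1
      have h3 := h (1 / 12 / y) (by positivity)
      have h4 := zpow_mul_le hy (n + e + 1)
      have e1 : (1 / 12 / y)⁻¹ = 12 * y := by field_simp
      rw [e1] at h3
      rw [abs_neg, abs_mul, abs_of_pos (zpow_pos hy.1 _)]
      calc y ^ (n + e + 1) * |∫ s in Ioi (1 / 12 / y), s ^ e * F s|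
          ≤ y ^ (n + e + 1) * (J * (12 * y) ^ ((n + e + 1).natAbs + 1)) := by gcongr
        _ = J * 12 ^ ((n + e + 1).natAbs + 1) * y
            * (y ^ (n + e + 1) * y ^ (n + e + 1).natAbs) := by ring
        _ ≤ J * 12 ^ ((n + e + 1).natAbs + 1) * y * 1 := by gcongr
        _ = _ := mul_one _
    have h3 := h1.add h2
    rw [add_zero] at h3
    refine h3.congr fun y hy => ?_
    have h0 := hy.1
    rw [key y hy.1, intervalIntegral.integral_const_mul,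
      intervalIntegral.integral_comp_div (fun s => s ^ e * F s) hy.1.ne', zero_div,
      ← intervalIntegral.integral_Ioi_sub_Ioi hI (by positivity), zpow_add₀ hy.1.ne' _ 1, zpow_one,
      smul_eq_mul]
    ring

lemma Sm.hasCT {f g : ℝ → ℝ → ℝ} {c : ℝ} (h : Sm fun y x => f y x - g y x) (hg : CT2 g c)
    (hf : ∀ y ∈ Ioc (0 : ℝ) 1, Continuous (f y)) :
    HasCT (fun y => ∫ x in (0 : ℝ)..(1 / 12), f y x) c := by
  obtain ⟨C, hC⟩ := h 1
  have h1 : HasCT (fun y => ∫ x in (0 : ℝ)..(1 / 12), (f y x - g y x)) 0 := by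
    refine HasCT.of_small (C * |1 / 12 - 0|) fun y hy => ?_
    have := intervalIntegral.norm_integral_le_of_norm_le_const (a := 0) (b := 1 / 12)
      (C := C * y) (f := fun x => f y x - g y x) (fun x hx => by
        rw [uIoc_of_le (by norm_num)] at hx
        simpa using hC y hy x hx)
    rw [Real.norm_eq_abs] at this
    exact this.trans_eq (by ring)
  have h2 := hg.2.add h1
  rw [add_zero] at h2
  refine h2.congr fun y hy => ?_
  rw [intervalIntegral.integral_sub ((hf y hy).intervalIntegrable _ _) (hg.1 y hy)]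
  ring

end E3

end Pool.Agent.P.MP_8d0004_nt.LR
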