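import Pool.Agent.P.MP_8d0004_nt.LR.E3

/-! The term calculus: reflected terms, their products and constant terms. -/

namespace Pool.Agent.P.MP_8d0004_nt.LR

open Real MeasureTheory Set Filter Topology

namespace E3

def addq : List ℤ → List ℤ → List ℤ
  | [], q => q
  | a :: p, [] => a :: p
  | a :: p, b :: q => (a + b) :: addq p q

def mulq : List ℤ → List ℤ → List ℤ
  | [], _ => []
  | a :: p, q => addq (q.map fun b => a * b) (0 :: mulq p q)

noncomputable def evq : List ℤ → ℝ → ℝ
  | [], _ => 0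
  | a :: q, x => a + x * evq q x

lemma evq_addq (p q : List ℤ) (x : ℝ) : evq (addq p q) x = evq p x + evq q x := by
  induction p generalizing q with
  | nil => simp [addq, evq]
  | cons a p ih =>
    cases q with
    | nil => simp [addq, evq]
    | cons b q => simp only [addq, evq, ih]; push_cast; ring

lemma evq_map (a : ℤ) (q : List ℤ) (x : ℝ) : evq (q.map fun b => a * b) x = a * evq q x := by
  induction q with
  | nil => simp [evq]
  | cons b q ih => simp only [List.map_cons, evq, ih]; push_cast; ring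

lemma evq_mulq (p q : List ℤ) (x : ℝ) : evq (mulq p q) x = evq p x * evq q x := by
  induction p with
  | nil => simp [mulq, evq]
  | cons a p ih => simp only [mulq, evq_addq, evq_map, evq, ih]; push_cast; ring

lemma md_evq (q : List ℤ) : Md fun _ x => evq q x := by
  induction q with
  | nil => exact Md.const 0
  | cons a q ih => exact (Md.const (a : ℝ)).add (Md.x.mul ih)

noncomputable def sumq : List ℤ → (ℕ → ℝ) → ℝ
  | [], _ => 0
  | a :: q, c => a * c 0 + sumq q fun e => c (e + 1)

lemma CT2.poly (q : List ℤ) : ∀ (F : ℝ → ℝ → ℝ) (c : ℕ → ℝ),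
    (∀ e, CT2 (fun y x => x ^ e * F y x) (c e)) → CT2 (fun y x => evq q x * F y x) (sumq q c) := by
  induction q with
  | nil => intro F c _; exact CT2.zero.congr (fun y x => by simp [evq]) rfl
  | cons a q ih =>
    intro F c h
    refine (((h 0).const_mul a).add (ih (fun y x => x * F y x) (fun e => c (e + 1)) fun e =>
      (h (e + 1)).congr (fun y x => by ring) rfl)).congr (fun y x => ?_) rfl
    simp only [evq]
    ring

lemma sumq_zero (q : List ℤ) : sumq q (fun _ => 0) = 0 := by
  induction q with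
  | nil => rfl
  | cons a q ih => simp [sumq, ih]

lemma sumq_single (q : List ℤ) (m : ℝ) : ∀ d : ℕ,
    sumq q (fun e => if e = d then m else 0) = (q.getD d 0 : ℤ) * m := by
  induction q with
  | nil => intro d; simp [sumq]
  | cons a q ih =>
    intro d
    cases d with
    | zero => simp [sumq, sumq_zero]
    | succ d => simpa [sumq] using ih d

structure Tm where
  q : List ℤ
  n : ℤ
  i : ℕ
  j : ℕ
  k : ℕ
  g : ℕ
  h : ℕ

noncomputable def Lam (i j k : ℕ) (s : ℝ) : ℝ := Lw s ^ i * LC 1 s ^ j * LC 2 s ^ k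

noncomputable def Tm.ev (t : Tm) (y x : ℝ) : ℝ :=
  LC 2 0 ^ t.g * LC 4 0 ^ t.h * (evq t.q x * (y ^ t.n * Lam t.i t.j t.k (x / y)))

def Tm.mul (a b : Tm) : Tm :=
  ⟨mulq a.q b.q, a.n + b.n, a.i + b.i, a.j + b.j, a.k + b.k, a.g + b.g, a.h + b.h⟩

lemma Tm.ev_mul (a b : Tm) {y : ℝ} (hy : y ≠ 0) (x : ℝ) :
    (a.mul b).ev y x = a.ev y x * b.ev y x := by
  simp only [Tm.ev, Tm.mul, Lam, evq_mulq, zpow_add₀ hy]
  ring

noncomputable def evL (L : List Tm) (y x : ℝ) : ℝ := (L.map fun t => t.ev y x).sum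

def mulL (L M : List Tm) : List Tm := L.flatMap fun a => M.map fun b => a.mul b

lemma evL_append (L M : List Tm) (y x : ℝ) : evL (L ++ M) y x = evL L y x + evL M y x := by
  simp [evL]

lemma evL_mulL (L M : List Tm) {y : ℝ} (hy : y ≠ 0) (x : ℝ) :
    evL (mulL L M) y x = evL L y x * evL M y x := by
  induction L with
  | nil => simp [evL, mulL]
  | cons a L ih =>
    have e : mulL (a :: L) M = (M.map fun b => a.mul b) ++ mulL L M := by simp [mulL]
    rw [e, evL_append, ih]
    simp only [evL, List.map_cons, List.sum_cons, List.map_map, Function.comp_def, Tm.ev_mul _ _ hy,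
      List.sum_map_mul_left]
    ring

lemma dec_Lw (h0 : StE0) : Dec Lw := ⟨h0.1, h0.2.2.1⟩

lemma dec_LC (h0 : StE0) {n : ℕ} (hn : 1 ≤ n) : Dec (LC n) :=
  ⟨(h0.2.1 n hn).mono Ioi_subset_Ici_self, h0.2.2.2.1 n hn⟩

lemma bd_Lam (h0 : StE0) (i j k : ℕ) : Bd (Lam i j k) :=
  (((dec_Lw h0).bd.pow i).mul ((dec_LC h0 le_rfl).bd.pow j)).mul ((dec_LC h0 one_le_two).bd.pow k)

lemma dec_Lam (h0 : StE0) {i j k : ℕ} (h : i + j + k ≠ 0) : Dec (Lam i j k) := by
  rcases i with _ | i
  · rcases j with _ | j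
    · rcases k with _ | k
      · simp at h
      · convert (dec_LC h0 one_le_two).mul (bd_Lam h0 0 0 k) using 2
        simp only [Lam]; ring
    · convert (dec_LC h0 le_rfl).mul (bd_Lam h0 0 j k) using 2
      simp only [Lam]; ring
  · convert (dec_Lw h0).mul (bd_Lam h0 i j k) using 2
    simp only [Lam]; ring

lemma md_ev (h0 : StE0) (t : Tm) : Md t.ev :=
  (Md.const _).mul ((md_evq t.q).mul ((Md.zpow t.n).mul (bd_Lam h0 t.i t.j t.k).md))

lemma md_evL (h0 : StE0) (L : List Tm) : Md (evL L) := by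
  induction L with
  | nil => exact Md.const 0
  | cons a L ih => exact ((md_ev h0 a).add ih).congr fun y _ x _ => by simp [evL]

structure Key where
  i : ℕ
  j : ℕ
  k : ℕ
  g : ℕ
  h : ℕ
  d : ℕ

noncomputable def mu (i j k d : ℕ) : ℝ :=
  if i + j + k = 0 then (1 / 12) ^ (d + 1) / (d + 1) else ∫ s in Ioi (0 : ℝ), s ^ d * Lam i j k s

noncomputable def Key.val (κ : Key) : ℝ := LC 2 0 ^ κ.g * LC 4 0 ^ κ.h * mu κ.i κ.j κ.k κ.d

noncomputable def evK (l : List (Key × ℤ)) : ℝ := (l.map fun e => (e.2 : ℝ) * e.1.val).sum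

@[simp] lemma evK_nil : evK [] = 0 := rfl

lemma evK_cons (e : Key × ℤ) (l : List (Key × ℤ)) :
    evK (e :: l) = (e.2 : ℝ) * e.1.val + evK l := by simp [evK]

lemma evK_append (l m : List (Key × ℤ)) : evK (l ++ m) = evK l + evK m := by simp [evK]

lemma evK_flatMap {ι : Type*} (L : List ι) (f : ι → List (Key × ℤ)) :
    evK (L.flatMap f) = (L.map fun e => evK (f e)).sum := by
  induction L with
  | nil => rfl
  | cons e L ih => simp [evK_append, ih]

def emitP : List ℤ → (ℕ → Key) → List (Key × ℤ)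
  | [], _ => []
  | a :: q, f => (f 0, a) :: emitP q fun d => f (d + 1)

lemma evK_emitP (q : List ℤ) : ∀ f : ℕ → Key, evK (emitP q f) = sumq q fun d => (f d).val := by
  induction q with
  | nil => intro f; rfl
  | cons a q ih => intro f; simp only [emitP, evK_cons, sumq, ih]

def emitN (t : Tm) : ℤ → List (Key × ℤ)
  | Int.ofNat 0 => emitP t.q fun d => ⟨t.i, t.j, t.k, t.g, t.h, d⟩
  | _ => []

def emitL (t : Tm) : ℤ → List (Key × ℤ)
  | Int.negSucc d => [(⟨t.i, t.j, t.k, t.g, t.h, d⟩, t.q.getD d 0)]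
  | _ => []

def emit (t : Tm) : List (Key × ℤ) :=
  match t.i + t.j + t.k with
  | 0 => emitN t t.n
  | _ + 1 => emitL t t.n

lemma sumq_const_mul (q : List ℤ) (a : ℝ) : ∀ c : ℕ → ℝ,
    sumq q (fun d => a * c d) = a * sumq q c := by
  induction q with
  | nil => intro c; simp [sumq]
  | cons b q ih => intro c; simp only [sumq, ih fun e => c (e + 1)]; ring

lemma ct2_ev (h0 : StE0) (t : Tm) : CT2 t.ev (evK (emit t)) := by
  obtain ⟨q, n, i, j, k, g, h⟩ := t
  by_cases hp : i + j + k = 0
  · have hi : i = 0 := by omega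
    have hj : j = 0 := by omega
    have hk : k = 0 := by omega
    subst hi hj hk
    refine ((CT2.poly q (fun y _ => y ^ n) _ (CT2.pure n)).const_mul
      (LC 2 0 ^ g * LC 4 0 ^ h)).congr (fun y x => by simp [Tm.ev, Lam]) ?_
    by_cases hn : n = 0
    · subst hn
      have e : emit ⟨q, 0, 0, 0, 0, g, h⟩ = emitP q fun d => ⟨0, 0, 0, g, h, d⟩ := rfl
      rw [e, evK_emitP, ← sumq_const_mul]
      simp [Key.val, mu]
    · have e : emit ⟨q, n, 0, 0, 0, g, h⟩ = [] := by
        rcases n with (_ | m) | m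
        · simp at hn
        · rfl
        · rfl
      simp [e, hn, sumq_zero]
  · refine ((CT2.poly q (fun y x => y ^ n * Lam i j k (x / y)) _
      (CT2.loc (dec_Lam h0 hp) n)).const_mul
      (LC 2 0 ^ g * LC 4 0 ^ h)).congr (fun y x => by simp [Tm.ev]) ?_
    have e : emit ⟨q, n, i, j, k, g, h⟩ = emitL ⟨q, n, i, j, k, g, h⟩ n := by
      obtain ⟨m, hm⟩ := Nat.exists_eq_succ_of_ne_zero hp
      simp only [emit, hm]
    rw [e]
    rcases n with m | m
    · have : ∀ e : ℕ, ¬ (Int.ofNat m + e + 1 = 0) := fun e => by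
        simp only [Int.ofNat_eq_natCast]; omega
      simp only [this, if_false, sumq_zero, mul_zero]
      rfl
    · have : (fun e : ℕ => if Int.negSucc m + e + 1 = 0 then
          ∫ s in Ioi (0 : ℝ), s ^ e * Lam i j k s else 0)
          = fun e : ℕ => if e = m then ∫ s in Ioi (0 : ℝ), s ^ m * Lam i j k s else 0 := by
        funext e
        by_cases he : e = m
        · subst he
          rw [if_pos (by rw [Int.negSucc_eq]; ring), if_pos rfl]
        · rw [if_neg (by rw [Int.negSucc_eq]; omega), if_neg he]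
      rw [this, sumq_single]
      simp only [emitL, evK_cons, evK_nil, Key.val, mu, if_neg hp]
      ring

lemma ct2_evL (h0 : StE0) (L : List Tm) : CT2 (evL L) (evK (L.flatMap emit)) := by
  induction L with
  | nil => exact CT2.zero
  | cons a L ih =>
    exact ((ct2_ev h0 a).add ih).congr (fun y x => by simp [evL]) (by simp [evK_append])

/-- the list of terms approximates the function to all orders -/
def Apx (f : ℝ → ℝ → ℝ) (L : List Tm) : Prop := Sm fun y x => f y x - evL L y x

lemma Apx.mul (h0 : StE0) {f g : ℝ → ℝ → ℝ} {L M : List Tm} (hf : Apx f L) (hg : Apx g M) :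
    Apx (fun y x => f y x * g y x) (mulL L M) := by
  have h1 : Md g := ((Sm.md hg).add (md_evL h0 M)).congr fun y _ x _ => by ring
  refine ((Sm.mul hf h1).add (Sm.mul hg (md_evL h0 L))).congr fun y hy x _ => ?_
  rw [evL_mulL _ _ hy.1.ne']
  ring

lemma Apx.hasCT (h0 : StE0) {f : ℝ → ℝ → ℝ} {L : List Tm} (hf : Apx f L)
    (hc : ∀ y ∈ Ioc (0 : ℝ) 1, Continuous (f y)) :
    HasCT (fun y => ∫ x in (0 : ℝ)..(1 / 12), f y x) (evK (L.flatMap emit)) :=
  Sm.hasCT hf (ct2_evL h0 L) hc

/-- the twelve arcs -/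
def arcs : List (ℕ × Bool) :=
  [(0, true), (1, false), (1, true), (2, false), (2, true), (3, false), (3, true), (4, false),
   (4, true), (5, false), (5, true), (6, false)]

def sg (s : Bool) : ℤ := bif s then 1 else -1

lemma arc_pair {F : ℝ → ℝ} (hF : Continuous F) (a b : ℝ) (h : b = a + 1 / 6) :
    (∫ x in (0 : ℝ)..(1 / 12), F (a + x)) + ∫ x in (0 : ℝ)..(1 / 12), F (b - x)
      = ∫ v in a..b, F v := by
  rw [intervalIntegral.integral_comp_add_left, intervalIntegral.integral_comp_sub_left, add_zero,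
    sub_zero, show b - 1 / 12 = a + 1 / 12 by rw [h]; ring,
    intervalIntegral.integral_add_adjacent_intervals (hF.intervalIntegrable _ _)
      (hF.intervalIntegrable _ _)]

lemma integral_arcs {F : ℝ → ℝ} (hF : Continuous F) : ∫ v in (0 : ℝ)..1, F v
    = (arcs.map fun a => ∫ x in (0 : ℝ)..(1 / 12), F (a.1 / 6 + sg a.2 * x)).sum := by
  have h0 := arc_pair hF 0 (1 / 6) (by norm_num)
  have h1 := arc_pair hF (1 / 6) (2 / 6) (by norm_num)
  have h2 := arc_pair hF (2 / 6) (3 / 6) (by norm_num)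
  have h3 := arc_pair hF (3 / 6) (4 / 6) (by norm_num)
  have h4 := arc_pair hF (4 / 6) (5 / 6) (by norm_num)
  have h5 := arc_pair hF (5 / 6) (6 / 6) (by norm_num)
  have a := fun a b c => intervalIntegral.integral_add_adjacent_intervals (μ := volume)
    (hF.intervalIntegrable a b) (hF.intervalIntegrable b c)
  have a1 := a 0 (1 / 6) (2 / 6)
  have a2 := a 0 (2 / 6) (3 / 6)
  have a3 := a 0 (3 / 6) (4 / 6)
  have a4 := a 0 (4 / 6) (5 / 6)
  have a5 := a 0 (5 / 6) (6 / 6)
  have e : (1 : ℝ) = 6 / 6 := by norm_num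
  simp only [arcs, sg, List.map_cons, List.map_nil, List.sum_cons, List.sum_nil, cond_true,
    cond_false, Int.cast_one, Int.cast_neg, one_mul, neg_mul, ← sub_eq_add_neg, Nat.cast_ofNat,
    Nat.cast_one, Nat.cast_zero, zero_div]
  rw [show ∫ v in (0 : ℝ)..1, F v = ∫ v in (0 : ℝ)..(6 / 6), F v by rw [← e]]
  linarith

lemma hasCT_arcs (h0 : StE0) {F : ℝ → ℝ → ℝ} (hc : ∀ y ∈ Ioc (0 : ℝ) 1, Continuous (F y))
    (L : ℕ × Bool → List Tm)
    (h : ∀ a : ℕ × Bool, Apx (fun y x => F y (a.1 / 6 + sg a.2 * x)) (L a)) :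
    HasCT (fun y => ∫ v in (0 : ℝ)..1, F y v)
      (evK (arcs.flatMap fun a => (L a).flatMap emit)) := by
  rw [evK_flatMap]
  refine (HasCT.list_sum arcs fun a _ => (h a).hasCT h0 fun y hy => ?_).congr fun y hy =>
    (integral_arcs (hc y hy)).symm
  exact (hc y hy).comp (by fun_prop)

/-! Collecting equal keys, with strict evaluation. -/

def forceN {α : Type} (n : ℕ) (f : ℕ → α) : α :=
  match n with
  | 0 => f 0
  | m + 1 => f (Nat.succ m)

lemma forceN_eq {α : Type} (n : ℕ) (f : ℕ → α) : forceN n f = f n := by cases n <;> rfl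

def forceZ {α : Type} (z : ℤ) (f : ℤ → α) : α :=
  match z with
  | Int.ofNat n => forceN n fun m => f (Int.ofNat m)
  | Int.negSucc n => forceN n fun m => f (Int.negSucc m)

lemma forceZ_eq {α : Type} (z : ℤ) (f : ℤ → α) : forceZ z f = f z := by
  cases z <;> simp only [forceZ, forceN_eq]

def forceK {α : Type} (κ : Key) (f : Key → α) : α :=
  forceN κ.i fun i => forceN κ.j fun j => forceN κ.k fun k => forceN κ.g fun g =>
    forceN κ.h fun h => forceN κ.d fun d => f ⟨i, j, k, g, h, d⟩

lemma forceK_eq {α : Type} (κ : Key) (f : Key → α) : forceK κ f = f κ := by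
  simp only [forceK, forceN_eq]

def Key.beq (a b : Key) : Bool :=
  Nat.beq a.d b.d && (Nat.beq a.i b.i && (Nat.beq a.j b.j && (Nat.beq a.k b.k &&
    (Nat.beq a.g b.g && Nat.beq a.h b.h))))

lemma Key.eq_of_beq {a b : Key} (h : a.beq b = true) : a = b := by
  cases a; cases b
  simp only [Key.beq, Bool.and_eq_true, Nat.beq_eq] at h
  simp [h]

def ins {α : Type} (κ : Key) (c : ℤ) : List (Key × ℤ) → (List (Key × ℤ) → α) → α
  | [], f => f [(κ, c)]
  | e :: l, f => bif κ.beq e.1 then forceZ (c + e.2) fun s => f ((e.1, s) :: l)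
      else ins κ c l fun l' => f (e :: l')

lemma ins_spec {α : Type} (κ : Key) (c : ℤ) (l : List (Key × ℤ)) :
    ∀ f : List (Key × ℤ) → α, ∃ l', ins κ c l f = f l' ∧ evK l' = c * κ.val + evK l := by
  induction l with
  | nil => intro f; exact ⟨[(κ, c)], rfl, by simp [evK_cons]⟩
  | cons e l ih =>
    intro f
    cases hb : κ.beq e.1 with
    | true =>
      refine ⟨(e.1, c + e.2) :: l, by simp only [ins, hb, cond_true, forceZ_eq], ?_⟩
      rw [evK_cons, evK_cons, Key.eq_of_beq hb]
      push_cast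
      ring
    | false =>
      obtain ⟨l', h1, h2⟩ := ih fun l' => f (e :: l')
      refine ⟨e :: l', by simp only [ins, hb, cond_false, h1], ?_⟩
      rw [evK_cons, evK_cons, h2]
      ring

def collect : List (Key × ℤ) → List (Key × ℤ) → List (Key × ℤ)
  | [], acc => acc
  | e :: l, acc => forceZ e.2 fun c => forceK e.1 fun κ => ins κ c acc fun acc' => collect l acc'

lemma evK_collect (l : List (Key × ℤ)) : ∀ acc, evK (collect l acc) = evK l + evK acc := by
  induction l with
  | nil => intro acc; simp [collect]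
  | cons e l ih =>
    intro acc
    obtain ⟨l', h1, h2⟩ := ins_spec e.1 e.2 acc fun acc' => collect l acc'
    simp only [collect, forceZ_eq, forceK_eq, h1, ih, h2, evK_cons]
    ring

def nz : List (Key × ℤ) → List (Key × ℤ)
  | [] => []
  | e :: l => bif decide (e.2 = 0) then nz l else e :: nz l

lemma evK_nz (l : List (Key × ℤ)) : evK (nz l) = evK l := by
  induction l with
  | nil => rfl
  | cons e l ih =>
    by_cases h : e.2 = 0
    · simp [nz, h, ih, evK_cons]
    · simp [nz, h, ih, evK_cons]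

def eqK : List (Key × ℤ) → List (Key × ℤ) → Bool
  | [], [] => true
  | a :: l, b :: m => a.1.beq b.1 && (decide (a.2 = b.2) && eqK l m)
  | _, _ => false

lemma eq_of_eqK (l : List (Key × ℤ)) : ∀ m, eqK l m = true → l = m := by
  induction l with
  | nil => intro m h; cases m with
    | nil => rfl
    | cons b m => simp [eqK] at h
  | cons a l ih => intro m h; cases m with
    | nil => simp [eqK] at h
    | cons b m =>
      simp only [eqK, Bool.and_eq_true, decide_eq_true_eq] at h
      rw [ih m h.2.2, Prod.ext (Key.eq_of_beq h.1) h.2.1]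

lemma evK_of_check {l m : List (Key × ℤ)} (h : eqK (nz (collect l [])) m = true) :
    evK l = evK m := by
  rw [← eq_of_eqK _ _ h, evK_nz, evK_collect, evK_nil, add_zero]

end E3

end Pool.Agent.P.MP_8d0004_nt.LR
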