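import Pool.Agent.P.MP_8d0004_nt.LR.E4a

/-! The constant term of the length three primitive. -/

namespace Pool.Agent.P.MP_8d0004_nt.LR

open Real MeasureTheory Set Filter Topology

namespace E4

open E3

lemma cos2_int (n : ℤ) : (cos2 (n : ZMod 6) : ℝ) = 2 * cos (2 * π * (n / 6)) := by
  have h1 : (n : ZMod 6) = ((n % 6 : ℤ) : ZMod 6) := (ZMod.intCast_mod n 6).symm
  have h2 : 2 * π * ((n : ℝ) / 6) = 2 * π * (((n % 6 : ℤ) : ℝ) / 6) + ((n / 6 : ℤ) : ℝ) * (2 * π) := by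
    have : (n : ℝ) = ((n % 6 : ℤ) : ℝ) + 6 * ((n / 6 : ℤ) : ℝ) := by
      exact_mod_cast (Int.emod_add_mul_ediv n 6).symm
    rw [this]
    ring
  rw [h1, h2, cos_add_int_mul_two_pi]
  have h3 : 0 ≤ n % 6 := Int.emod_nonneg _ (by norm_num)
  have h4 : n % 6 < 6 := Int.emod_lt_of_pos _ (by norm_num)
  generalize n % 6 = r at h3 h4
  interval_cases r
  · rw [show cos2 ((0 : ℤ) : ZMod 6) = 2 from rfl]
    simp
  · rw [show cos2 ((1 : ℤ) : ZMod 6) = 1 from rfl,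
      show 2 * π * (((1 : ℤ) : ℝ) / 6) = π / 3 by push_cast; ring, cos_pi_div_three]
    norm_num
  · rw [show cos2 ((2 : ℤ) : ZMod 6) = -1 from rfl,
      show 2 * π * (((2 : ℤ) : ℝ) / 6) = π - π / 3 by push_cast; ring, cos_pi_sub, cos_pi_div_three]
    norm_num
  · rw [show cos2 ((3 : ℤ) : ZMod 6) = -2 from rfl,
      show 2 * π * (((3 : ℤ) : ℝ) / 6) = π by push_cast; ring, cos_pi]
    norm_num
  · rw [show cos2 ((4 : ℤ) : ZMod 6) = -1 from rfl,
      show 2 * π * (((4 : ℤ) : ℝ) / 6) = π / 3 + π by push_cast; ring, cos_add_pi, cos_pi_div_three]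
    norm_num
  · rw [show cos2 ((5 : ℤ) : ZMod 6) = 1 from rfl,
      show 2 * π * (((5 : ℤ) : ℝ) / 6) = 2 * π - π / 3 by push_cast; ring, cos_two_pi_sub,
      cos_pi_div_three]
    norm_num

lemma cos2_three (x1 x2 x3 : ℕ) (a b c : ℤ) :
    (cos2 ((x1 : ZMod 6) * a + x2 * b + x3 * c) : ℝ)
      = 2 * cos (2 * π * (a * ((x1 : ℝ) / 6) + b * ((x2 : ℝ) / 6) + c * ((x3 : ℝ) / 6))) := by
  have := cos2_int (x1 * a + x2 * b + x3 * c)
  push_cast at this
  rw [this]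
  congr 2
  ring

lemma cos2_two (x1 x2 : ℕ) (a b : ℤ) :
    (cos2 ((x1 : ZMod 6) * a + x2 * b) : ℝ)
      = 2 * cos (2 * π * (a * ((x1 : ℝ) / 6) + b * ((x2 : ℝ) / 6))) := by
  have := cos2_int (x1 * a + x2 * b)
  push_cast at this
  rw [this]
  congr 2
  ring

lemma S3_split (D : ℤ → ℤ → ℤ → ℝ) (hD : ∀ a b c x, |x / D a b c| ≤ |x|) {i j k : ℕ}
    (hi : 1 ≤ i) (hj : 1 ≤ j) (hk : 1 ≤ k) {y : ℝ} (hy : 0 < y) (L : List (ℕ × ℕ × ℕ × ℤ)) :
    S3 (fun a b c => (om3 L a b c : ℝ) / D a b c) i j k y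
      = (L.map fun e => 2 * (e.2.2.2 : ℝ) * S3 (fun a b c => cos (2 * π * (a * ((e.1 : ℝ) / 6)
        + b * ((e.2.1 : ℝ) / 6) + c * ((e.2.2.1 : ℝ) / 6))) / D a b c) i j k y).sum := by
  apply HasSum.tsum_eq
  induction L with
  | nil => simp [om3]
  | cons e L ih =>
    have h := (summable_S3 (W := fun a b c => cos (2 * π * (a * ((e.1 : ℝ) / 6)
        + b * ((e.2.1 : ℝ) / 6) + c * ((e.2.2.1 : ℝ) / 6))) / D a b c)
      (PG3_of_bdd 1 fun a b c => (hD _ _ _ _).trans (abs_cos_le_one _)) hi hj hk hy).hasSum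
    rw [List.map_cons, List.sum_cons]
    refine ((h.mul_left (2 * (e.2.2.2 : ℝ))).add ih).congr_fun fun p => ?_
    simp only [om3, List.map_cons, List.sum_cons, Int.cast_add, Int.cast_mul, cos2_three]
    ring

lemma S2_split (D : ℤ → ℤ → ℝ) (hD : ∀ a b x, |x / D a b| ≤ |x|) {i j : ℕ}
    (hi : 1 ≤ i) (hj : 1 ≤ j) {y : ℝ} (hy : 0 < y) (L : List (ℕ × ℕ × ℤ)) :
    S2 (fun a b => (om2 L a b : ℝ) / D a b) i j y
      = (L.map fun e => 2 * (e.2.2 : ℝ) * S2 (fun a b => cos (2 * π * (a * ((e.1 : ℝ) / 6)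
        + b * ((e.2.1 : ℝ) / 6))) / D a b) i j y).sum := by
  apply HasSum.tsum_eq
  induction L with
  | nil => simp [om2]
  | cons e L ih =>
    have h := (summable_S2 (W := fun a b => cos (2 * π * (a * ((e.1 : ℝ) / 6)
        + b * ((e.2.1 : ℝ) / 6))) / D a b)
      (PG2_of_bdd 1 fun a b => (hD _ _ _).trans (abs_cos_le_one _)) hi hj hy).hasSum
    rw [List.map_cons, List.sum_cons]
    refine ((h.mul_left (2 * (e.2.2 : ℝ))).add ih).congr_fun fun p => ?_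
    simp only [om2, List.map_cons, List.sum_cons, Int.cast_add, Int.cast_mul, cos2_two]
    ring

lemma hasCT_big (h0 : StE0) {ι : Type} (S : List ι) (F : ι → ℝ → ℝ → ℝ)
    (L : ι → ℕ × Bool → List Tm) (hc : ∀ e, ∀ y ∈ Ioc (0 : ℝ) 1, Continuous (F e y))
    (h : ∀ e (a : ℕ × Bool), Apx (fun y x => F e y (a.1 / 6 + sg a.2 * x)) (L e a))
    {res : List (Key × ℤ)} (chk : eqK (nz (collect (big S L) [])) res = true) (κ : ℝ)
    {G : ι → ℝ → ℝ} (hG : ∀ e, ∀ y ∈ Ioc (0 : ℝ) 1, G e y = ∫ v in (0 : ℝ)..1, κ * F e y v) :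
    HasCT (fun y => (S.map fun e => G e y).sum) (κ * evK res) := by
  rw [← evK_of_check chk, big, evK_flatMap]
  refine ((HasCT.list_sum S fun e _ => hasCT_arcs h0 (hc e) (L e) (h e)).const_mul κ).congr
    fun y hy => ?_
  rw [← List.sum_map_mul_left]
  refine congrArg List.sum (List.map_congr_left fun e _ => ?_)
  rw [hG e y hy, intervalIntegral.integral_const_mul]

lemma div3 (a b c : ℤ) (x : ℝ) : |x / ((a : ℝ) * b * c)| ≤ |x| := by
  exact_mod_cast abs_div_int_le x (a * b * c)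

lemma ctA (h0 : StE0) (h1 : StE1) (h2 : StE2) :
    HasCT (S3 (fun a b c => (om3 solA a b c : ℝ) / (b * c * (a + b + c))) 1 1 2)
      (-2 * (2 * π) ^ 3 / (6 * 72 * 1296 * 77760) * evK resA) := by
  refine (hasCT_big h0 solA (fun e y v => (e.2.2.2 : ℝ) * (6 * v - 3) * (72 * wS y (v + e.1 / 6))
      * (1296 / (2 * π) * pS y (v + e.2.1 / 6)) * (77760 / (2 * π) * rS 2 y (v + e.2.2.1 / 6)))
    LA (fun e y hy => ?_) (fun e a => (((apx_b _ _ _).mul h0 (apx_w h0 h1 _ _ _)).mul h0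
      (apx_p h0 h1 _ _ _)).mul h0 (apx_r h0 h1 _ _ _)) chkA _ (fun e y hy => ?_)).congr
    fun y hy => (S3_split (fun a b c => b * c * (a + b + c))
      (fun a b c x => by exact_mod_cast div3 b c (a + b + c) x) le_rfl le_rfl one_le_two hy.1 _).symm
  · obtain ⟨⟨c1, c2, c3⟩, -⟩ := h2 y hy.1
    fun_prop
  · rw [(h2 y hy.1).2.1, ← mul_assoc, ← intervalIntegral.integral_const_mul]
    refine intervalIntegral.integral_congr fun v _ => ?_
    field_simp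
    ring

lemma ctB (h0 : StE0) (h1 : StE1) (h2 : StE2) :
    HasCT (S3 (fun a b c => (om3 solB a b c : ℝ) / (a * b * (b + c))) 2 1 1)
      (-2 * (2 * π) ^ 3 / (6 * 72 * 1296 * 77760) * evK resB) := by
  refine (hasCT_big h0 solB (fun e y v => (e.2.2.2 : ℝ) * (6 * v - 3)
      * (77760 / (2 * π) * rS 2 y (e.1 / 6))
      * (1296 / (2 * π) * pS y (v + e.2.1 / 6)) * (72 * wS y (v + e.2.2.1 / 6)))
    LB (fun e y hy => ?_) (fun e a => (((apx_b _ _ _).mul h0 (apx_r2P h0 h1 _)).mul h0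
      (apx_p h0 h1 _ _ _)).mul h0 (apx_w h0 h1 _ _ _)) chkB _ (fun e y hy => ?_)).congr
    fun y hy => (S3_split (fun a b c => a * b * (b + c))
      (fun a b c x => by exact_mod_cast div3 a b (b + c) x) one_le_two le_rfl le_rfl hy.1 _).symm
  · obtain ⟨⟨c1, c2, c3⟩, -⟩ := h2 y hy.1
    fun_prop
  · rw [(h2 y hy.1).2.2.1, ← mul_assoc, ← intervalIntegral.integral_const_mul]
    refine intervalIntegral.integral_congr fun v _ => ?_
    field_simp
    ring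

lemma ctC (h0 : StE0) (h1 : StE1) (h2 : StE2) :
    HasCT (S3 (fun a b c => (om3 solC a b c : ℝ) / (a * b * (b + c))) 1 2 1)
      (-2 * (2 * π) ^ 3 / (6 * 72 * 1296 * 77760) * evK resC) := by
  refine (hasCT_big h0 solC (fun e y v => (e.2.2.2 : ℝ) * (6 * v - 3)
      * (1296 / (2 * π) * pS y (e.1 / 6))
      * (77760 / (2 * π) * rS 2 y (v + e.2.1 / 6)) * (72 * wS y (v + e.2.2.1 / 6)))
    LCc (fun e y hy => ?_) (fun e a => (((apx_b _ _ _).mul h0 (apx_p0P h0 h1 _)).mul h0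
      (apx_r h0 h1 _ _ _)).mul h0 (apx_w h0 h1 _ _ _)) chkC _ (fun e y hy => ?_)).congr
    fun y hy => (S3_split (fun a b c => a * b * (b + c))
      (fun a b c x => by exact_mod_cast div3 a b (b + c) x) le_rfl one_le_two le_rfl hy.1 _).symm
  · obtain ⟨⟨c1, c2, c3⟩, -⟩ := h2 y hy.1
    fun_prop
  · rw [(h2 y hy.1).2.2.2.1, ← mul_assoc, ← intervalIntegral.integral_const_mul]
    refine intervalIntegral.integral_congr fun v _ => ?_
    field_simp
    ring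

lemma div2 (a b : ℤ) (x : ℝ) : |x / ((a : ℝ) * b ^ 2)| ≤ |x| := by
  have := abs_div_int_le x (a * b ^ 2)
  push_cast at this
  exact this

lemma ctD (h0 : StE0) (h1 : StE1) (h2 : StE2) :
    HasCT (S2 (fun a b => (om2 solD a b : ℝ) / (a * b ^ 2)) 2 1)
      (-2 * (2 * π) ^ 3 / (6 * 1296 * 77760) * evK resD) := by
  refine (hasCT_big h0 solD (fun e y v => (e.2.2 : ℝ) * (6 * v - 3)
      * (77760 / (2 * π) * rS 2 y (e.1 / 6)) * (1296 / (2 * π) * pS y (v + e.2.1 / 6)))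
    LD (fun e y hy => ?_) (fun e a => ((apx_b _ _ _).mul h0 (apx_r2P h0 h1 _)).mul h0
      (apx_p h0 h1 _ _ _)) chkD _ (fun e y hy => ?_)).congr
    fun y hy => (S2_split (fun a b => a * b ^ 2) div2 one_le_two le_rfl hy.1 _).symm
  · obtain ⟨⟨c1, c2, c3⟩, -⟩ := h2 y hy.1
    fun_prop
  · rw [(h2 y hy.1).2.2.2.2 2 (Or.inl rfl), ← mul_assoc, ← intervalIntegral.integral_const_mul]
    refine intervalIntegral.integral_congr fun v _ => ?_
    field_simp
    ring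

lemma ctE (h0 : StE0) (h1 : StE1) (h2 : StE2) :
    HasCT (S2 (fun a b => (om2 solE a b : ℝ) / (a * b ^ 2)) 4 1)
      (-2 * (2 * π) ^ 3 / (6 * 1296 * 9797760) * evK resE) := by
  refine (hasCT_big h0 solE (fun e y v => (e.2.2 : ℝ) * (6 * v - 3)
      * (9797760 / (2 * π) * rS 4 y (e.1 / 6)) * (1296 / (2 * π) * pS y (v + e.2.1 / 6)))
    LE (fun e y hy => ?_) (fun e a => ((apx_b _ _ _).mul h0 (apx_r4P h0 h1 _)).mul h0
      (apx_p h0 h1 _ _ _)) chkE _ (fun e y hy => ?_)).congr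
    fun y hy => (S2_split (fun a b => a * b ^ 2) div2 (by norm_num) le_rfl hy.1 _).symm
  · obtain ⟨⟨c1, c2, c3⟩, -⟩ := h2 y hy.1
    fun_prop
  · rw [(h2 y hy.1).2.2.2.2 4 (Or.inr rfl), ← mul_assoc, ← intervalIntegral.integral_const_mul]
    refine intervalIntegral.integral_congr fun v _ => ?_
    field_simp
    ring

lemma mu0 (d : ℕ) : mu 0 0 0 d = (1 / 12) ^ (d + 1) / (d + 1) := by simp [mu]

lemma muw (h0 : StE0) (d : ℕ) :
    mu 1 0 0 d = (d + 1).factorial * zt (d + 2) / (2 * π) ^ (d + 2) := by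
  rw [← h0.2.2.2.2.2.2.1 d]
  simp [mu, Lam]

lemma mup (h0 : StE0) (d : ℕ) :
    mu 0 1 0 d = (d + 2).factorial * zt (d + 3) / (2 * π) ^ (d + 3) / (d + 1) := by
  rw [← h0.2.2.2.2.2.2.2.1 1 le_rfl d]
  simp [mu, Lam]

lemma mur (h0 : StE0) (d : ℕ) :
    mu 0 0 1 d = (d + 3).factorial * zt (d + 4) / (2 * π) ^ (d + 4) / (d + 1) := by
  rw [← h0.2.2.2.2.2.2.2.1 2 one_le_two d]
  simp [mu, Lam]

end E4

open E3 E4 in
theorem stE4 (h0 : StE0) (h1 : StE1) (h2 : StE2) : StE4 := by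
  have h := (((((ctA h0 h1 h2).add (ctB h0 h1 h2)).add (ctC h0 h1 h2)).add (ctD h0 h1 h2)).add
    (ctE h0 h1 h2)).const_mul (den : ℝ)⁻¹
  have g2 := h0.2.2.2.2.2.1 2 one_le_two
  have g4 := h0.2.2.2.2.2.1 4 (by norm_num)
  obtain ⟨z2, z4, -⟩ := h0.2.2.2.2.2.2.2.2
  unfold StE4
  convert h using 1
  · funext y
    rw [KK, div_eq_inv_mul]
  · simp only [resA, resB, resC, resD, resE, evK_cons, evK_nil, Key.val, mu0, muw h0, mup h0,
      mur h0, g2, g4, z2, z4, den, Nat.reduceAdd, Nat.factorial, Nat.succ_eq_add_one]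
    push_cast
    field_simp
    ring

end Pool.Agent.P.MP_8d0004_nt.LR
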