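import Pool.Agent.P.MP_8d0004_nt.LR.E4c

/-! The factor lists approximate the twisted series. -/

namespace Pool.Agent.P.MP_8d0004_nt.LR

open Real MeasureTheory Set Filter Topology

namespace E4

open E3

lemma evq_cmp (P u : List ℤ) (x : ℝ) : evq (cmp P u) x = evq P (evq u x) := by
  induction P with
  | nil => rfl
  | cons a P ih => simp [cmp, evq_addq, evq_mulq, ih, evq]

lemma forceQ_eq {α : Type} (q : List ℤ) : ∀ f : List ℤ → α, forceQ q f = f q := by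
  induction q with
  | nil => intro f; rfl
  | cons a q ih => intro f; simp only [forceQ, forceZ_eq, ih]

lemma evL_nil (y x : ℝ) : evL [] y x = 0 := rfl

lemma evL_cons (t : Tm) (L : List Tm) (y x : ℝ) : evL (t :: L) y x = t.ev y x + evL L y x := by
  simp [evL]

lemma ev_pt (q : List ℤ) (n : ℤ) (y x : ℝ) : (pt q n).ev y x = evq q x * y ^ n := by
  simp [pt, Tm.ev, Lam]

lemma evL_opt (k : ℕ) (t : Tm) (y x : ℝ) :
    evL (opt k t) y x = if k % 6 = 0 then t.ev y x else 0 := by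
  unfold opt
  by_cases h : k % 6 = 0
  · simp [h, evL]
  · have e : Nat.beq (k % 6) 0 = false := by
      rw [← Bool.not_eq_true, Nat.beq_eq]; exact h
    rw [if_neg h, e]
    rfl

lemma evq_uq (k : ℕ) (s : Bool) (x : ℝ) : evq (uq k s) x = 6 * (k / 6 + sg s * x) := by
  simp only [uq, evq]
  push_cast
  ring

def Ok (k : ℕ) (s : Bool) : Prop := (s = true ∧ k ≤ 5) ∨ (s = false ∧ 1 ≤ k ∧ k ≤ 6)

lemma ok_u0 (m : ℕ) (s : Bool) : Ok (u0 m s) s := by
  cases s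
  · right; simp only [u0, cond_false, true_and]; omega
  · left; simp only [u0, cond_true, true_and]; omega

lemma u0_shift (m : ℕ) (s : Bool) : ∃ n : ℤ, (m : ℝ) / 6 = (u0 m s : ℝ) / 6 + n := by
  have : ∃ n : ℤ, (m : ℤ) = (u0 m s : ℤ) + 6 * n := by
    cases s
    · exact ⟨((m + 5) / 6 : ℕ) - 1, by simp only [u0, cond_false]; omega⟩
    · exact ⟨(m / 6 : ℕ), by simp only [u0, cond_true]; omega⟩
  obtain ⟨n, hn⟩ := this
  refine ⟨n, ?_⟩
  have : (m : ℝ) = (u0 m s : ℝ) + 6 * n := by exact_mod_cast hn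
  rw [this]
  ring

lemma mod_shift (m : ℕ) : ∃ n : ℤ, (m : ℝ) / 6 = ((m % 6 : ℕ) : ℝ) / 6 + n := u0_shift m true

lemma Ok.mem {k : ℕ} {s : Bool} (h : Ok k s) {x : ℝ} (hx : x ∈ Ioc (0 : ℝ) (1 / 12)) :
    (k : ℝ) / 6 + sg s * x ∈ Ioo (0 : ℝ) 1 := by
  obtain ⟨h1, h2⟩ := hx
  rcases h with ⟨rfl, h⟩ | ⟨rfl, h, h'⟩
  · have : (k : ℝ) ≤ 5 := by exact_mod_cast h
    have h3 : (0 : ℝ) ≤ k := Nat.cast_nonneg k
    simp only [sg, cond_true, Int.cast_one]
    constructor <;> linarith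
  · have : (1 : ℝ) ≤ k := by exact_mod_cast h
    have : (k : ℝ) ≤ 6 := by exact_mod_cast h'
    simp only [sg, cond_false, Int.cast_neg, Int.cast_one]
    constructor <;> linarith

lemma Ok.loc {k : ℕ} {s : Bool} (h : Ok k s) {F : ℝ → ℝ} (hF : Dec F) (ε : ℝ) :
    Sm fun y x => F (((k : ℝ) / 6 + sg s * x) / y) + ε * F ((1 - ((k : ℝ) / 6 + sg s * x)) / y)
      - if k % 6 = 0 then (bif s then 1 else ε) * F (x / y) else 0 := by
  by_cases hk : k % 6 = 0
  · rcases h with ⟨rfl, h⟩ | ⟨rfl, h, h'⟩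
    · obtain rfl : k = 0 := by omega
      refine ((hF.sm (g := fun x => 1 - x) fun x hx => by linarith [hx.2]).const_mul ε).congr
        fun y _ x _ => ?_
      simp [sg]
    · obtain rfl : k = 6 := by omega
      refine (hF.sm (g := fun x => 1 - x) fun x hx => by linarith [hx.2]).congr
        fun y _ x _ => ?_
      simp [sg, sub_eq_add_neg]
  · have h1 : 1 ≤ k ∧ k ≤ 5 := by rcases h with ⟨-, h⟩ | ⟨-, h, h'⟩ <;> omega
    have h2 : (1 : ℝ) ≤ k := by exact_mod_cast h1.1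
    have h3 : (k : ℝ) ≤ 5 := by exact_mod_cast h1.2
    have h4 : ∀ x ∈ Ioc (0 : ℝ) (1 / 12), -(1 / 12) ≤ (sg s : ℝ) * x ∧ (sg s : ℝ) * x ≤ 1 / 12 := by
      intro x hx
      cases s <;> simp only [sg, cond_true, cond_false, Int.cast_neg, Int.cast_one] <;>
        constructor <;> linarith [hx.1, hx.2]
    refine ((hF.sm (g := fun x => (k : ℝ) / 6 + sg s * x) fun x hx => by linarith [h4 x hx]).add
      ((hF.sm (g := fun x => 1 - ((k : ℝ) / 6 + sg s * x))
        fun x hx => by linarith [h4 x hx]).const_mul ε)).congr fun y _ x _ => ?_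
    simp [hk]

lemma loc0 {k : ℕ} (h : k ≤ 5) {F : ℝ → ℝ} (hF : Dec F) (ε : ℝ) :
    Sm fun y _ => F (((k : ℝ) / 6) / y) + ε * F ((1 - (k : ℝ) / 6) / y)
      - if k % 6 = 0 then F 0 else 0 := by
  by_cases hk : k % 6 = 0
  · obtain rfl : k = 0 := by omega
    refine ((hF.sm (g := fun _ => 1) fun x _ => by norm_num).const_mul ε).congr
      fun y _ x _ => ?_
    simp
  · have h2 : (1 : ℝ) ≤ k := by exact_mod_cast (show 1 ≤ k by omega)
    have h3 : (k : ℝ) ≤ 5 := by exact_mod_cast h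
    refine ((hF.sm (g := fun _ => (k : ℝ) / 6) fun x _ => by linarith).add
      ((hF.sm (g := fun _ => 1 - (k : ℝ) / 6) fun x _ => by linarith).const_mul ε)).congr
      fun y _ x _ => ?_
    simp [hk]

lemma sm_of {f : ℝ → ℝ → ℝ} {S : Set ℝ}
    (h : ∀ N : ℕ, ∃ C, ∀ y ∈ Ioc (0 : ℝ) 1, ∀ v ∈ S, |f y v| ≤ C * y ^ N) {g : ℝ → ℝ}
    (hg : ∀ x ∈ Ioc (0 : ℝ) (1 / 12), g x ∈ S) : Sm fun y x => f y (g x) := fun N => by
  obtain ⟨C, hC⟩ := h N
  exact ⟨C, fun y hy x hx => hC y hy _ (hg x hx)⟩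

lemma apx_congr {f g : ℝ → ℝ → ℝ} {L : List Tm} (hf : Apx f L) (h : ∀ y x, f y x = g y x) :
    Apx g L := Sm.congr hf fun y _ x _ => by rw [h y x]

lemma wS_per (y v : ℝ) (n : ℤ) : wS y (v + n) = wS y v := by
  unfold wS S1
  refine tsum_congr fun m => ?_
  beta_reduce
  rw [show 2 * π * m * (v + n) = 2 * π * m * v + ((m * n : ℤ) : ℝ) * (2 * π) by push_cast; ring,
    cos_add_int_mul_two_pi]

lemma pS_per (y v : ℝ) (n : ℤ) : pS y (v + n) = pS y v := by
  unfold pS S1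
  refine tsum_congr fun m => ?_
  beta_reduce
  rw [show 2 * π * m * (v + n) = 2 * π * m * v + ((m * n : ℤ) : ℝ) * (2 * π) by push_cast; ring,
    sin_add_int_mul_two_pi]

lemma rS_per (j : ℕ) (y v : ℝ) (n : ℤ) : rS j y (v + n) = rS j y v := by
  unfold rS S1
  refine tsum_congr fun m => ?_
  beta_reduce
  rw [show 2 * π * m * (v + n) = 2 * π * m * v + ((m * n : ℤ) : ℝ) * (2 * π) by push_cast; ring,
    cos_add_int_mul_two_pi]

lemma apx_b (c : ℤ) (b : ℕ) (s : Bool) :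
    Apx (fun _ x => c * (6 * ((b : ℝ) / 6 + sg s * x) - 3)) (bL c b s) :=
  Sm.zero.congr fun y _ x _ => by
    simp only [bL, forceQ_eq, evL_cons, evL_nil, ev_pt, evq, zpow_zero]
    push_cast
    ring

lemma apx_wK (h0 : StE0) (h1 : StE1) {k : ℕ} {s : Bool} (h : Ok k s) :
    Apx (fun y x => 72 * wS y ((k : ℝ) / 6 + sg s * x)) (wK k s) := by
  have a := sm_of (fun N => (h1 N).imp fun C hC y hy => (hC y hy).1) fun x hx => h.mem hx
  have b := (h.loc (dec_Lw h0) 1).mul (Md.zpow (-1))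
  refine ((a.const_mul 72).add (b.const_mul (-72))).congr fun y hy x _ => ?_
  have := hy.1.ne'
  simp only [wK, forceQ_eq, evL_cons, pt, evL_opt, evq_cmp, evq_uq, P2, evq, Tm.ev, Lam,
    zpow_neg, zpow_ofNat, Bool.cond_self]
  push_cast
  split_ifs <;> field_simp <;> ring

lemma apx_pK (h0 : StE0) (h1 : StE1) {k : ℕ} {s : Bool} (h : Ok k s) :
    Apx (fun y x => 1296 / (2 * π) * pS y ((k : ℝ) / 6 + sg s * x)) (pK k s) := by
  have a := sm_of (fun N => (h1 N).imp fun C hC y hy => (hC y hy).2.1) fun x hx => h.mem hx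
  have b := h.loc (dec_LC h0 le_rfl) (-1)
  refine ((a.const_mul (1296 / (2 * π))).add (b.const_mul 1296)).congr fun y hy x _ => ?_
  have := hy.1.ne'
  have e : (bif s then 1 else -1 : ℝ) = sg s := by cases s <;> simp [sg]
  simp only [pK, forceQ_eq, evL_cons, pt, evL_opt, evq_cmp, evq_uq, P3, P1, evq, Tm.ev, Lam,
    zpow_neg, zpow_ofNat, e]
  push_cast
  split_ifs <;> field_simp <;> ring

lemma apx_rK (h0 : StE0) (h1 : StE1) {k : ℕ} {s : Bool} (h : Ok k s) :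
    Apx (fun y x => 77760 / (2 * π) * rS 2 y ((k : ℝ) / 6 + sg s * x)) (rK k s) := by
  have a := sm_of (fun N => (h1 N).imp fun C hC y hy => (hC y hy).2.2.1)
    fun x hx => Ioo_subset_Icc_self (h.mem hx)
  have b := h.loc (dec_LC h0 one_le_two) 1
  refine ((a.const_mul (77760 / (2 * π))).add (b.const_mul (-77760))).congr fun y hy x _ => ?_
  have := hy.1.ne'
  simp only [rK, forceQ_eq, evL_cons, pt, evL_opt, evq_cmp, evq_uq, P4, evq, Tm.ev, Lam,
    zpow_neg, zpow_ofNat, Bool.cond_self]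
  push_cast
  split_ifs <;> field_simp <;> ring

lemma apx_w (h0 : StE0) (h1 : StE1) (b a : ℕ) (s : Bool) :
    Apx (fun y x => 72 * wS y ((b : ℝ) / 6 + sg s * x + a / 6)) (wL (b + a) s) := by
  obtain ⟨n, hn⟩ := u0_shift (b + a) s
  rw [wL, forceN_eq]
  refine apx_congr (apx_wK h0 h1 (ok_u0 (b + a) s)) fun y x => ?_
  rw [← wS_per y _ n]
  congr 2
  push_cast at hn
  linarith

lemma apx_p (h0 : StE0) (h1 : StE1) (b a : ℕ) (s : Bool) :
    Apx (fun y x => 1296 / (2 * π) * pS y ((b : ℝ) / 6 + sg s * x + a / 6)) (pL (b + a) s) := by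
  obtain ⟨n, hn⟩ := u0_shift (b + a) s
  rw [pL, forceN_eq]
  refine apx_congr (apx_pK h0 h1 (ok_u0 (b + a) s)) fun y x => ?_
  rw [← pS_per y _ n]
  congr 2
  push_cast at hn
  linarith

lemma apx_r (h0 : StE0) (h1 : StE1) (b a : ℕ) (s : Bool) :
    Apx (fun y x => 77760 / (2 * π) * rS 2 y ((b : ℝ) / 6 + sg s * x + a / 6)) (rL (b + a) s) := by
  obtain ⟨n, hn⟩ := u0_shift (b + a) s
  rw [rL, forceN_eq]
  refine apx_congr (apx_rK h0 h1 (ok_u0 (b + a) s)) fun y x => ?_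
  rw [← rS_per 2 y _ n]
  congr 2
  push_cast at hn
  linarith

lemma mem_Icc6 {k : ℕ} (h : k ≤ 5) : (k : ℝ) / 6 ∈ Icc (0 : ℝ) 1 := by
  have h3 : (k : ℝ) ≤ 5 := by exact_mod_cast h
  exact ⟨by positivity, by linarith⟩

lemma apx_r2P (h0 : StE0) (h1 : StE1) (m : ℕ) :
    Apx (fun y _ => 77760 / (2 * π) * rS 2 y ((m : ℝ) / 6)) (r2P m) := by
  obtain ⟨n, hn⟩ := mod_shift m
  have hk : m % 6 ≤ 5 := by omega
  rw [r2P, forceN_eq, hn]
  generalize m % 6 = k at hk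
  have a := sm_of (fun N => (h1 N).imp fun C hC y hy => (hC y hy).2.2.1)
    (g := fun _ => (k : ℝ) / 6) fun x _ => mem_Icc6 hk
  have b := loc0 hk (dec_LC h0 one_le_two) 1
  refine ((a.const_mul (77760 / (2 * π))).add (b.const_mul (-77760))).congr fun y hy x _ => ?_
  have := hy.1.ne'
  simp only [r2K, forceQ_eq, evL_cons, pt, evL_opt, evq_cmp, P4, evq, Tm.ev, Lam,
    zpow_neg, zpow_ofNat, rS_per]
  push_cast
  split_ifs <;> field_simp <;> ring

lemma apx_r4P (h0 : StE0) (h1 : StE1) (m : ℕ) :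
    Apx (fun y _ => 9797760 / (2 * π) * rS 4 y ((m : ℝ) / 6)) (r4P m) := by
  obtain ⟨n, hn⟩ := mod_shift m
  have hk : m % 6 ≤ 5 := by omega
  rw [r4P, forceN_eq, hn]
  generalize m % 6 = k at hk
  have a := sm_of (fun N => (h1 N).imp fun C hC y hy => (hC y hy).2.2.2)
    (g := fun _ => (k : ℝ) / 6) fun x _ => mem_Icc6 hk
  have b := loc0 hk (dec_LC h0 (n := 4) (by norm_num)) 1
  refine ((a.const_mul (9797760 / (2 * π))).add (b.const_mul 9797760)).congr fun y hy x _ => ?_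
  have := hy.1.ne'
  simp only [r4K, forceQ_eq, evL_cons, pt, evL_opt, evq_cmp, P6, evq, Tm.ev, Lam,
    zpow_neg, zpow_ofNat, rS_per]
  push_cast
  split_ifs <;> field_simp <;> ring

lemma apx_p0P (h0 : StE0) (h1 : StE1) (m : ℕ) :
    Apx (fun y _ => 1296 / (2 * π) * pS y ((m : ℝ) / 6)) (p0P m) := by
  obtain ⟨n, hn⟩ := mod_shift m
  have hk : m % 6 ≤ 5 := by omega
  rw [p0P, forceN_eq, hn]
  generalize m % 6 = k at hk
  rcases k with _ | k
  · refine Sm.zero.congr fun y _ x _ => ?_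
    simp only [pS_per]
    simp [p0K, evL_nil, pS, S1]
  have h2 : (0 : ℝ) ≤ k := Nat.cast_nonneg k
  have h3 : ((k + 1 : ℕ) : ℝ) ≤ 5 := by exact_mod_cast hk
  have a := sm_of (fun N => (h1 N).imp fun C hC y hy => (hC y hy).2.1)
    (g := fun _ => ((k + 1 : ℕ) : ℝ) / 6) fun x _ => ⟨by positivity, by linarith⟩
  have b := loc0 hk (dec_LC h0 le_rfl) (-1)
  refine ((a.const_mul (1296 / (2 * π))).add (b.const_mul 1296)).congr fun y hy x _ => ?_
  have := hy.1.ne'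
  have e : p0K (k + 1) = [pt (cmp P3 [((k + 1 : ℕ) : ℤ)]) (-2), pt (cmp P1 [((k + 1 : ℕ) : ℤ)]) 0] := by
    simp only [p0K, forceQ_eq]
    rfl
  rw [if_neg (by omega)]
  simp only [e, evL_cons, evL_nil, ev_pt, evq_cmp, P3, P1, evq, zpow_neg, zpow_ofNat, pS_per]
  push_cast
  field_simp
  ring

end E4

end Pool.Agent.P.MP_8d0004_nt.LR
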