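import Pool.Agent.P.MP_8d0004_nt.LR.E3b

/-! The factor lists and the finite computation. -/

namespace Pool.Agent.P.MP_8d0004_nt.LR

namespace E4

open E3

def cmp : List ℤ → List ℤ → List ℤ
  | [], _ => []
  | a :: P, u => addq [a] (mulq u (cmp P u))

def forceQ {α : Type} : List ℤ → (List ℤ → α) → α
  | [], f => f []
  | a :: q, f => forceZ a fun b => forceQ q fun r => f (b :: r)

def u0 (m : ℕ) (s : Bool) : ℕ := bif s then m % 6 else (m + 5) % 6 + 1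

def uq (k : ℕ) (s : Bool) : List ℤ := [k, 6 * sg s]

def pt (q : List ℤ) (n : ℤ) : Tm := ⟨q, n, 0, 0, 0, 0, 0⟩

def P2 : List ℤ := [6, -6, 1]
def P1 : List ℤ := [-54, 18]
def P3 : List ℤ := [0, 18, -9, 1]
def P4 : List ℤ := [216, 0, -180, 60, -5]
def P6 : List ℤ := [7776, 0, -4536, 0, 630, -126, 7]

def opt (k : ℕ) (t : Tm) : List Tm := bif Nat.beq (k % 6) 0 then [t] else []

def bL (c : ℤ) (b : ℕ) (s : Bool) : List Tm :=
  forceQ [c * (b - 3), c * (6 * sg s)] fun q => [pt q 0]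

def wK (k : ℕ) (s : Bool) : List Tm :=
  forceQ (cmp P2 (uq k s)) fun q => pt q (-2) :: pt [6] 0 :: opt k ⟨[-72], -1, 1, 0, 0, 0, 0⟩

def pK (k : ℕ) (s : Bool) : List Tm :=
  forceQ (cmp P3 (uq k s)) fun q => forceQ (cmp P1 (uq k s)) fun q' =>
    pt q (-2) :: pt q' 0 :: opt k ⟨[1296 * sg s], 0, 0, 1, 0, 0, 0⟩

def rK (k : ℕ) (s : Bool) : List Tm :=
  forceQ (cmp P4 (uq k s)) fun q => pt q (-3) :: pt [648] 1 :: opt k ⟨[-77760], 0, 0, 0, 1, 0, 0⟩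

def wL (m : ℕ) (s : Bool) : List Tm := forceN (u0 m s) fun k => wK k s
def pL (m : ℕ) (s : Bool) : List Tm := forceN (u0 m s) fun k => pK k s
def rL (m : ℕ) (s : Bool) : List Tm := forceN (u0 m s) fun k => rK k s

def r2K (k : ℕ) : List Tm :=
  forceQ (cmp P4 [k]) fun q => pt q (-3) :: pt [648] 1 :: opt k ⟨[-77760], 0, 0, 0, 0, 1, 0⟩

def r4K (k : ℕ) : List Tm :=
  forceQ (cmp P6 [k]) fun q => pt q (-5) :: pt [-38880] 1 :: opt k ⟨[9797760], 0, 0, 0, 0, 0, 1⟩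

def p0K (k : ℕ) : List Tm :=
  bif Nat.beq k 0 then [] else
    forceQ (cmp P3 [k]) fun q => forceQ (cmp P1 [k]) fun q' => [pt q (-2), pt q' 0]

def r2P (m : ℕ) : List Tm := forceN (m % 6) r2K
def r4P (m : ℕ) : List Tm := forceN (m % 6) r4K
def p0P (m : ℕ) : List Tm := forceN (m % 6) p0K

def LA (e : ℕ × ℕ × ℕ × ℤ) (a : ℕ × Bool) : List Tm :=
  mulL (mulL (mulL (bL e.2.2.2 a.1 a.2) (wL (a.1 + e.1) a.2)) (pL (a.1 + e.2.1) a.2))
    (rL (a.1 + e.2.2.1) a.2)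

def LB (e : ℕ × ℕ × ℕ × ℤ) (a : ℕ × Bool) : List Tm :=
  mulL (mulL (mulL (bL e.2.2.2 a.1 a.2) (r2P e.1)) (pL (a.1 + e.2.1) a.2))
    (wL (a.1 + e.2.2.1) a.2)

def LCc (e : ℕ × ℕ × ℕ × ℤ) (a : ℕ × Bool) : List Tm :=
  mulL (mulL (mulL (bL e.2.2.2 a.1 a.2) (p0P e.1)) (rL (a.1 + e.2.1) a.2))
    (wL (a.1 + e.2.2.1) a.2)

def LD (e : ℕ × ℕ × ℤ) (a : ℕ × Bool) : List Tm :=
  mulL (mulL (bL e.2.2 a.1 a.2) (r2P e.1)) (pL (a.1 + e.2.1) a.2)

def LE (e : ℕ × ℕ × ℤ) (a : ℕ × Bool) : List Tm :=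
  mulL (mulL (bL e.2.2 a.1 a.2) (r4P e.1)) (pL (a.1 + e.2.1) a.2)

def big {ι : Type} (S : List ι) (L : ι → ℕ × Bool → List Tm) : List (Key × ℤ) :=
  S.flatMap fun e => arcs.flatMap fun a => (L e a).flatMap emit

def resA : List (Key × ℤ) :=
  [(⟨0, 1, 0, 0, 0, 4⟩, 1451951084625592320), (⟨0, 1, 0, 0, 0, 2⟩, 146112378417561600),
   (⟨1, 0, 0, 0, 0, 5⟩, -790928133220085760), (⟨1, 0, 0, 0, 0, 3⟩, -629726390953297920),
   (⟨0, 0, 1, 0, 0, 3⟩, 4093591717242224640), (⟨0, 0, 1, 0, 0, 1⟩, 1180170321623654400)]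

def resB : List (Key × ℤ) :=
  [(⟨0, 1, 0, 0, 0, 0⟩, -4081380211814400), (⟨0, 0, 0, 1, 0, 0⟩, -1846596899360194560),
   (⟨0, 1, 0, 1, 0, 1⟩, -12633750609362288640), (⟨1, 0, 0, 0, 0, 1⟩, 4081380211814400),
   (⟨1, 0, 0, 1, 0, 2⟩, -4256487900135751680), (⟨1, 0, 0, 1, 0, 0⟩, 2815039751583006720)]

def resC : List (Key × ℤ) :=
  [(⟨0, 0, 1, 0, 0, 1⟩, 314284672942202880), (⟨1, 0, 0, 0, 0, 3⟩, -166081917749483520)]

def resD : List (Key × ℤ) := [(⟨0, 0, 0, 1, 0, 0⟩, 12217136441241600)]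

def resE : List (Key × ℤ) := [(⟨0, 0, 0, 0, 1, 0⟩, -2589609106022400)]

theorem chkA : eqK (nz (collect (big solA LA) [])) resA = true := by decide +kernel

theorem chkB : eqK (nz (collect (big solB LB) [])) resB = true := by decide +kernel

theorem chkC : eqK (nz (collect (big solC LCc) [])) resC = true := by decide +kernel

theorem chkD : eqK (nz (collect (big solD LD) [])) resD = true := by decide +kernel

theorem chkE : eqK (nz (collect (big solE LE) [])) resE = true := by decide +kernel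

end E4

end Pool.Agent.P.MP_8d0004_nt.LR
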