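import Pool.Agent.P.MP_8d0004_nt.LR.Stm

/-! The swap of Rogers and Zudilin and Mellin transforms of Eisenstein series. -/

namespace Pool.Agent.P.MP_8d0004_nt.LR

open Real MeasureTheory Set Filter Topology

namespace F1

lemma hs_congr {ι : Type} {f g : ι → ℝ} {a : ℝ} (h : HasSum f a) (e : ∀ i, g i = f i) :
    HasSum g a := by
  rw [funext e]; exact h

lemma T_nat {j e : ℕ} (hj : Odd j) (he : Even e) {y : ℝ} (hy : 0 < y) :
    HasSum (fun m : ℕ => 2 * (1 / ((m : ℝ) + 1) ^ e * K j (((m : ℝ) + 1) * y))) (T j e y) := by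
  have h1 := (summable_S1 (PG1_inv_pow e) hj.pos hy).hasSum.nat_add_neg
  have h2 := (hasSum_nat_add_iff' 1).2 h1
  simp only [Int.cast_zero, zero_mul, K_zero, mul_zero, add_zero, Finset.range_one,
    Finset.sum_singleton, Nat.cast_zero, neg_zero, sub_zero] at h2
  refine hs_congr h2 fun m => ?_
  push_cast
  rw [he.neg_pow, neg_mul, K_neg, hj.add_one.neg_one_pow]
  ring

/-- the terms of the double series -/
noncomputable def tm (j e : ℕ) (p : ℕ × ℕ) (y : ℝ) : ℝ :=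
  2 * (((p.2 : ℝ) + 1) ^ j / ((p.1 : ℝ) + 1) ^ e *
    exp (-(2 * π * (((p.1 : ℝ) + 1) * ((p.2 : ℝ) + 1)) * y)))

lemma tm_nonneg (j e : ℕ) (p : ℕ × ℕ) (y : ℝ) : 0 ≤ tm j e p y := by
  unfold tm; positivity

lemma tm_cont (j e : ℕ) (p : ℕ × ℕ) : Continuous (tm j e p) := by
  unfold tm; fun_prop

lemma tm_fiber {j : ℕ} (hj : 1 ≤ j) (e m : ℕ) {y : ℝ} (hy : 0 < y) :
    HasSum (fun d : ℕ => tm j e (m, d) y)
      (2 * (1 / ((m : ℝ) + 1) ^ e * K j (((m : ℝ) + 1) * y))) := by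
  have h1 := K_hasSum hj (u := ((m : ℝ) + 1) * y) (by positivity)
  have h2 := (hasSum_nat_add_iff' 1).2 h1
  have h0 : j ≠ 0 := by omega
  simp only [Finset.range_one, Finset.sum_singleton, Nat.cast_zero, zero_pow h0, zero_mul,
    sub_zero] at h2
  refine hs_congr ((h2.mul_left (1 / ((m : ℝ) + 1) ^ e)).mul_left 2) fun d => ?_
  simp only [tm]
  push_cast
  have : 2 * π * ((d : ℝ) + 1) * (((m : ℝ) + 1) * y) = 2 * π * (((m : ℝ) + 1) * ((d : ℝ) + 1)) * y := by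
    ring
  rw [this]; ring

lemma T_dbl {j e : ℕ} (hj : Odd j) (he : Even e) {y : ℝ} (hy : 0 < y) :
    HasSum (fun p : ℕ × ℕ => tm j e p y) (T j e y) := by
  have h1 := T_nat hj he hy
  have hs : Summable fun p : ℕ × ℕ => tm j e p y := by
    rw [summable_prod_of_nonneg (fun p => tm_nonneg j e p y)]
    refine ⟨fun m => (tm_fiber hj.pos e m hy).summable, ?_⟩
    simp only [fun m => (tm_fiber hj.pos e m hy).tsum_eq]
    exact h1.summable
  have h2 := hs.hasSum.prod_fiberwise (fun m => tm_fiber hj.pos e m hy)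
  rw [← h2.unique h1]
  exact hs.hasSum

lemma T_nonneg {j e : ℕ} (hj : Odd j) (he : Even e) {y : ℝ} (hy : 0 < y) : 0 ≤ T j e y :=
  (T_dbl hj he hy).nonneg fun p => tm_nonneg j e p y

lemma T_cont {j : ℕ} (e : ℕ) (hj : 1 ≤ j) : ContinuousOn (T j e) (Ioi 0) := fun _ hy =>
  (S1_hasDerivAt (PG1_inv_pow e) hj hy).continuousAt.continuousWithinAt

lemma zt_summable {n : ℕ} (hn : 2 ≤ n) : Summable fun k : ℕ => 1 / ((k : ℝ) + 1) ^ n := by
  have := (summable_nat_add_iff 1).2 (summable_one_div_nat_pow.2 (show 1 < n by omega))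
  simpa using this

lemma T_bound {j N : ℕ} (hj : Odd j) (hN : j + 1 ≤ N) :
    ∃ C, ∀ w, 0 < w → 0 ≤ T j 0 w ∧ T j 0 w ≤ C / w ^ N := by
  obtain ⟨C, -, h⟩ := K_le_pow hj.pos hN
  have h2 : 2 ≤ N := by have := hj.pos; omega
  refine ⟨2 * C * zt N, fun w hw => ⟨T_nonneg hj (by simp) hw, ?_⟩⟩
  have h3 := ((zt_summable h2).hasSum.mul_left (2 * C)).div_const (w ^ N)
  refine hasSum_le (fun m => ?_) (T_nat hj (by simp) hw) h3
  have h4 := h (((m : ℝ) + 1) * w) (by positivity)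
  rw [pow_zero, div_one, one_mul]
  have : 2 * C * (1 / ((m : ℝ) + 1) ^ N) / w ^ N = 2 * (C / (((m : ℝ) + 1) * w) ^ N) := by
    rw [mul_pow]; field_simp
  rw [this]
  linarith

lemma integrableOn_of_bounds {f : ℝ → ℝ} (hf : ContinuousOn f (Ioi 0)) {A B : ℝ}
    (h0 : ∀ u, 0 < u → 0 ≤ f u) (hA : ∀ u, 0 < u → f u ≤ A) (hB : ∀ u, 0 < u → f u * u ^ 2 ≤ B) :
    IntegrableOn f (Ioi 0) := by
  refine Integrable.mono' (g := fun u => (A + B) * (1 + u ^ 2)⁻¹)
    (integrable_inv_one_add_sq.const_mul _).integrableOn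
    (hf.aestronglyMeasurable measurableSet_Ioi) ?_
  refine (ae_restrict_iff' measurableSet_Ioi).2 (Eventually.of_forall fun u hu => ?_)
  rw [Real.norm_of_nonneg (h0 u hu), ← div_eq_mul_inv, le_div_iff₀ (by positivity)]
  linarith [hA u hu, hB u hu]

lemma tonelli {ι : Type} [Countable ι] {F : ι → ℝ → ℝ} {f : ℝ → ℝ}
    (hs : ∀ y, 0 < y → HasSum (fun i => F i y) (f y)) (h0 : ∀ i y, 0 < y → 0 ≤ F i y)
    (hm : ∀ i, Measurable (F i)) :
    ∫⁻ y in Ioi (0 : ℝ), ENNReal.ofReal (f y) = ∑' i, ∫⁻ y in Ioi (0 : ℝ), ENNReal.ofReal (F i y) := by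
  rw [← lintegral_tsum (fun i => (hm i).ennreal_ofReal.aemeasurable)]
  refine setLIntegral_congr_fun measurableSet_Ioi fun y hy => ?_
  rw [← (hs y hy).tsum_eq, ENNReal.ofReal_tsum_of_nonneg (fun i => h0 i y hy) (hs y hy).summable]

lemma lint_scale {c : ℝ} (hc : 0 < c) (g : ℝ → ℝ) :
    ∫⁻ y in Ioi (0 : ℝ), ENNReal.ofReal (g y) = ∫⁻ u in Ioi (0 : ℝ), ENNReal.ofReal (c * g (c * u)) := by
  have h := lintegral_image_eq_lintegral_abs_deriv_mul (s := Ioi (0 : ℝ)) (f := fun u => c * u)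
    (f' := fun _ => c) measurableSet_Ioi
    (fun u _ => by simpa using ((hasDerivAt_id' u).const_mul c).hasDerivWithinAt)
    (fun u _ v _ e => mul_left_cancel₀ hc.ne' e) (fun y => ENNReal.ofReal (g y))
  rw [image_mul_left_Ioi hc, mul_zero] at h
  rw [h]
  refine lintegral_congr fun u => ?_
  rw [abs_of_pos hc, ENNReal.ofReal_mul hc.le]

lemma prod_hasSum {j e j' e' : ℕ} (hj : Odd j) (he : Even e) (hj' : Odd j') (he' : Even e')
    {a b : ℝ} (ha : 0 < a) (hb : 0 < b) {y : ℝ} (hy : 0 < y) :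
    HasSum (fun x : (ℕ × ℕ) × (ℕ × ℕ) => tm j e x.1 (a / y) * tm j' e' x.2 (b * y) / y ^ 4)
      (T j e (a / y) * T j' e' (b * y) / y ^ 4) := by
  have h1 := T_dbl hj he (div_pos ha hy)
  have h2 := T_dbl hj' he' (mul_pos hb hy)
  exact (h1.mul h2 (h1.summable.mul_of_nonneg h2.summable (fun p => tm_nonneg _ _ p _)
    (fun p => tm_nonneg _ _ p _))).div_const _

lemma prod_lint {j e j' e' : ℕ} (hj : Odd j) (he : Even e) (hj' : Odd j') (he' : Even e')
    {a b : ℝ} (ha : 0 < a) (hb : 0 < b) :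
    ∫⁻ y in Ioi (0 : ℝ), ENNReal.ofReal (T j e (a / y) * T j' e' (b * y) / y ^ 4) =
      ∑' x : (ℕ × ℕ) × (ℕ × ℕ), ∫⁻ y in Ioi (0 : ℝ),
        ENNReal.ofReal (tm j e x.1 (a / y) * tm j' e' x.2 (b * y) / y ^ 4) := by
  refine tonelli (fun y hy => prod_hasSum hj he hj' he' ha hb hy) (fun x y hy => ?_) (fun x => ?_)
  · exact div_nonneg (mul_nonneg (tm_nonneg _ _ _ _) (tm_nonneg _ _ _ _)) (by positivity)
  · have h1 := (tm_cont j e x.1).measurable
    have h2 := (tm_cont j' e' x.2).measurable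
    fun_prop

lemma swap_term (a b : ℝ) (m d r n : ℕ) :
    ∫⁻ y in Ioi (0 : ℝ), ENNReal.ofReal (tm 3 0 (m, d) (a / y) * tm 3 2 (r, n) (b * y) / y ^ 4) =
      ∫⁻ u in Ioi (0 : ℝ), ENNReal.ofReal (tm 1 0 (m, r) (a / u) * tm 3 0 (d, n) (b * u) / u ^ 4) := by
  rw [lint_scale (c := ((d : ℝ) + 1) / ((r : ℝ) + 1)) (by positivity)]
  refine setLIntegral_congr_fun measurableSet_Ioi fun u hu => ?_
  have hu' : 0 < u := hu
  simp only [tm]
  congr 1
  have e1 : 2 * π * (((m : ℝ) + 1) * ((d : ℝ) + 1)) * (a / (((d : ℝ) + 1) / ((r : ℝ) + 1) * u)) =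
      2 * π * (((m : ℝ) + 1) * ((r : ℝ) + 1)) * (a / u) := by field_simp
  have e2 : 2 * π * (((r : ℝ) + 1) * ((n : ℝ) + 1)) * (b * (((d : ℝ) + 1) / ((r : ℝ) + 1) * u)) =
      2 * π * (((d : ℝ) + 1) * ((n : ℝ) + 1)) * (b * u) := by field_simp
  rw [e1, e2]
  field_simp

lemma swap_lint {a b : ℝ} (ha : 0 < a) (hb : 0 < b) :
    ∫⁻ y in Ioi (0 : ℝ), ENNReal.ofReal (T 3 0 (a / y) * T 3 2 (b * y) / y ^ 4) =
      ∫⁻ u in Ioi (0 : ℝ), ENNReal.ofReal (T 1 0 (a / u) * T 3 0 (b * u) / u ^ 4) := by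
  rw [prod_lint (by decide) (by decide) (by decide) (by decide) ha hb,
    prod_lint (by decide) (by decide) (by decide) (by decide) ha hb,
    ← (Equiv.prodProdProdComm ℕ ℕ ℕ ℕ).tsum_eq]
  refine tsum_congr ?_
  rintro ⟨⟨m, r⟩, ⟨d, n⟩⟩
  exact swap_term a b m d r n

lemma prod_cont {j e j' e' : ℕ} (hj : 1 ≤ j) (hj' : 1 ≤ j') {a b : ℝ} (ha : 0 < a) (hb : 0 < b) :
    ContinuousOn (fun y => T j e (a / y) * T j' e' (b * y) / y ^ 4) (Ioi 0) := by
  refine ContinuousOn.div (ContinuousOn.mul ?_ ?_) (by fun_prop)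
    (fun y hy => pow_ne_zero _ (ne_of_gt hy))
  · exact (T_cont e hj).comp (continuousOn_const.div continuousOn_id fun y hy => ne_of_gt hy)
      (fun y hy => div_pos ha hy)
  · exact (T_cont e' hj').comp (by fun_prop) (fun y hy => mul_pos hb hy)

lemma prod_nonneg {j e j' e' : ℕ} (hj : Odd j) (he : Even e) (hj' : Odd j') (he' : Even e')
    {a b : ℝ} (ha : 0 < a) (hb : 0 < b) {y : ℝ} (hy : 0 < y) :
    0 ≤ T j e (a / y) * T j' e' (b * y) / y ^ 4 :=
  div_nonneg (mul_nonneg (T_nonneg hj he (div_pos ha hy)) (T_nonneg hj' he' (mul_pos hb hy)))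
    (by positivity)

lemma rhs_int {a b : ℝ} (ha : 0 < a) (hb : 0 < b) :
    IntegrableOn (fun u => T 1 0 (a / u) * T 3 0 (b * u) / u ^ 4) (Ioi 0) := by
  obtain ⟨C1, h1⟩ := T_bound (j := 1) (N := 8) (by decide) (by norm_num)
  obtain ⟨C2, h2⟩ := T_bound (j := 1) (N := 6) (by decide) (by norm_num)
  obtain ⟨C3, h3⟩ := T_bound (j := 3) (N := 4) (by decide) (by norm_num)
  refine integrableOn_of_bounds (A := C1 / a ^ 8 * (C3 / b ^ 4)) (B := C2 / a ^ 6 * (C3 / b ^ 4))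
    (prod_cont (by norm_num) (by norm_num) ha hb)
    (fun u hu => prod_nonneg (by decide) (by decide) (by decide) (by decide) ha hb hu)
    (fun u hu => ?_) (fun u hu => ?_)
  · obtain ⟨f1, f2⟩ := h1 _ (div_pos ha hu)
    obtain ⟨f3, f4⟩ := h3 _ (mul_pos hb hu)
    have := mul_le_mul f2 f4 f3 (f1.trans f2)
    rw [div_le_iff₀ (by positivity)]
    refine this.trans (le_of_eq ?_)
    field_simp
  · obtain ⟨f1, f2⟩ := h2 _ (div_pos ha hu)
    obtain ⟨f3, f4⟩ := h3 _ (mul_pos hb hu)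
    have := mul_le_mul f2 f4 f3 (f1.trans f2)
    rw [← le_div_iff₀ (by positivity), div_le_iff₀ (by positivity)]
    refine this.trans (le_of_eq ?_)
    field_simp

lemma swap {a b : ℝ} (ha : 0 < a) (hb : 0 < b) :
    IntegrableOn (fun y => T 3 0 (a / y) * T 3 2 (b * y) / y ^ 4) (Ioi 0) ∧
    ∫ y in Ioi (0 : ℝ), T 3 0 (a / y) * T 3 2 (b * y) / y ^ 4
      = ∫ u in Ioi (0 : ℝ), T 1 0 (a / u) * T 3 0 (b * u) / u ^ 4 := by
  have n1 : 0 ≤ᵐ[volume.restrict (Ioi (0 : ℝ))] fun y => T 3 0 (a / y) * T 3 2 (b * y) / y ^ 4 :=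
    (ae_restrict_iff' measurableSet_Ioi).2 (Eventually.of_forall fun u hu =>
      prod_nonneg (by decide) (by decide) (by decide) (by decide) ha hb hu)
  have n2 : 0 ≤ᵐ[volume.restrict (Ioi (0 : ℝ))] fun y => T 1 0 (a / y) * T 3 0 (b * y) / y ^ 4 :=
    (ae_restrict_iff' measurableSet_Ioi).2 (Eventually.of_forall fun u hu =>
      prod_nonneg (by decide) (by decide) (by decide) (by decide) ha hb hu)
  have m1 := (prod_cont (j := 3) (e := 0) (j' := 3) (e' := 2) (by norm_num) (by norm_num) ha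
    hb).aestronglyMeasurable (μ := volume) measurableSet_Ioi
  have i2 := rhs_int ha hb
  refine ⟨⟨m1, ?_⟩, ?_⟩
  · rw [hasFiniteIntegral_iff_ofReal n1, swap_lint ha hb, ← hasFiniteIntegral_iff_ofReal n2]
    exact i2.2
  · rw [integral_eq_lintegral_of_nonneg_ae n1 m1, integral_eq_lintegral_of_nonneg_ae n2 i2.1,
      swap_lint ha hb]

lemma gamma_int (s : ℕ) {c : ℝ} (hc : 0 < c) :
    ∫ w in Ioi (0 : ℝ), w ^ s * exp (-(c * w)) = s.factorial / c ^ (s + 1) := by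
  have h := integral_rpow_mul_exp_neg_mul_Ioi (a := (s : ℝ) + 1) (r := c) (by positivity) hc
  rw [add_sub_cancel_right, Real.Gamma_nat_eq_factorial] at h
  simp only [rpow_natCast] at h
  rw [h, ← Nat.cast_add_one, rpow_natCast, one_div, inv_pow]
  field_simp

lemma tm_int {j s : ℕ} (hs : j + 1 ≤ s) (p : ℕ × ℕ) :
    ∫ w in Ioi (0 : ℝ), w ^ s * tm j 0 p w = 2 * s.factorial / (2 * π) ^ (s + 1) *
      (1 / ((p.1 : ℝ) + 1) ^ (s + 1) * (1 / ((p.2 : ℝ) + 1) ^ (s + 1 - j))) := by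
  have e : ∀ w : ℝ, w ^ s * tm j 0 p w = (2 * ((p.2 : ℝ) + 1) ^ j) *
      (w ^ s * exp (-(2 * π * (((p.1 : ℝ) + 1) * ((p.2 : ℝ) + 1)) * w))) := by
    intro w; simp only [tm]; ring
  simp only [e]
  rw [integral_const_mul, gamma_int s (by positivity)]
  obtain ⟨k, hk⟩ : ∃ k, s + 1 = j + k := ⟨s + 1 - j, by omega⟩
  rw [hk, Nat.add_sub_cancel_left, mul_pow (2 * π), mul_pow ((p.1 : ℝ) + 1),
    pow_add ((p.2 : ℝ) + 1)]
  field_simp

lemma mellin {j s : ℕ} (hj : Odd j) (hs : j + 1 ≤ s) :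
    IntegrableOn (fun w => w ^ s * T j 0 w) (Ioi 0) ∧
    ∫ w in Ioi (0 : ℝ), w ^ s * T j 0 w
      = 2 * s.factorial * zt (s + 1) * zt (s + 1 - j) / (2 * π) ^ (s + 1) := by
  constructor
  · obtain ⟨C1, h1⟩ := T_bound hj hs
    obtain ⟨C2, h2⟩ := T_bound (N := s + 2) hj (by omega)
    refine integrableOn_of_bounds (A := C1) (B := C2)
      (ContinuousOn.mul (by fun_prop) (T_cont 0 hj.pos))
      (fun u hu => mul_nonneg (by positivity) (h1 u hu).1) (fun u hu => ?_) (fun u hu => ?_)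
    · have := (h1 u hu).2
      rw [le_div_iff₀ (by positivity)] at this
      linarith
    · have := (h2 u hu).2
      rw [le_div_iff₀ (by positivity), pow_add] at this
      linarith
  · have z1 := zt_summable (n := s + 1) (by omega)
    have z2 := zt_summable (n := s + 1 - j) (by omega)
    have z3 := (z1.hasSum.mul z2.hasSum (z1.mul_of_nonneg z2 (fun _ => by positivity)
      (fun _ => by positivity))).mul_left (2 * s.factorial / (2 * π) ^ (s + 1))
    have hi : ∀ p : ℕ × ℕ, Integrable (fun w => w ^ s * tm j 0 p w) (volume.restrict (Ioi 0)) := by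
      intro p
      apply Integrable.of_integral_ne_zero
      rw [tm_int hs]
      positivity
    have hn : ∀ p : ℕ × ℕ, ∫ w in Ioi (0 : ℝ), ‖w ^ s * tm j 0 p w‖ =
        ∫ w in Ioi (0 : ℝ), w ^ s * tm j 0 p w := fun p =>
      setIntegral_congr_fun measurableSet_Ioi fun w hw =>
        Real.norm_of_nonneg (mul_nonneg (pow_nonneg (le_of_lt hw) _) (tm_nonneg _ _ _ _))
    have h := hasSum_integral_of_summable_integral_norm hi (by
      simp only [hn, tm_int hs]; exact z3.summable)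
    simp only [tm_int hs] at h
    have e : ∫ w in Ioi (0 : ℝ), w ^ s * T j 0 w = ∫ w in Ioi (0 : ℝ), ∑' p : ℕ × ℕ, w ^ s * tm j 0 p w :=
      setIntegral_congr_fun measurableSet_Ioi fun w hw =>
        ((T_dbl hj (by simp) hw).mul_left (w ^ s)).tsum_eq.symm
    rw [e, h.unique z3]
    unfold zt
    ring

end F1

theorem stF1 : StF1 :=
  ⟨fun _ _ ha hb => F1.swap ha hb, fun _ _ hj hs => F1.mellin hj hs,
    fun _ _ hj hN => F1.T_bound hj hN, fun _ e hj => F1.T_cont e hj⟩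

end Pool.Agent.P.MP_8d0004_nt.LR
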