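import Pool.Agent.P.MP_8d0004_nt.LR.Stm

/-! The integral of the length two remainder. -/

namespace Pool.Agent.P.MP_8d0004_nt.LR

open Real MeasureTheory Set Filter Topology

namespace F2

/-- integrable on the positive axis, with the given integral -/
def HI (f : ℝ → ℝ) (c : ℝ) : Prop := IntegrableOn f (Ioi 0) ∧ ∫ y in Ioi (0 : ℝ), f y = c

lemma HI.add {f g : ℝ → ℝ} {c d : ℝ} (hf : HI f c) (hg : HI g d) :
    HI (fun y => f y + g y) (c + d) :=
  ⟨hf.1.add hg.1, by rw [integral_add hf.1 hg.1, hf.2, hg.2]⟩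

lemma HI.smul {f : ℝ → ℝ} {c : ℝ} (a : ℝ) (hf : HI f c) : HI (fun y => a * f y) (a * c) :=
  ⟨hf.1.const_mul a, by rw [integral_const_mul, hf.2]⟩

lemma HI.congr {f g : ℝ → ℝ} {c d : ℝ} (hf : HI f c) (h : ∀ y, 0 < y → g y = f y) (hc : d = c) :
    HI g d :=
  ⟨hf.1.congr_fun (fun y hy => (h y hy).symm) measurableSet_Ioi, by
    rw [setIntegral_congr_fun measurableSet_Ioi (fun y hy => h y hy), hf.2, hc]⟩

lemma HI.scale {f : ℝ → ℝ} {c : ℝ} (hf : HI f c) {t : ℝ} (ht : 0 < t) :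
    HI (fun y => f (t * y)) (c / t) :=
  ⟨(integrableOn_Ioi_comp_mul_left_iff f 0 ht).2 (by simpa using hf.1), by
    rw [integral_comp_mul_left_Ioi f 0 ht, mul_zero, hf.2, smul_eq_mul, div_eq_inv_mul]⟩

lemma zt_two : zt 2 = π ^ 2 / 6 := by
  have h := (hasSum_nat_add_iff' 1).2 hasSum_zeta_two
  unfold zt
  simpa using h.tsum_eq

/-- Mellin value -/
noncomputable def Me (j s : ℕ) : ℝ :=
  2 * s.factorial * zt (s + 1) * zt (s + 1 - j) / (2 * π) ^ (s + 1)

lemma mel (hF : StF1) (j s : ℕ) (hj : Odd j) (hs : j + 1 ≤ s) {t : ℝ} (ht : 0 < t) :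
    HI (fun w => w ^ s * T j 0 (t * w)) (Me j s / t ^ (s + 1)) := by
  have h0 : HI (fun w => w ^ s * T j 0 w) (Me j s) := hF.2.1 j s hj hs
  refine ((h0.scale ht).smul (1 / t ^ s)).congr (fun y _ => ?_) ?_
  · rw [mul_pow]; field_simp
  · rw [pow_succ]; field_simp

lemma contT (hF : StF1) (j e : ℕ) (hj : 1 ≤ j) {t : ℝ} (ht : 0 < t) :
    ContinuousOn (fun w => T j e (t * w)) (Ioi 0) :=
  (hF.2.2.2 j e hj).comp (by fun_prop) (fun w hw => mul_pos ht hw)

/-- the mixed integrals -/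
noncomputable def gg (t s : ℝ) : ℝ := ∫ w in Ioi (0 : ℝ), w ^ 6 * e4 (t * w) * T 1 0 (s * w)

lemma hgg (hF : StF1) {t s : ℝ} (ht : 0 < t) (hs : 0 < s) :
    HI (fun w => w ^ 6 * e4 (t * w) * T 1 0 (s * w)) (gg t s) := by
  refine ⟨?_, rfl⟩
  obtain ⟨C, hC⟩ := hF.2.2.1 3 4 (by decide) le_rfl
  obtain ⟨D, hD⟩ := hF.2.2.1 1 2 (by decide) le_rfl
  have h6 := (mel hF 1 6 (by decide) (by norm_num) hs).1
  have h2 := (mel hF 1 2 (by decide) (by norm_num) hs).1
  have h3 : IntegrableOn (fun w => w ^ 6 * T 3 0 (t * w) * T 1 0 (s * w)) (Ioi 0) := by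
    refine Integrable.mono' (h2.const_mul (C / t ^ 4)) ?_ ?_
    · refine ContinuousOn.aestronglyMeasurable ?_ measurableSet_Ioi
      exact ((continuousOn_pow 6).mul (contT hF 3 0 (by norm_num) ht)).mul
        (contT hF 1 0 le_rfl hs)
    · refine (ae_restrict_iff' measurableSet_Ioi).2 (Eventually.of_forall fun w hw => ?_)
      have hw : 0 < w := hw
      obtain ⟨a0, a1⟩ := hC (t * w) (mul_pos ht hw)
      obtain ⟨b0, -⟩ := hD (s * w) (mul_pos hs hw)
      rw [Real.norm_of_nonneg (by positivity)]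
      calc w ^ 6 * T 3 0 (t * w) * T 1 0 (s * w)
          ≤ w ^ 6 * (C / (t * w) ^ 4) * T 1 0 (s * w) := by gcongr
        _ = C / t ^ 4 * (w ^ 2 * T 1 0 (s * w)) := by field_simp
  refine (h6.add (h3.const_mul 120)).congr_fun (fun w _ => ?_) measurableSet_Ioi
  simp only [e4, Pi.add_apply]
  ring

lemma T3inv (h1 : StM1) {x : ℝ} (hx : 0 < x) : T 3 0 (1 / x) = (x ^ 4 * e4 x - 1) / 120 := by
  rw [← h1.1 x hx, e4]; ring

lemma pair (h1 : StM1) (hF : StF1) {t s : ℝ} (ht : 0 < t) (hs : 0 < s) :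
    HI (fun y => T 3 0 (1 / t / y) * T 3 2 (s * y) / y ^ 4)
      ((t * s) ^ 3 * (t ^ 4 * gg t s - Me 1 2 / s ^ 3) / 120) := by
  obtain ⟨hi, he⟩ := hF.1 (1 / t) s (by positivity) hs
  refine ⟨hi, ?_⟩
  rw [he, ← integral_comp_rpow_Ioi _ (p := -1) (by norm_num)]
  have hts : 0 < t * s := mul_pos ht hs
  have key : HI (fun w => (t * s) ^ 2 * (t ^ 4 * (w ^ 6 * e4 (t * w) * T 1 0 (s * w))
      + (-1) * (w ^ 2 * T 1 0 (s * w))) / 120)
      ((t * s) ^ 2 * (t ^ 4 * gg t s - Me 1 2 / s ^ 3) / 120) := by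
    refine (((((hgg hF ht hs).smul (t ^ 4)).add
      ((mel hF 1 2 (by decide) le_rfl hs).smul (-1))).smul ((t * s) ^ 2 / 120)).congr
      (fun y _ => by ring) (by ring))
  have key2 := key.scale (inv_pos.2 hts)
  refine Eq.trans (setIntegral_congr_fun measurableSet_Ioi fun x hx => ?_)
    (key2.2.trans (by field_simp))
  have hx : 0 < x := hx
  have hw : 0 < t * ((t * s)⁻¹ * x) := by positivity
  have e1 : s * x ^ (-1 : ℝ) = 1 / (t * ((t * s)⁻¹ * x)) := by
    rw [Real.rpow_neg_one]; field_simp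
  have e2 : 1 / t / x ^ (-1 : ℝ) = s * ((t * s)⁻¹ * x) := by
    rw [Real.rpow_neg_one]; field_simp
  have e3 : x ^ (-1 - 1 : ℝ) = (x ^ 2)⁻¹ := by
    rw [show (-1 - 1 : ℝ) = -((2 : ℕ) : ℝ) by norm_num, Real.rpow_neg hx.le, Real.rpow_natCast]
  simp only [smul_eq_mul]
  rw [e1, e2, e3, T3inv h1 hw, Real.rpow_neg_one]
  generalize e4 _ = A
  generalize T 1 0 _ = B
  simp only [abs_neg, abs_one]
  field_simp
  ring

lemma T3eq (h1 : StM1) {t y : ℝ} (ht : 0 < t) (hy : 0 < y) :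
    T 3 0 (t * y) = T 3 0 (1 / t / y) / (t * y) ^ 4 + (1 / (t * y) ^ 4 - 1) / 120 := by
  have hx := mul_pos ht hy
  rw [div_div, T3inv h1 hx, e4]
  field_simp
  ring

/-- one row of a table -/
lemma HI.row {f : ℝ → ℝ → ℝ} {c : ℝ → ℝ} (h : ∀ s, 0 < s → HI (f s) (c s)) (a b d e : ℝ) :
    HI (fun y => a * f 1 y + b * f 2 y + d * f 3 y + e * f 6 y)
      (a * c 1 + b * c 2 + d * c 3 + e * c 6) :=
  ((((h 1 one_pos).smul a).add ((h 2 two_pos).smul b)).add ((h 3 three_pos).smul d)).add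
    ((h 6 (by norm_num)).smul e)

lemma ffeq (h2 : StM2) (h3 : StM3) {w : ℝ} (hw : 0 < w) :
    311040 / 7 * ff w = 120 * (-7998 / 121 * T 3 0 (1 * w) + 10186080 / 1331 * T 3 0 (2 * w)
        + 21727278 / 1331 * T 3 0 (3 * w) + -429839136 / 1331 * T 3 0 (6 * w))
      + 252 * (-12086246 / 195657 * T 5 0 (1 * w) + 343406144 / 195657 * T 5 0 (2 * w)
        + 78124338 / 5929 * T 5 0 (3 * w) + -20472481728 / 65219 * T 5 0 (6 * w))
      - 12 / 1331 * (e4 (1 * w) * (1331 * T 1 0 (1 * w) + 1313 * 2 * T 1 0 (2 * w)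
          + 25357 * 3 * T 1 0 (3 * w) + -28001 * 6 * T 1 0 (6 * w))
        + 8 * e4 (2 * w) * (-33128 * T 1 0 (1 * w) + 30484 * 2 * T 1 0 (2 * w)
          + -409852 * 3 * T 1 0 (3 * w) + 412496 * 6 * T 1 0 (6 * w))
        + 27 * e4 (3 * w) * (61773 * T 1 0 (1 * w) + -275937 * 2 * T 1 0 (2 * w)
          + -3277 * 3 * T 1 0 (3 * w) + 217441 * 6 * T 1 0 (6 * w))
        + 216 * e4 (6 * w) * (-29976 * T 1 0 (1 * w) + 244140 * 2 * T 1 0 (2 * w)
          + 387772 * 3 * T 1 0 (3 * w) + -601936 * 6 * T 1 0 (6 * w))) := by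
  have t1 : ∀ x, T 1 0 x = (1 - e2 x) / 12 := fun x => by rw [e2]; ring
  have t3 : ∀ x, T 3 0 x = (e4 x - 1) / 120 := fun x => by rw [e4]; ring
  have t5 : ∀ x, T 5 0 x = (1 - e6 x) / 252 := fun x => by rw [e6]; ring
  obtain ⟨c0, a1, a2, a3, a6, b1, b2, b3, b6⟩ := h2 w hw _ _ _ rfl rfl rfl
  have i1 : e2 w = -Zf w - 16 * Wf w + 2 * hf w + 6 * zf w := by
    simp only [Zf, Wf, hf, zf]; ring
  have i2 : e2 (2 * w) = -Zf w - 4 * Wf w + 2 * hf w + 3 * zf w := by
    simp only [Zf, Wf, hf, zf]; ring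
  have i3 : e2 (3 * w) = (Zf w + 16 * Wf w + 2 * hf w) / 3 + 2 * zf w := by
    simp only [Zf, Wf, hf, zf]; ring
  have i6 : e2 (6 * w) = (Zf w + 4 * Wf w + 2 * hf w) / 3 + zf w := by
    simp only [Zf, Wf, hf, zf]; ring
  have a3' := eq_div_of_mul_eq (show (9 : ℝ) ≠ 0 by norm_num) ((mul_comm _ _).trans a3)
  have a6' := eq_div_of_mul_eq (show (9 : ℝ) ≠ 0 by norm_num) ((mul_comm _ _).trans a6)
  have b3' := eq_div_of_mul_eq (show (27 : ℝ) ≠ 0 by norm_num) ((mul_comm _ _).trans b3)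
  have b6' := eq_div_of_mul_eq (show (27 : ℝ) ≠ 0 by norm_num) ((mul_comm _ _).trans b6)
  simp only [one_mul, t1, t3, t5]
  rw [(h3.2.2.2.2.1 w hw).2.2, i1, i2, i3, i6, a1, a2, a3', a6', b1, b2, b3', b6']
  generalize Zf w = Z at *
  generalize Wf w = W at *
  generalize hf w = h at *
  generalize zf w = z at *
  linear_combination (98237952 / 1331 * Z - 232187904 / 1331 * W) * c0

end F2

open F2 in
theorem stF (h1 : StM1) (h2 : StM2) (h3 : StM3) (hF : StF1) : StF := by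
  have P := fun (t : ℝ) (ht : 0 < t) => HI.row
    (f := fun s y => T 3 0 (1 / t / y) * T 3 2 (s * y) / y ^ 4)
    (c := fun s => (t * s) ^ 3 * (t ^ 4 * gg t s - Me 1 2 / s ^ 3) / 120)
    (fun s hs => pair h1 hF ht hs)
  have G := fun (t : ℝ) (ht : 0 < t) => HI.row
    (f := fun s w => w ^ 6 * e4 (t * w) * T 1 0 (s * w)) (c := fun s => gg t s)
    (fun s hs => hgg hF ht hs)
  have M3 := HI.row (f := fun t w => w ^ 6 * T 3 0 (t * w)) (c := fun t => Me 3 6 / t ^ (6 + 1))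
    (fun t ht => mel hF 3 6 (by decide) (by norm_num) ht)
    (-7998 / 121) (10186080 / 1331) (21727278 / 1331) (-429839136 / 1331)
  have M5 := HI.row (f := fun t w => w ^ 6 * T 5 0 (t * w)) (c := fun t => Me 5 6 / t ^ (6 + 1))
    (fun t ht => mel hF 5 6 (by decide) (by norm_num) ht)
    (-12086246 / 195657) (343406144 / 195657) (78124338 / 5929) (-20472481728 / 65219)
  have HB := (((((P 1 one_pos 1331 (1313 / 4) (25357 / 9) (-28001 / 36)).add
    ((P 2 two_pos (-33128) (30484 / 4) (-409852 / 9) (412496 / 36)).smul (1 / 16))).add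
    ((P 3 three_pos 61773 (-275937 / 4) (-3277 / 9) (217441 / 36)).smul (1 / 81))).add
    ((P 6 (by norm_num) (-29976) (244140 / 4) (387772 / 9) (-601936 / 36)).smul
      (1 / 1296))).smul (1 / 1331)).congr (g := BB) (fun y hy => by
        have q1 := T3eq h1 one_pos hy
        have q2 := T3eq h1 two_pos hy
        have q3 := T3eq h1 three_pos hy
        have q6 := T3eq h1 (show (0 : ℝ) < 6 by norm_num) hy
        simp only [one_mul] at q1 ⊢
        simp only [BB, Brow]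
        rw [q1, q2, q3, q6]
        field_simp
        ring) rfl
  have HG := ((((G 1 one_pos 1331 (1313 * 2) (25357 * 3) (-28001 * 6)).add
    ((G 2 two_pos (-33128) (30484 * 2) (-409852 * 3) (412496 * 6)).smul 8)).add
    ((G 3 three_pos 61773 (-275937 * 2) (-3277 * 3) (217441 * 6)).smul 27)).add
    ((G 6 (by norm_num) (-29976) (244140 * 2) (387772 * 3) (-601936 * 6)).smul 216)).smul
      (-12 / 1331)
  have Hf := ((((M3.smul 120).add (M5.smul 252)).add HG).smul (7 / 311040)).congr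
    (g := fun w => ff w * w ^ 6) (fun w hw => by
      linear_combination (7 / 311040 * w ^ 6) * ffeq h2 h3 hw) rfl
  refine ⟨?_, HB.1, ?_⟩
  · have c := fun (j e : ℕ) (hj : 1 ≤ j) (t : ℝ) (ht : 0 < t) => contT hF j e hj ht
    have r : ∀ a b d e : ℝ, ContinuousOn (Brow a b d e) (Ioi 0) := fun a b d e =>
      ((((hF.2.2.2 3 2 (by norm_num)).const_mul a).add
        (((c 3 2 (by norm_num) 2 two_pos).const_mul b).div_const 4)).add
        (((c 3 2 (by norm_num) 3 three_pos).const_mul d).div_const 9)).add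
        (((c 3 2 (by norm_num) 6 (by norm_num)).const_mul e).div_const 36)
    exact (((((hF.2.2.2 3 0 (by norm_num)).mul (r _ _ _ _)).add
      ((c 3 0 (by norm_num) 2 two_pos).mul (r _ _ _ _))).add
      ((c 3 0 (by norm_num) 3 three_pos).mul (r _ _ _ _))).add
      ((c 3 0 (by norm_num) 6 (by norm_num)).mul (r _ _ _ _))).div_const 1331
  · have m1 : Me 1 2 = zt 3 / π / 12 := by
      have := pi_pos
      simp only [Me, Nat.reduceAdd, Nat.reduceSub, zt_two, Nat.factorial]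
      push_cast
      field_simp
      ring
    have m5 : Me 5 6 = zt 7 / π ^ 5 * (15 / 8) := by
      have := pi_pos
      simp only [Me, Nat.reduceAdd, Nat.reduceSub, zt_two, Nat.factorial]
      push_cast
      field_simp
      ring
    rw [HB.2, Hf.2, m1, m5]
    ring

end Pool.Agent.P.MP_8d0004_nt.LR
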