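import Pool.Agent.P.MP_8d0004_nt.LR.Stm

/-! Level one facts on the imaginary axis. -/

namespace Pool.Agent.P.MP_8d0004_nt.LR

open Real MeasureTheory Set Filter Topology

namespace M1

open ArithmeticFunction UpperHalfPlane EisensteinSeries
open scoped MatrixGroups ModularForm Manifold

lemma T_eq {j : ℕ} (hj : Odd j) {y : ℝ} (hy : 0 < y) :
    T j 0 y = 2 * ∑' n : ℕ+, (sigma j n : ℝ) * exp (-(2 * π * y)) ^ (n : ℕ) := by
  have hj1 : 1 ≤ j := hj.pos
  have hr : ‖exp (-(2 * π * y))‖ < 1 := by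
    rw [Real.norm_eq_abs, abs_of_pos (exp_pos _)]; exact exp_lt_one' hy
  have hs := summable_S1 (PG1_inv_pow 0) hj1 hy
  have hev : Function.Even fun m : ℤ => 1 / (m : ℝ) ^ 0 * K j (m * y) := by
    intro m
    simp only [pow_zero, Int.cast_neg, neg_mul, K_neg, hj.add_one.neg_one_pow, one_mul]
  rw [T, S1, tsum_int_eq_zero_add_two_mul_tsum_pnat hev hs, ← tsum_prod_pow_eq_tsum_sigma j hr]
  simp only [Int.cast_zero, zero_mul, K_zero, mul_zero, zero_add, pow_zero, div_one, one_mul,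
    nsmul_eq_mul, Nat.cast_ofNat, Int.cast_natCast]
  congr 1
  refine tsum_congr fun d => ?_
  have hd : (0 : ℝ) < (d : ℕ) * y := mul_pos (by exact_mod_cast d.pos) hy
  have h := K_hasSum hj1 hd
  rw [← h.tsum_eq, ← tsum_zero_pnat_eq_tsum_nat h.summable]
  simp only [Nat.cast_zero, zero_pow hj.pos.ne', zero_mul, zero_add]
  refine tsum_congr fun c => ?_
  rw [← exp_nat_mul]
  congr 2
  push_cast
  ring

lemma im_pos {z : ℍ} {y : ℝ} (h : (z : ℂ) = Complex.I * y) : 0 < y := by
  have := z.im_pos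
  rw [← coe_im, h] at this
  simpa using this

lemma T_cast {j : ℕ} (hj : Odd j) {z : ℍ} {y : ℝ} (h : (z : ℂ) = Complex.I * y) :
    (T j 0 y : ℂ) =
      2 * ∑' n : ℕ+, (sigma j n : ℂ) * Complex.exp (2 * π * Complex.I * z) ^ (n : ℕ) := by
  have e : Complex.exp (2 * π * Complex.I * z) = (exp (-(2 * π * y)) : ℝ) := by
    rw [h, Complex.ofReal_exp]
    congr 1
    push_cast
    linear_combination (2 * π * y : ℂ) * Complex.I_mul_I
  rw [T_eq hj (im_pos h), e, Complex.ofReal_mul, Complex.ofReal_tsum]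
  simp only [Complex.ofReal_mul, Complex.ofReal_natCast, Complex.ofReal_pow, Complex.ofReal_ofNat]

end M1

open M1 in
theorem stL : StL := by
  intro z y h
  refine ⟨?_, ?_, ?_⟩
  · rw [EisensteinSeries.E2_eq_tsum_cexp, e2]
    push_cast
    rw [T_cast (by decide) h]
    ring
  · rw [EisensteinSeries.q_expansion_bernoulli _ (by decide), e4]
    push_cast
    rw [T_cast (by decide) h, show bernoulli 4 = -1 / 30 by decide +kernel]
    simp only [zpow_natCast]
    push_cast
    ring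
  · rw [EisensteinSeries.q_expansion_bernoulli _ (by decide), e6]
    push_cast
    rw [T_cast (by decide) h, show bernoulli 6 = 1 / 42 by decide +kernel]
    simp only [zpow_natCast]
    push_cast
    ring

namespace M1

open ArithmeticFunction UpperHalfPlane EisensteinSeries
open scoped MatrixGroups ModularForm Manifold

/-- the point of the upper half plane on the imaginary axis -/
noncomputable def ax (y : ℝ) (hy : 0 < y) : ℍ := ⟨Complex.I * y, by simpa using hy⟩

lemma ax_coe (y : ℝ) (hy : 0 < y) : (ax y hy : ℂ) = Complex.I * y := rfl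

lemma e4_inv {y : ℝ} (hy : 0 < y) : e4 (1 / y) = y ^ 4 * e4 y := by
  have h1 := (stL (ax y hy) y rfl).2.1
  have hy' : (y : ℂ) ≠ 0 := by exact_mod_cast hy.ne'
  have h2 := (stL (ModularGroup.S • ax y hy) (1 / y) (by
    rw [modular_S_smul]
    show (-(Complex.I * y))⁻¹ = _
    push_cast
    field_simp
    simp)).2.1
  have h3 := SlashInvariantForm.slash_action_eqn'' ModularForm.E₄
    (Γ := 𝒮ℒ) (γ := (ModularGroup.S : SL(2, ℤ))) ⟨ModularGroup.S, rfl⟩ (ax y hy)
  have h4 : denom (ModularGroup.S : SL(2, ℤ)) (ax y hy) = Complex.I * y := by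
    simp [ModularGroup.S, denom, ax_coe]
  have h5 : (e4 (1 / y) : ℂ) = (Complex.I * y) ^ (4 : ℕ) * e4 y := by
    rw [h1, h2, ← h4, ← zpow_natCast]
    exact h3
  rw [mul_pow, Complex.I_pow_four, one_mul] at h5
  exact_mod_cast h5

lemma bdd_D {F : ℍ → ℂ} (hF : MDiff F) (hb : IsBoundedAtImInfty F) :
    IsBoundedAtImInfty (Derivative.normalizedDerivOfComplex F) := by
  rw [isBoundedAtImInfty_iff] at hb ⊢
  obtain ⟨M, A, h⟩ := hb
  refine ⟨‖(2 * π * Complex.I : ℂ)⁻¹‖ * (M / 1), max A 1 + 1, fun z hz => ?_⟩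
  have hball : ∀ w ∈ Metric.closedBall (z : ℂ) 1, max A 1 ≤ w.im := by
    intro w hw
    rw [mem_closedBall_iff_norm] at hw
    have := (Complex.abs_im_le_norm (w - z)).trans hw
    rw [Complex.sub_im, coe_im, abs_le] at this
    linarith [this.1]
  have hpos : ∀ w ∈ Metric.closedBall (z : ℂ) 1, 0 < w.im := fun w hw =>
    lt_of_lt_of_le one_pos ((le_max_right _ _).trans (hball w hw))
  rw [Derivative.normalizedDerivOfComplex, norm_mul]
  gcongr
  refine Complex.norm_deriv_le_of_forall_mem_sphere_norm_le one_pos ?_ fun w hw => ?_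
  · apply DifferentiableOn.diffContOnCl
    rw [closure_ball _ one_ne_zero]
    exact (UpperHalfPlane.mdifferentiable_iff.1 hF).mono hpos
  · have hw' := Metric.sphere_subset_closedBall hw
    rw [Function.comp_apply, ofComplex_apply_of_im_pos (hpos w hw')]
    exact h _ ((le_max_left _ _).trans (hball w hw'))

/-- the weight four combination -/
noncomputable def GG : ℍ → ℂ := E2 * E2 - (12 : ℂ) • Derivative.normalizedDerivOfComplex E2

lemma GG_slash (γ : SL(2, ℤ)) : GG ∣[(4 : ℤ)] γ = GG := by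
  have hπ : (π : ℂ) ≠ 0 := by exact_mod_cast pi_ne_zero
  have h1 : E2 ∣[(2 : ℤ)] γ = E2 + fun w : ℍ =>
      (12 * (2 * π * Complex.I : ℂ)⁻¹ * γ 1 0) * denom γ w ^ (-1 : ℤ) := by
    rw [E2_slash_action]
    ext w
    have := denom_ne_zero γ w
    simp only [Pi.sub_apply, Pi.smul_apply, D2, smul_eq_mul, Pi.add_apply, riemannZeta_two,
      zpow_neg, zpow_one]
    field_simp
    linear_combination (-12 * (γ 1 0 : ℂ)) * Complex.I_sq
  have hu : MDiff fun w : ℍ =>
      (12 * (2 * π * Complex.I : ℂ)⁻¹ * γ 1 0) * denom γ w ^ (-1 : ℤ) :=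
    mdifferentiable_const.mul (mdifferentiable_denom_zpow γ (-1))
  have h2 := Derivative.normalizedDerivOfComplex_SL_slash (k := 2) E2_mdifferentiable (γ := γ)
  have h3 : ∀ z : ℍ, Derivative.normalizedDerivOfComplex (fun w : ℍ =>
      (12 * (2 * π * Complex.I : ℂ)⁻¹ * γ 1 0) * denom γ w ^ (-1 : ℤ)) z =
      (2 * π * Complex.I : ℂ)⁻¹ * ((12 * (2 * π * Complex.I : ℂ)⁻¹ * γ 1 0) *
        (-(γ 1 0 : ℂ) * denom γ z ^ (-2 : ℤ))) := by
    intro z
    rw [Derivative.normalizedDerivOfComplex]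
    congr 1
    have h := (hasDerivAt_denom_zpow γ (-1) z).const_mul (12 * (2 * π * Complex.I : ℂ)⁻¹ * γ 1 0)
    refine (HasDerivAt.deriv (h.congr_of_eventuallyEq ?_)).trans (by simp)
    filter_upwards [isOpen_upperHalfPlaneSet.mem_nhds z.im_pos] with w hw
    simp [ofComplex_apply_of_im_pos hw]
  have h4 := ModularForm.mul_slash_SL2 2 2 γ E2 E2
  rw [h1, Derivative.normalizedDerivOfComplex_add _ _ E2_mdifferentiable hu] at h2
  rw [h1] at h4
  rw [show (2 : ℤ) + 2 = 4 by norm_num] at h2 h4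
  rw [GG, sub_eq_add_neg, SlashAction.add_slash, SlashAction.neg_slash, ModularForm.SL_smul_slash,
    h4]
  ext z
  have h5 := congrFun h2 z
  rw [Pi.add_apply, h3] at h5
  simp only [Pi.add_apply, Pi.sub_apply, Pi.mul_apply, Pi.neg_apply, Pi.smul_apply,
    smul_eq_mul, zpow_neg, zpow_ofNat, Int.cast_ofNat, div_eq_mul_inv, ← inv_pow] at h5 ⊢
  linear_combination 12 * h5

/-- the weight four combination as a modular form -/
noncomputable def GF : ModularForm 𝒮ℒ 4 where
  toFun := GG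
  slash_action_eq' A hA := by
    obtain ⟨A, rfl⟩ := hA
    exact GG_slash A
  holo' := (E2_mdifferentiable.mul E2_mdifferentiable).sub
    ((Derivative.normalizedDerivOfComplex_mdifferentiable E2_mdifferentiable).const_smul _)
  bdd_at_cusps' hc := by
    rw [Subgroup.IsArithmetic.isCusp_iff_isCusp_SL2Z] at hc
    rw [OnePoint.isBoundedAt_iff_forall_SL2Z hc]
    intro γ _
    rw [GG_slash, GG, sub_eq_add_neg]
    exact (isBoundedAtImInfty_E2.mul isBoundedAtImInfty_E2).add
      ((bdd_D E2_mdifferentiable isBoundedAtImInfty_E2).smul (12 : ℂ)).neg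

lemma D_axis {y d : ℝ} (hy : 0 < y) (hd : HasDerivAt e2 d y) :
    (d : ℂ) = -(2 * π) * Derivative.normalizedDerivOfComplex E2 (ax y hy) := by
  have hπ : (π : ℂ) ≠ 0 := by exact_mod_cast pi_ne_zero
  have h1 : HasDerivAt (E2 ∘ ofComplex) (deriv (E2 ∘ ofComplex) (ax y hy)) (Complex.I * y) :=
    (mdifferentiableAt_iff.1 (E2_mdifferentiable (ax y hy))).hasDerivAt
  have h2 := (h1.comp (y : ℂ) ((hasDerivAt_id' (y : ℂ)).const_mul Complex.I)).comp_ofReal
  have h3 := hd.ofReal_comp.unique (h2.congr_of_eventuallyEq (by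
    filter_upwards [Ioi_mem_nhds hy] with x hx
    have hx' : 0 < (Complex.I * x).im := by simpa using hx
    rw [(stL (ax x hx) x rfl).1]
    simp only [Function.comp_apply, ofComplex_apply_of_im_pos hx']
    rfl))
  rw [h3, Derivative.normalizedDerivOfComplex]
  field_simp
  linear_combination deriv (E2 ∘ ofComplex) (ax y hy) * Complex.I_sq

lemma e2_deriv {y : ℝ} (hy : 0 < y) :
    HasDerivAt e2 (-(2 * π) * ((e2 y ^ 2 - e4 y) / 12)) y := by
  have hd : ∀ y, 0 < y → HasDerivAt e2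
      (-(12 * (-(2 * π) * S1 (fun a => a * (1 / (a : ℝ) ^ 0)) 2 y))) y := fun y hy =>
    ((S1_hasDerivAt (PG1_inv_pow 0) le_rfl hy).const_mul 12).const_sub 1
  obtain ⟨c, hc⟩ : ∃ c : ℂ, c • ModularForm.E₄ = GF :=
    (finrank_eq_one_iff_of_nonzero' ModularForm.E₄ (E_ne_zero _ ⟨2, rfl⟩)).1
      (Module.rank_eq_one_iff_finrank_eq_one.1 ModularForm.levelOne_weight_four_rank_one) _
  have hπ : (π : ℂ) ≠ 0 := by exact_mod_cast pi_ne_zero
  have key : ∀ y, 0 < y → c * (e4 y : ℂ) =
      ((e2 y ^ 2 + 144 * S1 (fun a => a * (1 / (a : ℝ) ^ 0)) 2 y : ℝ) : ℂ) := by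
    intro y hy
    have h1 : c * ModularForm.E₄ (ax y hy) = GG (ax y hy) := DFunLike.congr_fun hc (ax y hy)
    have h2 := D_axis hy (hd y hy)
    simp only [GG, Pi.sub_apply, Pi.mul_apply, Pi.smul_apply, smul_eq_mul] at h1
    rw [← (stL (ax y hy) y rfl).1, ← (stL (ax y hy) y rfl).2.1] at h1
    apply mul_left_cancel₀ hπ
    push_cast at h2 ⊢
    linear_combination (π : ℂ) * h1 - 6 * h2
  have hc1 : c = 1 := by
    have t2 : Tendsto e2 atTop (𝓝 (1 - 12 * 0)) :=
      ((T_tendsto le_rfl 0).const_mul 12).const_sub 1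
    have t4 : Tendsto e4 atTop (𝓝 (1 + 120 * 0)) :=
      ((T_tendsto (by norm_num) 0).const_mul 120).const_add 1
    have t5 := (t2.pow 2).add
      ((S1_tendsto (PG1_inv_pow 0).mul1 (j := 2) (by norm_num)).const_mul 144)
    have t6 := (Complex.continuous_ofReal.tendsto _).comp t5
    have t7 := ((Complex.continuous_ofReal.tendsto _).comp t4).const_mul c
    have := tendsto_nhds_unique_of_eventuallyEq t7 t6 (by
      filter_upwards [Ioi_mem_atTop 0] with x hx
      exact key x hx)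
    simpa using this
  have h := key y hy
  rw [hc1, one_mul] at h
  have h' := Complex.ofReal_injective h
  refine (hd y hy).congr_deriv ?_
  rw [h']
  ring

lemma exp_form (n : ℕ) (y : ℝ) :
    exp (-(2 * π * ((n : ℝ) + 1) * y)) = exp (-(2 * π * y)) ^ (n + 1) := by
  rw [← exp_nat_form]
  push_cast
  rfl

lemma summable_log {r : ℝ} (h0 : 0 ≤ r) (h1 : r < 1) :
    Summable fun n : ℕ => log (1 - r ^ (n + 1)) := by
  have := Real.summable_log_one_add_of_summable
    ((summable_nat_add_iff 1).2 (summable_geometric_of_lt_one h0 h1)).neg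
  simpa [sub_eq_add_neg] using this

lemma factor_pos {r : ℝ} (h0 : 0 ≤ r) (h1 : r < 1) (n : ℕ) : 0 < 1 - r ^ (n + 1) :=
  sub_pos.2 (pow_lt_one₀ h0 h1 (Nat.succ_ne_zero n))

lemma eta_eq {y : ℝ} (hy : 0 < y) :
    eta y = exp (-(π * y / 12) + ∑' n : ℕ, log (1 - exp (-(2 * π * y)) ^ (n + 1))) := by
  have h0 := (exp_pos (-(2 * π * y))).le
  have h1 := exp_lt_one' hy
  rw [exp_add, Real.rexp_tsum_eq_tprod (factor_pos h0 h1) (summable_log h0 h1), eta]
  simp only [exp_form]

lemma eta_pos {y : ℝ} (hy : 0 < y) : 0 < eta y := by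
  rw [eta_eq hy]
  exact exp_pos _

lemma eta_cast {y : ℝ} (hy : 0 < y) : (eta y : ℂ) = ModularForm.eta (Complex.I * y) := by
  have h0 := (exp_pos (-(2 * π * y))).le
  have h1 := exp_lt_one' hy
  have hm := Real.multipliable_of_summable_log (factor_pos h0 h1) (summable_log h0 h1)
  have h2 := hm.map_tprod Complex.ofRealHom Complex.continuous_ofReal
  have e : Complex.exp (2 * π * Complex.I * (Complex.I * y)) = (exp (-(2 * π * y)) : ℝ) := by
    rw [Complex.ofReal_exp]
    congr 1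
    push_cast
    linear_combination (2 * π * y : ℂ) * Complex.I_mul_I
  simp only [eta, exp_form, ModularForm.eta, ModularForm.eta_q_eq_pow, e, Complex.ofReal_mul]
  congr 1
  · rw [Complex.ofReal_exp, Function.Periodic.qParam]
    congr 1
    push_cast
    linear_combination (-(π * y / 12) : ℂ) * Complex.I_mul_I
  · simpa only [Complex.ofRealHom_eq_coe, Complex.ofReal_sub, Complex.ofReal_one,
      Complex.ofReal_pow] using h2

lemma eta_deriv {y : ℝ} (hy : 0 < y) : HasDerivAt eta (-(π / 12) * e2 y * eta y) y := by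
  have hz : Complex.I * y ∈ upperHalfPlaneSet := (ax y hy).2
  have h1 := (ModularForm.differentiableAt_eta_of_mem_upperHalfPlaneSet hz).hasDerivAt
  have h2 := ModularForm.logDeriv_eta_eq_E2 (ax y hy)
  rw [logDeriv_apply, ax_coe, div_eq_iff (ModularForm.eta_ne_zero hz), ← (stL (ax y hy) y rfl).1,
    ← eta_cast hy] at h2
  have h3 := (h1.comp (y : ℂ) ((hasDerivAt_id' (y : ℂ)).const_mul Complex.I)).real_of_complex
  have h4 : deriv ModularForm.eta (Complex.I * y) * (Complex.I * 1) =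
      ((-(π / 12) * e2 y * eta y : ℝ) : ℂ) := by
    rw [h2]
    push_cast
    linear_combination (π / 12 * e2 y * eta y : ℂ) * Complex.I_mul_I
  rw [h4, Complex.ofReal_re] at h3
  refine h3.congr_of_eventuallyEq ?_
  filter_upwards [Ioi_mem_nhds hy] with x hx
  rw [Function.comp_apply, ← eta_cast hx, Complex.ofReal_re]

lemma csqrt_sq {z : ℂ} (hz : z ≠ 0) : Complex.sqrt z ^ 2 = z := by
  rw [sqrt_eq_exp hz, ← Complex.exp_nat_mul]
  convert Complex.exp_log hz using 2
  push_cast
  ring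

lemma eta_inv {y : ℝ} (hy : 0 < y) : eta (1 / y) = √y * eta y := by
  have hz : Complex.I * y ∈ upperHalfPlaneSet := (ax y hy).2
  have hy' : (y : ℂ) ≠ 0 := by exact_mod_cast hy.ne'
  have h1 := ModularForm.eta_comp_eq_csqrt_I_inv hz
  have e : -1 / (Complex.I * y) = Complex.I * ((1 / y : ℝ) : ℂ) := by
    push_cast
    field_simp
    simp
  simp only [Function.comp_apply, e, Pi.smul_apply, Pi.mul_apply, smul_eq_mul] at h1
  rw [← eta_cast (one_div_pos.2 hy), ← eta_cast hy] at h1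
  have h2 : ((eta (1 / y) ^ 2 : ℝ) : ℂ) = ((y * eta y ^ 2 : ℝ) : ℂ) := by
    push_cast at h1 ⊢
    rw [h1, mul_pow, mul_pow, inv_pow, csqrt_sq Complex.I_ne_zero,
      csqrt_sq (mul_ne_zero Complex.I_ne_zero hy')]
    field_simp
  have h3 := Complex.ofReal_injective h2
  have h4 := eta_pos hy
  apply (pow_left_inj₀ (eta_pos (one_div_pos.2 hy)).le (by positivity) two_ne_zero).1
  rw [h3, mul_pow, sq_sqrt hy.le]

lemma abs_log_le {x r : ℝ} (h0 : 0 ≤ x) (h1 : x ≤ r) (h2 : r < 1) :
    |log (1 - x)| ≤ x / (1 - r) := by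
  have h3 : 0 < 1 - x := by linarith
  have h4 : 0 < 1 - r := by linarith
  rw [abs_of_nonpos (log_nonpos h3.le (by linarith))]
  have h5 := one_sub_inv_le_log_of_pos h3
  have h6 : (1 - x)⁻¹ - 1 = x / (1 - x) := by field_simp; ring
  have h7 : x / (1 - x) ≤ x / (1 - r) := by gcongr
  linarith

lemma eta_log : ∃ C, ∀ y, 1 / 6 ≤ y → |log (eta y) + π * y / 12| ≤ C * exp (-(2 * π * y)) := by
  have hr0 := exp_lt_one' (u := 1 / 6) (by norm_num)
  generalize hr : exp (-(2 * π * (1 / 6))) = r0 at hr0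
  refine ⟨(1 - r0)⁻¹ / (1 - r0), fun y hy => ?_⟩
  have hy0 : 0 < y := by linarith
  have h0 := (exp_pos (-(2 * π * y))).le
  have h1 := exp_lt_one' hy0
  have h2 : exp (-(2 * π * y)) ≤ r0 := by
    rw [← hr]
    gcongr
  rw [eta_eq hy0, log_exp, neg_add_cancel_comm]
  generalize exp (-(2 * π * y)) = r at h0 h1 h2
  have h3 := ((hasSum_geometric_of_lt_one h0 h1).mul_left r).div_const (1 - r0)
  have h4 := tsum_of_norm_bounded h3 (f := fun n : ℕ => log (1 - r ^ (n + 1))) fun n => by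
    rw [Real.norm_eq_abs, ← pow_succ']
    exact abs_log_le (by positivity) ((pow_le_of_le_one h0 h1.le (Nat.succ_ne_zero n)).trans h2) hr0
  refine h4.trans ?_
  have h5 : 0 < 1 - r0 := by linarith
  rw [mul_comm r, mul_div_right_comm]
  gcongr

end M1

open M1 in
theorem stM1 : StM1 :=
  ⟨fun _ => e4_inv, fun _ => e2_deriv, fun _ => eta_pos, fun _ => eta_deriv, fun _ => eta_inv,
    eta_log⟩

end Pool.Agent.P.MP_8d0004_nt.LR
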