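import Pool.Agent.P.MP_8d0004_nt.LR.M2c

/-! The level six identities. -/

namespace Pool.Agent.P.MP_8d0004_nt.LR

namespace M2

open UpperHalfPlane ModularForm Filter Asymptotics Complex EisensteinSeries
open scoped MatrixGroups Manifold Topology Real

/-- a modular form of level six together with its truncated expansion -/
def MA (k : ℤ) (f : ℍ → ℂ) (a0 a1 a2 a3 a4 a5 a6 : ℂ) : Prop :=
  MF k f ∧ Ap f a0 a1 a2 a3 a4 a5 a6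

section
variable {k l m : ℤ} {f g : ℍ → ℂ} {a0 a1 a2 a3 a4 a5 a6 b0 b1 b2 b3 b4 b5 b6 : ℂ}

theorem MA.add (hf : MA k f a0 a1 a2 a3 a4 a5 a6) (hg : MA k g b0 b1 b2 b3 b4 b5 b6) :
    MA k (f + g) (a0 + b0) (a1 + b1) (a2 + b2) (a3 + b3) (a4 + b4) (a5 + b5) (a6 + b6) :=
  ⟨hf.1.add hg.1, hf.2.add hg.2⟩

theorem MA.smul (c : ℂ) (hf : MA k f a0 a1 a2 a3 a4 a5 a6) :
    MA k (c • f) (c * a0) (c * a1) (c * a2) (c * a3) (c * a4) (c * a5) (c * a6) :=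
  ⟨hf.1.smul c, hf.2.smul c⟩

theorem MA.mul (hf : MA k f a0 a1 a2 a3 a4 a5 a6) (hg : MA l g b0 b1 b2 b3 b4 b5 b6)
    (h : k + l = m) :
    MA m (f * g) (a0 * b0) (a0 * b1 + a1 * b0) (a0 * b2 + a1 * b1 + a2 * b0)
      (a0 * b3 + a1 * b2 + a2 * b1 + a3 * b0) (a0 * b4 + a1 * b3 + a2 * b2 + a3 * b1 + a4 * b0)
      (a0 * b5 + a1 * b4 + a2 * b3 + a3 * b2 + a4 * b1 + a5 * b0)
      (a0 * b6 + a1 * b5 + a2 * b4 + a3 * b3 + a4 * b2 + a5 * b1 + a6 * b0) :=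
  ⟨hf.1.mul hg.1 h, hf.2.mul hg.2⟩

theorem MA.cf (hf : MA k f a0 a1 a2 a3 a4 a5 a6) (h0 : a0 = b0)
    (h1 : a1 = b1) (h2 : a2 = b2) (h3 : a3 = b3) (h4 : a4 = b4) (h5 : a5 = b5) (h6 : a6 = b6) :
    MA k f b0 b1 b2 b3 b4 b5 b6 :=
  ⟨hf.1, hf.2.congr (fun _ => rfl) h0 h1 h2 h3 h4 h5 h6⟩

theorem MA.eq {n : ℕ} (hn : n ≤ 6) (hf : MA n f a0 a1 a2 a3 a4 a5 a6)
    (hg : MA n g a0 a1 a2 a3 a4 a5 a6) (τ : ℍ) : f τ = g τ := by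
  have h := (hf.1.add (hg.1.smul (-1))).sturm hn
    ((IsBigO.sub hf.2 hg.2).congr_left fun τ => by
      simp only [Pi.add_apply, Pi.smul_apply, smul_eq_mul]; ring)
  have := congrFun h τ
  simp only [Pi.add_apply, Pi.smul_apply, smul_eq_mul, Pi.zero_apply] at this
  linear_combination this

end

theorem MF_one {k : ℤ} (f : ModularForm 𝒮ℒ k) : MF k f := by
  have hinv : ∀ g : SL(2, ℤ), (f : ℍ → ℂ) ∣[k] g = f := fun g =>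
    f.slash_action_eq' (g : GL (Fin 2) ℝ) ⟨g, rfl⟩
  refine ⟨f.holo', fun g _ => hinv g, fun g => ?_⟩
  rw [hinv]
  exact ModularFormClass.bdd_at_infty f

theorem MF_V {k : ℤ} (f : ModularForm 𝒮ℒ k) (t : ℕ+) (ht : ((t : ℕ) : ℤ) ∣ 6) :
    MF k fun τ => f (dm t • τ) := by
  refine ((MF_dm f t ht).smul (((t : ℕ) : ℂ) ^ (k - 1))⁻¹).congr fun τ => ?_
  have h : ((t : ℕ) : ℂ) ^ (k - 1) ≠ 0 := zpow_ne_zero _ (by exact_mod_cast t.ne_zero)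
  rw [Pi.smul_apply, dm_slash, smul_eq_mul, inv_mul_cancel_left₀ h]

theorem MA_lin (c1 c2 c3 c6 : ℂ) (hc : c1 + c2 / 2 + c3 / 3 + c6 / 6 = 0) :
    MA 2 (fun τ => c1 * E2 τ + c2 * E2 (dm 2 • τ) + c3 * E2 (dm 3 • τ) + c6 * E2 (dm 6 • τ))
      (c1 + c2 + c3 + c6) (-24 * c1) (-72 * c1 - 24 * c2) (-96 * c1 - 24 * c3)
      (-168 * c1 - 72 * c2) (-144 * c1) (-288 * c1 - 96 * c2 - 72 * c3 - 24 * c6) := by
  constructor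
  · refine ((((MF_U 2 (by decide)).smul (c2 / 2)).add ((MF_U 3 (by decide)).smul (c3 / 3))).add
      ((MF_U 6 (by decide)).smul (c6 / 6))).congr fun τ => ?_
    simp only [Pi.add_apply, Pi.smul_apply, smul_eq_mul, U_apply,
      show ((2 : ℕ+) : ℕ) = 2 from rfl, show ((3 : ℕ+) : ℕ) = 3 from rfl,
      show ((6 : ℕ+) : ℕ) = 6 from rfl]
    push_cast
    linear_combination E2 τ * hc
  · refine ((((Ap_E2.smul c1).add (Ap_E2.dm2.smul c2)).add (Ap_E2.dm3.smul c3)).add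
      (Ap_E2.dm6.smul c6)).congr (fun _ => rfl) ?_ ?_ ?_ ?_ ?_ ?_ ?_ <;> ring

noncomputable def Zc (τ : ℍ) : ℂ :=
  1 / 6 * E2 τ + -4 / 6 * E2 (dm 2 • τ) + -3 / 6 * E2 (dm 3 • τ) + 12 / 6 * E2 (dm 6 • τ)

noncomputable def Wc (τ : ℍ) : ℂ :=
  -1 / 24 * E2 τ + 1 / 24 * E2 (dm 2 • τ) + 3 / 24 * E2 (dm 3 • τ) + -3 / 24 * E2 (dm 6 • τ)

noncomputable def hc (τ : ℍ) : ℂ :=
  -1 / 4 * E2 τ + 2 / 4 * E2 (dm 2 • τ) + -3 / 4 * E2 (dm 3 • τ) + 6 / 4 * E2 (dm 6 • τ)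

theorem mZ : MA 2 Zc 1 (-4) 4 (-4) 20 (-24) 4 := by
  refine (MA_lin (1 / 6) (-4 / 6) (-3 / 6) (12 / 6) (by norm_num)).cf ?_ ?_ ?_ ?_ ?_ ?_ ?_ <;>
    norm_num

theorem mW : MA 2 Wc 0 1 2 1 4 6 2 := by
  refine (MA_lin (-1 / 24) (1 / 24) (3 / 24) (-3 / 24) (by norm_num)).cf ?_ ?_ ?_ ?_ ?_ ?_ ?_ <;>
    norm_num

theorem mh : MA 2 hc 1 6 6 42 6 36 42 := by
  refine (MA_lin (-1 / 4) (2 / 4) (-3 / 4) (6 / 4) (by norm_num)).cf ?_ ?_ ?_ ?_ ?_ ?_ ?_ <;>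
    norm_num

theorem mZZ : MA 4 (Zc * Zc) 1 (-8) 24 (-40) 88 (-240) 376 := by
  refine (mZ.mul mZ (by norm_num)).cf ?_ ?_ ?_ ?_ ?_ ?_ ?_ <;> norm_num

theorem mZW : MA 4 (Zc * Wc) 0 1 (-2) (-3) 4 6 6 := by
  refine (mZ.mul mW (by norm_num)).cf ?_ ?_ ?_ ?_ ?_ ?_ ?_ <;> norm_num

theorem mWW : MA 4 (Wc * Wc) 0 0 1 4 6 12 29 := by
  refine (mW.mul mW (by norm_num)).cf ?_ ?_ ?_ ?_ ?_ ?_ ?_ <;> norm_num

theorem mZh : MA 4 (Zc * hc) 1 2 (-14) 38 (-142) 252 (-266) := by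
  refine (mZ.mul mh (by norm_num)).cf ?_ ?_ ?_ ?_ ?_ ?_ ?_ <;> norm_num

theorem mWh : MA 4 (Wc * hc) 0 1 8 19 64 126 152 := by
  refine (mW.mul mh (by norm_num)).cf ?_ ?_ ?_ ?_ ?_ ?_ ?_ <;> norm_num

theorem mhh : MA 4 (hc * hc) 1 12 48 156 552 648 2352 := by
  refine (mh.mul mh (by norm_num)).cf ?_ ?_ ?_ ?_ ?_ ?_ ?_ <;> norm_num

theorem mZZZ : MA 6 (Zc * Zc * Zc) 1 (-12) 60 (-172) 396 (-1032) 2524 := by
  refine (mZZ.mul mZ (by norm_num)).cf ?_ ?_ ?_ ?_ ?_ ?_ ?_ <;> norm_num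

theorem mZZW : MA 6 (Zc * Zc * Wc) 0 1 (-6) 9 4 6 (-54) := by
  refine (mZZ.mul mW (by norm_num)).cf ?_ ?_ ?_ ?_ ?_ ?_ ?_ <;> norm_num

theorem mZWW : MA 6 (Zc * Wc * Wc) 0 0 1 0 (-6) 0 9 := by
  refine (mZW.mul mW (by norm_num)).cf ?_ ?_ ?_ ?_ ?_ ?_ ?_ <;> norm_num

theorem mWWW : MA 6 (Wc * Wc * Wc) 0 0 0 1 6 15 32 := by
  refine (mWW.mul mW (by norm_num)).cf ?_ ?_ ?_ ?_ ?_ ?_ ?_ <;> norm_num

theorem mZZh : MA 6 (Zc * Zc * hc) 1 (-2) (-18) 98 (-338) 1044 (-2318) := by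
  refine (mZZ.mul mh (by norm_num)).cf ?_ ?_ ?_ ?_ ?_ ?_ ?_ <;> norm_num

theorem mZWh : MA 6 (Zc * Wc * hc) 0 1 4 (-9) 16 (-66) (-36) := by
  refine (mZW.mul mh (by norm_num)).cf ?_ ?_ ?_ ?_ ?_ ?_ ?_ <;> norm_num

theorem mWWh : MA 6 (Wc * Wc * hc) 0 0 1 10 36 114 311 := by
  refine (mWW.mul mh (by norm_num)).cf ?_ ?_ ?_ ?_ ?_ ?_ ?_ <;> norm_num

theorem w4 {f : ℍ → ℂ} {a0 a1 a2 a3 a4 a5 a6 : ℂ} (hf : MA 4 f a0 a1 a2 a3 a4 a5 a6)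
    (c1 c2 c3 c4 c5 : ℂ) (h0 : c1 + c4 = a0) (h1 : -8 * c1 + c2 + 2 * c4 + c5 = a1)
    (h2 : 24 * c1 - 2 * c2 + c3 - 14 * c4 + 8 * c5 = a2)
    (h3 : -40 * c1 - 3 * c2 + 4 * c3 + 38 * c4 + 19 * c5 = a3)
    (h4 : 88 * c1 + 4 * c2 + 6 * c3 - 142 * c4 + 64 * c5 = a4)
    (h5 : -240 * c1 + 6 * c2 + 12 * c3 + 252 * c4 + 126 * c5 = a5)
    (h6 : 376 * c1 + 6 * c2 + 29 * c3 - 266 * c4 + 152 * c5 = a6) (τ : ℍ) :
    f τ = c1 * Zc τ ^ 2 + c2 * Zc τ * Wc τ + c3 * Wc τ ^ 2 + c4 * Zc τ * hc τ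
      + c5 * Wc τ * hc τ := by
  have hg := (((((mZZ.smul c1).add (mZW.smul c2)).add (mWW.smul c3)).add (mZh.smul c4)).add
    (mWh.smul c5)).cf (b0 := a0) (b1 := a1) (b2 := a2) (b3 := a3) (b4 := a4) (b5 := a5) (b6 := a6)
    (by linear_combination h0) (by linear_combination h1) (by linear_combination h2)
    (by linear_combination h3) (by linear_combination h4) (by linear_combination h5)
    (by linear_combination h6)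
  have := MA.eq (n := 4) (by norm_num) hf hg τ
  simp only [Pi.add_apply, Pi.smul_apply, Pi.mul_apply, smul_eq_mul] at this
  linear_combination this

theorem w6 {f : ℍ → ℂ} {a0 a1 a2 a3 a4 a5 a6 : ℂ} (hf : MA 6 f a0 a1 a2 a3 a4 a5 a6)
    (c1 c2 c3 c4 c5 c6 c7 : ℂ) (h0 : c1 + c5 = a0) (h1 : -12 * c1 + c2 - 2 * c5 + c6 = a1)
    (h2 : 60 * c1 - 6 * c2 + c3 - 18 * c5 + 4 * c6 + c7 = a2)
    (h3 : -172 * c1 + 9 * c2 + c4 + 98 * c5 - 9 * c6 + 10 * c7 = a3)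
    (h4 : 396 * c1 + 4 * c2 - 6 * c3 + 6 * c4 - 338 * c5 + 16 * c6 + 36 * c7 = a4)
    (h5 : -1032 * c1 + 6 * c2 + 15 * c4 + 1044 * c5 - 66 * c6 + 114 * c7 = a5)
    (h6 : 2524 * c1 - 54 * c2 + 9 * c3 + 32 * c4 - 2318 * c5 - 36 * c6 + 311 * c7 = a6) (τ : ℍ) :
    f τ = c1 * Zc τ ^ 3 + c2 * Zc τ ^ 2 * Wc τ + c3 * Zc τ * Wc τ ^ 2 + c4 * Wc τ ^ 3
      + c5 * Zc τ ^ 2 * hc τ + c6 * Zc τ * Wc τ * hc τ + c7 * Wc τ ^ 2 * hc τ := by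
  have hg := (((((((mZZZ.smul c1).add (mZZW.smul c2)).add (mZWW.smul c3)).add (mWWW.smul c4)).add
    (mZZh.smul c5)).add (mZWh.smul c6)).add (mWWh.smul c7)).cf
    (b0 := a0) (b1 := a1) (b2 := a2) (b3 := a3) (b4 := a4) (b5 := a5) (b6 := a6)
    (by linear_combination h0) (by linear_combination h1) (by linear_combination h2)
    (by linear_combination h3) (by linear_combination h4) (by linear_combination h5)
    (by linear_combination h6)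
  have := MA.eq (n := 6) (by norm_num) hf hg τ
  simp only [Pi.add_apply, Pi.smul_apply, Pi.mul_apply, smul_eq_mul] at this
  linear_combination this

theorem all (τ : ℍ) (Z W h : ℂ) (hZ : Z = Zc τ) (hW : W = Wc τ) (hh : h = hc τ) :
    h ^ 2 = Z ^ 2 + 20 * Z * W + 64 * W ^ 2 ∧
    E₄ τ = 5 * Z ^ 2 + 160 * Z * W + 1280 * W ^ 2 - 4 * Z * h + 128 * W * h ∧
    E₄ (dm 2 • τ) = 5 * Z ^ 2 + 40 * Z * W + 80 * W ^ 2 - 4 * Z * h + 8 * W * h ∧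
    9 * E₄ (dm 3 • τ) = 5 * Z ^ 2 + 160 * Z * W + 1280 * W ^ 2 + 4 * Z * h - 128 * W * h ∧
    9 * E₄ (dm 6 • τ) = 5 * Z ^ 2 + 40 * Z * W + 80 * W ^ 2 + 4 * Z * h - 8 * W * h ∧
    E₆ τ = -13 * Z ^ 3 - 408 * Z ^ 2 * W - 9984 * Z * W ^ 2 - 53248 * W ^ 3
      + 14 * Z ^ 2 * h - 224 * Z * W * h - 7168 * W ^ 2 * h ∧
    E₆ (dm 2 • τ) = -13 * Z ^ 3 - 156 * Z ^ 2 * W - 408 * Z * W ^ 2 - 832 * W ^ 3
      + 14 * Z ^ 2 * h + 28 * Z * W * h - 112 * W ^ 2 * h ∧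
    27 * E₆ (dm 3 • τ) = 13 * Z ^ 3 + 408 * Z ^ 2 * W + 9984 * Z * W ^ 2 + 53248 * W ^ 3
      + 14 * Z ^ 2 * h - 224 * Z * W * h - 7168 * W ^ 2 * h ∧
    27 * E₆ (dm 6 • τ) = 13 * Z ^ 3 + 156 * Z ^ 2 * W + 408 * Z * W ^ 2 + 832 * W ^ 3
      + 14 * Z ^ 2 * h + 28 * Z * W * h - 112 * W ^ 2 * h := by
  subst hZ hW hh
  have a1 : MA 4 E₄ _ _ _ _ _ _ _ := ⟨MF_one E₄, Ap_E4⟩
  have a2 : MA 4 _ _ _ _ _ _ _ _ := ⟨MF_V E₄ 2 (by decide), Ap_E4.dm2⟩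
  have a3 : MA 4 _ _ _ _ _ _ _ _ := ⟨MF_V E₄ 3 (by decide), Ap_E4.dm3⟩
  have a6 : MA 4 _ _ _ _ _ _ _ _ := ⟨MF_V E₄ 6 (by decide), Ap_E4.dm6⟩
  have b1 : MA 6 E₆ _ _ _ _ _ _ _ := ⟨MF_one E₆, Ap_E6⟩
  have b2 : MA 6 _ _ _ _ _ _ _ _ := ⟨MF_V E₆ 2 (by decide), Ap_E6.dm2⟩
  have b3 : MA 6 _ _ _ _ _ _ _ _ := ⟨MF_V E₆ 3 (by decide), Ap_E6.dm3⟩
  have b6 : MA 6 _ _ _ _ _ _ _ _ := ⟨MF_V E₆ 6 (by decide), Ap_E6.dm6⟩
  refine ⟨?_, ?_, ?_, ?_, ?_, ?_, ?_, ?_, ?_⟩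
  · have := w4 mhh 1 20 64 0 0 (by norm_num) (by norm_num) (by norm_num) (by norm_num)
      (by norm_num) (by norm_num) (by norm_num) τ
    rw [Pi.mul_apply] at this
    linear_combination this
  · linear_combination w4 a1 5 160 1280 (-4) 128 (by norm_num) (by norm_num) (by norm_num)
      (by norm_num) (by norm_num) (by norm_num) (by norm_num) τ
  · linear_combination w4 a2 5 40 80 (-4) 8 (by norm_num) (by norm_num) (by norm_num)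
      (by norm_num) (by norm_num) (by norm_num) (by norm_num) τ
  · linear_combination 9 * w4 a3 (5 / 9) (160 / 9) (1280 / 9) (4 / 9) (-128 / 9) (by norm_num)
      (by norm_num) (by norm_num) (by norm_num) (by norm_num) (by norm_num) (by norm_num) τ
  · linear_combination 9 * w4 a6 (5 / 9) (40 / 9) (80 / 9) (4 / 9) (-8 / 9) (by norm_num)
      (by norm_num) (by norm_num) (by norm_num) (by norm_num) (by norm_num) (by norm_num) τ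
  · linear_combination w6 b1 (-13) (-408) (-9984) (-53248) 14 (-224) (-7168) (by norm_num)
      (by norm_num) (by norm_num) (by norm_num) (by norm_num) (by norm_num) (by norm_num) τ
  · linear_combination w6 b2 (-13) (-156) (-408) (-832) 14 28 (-112) (by norm_num)
      (by norm_num) (by norm_num) (by norm_num) (by norm_num) (by norm_num) (by norm_num) τ
  · linear_combination 27 * w6 b3 (13 / 27) (408 / 27) (9984 / 27) (53248 / 27) (14 / 27)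
      (-224 / 27) (-7168 / 27) (by norm_num)
      (by norm_num) (by norm_num) (by norm_num) (by norm_num) (by norm_num) (by norm_num) τ
  · linear_combination 27 * w6 b6 (13 / 27) (156 / 27) (408 / 27) (832 / 27) (14 / 27)
      (28 / 27) (-112 / 27) (by norm_num)
      (by norm_num) (by norm_num) (by norm_num) (by norm_num) (by norm_num) (by norm_num) τ

end M2

open UpperHalfPlane in
theorem stM2 (hL : StL) : StM2 := by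
  intro y hy Z W h hZ hW hh
  obtain ⟨τ, hτ⟩ : ∃ τ : ℍ, (τ : ℂ) = Complex.I * y := ⟨⟨Complex.I * y, by simpa using hy⟩, rfl⟩
  obtain ⟨a1, b1, c1⟩ := hL τ y hτ
  obtain ⟨a2, b2, c2⟩ := hL (M2.dm 2 • τ) (2 * y) (by
    rw [M2.dm_smul, hτ, show ((2 : ℕ+) : ℕ) = 2 from rfl]; push_cast; ring)
  obtain ⟨a3, b3, c3⟩ := hL (M2.dm 3 • τ) (3 * y) (by
    rw [M2.dm_smul, hτ, show ((3 : ℕ+) : ℕ) = 3 from rfl]; push_cast; ring)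
  obtain ⟨a6, b6, c6⟩ := hL (M2.dm 6 • τ) (6 * y) (by
    rw [M2.dm_smul, hτ, show ((6 : ℕ+) : ℕ) = 6 from rfl]; push_cast; ring)
  have H := M2.all τ Z W h
    (by rw [hZ, Zf, M2.Zc, ← a1, ← a2, ← a3, ← a6]; push_cast; ring)
    (by rw [hW, Wf, M2.Wc, ← a1, ← a2, ← a3, ← a6]; push_cast; ring)
    (by rw [hh, hf, M2.hc, ← a1, ← a2, ← a3, ← a6]; push_cast; ring)
  rw [← b1, ← b2, ← b3, ← b6, ← c1, ← c2, ← c3, ← c6] at H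
  exact_mod_cast H

end Pool.Agent.P.MP_8d0004_nt.LR
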