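import Pool.Agent.P.MP_8d0004_nt.LR.Stm

/-! The differential system, the eta quotients, and the functions Yf and Pa. -/

namespace Pool.Agent.P.MP_8d0004_nt.LR

open Real MeasureTheory Set Filter Topology

namespace M3

lemma scale {f : ℝ → ℝ} {f' t y : ℝ} (h : HasDerivAt f f' (t * y)) :
    HasDerivAt (fun x => f (t * x)) (f' * t) y := by
  have := h.comp y ((hasDerivAt_id' y).const_mul t)
  simpa [Function.comp_def] using this

/-- a combination of the four dilates -/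
noncomputable def cmb (f : ℝ → ℝ) (a b c d : ℝ) (x : ℝ) : ℝ :=
  a * f x + b * f (2 * x) + c * f (3 * x) + d * f (6 * x)

lemma lin4 {f g : ℝ → ℝ} (hf : ∀ y, 0 < y → HasDerivAt f (g y) y) (a b c d : ℝ) {y : ℝ}
    (hy : 0 < y) : HasDerivAt (cmb f a b c d) (cmb g a (2 * b) (3 * c) (6 * d) y) y := by
  have h1 := (hf y hy).const_mul a
  have h2 := (scale (hf (2 * y) (by positivity))).const_mul b
  have h3 := (scale (hf (3 * y) (by positivity))).const_mul c
  have h6 := (scale (hf (6 * y) (by positivity))).const_mul d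
  refine (((h1.add h2).add h3).add h6).congr_deriv ?_
  unfold cmb; ring

lemma dil {t : ℝ} (ht : 0 < t) : Tendsto (fun y : ℝ => t * y) atTop atTop :=
  Tendsto.const_mul_atTop ht tendsto_id

lemma cmb_tendsto {f : ℝ → ℝ} {l : ℝ} (hf : Tendsto f atTop (𝓝 l)) (a b c d : ℝ) :
    Tendsto (cmb f a b c d) atTop (𝓝 ((a + b + c + d) * l)) := by
  have h1 := hf.const_mul a
  have h2 := (hf.comp (dil two_pos)).const_mul b
  have h3 := (hf.comp (dil three_pos)).const_mul c
  have h6 := (hf.comp (dil (t := 6) (by norm_num))).const_mul d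
  have := ((h1.add h2).add h3).add h6
  rw [show (a + b + c + d) * l = a * l + b * l + c * l + d * l by ring]
  exact this

lemma Zf_eq : Zf = cmb e2 (1 / 6) (-4 / 6) (-3 / 6) 2 := by
  funext x; unfold Zf cmb; ring
lemma Wf_eq : Wf = cmb e2 (-1 / 24) (1 / 24) (3 / 24) (-3 / 24) := by
  funext x; unfold Wf cmb; ring
lemma hf_eq : hf = cmb e2 (-1 / 4) (2 / 4) (-3 / 4) (6 / 4) := by
  funext x; unfold hf cmb; ring
lemma zf_eq : zf = cmb e2 (1 / 6) (-1 / 6) (3 / 6) (-3 / 6) := by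
  funext x; unfold zf cmb; ring
lemma Pa_eq : Pa = cmb (T 2 1) 1 (-1 / 2) (-3) (3 / 2) := by
  funext x; unfold Pa cmb; ring

lemma div9 {a b : ℝ} (h : 9 * a = b) : a = b / 9 := by linarith

section Sys
variable (h1 : StM1) (h2 : StM2) {y : ℝ} (hy : 0 < y)
include h1 h2 hy

lemma dZ : HasDerivAt Zf (-(2 * π) * (Zf y * zf y)) y := by
  obtain ⟨-, a1, a2, a3, a6, -⟩ := h2 y hy _ _ _ rfl rfl rfl
  have := lin4 h1.2.1 (1 / 6) (-4 / 6) (-3 / 6) 2 hy
  rw [← Zf_eq] at this
  refine this.congr_deriv ?_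
  simp only [cmb]
  rw [a1, a2, div9 a3, div9 a6]
  unfold Zf Wf hf zf
  ring

lemma dW : HasDerivAt Wf (-(2 * π) * (Wf y * (zf y + hf y))) y := by
  obtain ⟨-, a1, a2, a3, a6, -⟩ := h2 y hy _ _ _ rfl rfl rfl
  have := lin4 h1.2.1 (-1 / 24) (1 / 24) (3 / 24) (-3 / 24) hy
  rw [← Wf_eq] at this
  refine this.congr_deriv ?_
  simp only [cmb]
  rw [a1, a2, div9 a3, div9 a6]
  unfold Zf Wf hf zf
  ring

lemma dh : HasDerivAt hf (-(2 * π) * (hf y * zf y + 10 * Zf y * Wf y + 64 * Wf y ^ 2)) y := by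
  obtain ⟨a0, a1, a2, a3, a6, -⟩ := h2 y hy _ _ _ rfl rfl rfl
  have := lin4 h1.2.1 (-1 / 4) (2 / 4) (-3 / 4) (6 / 4) hy
  rw [← hf_eq] at this
  refine this.congr_deriv ?_
  simp only [cmb]
  rw [a1, a2, div9 a3, div9 a6]
  unfold Zf Wf hf zf at *
  linear_combination (-(2 * π) * (1 / 2)) * a0

lemma dz : HasDerivAt zf (-(2 * π) * (zf y ^ 2 / 2 - 4 * Zf y * Wf y - 32 * Wf y ^ 2)) y := by
  obtain ⟨a0, a1, a2, a3, a6, -⟩ := h2 y hy _ _ _ rfl rfl rfl
  have := lin4 h1.2.1 (1 / 6) (-1 / 6) (3 / 6) (-3 / 6) hy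
  rw [← zf_eq] at this
  refine this.congr_deriv ?_
  simp only [cmb]
  rw [a1, a2, div9 a3, div9 a6]
  unfold Zf Wf hf zf at *
  linear_combination (-(2 * π) * (-1 / 9)) * a0

omit h1 in
lemma dPa : HasDerivAt Pa (-(2 * π) * (2 * Wf y * hf y)) y := by
  obtain ⟨-, a1, a2, a3, a6, -⟩ := h2 y hy _ _ _ rfl rfl rfl
  have := lin4 (f := T 2 1) (g := fun y => -(2 * π) * T 3 0 y)
    (fun y hy => T_hasDerivAt (j := 2) (by norm_num) 0 hy) 1 (-1 / 2) (-3) (3 / 2) hy
  rw [← Pa_eq] at this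
  refine this.congr_deriv ?_
  unfold cmb
  unfold e4 at a1 a2 a3 a6
  linear_combination (-(2 * π) / 120) * (a1 - a2 - a3 + a6)

end Sys

lemma e2_tendsto : Tendsto e2 atTop (𝓝 1) := by
  have := ((T_tendsto (j := 1) le_rfl 0).const_mul 12).const_sub 1
  rw [mul_zero, sub_zero] at this
  exact this

lemma Z_tendsto : Tendsto Zf atTop (𝓝 1) := by
  have := cmb_tendsto e2_tendsto (1 / 6) (-4 / 6) (-3 / 6) 2
  rw [← Zf_eq] at this
  convert this using 2; norm_num

lemma W_tendsto : Tendsto Wf atTop (𝓝 0) := by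
  have := cmb_tendsto e2_tendsto (-1 / 24) (1 / 24) (3 / 24) (-3 / 24)
  rw [← Wf_eq] at this
  convert this using 2; norm_num

lemma h_tendsto : Tendsto hf atTop (𝓝 1) := by
  have := cmb_tendsto e2_tendsto (-1 / 4) (2 / 4) (-3 / 4) (6 / 4)
  rw [← hf_eq] at this
  convert this using 2; norm_num

lemma Pa_tendsto : Tendsto Pa atTop (𝓝 0) := by
  have := cmb_tendsto (T_tendsto (j := 2) (by norm_num) 1) 1 (-1 / 2) (-3) (3 / 2)
  rw [← Pa_eq] at this
  simpa using this

lemma expm_tendsto {t : ℝ} (ht : 0 < t) : Tendsto (fun y : ℝ => exp (-(t * y))) atTop (𝓝 0) :=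
  tendsto_exp_neg_atTop_nhds_zero.comp (dil ht)

lemma K1_eq {u : ℝ} (hu : u ≠ 0) :
    exp (2 * π * u) * K 1 u = 1 / (1 - exp (-(2 * π * u))) ^ 2 := by
  have h := one_sub_exp_ne hu
  have h3 : exp (2 * π * u) * exp (-(2 * π * u)) = 1 := by rw [← exp_add]; simp
  rw [K_of_ne hu]
  simp only [kp, Polynomial.derivative_X, mul_one, Polynomial.eval_sub, Polynomial.eval_pow,
    Polynomial.eval_X, Polynomial.eval_C, cth]
  field_simp
  linear_combination (16 : ℝ) * h3

lemma K1_lim : Tendsto (fun y : ℝ => exp (2 * π * y) * K 1 y) atTop (𝓝 1) := by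
  have h : Tendsto (fun y : ℝ => 1 / (1 - exp (-(2 * π * y))) ^ 2) atTop (𝓝 (1 / (1 - 0) ^ 2)) :=
    tendsto_const_nhds.div (((expm_tendsto (by positivity)).const_sub 1).pow 2) (by norm_num)
  simp only [sub_zero, one_pow, div_one] at h
  refine h.congr' ?_
  filter_upwards [eventually_gt_atTop 0] with y hy
  exact (K1_eq hy.ne').symm

lemma T1_lim : Tendsto (fun y : ℝ => exp (2 * π * y) * T 1 0 y) atTop (𝓝 2) := by
  obtain ⟨b, hb, hb0, h⟩ := master (j := 1) le_rfl one_pos 0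
  obtain ⟨C, hC, hK⟩ := K_le_exp (j := 1) le_rfl one_pos
  have key := tendsto_tsum_of_dominated_convergence (𝓕 := atTop)
    (f := fun (y : ℝ) (m : ℤ) => exp (2 * π * y) * K 1 (m * y))
    (g := fun m : ℤ => (if m = 1 then (1 : ℝ) else 0) + if m = -1 then (1 : ℝ) else 0)
    (bound := fun m => b m * exp (2 * π)) (hb.mul_right _) ?_ ?_
  · rw [Summable.tsum_add (hasSum_ite_eq (1 : ℤ) (1 : ℝ)).summable
      (hasSum_ite_eq (-1 : ℤ) (1 : ℝ)).summable, tsum_ite_eq, tsum_ite_eq] at key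
    rw [one_add_one_eq_two] at key
    refine key.congr fun y => ?_
    rw [tsum_mul_left]
    simp [T, S1]
  · intro m
    by_cases m1 : m = 1
    · subst m1
      simpa using K1_lim
    by_cases m2 : m = -1
    · subst m2
      simpa [K_neg] using K1_lim
    by_cases m0 : m = 0
    · subst m0
      simp
    simp only [m1, m2, if_false, add_zero]
    have hm : (2 : ℝ) ≤ |(m : ℝ)| := by
      have : (2 : ℤ) ≤ |m| := by
        rcases abs_cases m with h | h <;> omega
      exact_mod_cast this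
    have hl := (expm_tendsto (t := 2 * π) (by positivity)).const_mul C
    rw [mul_zero] at hl
    refine squeeze_zero_norm' ?_ hl
    filter_upwards [eventually_ge_atTop 1] with y hy
    have h3 : 2 * y ≤ |(m : ℝ) * y| := by
      rw [abs_mul, abs_of_nonneg (by linarith : (0 : ℝ) ≤ y)]
      nlinarith
    have h4 := hK (m * y) (by linarith)
    rw [norm_mul, Real.norm_eq_abs, Real.norm_eq_abs, abs_of_pos (exp_pos _)]
    calc exp (2 * π * y) * |K 1 (m * y)|
        ≤ exp (2 * π * y) * (C * exp (-(2 * π * (2 * y)))) := by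
          gcongr
          refine h4.trans ?_
          gcongr
      _ = C * exp (-(2 * π * y)) := by
          rw [mul_left_comm, ← exp_add]; congr 2; ring
  · filter_upwards [eventually_ge_atTop 1] with y hy m
    have h4 := h y hy m
    rw [pow_zero, one_mul] at h4
    rw [norm_mul, Real.norm_eq_abs, Real.norm_eq_abs, abs_of_pos (exp_pos _)]
    calc exp (2 * π * y) * |K 1 (m * y)|
        ≤ exp (2 * π * y) * (b m * exp (-(2 * π * (y - 1)))) := by gcongr
      _ = b m * exp (2 * π) := by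
          rw [mul_left_comm, ← exp_add]; congr 2; ring

lemma T1_lim' {t : ℝ} (ht : 1 < t) :
    Tendsto (fun y : ℝ => exp (2 * π * y) * T 1 0 (t * y)) atTop (𝓝 0) := by
  have h1 := (T1_lim.comp (dil (t := t) (by linarith))).mul
    (expm_tendsto (t := 2 * π * (t - 1)) (by have := sub_pos.2 ht; positivity))
  rw [mul_zero] at h1
  refine h1.congr fun y => ?_
  simp only [Function.comp]
  rw [mul_right_comm, ← exp_add]; congr 2; ring

lemma W_lim : Tendsto (fun y : ℝ => Wf y * exp (2 * π * y)) atTop (𝓝 1) := by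
  have h := (((T1_lim.const_mul (1 / 2)).sub ((T1_lim' (t := 2) (by norm_num)).const_mul (1 / 2))).sub
    ((T1_lim' (t := 3) (by norm_num)).const_mul (3 / 2))).add
    ((T1_lim' (t := 6) (by norm_num)).const_mul (3 / 2))
  norm_num at h
  refine h.congr fun y => ?_
  unfold Wf e2; ring

lemma const_of {f : ℝ → ℝ} {c : ℝ} (hf : ∀ y, 0 < y → HasDerivAt f 0 y)
    (hl : Tendsto f atTop (𝓝 c)) {y : ℝ} (hy : 0 < y) : f y = c := by
  obtain ⟨a, ha⟩ := isOpen_Ioi.exists_is_const_of_deriv_eq_zero (s := Ioi (0 : ℝ)) (f := f)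
    isPreconnected_Ioi (fun x hx => (hf x hx).differentiableAt.differentiableWithinAt)
    (fun x hx => (hf x hx).deriv)
  have : Tendsto f atTop (𝓝 a) := tendsto_const_nhds.congr' (by
    filter_upwards [eventually_gt_atTop 0] with x hx using (ha x hx).symm)
  rw [ha y hy, tendsto_nhds_unique this hl]

/-- logarithm of eta -/
noncomputable def L (y : ℝ) : ℝ := log (eta y)

lemma dL (h1 : StM1) (y : ℝ) (hy : 0 < y) : HasDerivAt L (-(π / 12) * e2 y) y := by
  have hp := h1.2.2.1 y hy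
  refine ((h1.2.2.2.1 y hy).log hp.ne').congr_deriv ?_
  field_simp

lemma L_lim (h1 : StM1) : Tendsto (fun y => L y + π * y / 12) atTop (𝓝 0) := by
  obtain ⟨C, hC⟩ := h1.2.2.2.2.2
  have hl := (expm_tendsto (t := 2 * π) (by positivity)).const_mul C
  rw [mul_zero] at hl
  refine squeeze_zero_norm' ?_ hl
  filter_upwards [eventually_ge_atTop (1 / 6)] with y hy using hC y hy

lemma quot (h1 : StM1) {F : ℝ → ℝ} (a b c d s : ℝ)
    (hF : ∀ y, 0 < y → HasDerivAt F (-(π / 12) * cmb e2 a (2 * b) (3 * c) (6 * d) y * F y) y)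
    (hs : a + 2 * b + 3 * c + 6 * d = 12 * s)
    (hl : Tendsto (fun y => F y * exp (s * π * y)) atTop (𝓝 1)) {y : ℝ} (hy : 0 < y) :
    F y = exp (cmb L a b c d y) := by
  have h := const_of (f := fun y => F y * exp (-cmb L a b c d y)) (c := 1) (fun y hy => ?_) ?_ hy
  · rw [exp_neg] at h
    have := exp_pos (cmb L a b c d y)
    field_simp at h
    exact h
  · refine ((hF y hy).mul (lin4 (dL h1) a b c d hy).neg.exp).congr_deriv ?_
    simp only [cmb, Pi.neg_apply]; ring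
  · have h2 := (cmb_tendsto (L_lim h1) a b c d).neg.rexp
    rw [mul_zero, neg_zero, exp_zero] at h2
    have h3 := hl.mul h2
    rw [mul_one] at h3
    refine h3.congr fun y => ?_
    rw [mul_assoc, ← exp_add]
    congr 2
    unfold cmb
    linear_combination (-(π * y / 12)) * hs

section Eta
variable (h1 : StM1) (h2 : StM2) {y : ℝ} (hy : 0 < y)
include h1 h2 hy

lemma Z_eta : Zf y = exp (cmb L 4 (-2) 4 (-2) y) := by
  refine quot h1 4 (-2) 4 (-2) 0 (fun y hy => (dZ h1 h2 hy).congr_deriv ?_) (by norm_num)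
    (by simpa using Z_tendsto) hy
  unfold cmb zf; ring

lemma W_eta : Wf y = exp (cmb L (-2) 4 (-2) 4 y) := by
  refine quot h1 (-2) 4 (-2) 4 2 (fun y hy => (dW h1 h2 hy).congr_deriv ?_) (by norm_num)
    W_lim hy
  unfold cmb zf hf; ring

lemma V_eta : (Zf y + 8 * Wf y + hf y) / 2 = exp (cmb L (-5) 7 7 (-5) y) := by
  refine quot (F := fun y => (Zf y + 8 * Wf y + hf y) / 2) h1 (-5) 7 7 (-5) 0
    (fun y hy => ((((dZ h1 h2 hy).add ((dW h1 h2 hy).const_mul 8)).add
      (dh h1 h2 hy)).div_const 2).congr_deriv ?_) (by norm_num) ?_ hy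
  · obtain ⟨a0, -⟩ := h2 y hy _ _ _ rfl rfl rfl
    have e : cmb e2 (-5) (2 * 7) (3 * 7) (6 * -5) y
        = 24 * (zf y + (hf y - Zf y + 8 * Wf y) / 2) := by
      unfold cmb zf hf Zf Wf; ring
    rw [e]
    linear_combination (π / 2) * a0
  · have := ((Z_tendsto.add (W_tendsto.const_mul 8)).add h_tendsto).div_const 2
    norm_num at this
    simpa using this

lemma ff_eq : ff y = Zf y * Wf y * hf y := by
  obtain ⟨a0, -⟩ := h2 y hy _ _ _ rfl rfl rfl
  have hZ := Z_eta h1 h2 hy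
  have hW := W_eta h1 h2 hy
  have hV := V_eta h1 h2 hy
  have p1 := h1.2.2.1 y hy
  have p2 := h1.2.2.1 (2 * y) (by positivity)
  have p3 := h1.2.2.1 (3 * y) (by positivity)
  have p6 := h1.2.2.1 (6 * y) (by positivity)
  have hA : (eta (2 * y) * eta (3 * y)) ^ 9 / (eta y * eta (6 * y)) ^ 3
      = exp (cmb L (-3) 9 9 (-3) y) := by
    rw [← exp_log (show 0 < (eta (2 * y) * eta (3 * y)) ^ 9 / (eta y * eta (6 * y)) ^ 3 by positivity),
      log_div (by positivity) (by positivity), log_pow, log_pow, log_mul p2.ne' p3.ne',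
      log_mul p1.ne' p6.ne']
    congr 1; unfold cmb L; push_cast; ring
  have hB : (eta y * eta (6 * y)) ^ 9 / (eta (2 * y) * eta (3 * y)) ^ 3
      = exp (cmb L 9 (-3) (-3) 9 y) := by
    rw [← exp_log (show 0 < (eta y * eta (6 * y)) ^ 9 / (eta (2 * y) * eta (3 * y)) ^ 3 by positivity),
      log_div (by positivity) (by positivity), log_pow, log_pow, log_mul p2.ne' p3.ne',
      log_mul p1.ne' p6.ne']
    congr 1; unfold cmb L; push_cast; ring
  have e1 : exp (cmb L (-3) 9 9 (-3) y) = (Zf y + 8 * Wf y + hf y) / 2 * (Zf y * Wf y) := by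
    rw [hV, hZ, hW, ← exp_add, ← exp_add]; congr 1; unfold cmb; ring
  have e2 : exp (cmb L 9 (-3) (-3) 9 y) * ((Zf y + 8 * Wf y + hf y) / 2) = (Zf y * Wf y) ^ 2 := by
    rw [hV, hZ, hW, ← exp_add, ← exp_add, ← exp_nat_mul]; congr 1; unfold cmb; push_cast; ring
  have hV0 : (Zf y + 8 * Wf y + hf y) / 2 ≠ 0 := by rw [hV]; exact (exp_pos _).ne'
  have e3 : exp (cmb L 9 (-3) (-3) 9 y) = (hf y - Zf y - 8 * Wf y) / 2 * (Zf y * Wf y) := by
    refine mul_right_cancel₀ hV0 ?_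
    rw [e2]
    linear_combination (-(Zf y * Wf y) / 4) * a0
  unfold ff
  rw [hA, hB, e1, e3]; ring

lemma Z_pos : 0 < Zf y := by rw [Z_eta h1 h2 hy]; exact exp_pos _
lemma W_pos : 0 < Wf y := by rw [W_eta h1 h2 hy]; exact exp_pos _

lemma dY : HasDerivAt Yf (-π * hf y) y := by
  have hZ := Z_pos h1 h2 hy
  have hW := W_pos h1 h2 hy
  have := ((((dW h1 h2 hy).const_mul 64).div (dZ h1 h2 hy) hZ.ne').log
    (by simp only [Pi.div_apply]; positivity)).div_const 2
  refine this.congr_deriv ?_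
  simp only [Pi.div_apply]
  field_simp
  ring

lemma Y_eq : Yf y = 3 * (L (1 / (2 * y)) + L (1 / (6 * y)) - L (1 / y) - L (1 / (3 * y))) := by
  have inv : ∀ u, 0 < u → L (1 / u) = log u / 2 + L u := fun u hu => by
    unfold L
    rw [h1.2.2.2.2.1 u hu, log_mul (by positivity) (h1.2.2.1 u hu).ne', log_sqrt hu.le]
  rw [inv _ hy, inv _ (by positivity : 0 < 2 * y), inv _ (by positivity : 0 < 3 * y),
    inv _ (by positivity : 0 < 6 * y), log_mul two_ne_zero hy.ne', log_mul three_ne_zero hy.ne',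
    log_mul (by norm_num) hy.ne', show (6 : ℝ) = 2 * 3 by norm_num,
    log_mul two_ne_zero three_ne_zero]
  unfold Yf
  rw [Z_eta h1 h2 hy, W_eta h1 h2 hy, mul_div_assoc, ← exp_sub,
    log_mul (by norm_num) (exp_pos _).ne', log_exp, show (64 : ℝ) = 2 ^ 6 by norm_num, log_pow]
  unfold cmb
  rw [show (2 : ℝ) * 3 = 6 by norm_num]
  push_cast
  ring

end Eta

lemma Y_tendsto (h1 : StM1) (h2 : StM2) : Tendsto Yf atTop atBot := by
  have h : Tendsto (fun y => 64 * Wf y / Zf y) atTop (𝓝[>] 0) := by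
    refine tendsto_nhdsWithin_iff.2 ⟨?_, ?_⟩
    · have := (W_tendsto.const_mul 64).div Z_tendsto one_ne_zero
      rw [mul_zero, zero_div] at this
      exact this
    · filter_upwards [eventually_gt_atTop 0] with y hy
      have hZ := Z_pos h1 h2 hy
      have hW := W_pos h1 h2 hy
      exact mem_Ioi.2 (by positivity)
  exact (tendsto_log_nhdsGT_zero.comp h).atBot_div_const two_pos

lemma exp_inv_le (N : ℕ) {y : ℝ} (hy : 0 < y) : exp (-(1 / y)) ≤ N.factorial * y ^ N := by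
  have h := Real.pow_div_factorial_le_exp (1 / y) (by positivity) N
  rw [exp_neg, inv_le_comm₀ (exp_pos _) (by positivity)]
  refine le_trans (le_of_eq ?_) h
  rw [one_div_pow]
  field_simp

lemma Y_bound (h1 : StM1) (h2 : StM2) (N : ℕ) :
    ∃ C, ∀ y ∈ Ioc (0 : ℝ) 1, |Yf y - π / (6 * y)| ≤ C * y ^ N := by
  obtain ⟨C, hC⟩ := h1.2.2.2.2.2
  refine ⟨12 * (|C| * N.factorial), fun y hy => ?_⟩
  have hy0 := hy.1
  have key : ∀ t : ℝ, 1 ≤ t → t ≤ 6 →
      |L (1 / (t * y)) + π * (1 / (t * y)) / 12| ≤ |C| * N.factorial * y ^ N := by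
    intro t t1 t6
    have hty : 0 < t * y := by positivity
    have h3 : 1 / 6 ≤ 1 / (t * y) := one_div_le_one_div_of_le hty (by nlinarith [hy.2])
    refine (hC _ h3).trans ?_
    have h4 : exp (-(2 * π * (1 / (t * y)))) ≤ exp (-(1 / y)) := by
      rw [exp_le_exp, neg_le_neg_iff, ← mul_div_assoc, div_le_div_iff₀ hy0 hty]
      nlinarith [pi_gt_three]
    calc C * exp (-(2 * π * (1 / (t * y)))) ≤ |C| * exp (-(2 * π * (1 / (t * y)))) := by
          gcongr; exact le_abs_self C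
      _ ≤ |C| * (N.factorial * y ^ N) := by
          gcongr; exact h4.trans (exp_inv_le N hy0)
      _ = _ := by ring
  have k1 := abs_le.1 (key 1 le_rfl (by norm_num))
  have k2 := abs_le.1 (key 2 (by norm_num) (by norm_num))
  have k3 := abs_le.1 (key 3 (by norm_num) (by norm_num))
  have k6 := abs_le.1 (key 6 (by norm_num) le_rfl)
  rw [one_mul] at k1
  have e : π / (6 * y) = -3 * (π * (1 / (2 * y)) / 12 + π * (1 / (6 * y)) / 12
      - π * (1 / y) / 12 - π * (1 / (3 * y)) / 12) := by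
    field_simp; ring
  rw [Y_eq h1 h2 hy0, e, abs_le]
  constructor <;> linarith [k1.1, k1.2, k2.1, k2.2, k3.1, k3.2, k6.1, k6.2]

lemma T3_bound : ∃ C, ∀ u : ℝ, 1 ≤ u → |u ^ 4 * T 3 0 u| ≤ C := by
  obtain ⟨b, hb, hb0, h⟩ := bd1 (PG1_inv_pow 0) (j := 3) (by norm_num) one_pos
  refine ⟨(∑' m, b m) * (24 * exp 1), fun u hu => ?_⟩
  have h1 : ‖T 3 0 u‖ ≤ (∑' m, b m) * exp (-(2 * π * (u - 1))) :=
    tsum_of_norm_bounded (hb.hasSum.mul_right _) (h u hu)
  have h2 := Real.pow_div_factorial_le_exp u (by linarith) 4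
  have h3 : u ^ 4 * exp (-(2 * π * (u - 1))) ≤ 24 * exp 1 := by
    have h4 : u ^ 4 ≤ 24 * exp u := by
      norm_num [Nat.factorial] at h2; linarith
    calc u ^ 4 * exp (-(2 * π * (u - 1))) ≤ 24 * exp u * exp (-(2 * π * (u - 1))) := by gcongr
      _ = 24 * exp (u + -(2 * π * (u - 1))) := by rw [exp_add]; ring
      _ ≤ 24 * exp 1 := by
          gcongr
          nlinarith [pi_gt_three]
  have hs : 0 ≤ ∑' m, b m := tsum_nonneg hb0
  rw [abs_mul, abs_of_nonneg (by positivity : 0 ≤ u ^ 4)]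
  calc u ^ 4 * |T 3 0 u| ≤ u ^ 4 * ((∑' m, b m) * exp (-(2 * π * (u - 1)))) := by
        gcongr; exact h1
    _ = (∑' m, b m) * (u ^ 4 * exp (-(2 * π * (u - 1)))) := by ring
    _ ≤ _ := by gcongr

lemma T2_lim (h1 : StM1) : Tendsto (fun y => y ^ 3 * T 2 1 y) (𝓝[>] 0) (𝓝 (π / 180)) := by
  obtain ⟨C, hC⟩ := T3_bound
  set G : ℝ → ℝ := fun y => T 2 1 y - π / 180 * (y ^ 3)⁻¹ with hG
  have hd : ∀ y ∈ Ioc (0 : ℝ) 1, HasDerivWithinAt G
      (-(2 * π) * ((1 / y) ^ 4 * T 3 0 (1 / y) - 1 / 120)) (Ioc 0 1) y := by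
    intro y hy
    have hy0 := hy.1
    have a := (T_hasDerivAt (j := 2) (by norm_num) 0 hy0).sub
      (((hasDerivAt_pow 3 y).inv (by positivity)).const_mul (π / 180))
    refine (a.congr_deriv ?_).hasDerivWithinAt
    have e := h1.1 y hy0
    unfold e4 at e
    have e' : T 3 0 (1 / y) = (y ^ 4 * (1 + 120 * T 3 0 y) - 1) / 120 := by linarith
    rw [e']
    field_simp
    ring
  have hb : ∀ y ∈ Ioc (0 : ℝ) 1,
      ‖-(2 * π) * ((1 / y) ^ 4 * T 3 0 (1 / y) - 1 / 120)‖ ≤ 2 * π * (C + 1 / 120) := by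
    intro y hy
    have := abs_le.1 (hC (1 / y) (one_le_one_div hy.1 hy.2))
    rw [norm_mul, norm_neg, Real.norm_eq_abs, Real.norm_eq_abs, abs_of_pos (by positivity)]
    gcongr
    rw [abs_le]; constructor <;> linarith [this.1, this.2]
  have hC0 : 0 ≤ C := (abs_nonneg _).trans (hC 1 le_rfl)
  have hG1 : ∀ y ∈ Ioc (0 : ℝ) 1, |G y| ≤ |G 1| + 2 * π * (C + 1 / 120) := by
    intro y hy
    have h := (convex_Ioc (0 : ℝ) 1).norm_image_sub_le_of_norm_hasDerivWithin_le hd hb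
      (x := 1) (y := y) ⟨one_pos, le_rfl⟩ hy
    have h' : ‖y - 1‖ ≤ 1 := by
      rw [Real.norm_eq_abs, abs_le]; constructor <;> linarith [hy.1, hy.2]
    have h'' : |G y - G 1| ≤ 2 * π * (C + 1 / 120) :=
      h.trans (mul_le_of_le_one_right (by positivity) h')
    have := abs_sub_abs_le_abs_sub (G y) (G 1)
    linarith
  have hz : Tendsto (fun y : ℝ => y ^ 3 * G y) (𝓝[>] 0) (𝓝 0) := by
    have h0 : Tendsto (fun y : ℝ => y ^ 3 * (|G 1| + 2 * π * (C + 1 / 120))) (𝓝[>] 0) (𝓝 0) := by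
      have : Continuous fun y : ℝ => y ^ 3 * (|G 1| + 2 * π * (C + 1 / 120)) := by fun_prop
      simpa using (this.tendsto 0).mono_left nhdsWithin_le_nhds
    refine squeeze_zero_norm' ?_ h0
    filter_upwards [Ioc_mem_nhdsGT one_pos] with y hy
    have hy0 := hy.1
    rw [norm_mul, Real.norm_eq_abs, Real.norm_eq_abs, abs_of_pos (by positivity)]
    gcongr
    exact hG1 y hy
  have := hz.add_const (π / 180)
  rw [zero_add] at this
  refine this.congr' ?_
  filter_upwards [self_mem_nhdsWithin] with y hy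
  have hy0 : 0 < y := hy
  simp only [hG]
  field_simp
  ring

lemma Pa_lim (h1 : StM1) : Tendsto (fun y => y ^ 3 * Pa y) (𝓝[>] 0) (𝓝 (π / 216)) := by
  have hd : ∀ t : ℝ, 0 < t → Tendsto (fun y : ℝ => t * y) (𝓝[>] 0) (𝓝[>] 0) := by
    intro t ht
    refine tendsto_nhdsWithin_iff.2 ⟨?_, ?_⟩
    · have : Continuous fun y : ℝ => t * y := by fun_prop
      simpa using (this.tendsto 0).mono_left nhdsWithin_le_nhds
    · filter_upwards [self_mem_nhdsWithin] with y hy using mul_pos ht hy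
  have h := T2_lim h1
  have := ((h.sub ((h.comp (hd 2 two_pos)).const_mul (1 / 16))).sub
    ((h.comp (hd 3 three_pos)).const_mul (1 / 9))).add
    ((h.comp (hd 6 (by norm_num))).const_mul (1 / 144))
  convert this using 2
  · simp only [Function.comp]; unfold Pa; ring
  · ring

end M3

theorem stM3 (h1 : StM1) (h2 : StM2) : StM3 :=
  ⟨fun _ hy => M3.dZ h1 h2 hy, fun _ hy => M3.dW h1 h2 hy, fun _ hy => M3.dh h1 h2 hy,
    fun _ hy => M3.dz h1 h2 hy,
    fun _ hy => ⟨M3.Z_pos h1 h2 hy, M3.W_pos h1 h2 hy, M3.ff_eq h1 h2 hy⟩, M3.Z_tendsto,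
    fun _ hy => M3.dY h1 h2 hy, M3.Y_tendsto h1 h2, M3.Y_bound h1 h2,
    fun _ hy => M3.dPa h2 hy, M3.Pa_tendsto, M3.Pa_lim h1⟩

end Pool.Agent.P.MP_8d0004_nt.LR
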