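import Pool.Agent.P.MP_8d0004_nt.LR.Stm

/-! Transfer from the Bessel variable to the modular variable. -/

namespace Pool.Agent.P.MP_8d0004_nt.LR

open Real MeasureTheory Set Filter Topology

namespace M4

lemma const_of {f : ℝ → ℝ} (h : ∀ y, 0 < y → HasDerivAt f 0 y) : ∃ c, ∀ y, 0 < y → f y = c :=
  isOpen_Ioi.exists_is_const_of_deriv_eq_zero isPreconnected_Ioi
    (fun y hy => (h y hy).differentiableAt.differentiableWithinAt) fun y hy => (h y hy).deriv

lemma lin_zero {f : ℝ → ℝ} {a C : ℝ} (n : ℕ) (h : ∀ᶠ y in atTop, |f y| ≤ C)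
    (h' : Tendsto (fun y => f y * y⁻¹ ^ (n + 1)) atTop (𝓝 a)) : a = 0 := by
  have h1 : Tendsto (fun y : ℝ => y⁻¹ ^ (n + 1)) atTop (𝓝 0) := by
    simpa using (tendsto_inv_atTop_zero (𝕜 := ℝ)).pow (n + 1)
  have h2 : Tendsto (fun y => f y * y⁻¹ ^ (n + 1)) atTop (𝓝 0) :=
    bdd_le_mul_tendsto_zero' C h h1
  exact tendsto_nhds_unique h' h2

lemma quad_const {f : ℝ → ℝ} {a b c C : ℝ} (e : ∀ y, 0 < y → f y = c + b * y + a * y ^ 2)
    (h : ∀ᶠ y in atTop, |f y| ≤ C) : ∀ y, 0 < y → f y = c := by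
  have i := tendsto_inv_atTop_zero (𝕜 := ℝ)
  have ha : a = 0 := by
    refine lin_zero 1 h ?_
    have : Tendsto (fun y : ℝ => c * y⁻¹ ^ 2 + b * y⁻¹ + a) atTop (𝓝 (c * 0 ^ 2 + b * 0 + a)) :=
      (((i.pow 2).const_mul c).add (i.const_mul b)).add_const a
    simp only [ne_eq, OfNat.ofNat_ne_zero, not_false_eq_true, zero_pow, mul_zero, zero_add] at this
    refine this.congr' ?_
    filter_upwards [eventually_gt_atTop 0] with y hy
    rw [e y hy, one_add_one_eq_two]
    field_simp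
  have hb : b = 0 := by
    refine lin_zero 0 h ?_
    have : Tendsto (fun y : ℝ => c * y⁻¹ + b) atTop (𝓝 (c * 0 + b)) :=
      (i.const_mul c).add_const b
    simp only [mul_zero, zero_add] at this
    refine this.congr' ?_
    filter_upwards [eventually_gt_atTop 0] with y hy
    rw [e y hy, ha, zero_add, pow_one]
    field_simp
    ring
  intro y hy
  rw [e y hy, ha, hb]
  ring

lemma third_zero {E0 E1 E2 : ℝ → ℝ} {k C : ℝ} (h0 : ∀ y, 0 < y → HasDerivAt E0 (k * E1 y) y)
    (h1 : ∀ y, 0 < y → HasDerivAt E1 (k * E2 y) y) (h2 : ∀ y, 0 < y → HasDerivAt E2 0 y)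
    (h : ∀ᶠ y in atTop, |E0 y| ≤ C) : ∃ c, ∀ y, 0 < y → E0 y = c := by
  obtain ⟨a, ha⟩ := const_of h2
  obtain ⟨b, hb⟩ := const_of (f := fun y => E1 y - k * a * y) fun y hy => by
    refine ((h1 y hy).sub ((hasDerivAt_id' y).const_mul (k * a))).congr_deriv ?_
    rw [ha y hy]; ring
  obtain ⟨c, hc⟩ := const_of (f := fun y => E0 y - k * b * y - k ^ 2 * a / 2 * y ^ 2)
    fun y hy => by
      refine (((h0 y hy).sub ((hasDerivAt_id' y).const_mul (k * b))).sub
        ((hasDerivAt_pow 2 y).const_mul (k ^ 2 * a / 2))).congr_deriv ?_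
      have := hb y hy
      push_cast
      linear_combination k * this
  exact ⟨c, quad_const (a := k ^ 2 * a / 2) (b := k * b)
    (fun y hy => by linear_combination hc y hy) h⟩

lemma small {a : ℝ → ℝ} {k : ℝ}
    (h : ∀ N : ℕ, ∃ C, ∀ y ∈ Ioc (0 : ℝ) 1, |a y - k / y| ≤ C * y ^ N) (N : ℕ) :
    Tendsto (fun y => (a y - k / y) / y ^ N) (𝓝[>] 0) (𝓝 0) := by
  obtain ⟨C, hC⟩ := h (N + 1)
  have h1 : Tendsto (fun y : ℝ => C * y) (𝓝[>] 0) (𝓝 0) := by
    have : Tendsto (fun y : ℝ => C * y) (𝓝 0) (𝓝 (C * 0)) := tendsto_id.const_mul C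
    rw [mul_zero] at this
    exact this.mono_left nhdsWithin_le_nhds
  refine squeeze_zero_norm' ?_ h1
  filter_upwards [Ioc_mem_nhdsGT one_pos] with y hy
  have hp : 0 < y ^ N := pow_pos hy.1 N
  rw [Real.norm_eq_abs, abs_div, abs_of_pos hp, div_le_iff₀ hp]
  refine (hC y hy).trans_eq ?_
  ring

lemma mul_tendsto {a : ℝ → ℝ} {k : ℝ}
    (h : ∀ N : ℕ, ∃ C, ∀ y ∈ Ioc (0 : ℝ) 1, |a y - k / y| ≤ C * y ^ N) :
    Tendsto (fun y => y * a y) (𝓝[>] 0) (𝓝 k) := by
  have h0 : Tendsto (fun y : ℝ => y) (𝓝[>] 0) (𝓝 0) := tendsto_id.mono_left nhdsWithin_le_nhds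
  have := (h0.mul (small h 0)).add_const k
  simp only [mul_zero, zero_add] at this
  refine this.congr' ?_
  filter_upwards [self_mem_nhdsWithin] with y hy
  have hy : y ≠ 0 := ne_of_gt hy
  field_simp
  ring

lemma pow_small {a : ℝ → ℝ} {k : ℝ}
    (h : ∀ N : ℕ, ∃ C, ∀ y ∈ Ioc (0 : ℝ) 1, |a y - k / y| ≤ C * y ^ N) (n : ℕ) :
    ∀ N : ℕ, Tendsto (fun y => (a y ^ n - (k / y) ^ n) / y ^ N) (𝓝[>] 0) (𝓝 0) := by
  induction n with
  | zero => intro N; simp
  | succ n ih =>
    intro N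
    have := ((mul_tendsto h).mul (ih (N + 1))).add ((small h (N + n)).mul_const (k ^ n))
    simp only [mul_zero, zero_mul, add_zero] at this
    refine this.congr' ?_
    filter_upwards [self_mem_nhdsWithin] with y hy
    have hy : y ≠ 0 := ne_of_gt hy
    simp only [div_pow]
    field_simp
    ring

lemma poly_small {a : ℝ → ℝ} {k : ℝ}
    (h : ∀ N : ℕ, ∃ C, ∀ y ∈ Ioc (0 : ℝ) 1, |a y - k / y| ≤ C * y ^ N) (p : Polynomial ℝ) :
    Tendsto (fun y => p.eval (a y) - p.eval (k / y)) (𝓝[>] 0) (𝓝 0) := by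
  induction p using Polynomial.induction_on' with
  | add p q hp hq =>
    have := hp.add hq
    rw [add_zero] at this
    refine this.congr fun y => ?_
    simp only [Polynomial.eval_add]
    ring
  | monomial n c =>
    have := (pow_small h n 0).const_mul c
    rw [mul_zero] at this
    refine this.congr fun y => ?_
    simp only [Polynomial.eval_monomial]
    ring

end M4

open M4

theorem stM4 (h2 : StM2) (h3 : StM3) : StM4 := by
  obtain ⟨dZ, dW, dh, dz, pos, limZ, dY, limY, asY, dP, limP, asP⟩ := h3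
  rintro ν ⟨g0, g1, g2, g3, P, Φ, d0, d1, d2, ode, ⟨C, hC⟩, dPP, lP, lP', dΦ, lΦ, p, p0, lp⟩
  have con : ∀ y, 0 < y → hf y ^ 2 = Zf y ^ 2 + 20 * Zf y * Wf y + 64 * Wf y ^ 2 :=
    fun y hy => (h2 y hy _ _ _ rfl rfl rfl).1
  have ex : ∀ y, 0 < y → exp (2 * Yf y) = 64 * Wf y / Zf y := fun y hy => by
    obtain ⟨a, b, -⟩ := pos y hy
    rw [Yf, mul_div_cancel₀ _ two_ne_zero, exp_log (by positivity)]
  have dU : ∀ y, 0 < y →
      HasDerivAt (fun y => (Zf y)⁻¹) (2 * π * (zf y * (Zf y)⁻¹)) y := fun y hy => by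
    have a := (pos y hy).1.ne'
    refine ((dZ y hy).fun_inv a).congr_deriv ?_
    field_simp
  have cmp : ∀ {g : ℝ → ℝ} {g' : ℝ} {y : ℝ}, 0 < y → HasDerivAt g g' (Yf y) →
      HasDerivAt (fun y => g (Yf y)) (g' * (-π * hf y)) y :=
    fun {g g' y} hy hg => hg.comp y (dY y hy)
  obtain ⟨c0, hc0⟩ := third_zero (k := -(2 * π)) (C := C * 2)
    (E0 := fun y => g0 (Yf y) * (Zf y)⁻¹)
    (E1 := fun y => (g1 (Yf y) * hf y / 2 - g0 (Yf y) * zf y) * (Zf y)⁻¹)
    (E2 := fun y => (g2 (Yf y) * (hf y * hf y) / 4 - g1 (Yf y) * (hf y * zf y) / 2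
      + g1 (Yf y) * (Wf y * Wf y) * 32 + g1 (Yf y) * (Zf y * Wf y) * 5
      + g0 (Yf y) * (zf y * zf y) / 2 + g0 (Yf y) * (Wf y * Wf y) * 32
      + g0 (Yf y) * (Zf y * Wf y) * 4) * (Zf y)⁻¹)
    (fun y hy => by
      refine ((cmp hy (d0 _)).fun_mul (dU y hy)).congr_deriv ?_
      ring)
    (fun y hy => by
      refine ((((((cmp hy (d1 _)).fun_mul (dh y hy)).div_const 2).fun_sub
        ((cmp hy (d0 _)).fun_mul (dz y hy)))).fun_mul (dU y hy)).congr_deriv ?_
      ring)
    (fun y hy => by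
      have G0 := cmp hy (d0 _)
      have G1 := cmp hy (d1 _)
      have G2 := cmp hy (d2 _)
      have Z := dZ y hy
      have W := dW y hy
      have H := dh y hy
      have z := dz y hy
      refine (((((((((G2.fun_mul (H.fun_mul H)).div_const 4).fun_sub
        ((G1.fun_mul (H.fun_mul z)).div_const 2)).fun_add
        ((G1.fun_mul (W.fun_mul W)).mul_const 32)).fun_add
        ((G1.fun_mul (Z.fun_mul W)).mul_const 5)).fun_add
        ((G0.fun_mul (z.fun_mul z)).div_const 2)).fun_add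
        ((G0.fun_mul (W.fun_mul W)).mul_const 32)).fun_add
        ((G0.fun_mul (Z.fun_mul W)).mul_const 4)).fun_mul (dU y hy)).congr_deriv ?_
      have a := (pos y hy).1.ne'
      have o := ode (Yf y)
      rw [ex y hy] at o
      have O : Zf y ^ 2 * g3 (Yf y) + 2 * Zf y * Wf y *
          (10 * g3 (Yf y) + 30 * g2 (Yf y) + 36 * g1 (Yf y) + 16 * g0 (Yf y)) + 64 * Wf y ^ 2 *
          (g3 (Yf y) + 6 * g2 (Yf y) + 12 * g1 (Yf y) + 8 * g0 (Yf y)) = 0 := by
        field_simp at o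
        linear_combination o / 64
      linear_combination (-(π / 4) * hf y * (Zf y)⁻¹) * O -
        (π / 4 * g3 (Yf y) * hf y * (Zf y)⁻¹) * con y hy)
    (by
      have a : Tendsto (fun y => (Zf y)⁻¹) atTop (𝓝 1) := by
        simpa using limZ.inv₀ one_ne_zero
      have b : Tendsto (fun y => |(Zf y)⁻¹|) atTop (𝓝 1) := by simpa using a.abs
      filter_upwards [limY.eventually (eventually_le_atBot 0),
        b.eventually (gt_mem_nhds one_lt_two)] with y h1 h2
      rw [abs_mul]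
      exact mul_le_mul (hC _ h1) (le_of_lt h2) (abs_nonneg _) ((abs_nonneg _).trans (hC _ h1)))
  obtain ⟨c1, hc1⟩ := const_of (f := fun y => P (Yf y) - 16 * c0 * Pa y) fun y hy => by
    refine ((cmp hy (dPP _)).fun_sub ((dP y hy).const_mul (16 * c0))).congr_deriv ?_
    rw [ex y hy, ← hc0 y hy]
    ring
  have e1 : c1 = 0 := by
    have a := (lP.comp limY).sub (limP.const_mul (16 * c0))
    simp only [mul_zero, sub_zero] at a
    refine tendsto_nhds_unique (tendsto_const_nhds.congr' ?_) a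
    filter_upwards [eventually_gt_atTop 0] with y hy
    exact (hc1 y hy).symm
  have as' : ∀ N : ℕ, ∃ C, ∀ y ∈ Ioc (0 : ℝ) 1, |Yf y - π / 6 / y| ≤ C * y ^ N := by
    simpa only [div_div] using asY
  have yY := mul_tendsto as'
  have topY : Tendsto Yf (𝓝[>] 0) atTop := by
    refine (yY.pos_mul_atTop (by positivity) tendsto_inv_nhdsGT_zero).congr' ?_
    filter_upwards [self_mem_nhdsWithin] with y hy
    have hy : y ≠ 0 := ne_of_gt hy
    field_simp
  have e2 : 16 * c0 = π ^ 2 := by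
    have a := (lP'.comp topY).mul (yY.pow 3)
    have b := asP.const_mul (16 * c0)
    have : 1 * (π / 6) ^ 3 = 16 * c0 * (π / 216) := by
      refine tendsto_nhds_unique (a.congr' ?_) b
      filter_upwards [self_mem_nhdsWithin, topY.eventually (eventually_gt_atTop 0)] with y hy h
      have k := hc1 y hy
      have h := h.ne'
      simp only [Function.comp]
      field_simp
      linear_combination y ^ 3 * (k.trans e1)
    apply mul_right_cancel₀ (b := π / 216) (by positivity)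
    linear_combination -this
  refine ⟨fun y => Φ (Yf y), fun y hy => (cmp hy (dΦ _)).congr_deriv ?_, lΦ.comp limY,
    p.comp (Polynomial.C (π / 6) * Polynomial.X), ?_, ?_⟩
  · have k : P (Yf y) = π ^ 2 * Pa y := by
      rw [← e2]
      linear_combination (hc1 y hy).trans e1
    rw [k]
    ring
  · rw [Polynomial.coeff_zero_eq_eval_zero] at p0 ⊢
    simpa [Polynomial.eval_comp] using p0
  · have := (lp.comp topY).add (poly_small as' p)
    rw [add_zero] at this
    refine this.congr fun y => ?_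
    simp only [Function.comp, Polynomial.eval_comp, Polynomial.eval_mul, Polynomial.eval_C,
      Polynomial.eval_X, div_eq_mul_inv]
    ring

end Pool.Agent.P.MP_8d0004_nt.LR
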