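import Pool.Agent.P.MP_8d0004_nt.LR.D
import Pool.Agent.P.MP_8d0004_nt.LR.E0
import Pool.Agent.P.MP_8d0004_nt.LR.E1
import Pool.Agent.P.MP_8d0004_nt.LR.E2
import Pool.Agent.P.MP_8d0004_nt.LR.E4
import Pool.Agent.P.MP_8d0004_nt.LR.F1
import Pool.Agent.P.MP_8d0004_nt.LR.F2
import Pool.Agent.P.MP_8d0004_nt.LR.M1
import Pool.Agent.P.MP_8d0004_nt.LR.M2
import Pool.Agent.P.MP_8d0004_nt.LR.M3
import Pool.Agent.P.MP_8d0004_nt.LR.M4
import Pool.Agent.P.MP_8d0004_nt.Bes.BInt

/-! Assembly: the regularised moment is a multiple of the Mellin integral of the cusp form. -/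

namespace Pool.Agent.P.MP_8d0004_nt.LR

open Real MeasureTheory Set Filter Topology

lemma tail_hasDerivAt {f : ℝ → ℝ} (hc : ContinuousOn f (Ioi 0)) (hi : IntegrableOn f (Ioi 0))
    {y : ℝ} (hy : 0 < y) : HasDerivAt (fun z => ∫ t in Ioi z, f t) (-f y) y := by
  have h1 : HasDerivAt (fun z => ∫ t in y..z, f t) (f y) y :=
    intervalIntegral.integral_hasDerivAt_right IntervalIntegrable.refl
      (hc.stronglyMeasurableAtFilter isOpen_Ioi y hy) (hc.continuousAt (Ioi_mem_nhds hy))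
  have h2 := h1.const_sub (∫ t in Ioi y, f t)
  refine h2.congr_of_eventuallyEq ?_
  filter_upwards [Ioi_mem_nhds hy] with z hz
  have := intervalIntegral.integral_Ioi_sub_Ioi' (hi.mono_set (Ioi_subset_Ioi hy.le))
    (hi.mono_set (Ioi_subset_Ioi (le_of_lt hz)))
  linarith

theorem rho_eq : Bes.rho = 216 * π ^ 5 / 7 * ∫ w in Ioi (0 : ℝ), ff w * w ^ 6 := by
  have h1 := stM1
  have h2 := stM2 stL
  have h3 := stM3 h1 h2
  obtain ⟨Ψ, hΨ, hΨ0, hΨc⟩ := stM4 h2 h3 _ Bes.bInt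
  obtain ⟨hc, hi, hB⟩ := stF h1 h2 h3 stF1
  obtain ⟨hK, hK0⟩ := stD
  have hE := stE4 stE0 (stE1 stE0) stE2
  have hπ : π ≠ 0 := pi_ne_zero
  have t0 : Tendsto (fun z => ∫ t in Ioi z, BB t) atTop (𝓝 0) :=
    tendsto_integral_Ioi_zero tendsto_id
  have t1 : Tendsto (fun z => ∫ t in Ioi z, BB t) (𝓝[>] 0) (𝓝 (∫ t in Ioi 0, BB t)) := by
    have h4 : Tendsto (fun z => ∫ t in (0 : ℝ)..z, BB t) (𝓝[>] 0) (𝓝 0) := by
      have h5 : IntervalIntegrable BB volume 0 1 := by
        rw [intervalIntegrable_iff_integrableOn_Ioc_of_le zero_le_one]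
        exact hi.mono_set Ioc_subset_Ioi_self
      have h6 := (intervalIntegral.continuousOn_primitive_interval' h5 left_mem_uIcc) 0 left_mem_uIcc
      rw [uIcc_of_le zero_le_one] at h6
      have h7 := (h6.mono_of_mem_nhdsWithin (Icc_mem_nhdsGT zero_lt_one)).tendsto
      simpa using h7
    have h8 := h4.const_sub (∫ t in Ioi 0, BB t)
    rw [sub_zero] at h8
    refine h8.congr' ?_
    filter_upwards [self_mem_nhdsWithin] with z hz
    have := intervalIntegral.integral_Ioi_sub_Ioi' hi (hi.mono_set (Ioi_subset_Ioi (le_of_lt hz)))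
    linarith
  have key : ∀ y, 0 < y → KK y - (2 / π ^ 4 * Ψ y + 2 * π * ∫ t in Ioi y, BB t) = 0 := by
    intro y hy
    refine D.eq_zero_of_deriv (f := fun y => KK y - (2 / π ^ 4 * Ψ y + 2 * π * ∫ t in Ioi y, BB t))
      (fun z hz => ?_) ?_ hy
    · refine ((hK z hz).fun_sub (((hΨ z hz).const_mul _).fun_add
        ((tail_hasDerivAt hc hi hz).const_mul _))).congr_deriv ?_
      field_simp
      ring
    · simpa using hK0.sub ((hΨ0.const_mul (2 / π ^ 4)).add (t0.const_mul (2 * π)))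
  have hct := ((hΨc.const_mul (2 / π ^ 4)).add ((HasCT.of_tendsto t1).const_mul (2 * π))).congr
    (g := KK) fun y hy => by linarith [key y hy.1]
  have := HasCT.unique hE hct
  rw [hB] at this
  field_simp at this
  field_simp
  linarith

end Pool.Agent.P.MP_8d0004_nt.LR
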