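import Pool.Agent.P.MP_8d0004_nt.LR.Defs

/-! Basic properties of the kernels. -/

namespace Pool.Agent.P.MP_8d0004_nt.LR

open Real MeasureTheory Set Filter Topology

@[simp] lemma K_zero (j : ℕ) : K j 0 = 0 := by simp [K]

lemma K_of_ne {u : ℝ} (hu : u ≠ 0) (j : ℕ) : K j u = (kp j).eval (cth u) := by simp [K, hu]

lemma one_sub_exp_ne {u : ℝ} (hu : u ≠ 0) : 1 - exp (-(2 * π * u)) ≠ 0 := by
  intro h
  have h1 : exp (-(2 * π * u)) = exp 0 := by rw [exp_zero]; linarith
  have h2 := exp_injective h1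
  have : 2 * π * u ≠ 0 := mul_ne_zero (by positivity) hu
  exact this (by linarith)

lemma cth_neg (u : ℝ) : cth (-u) = -cth u := by
  by_cases hu : u = 0
  · simp [hu, cth]
  have h1 := one_sub_exp_ne hu
  have h2 := one_sub_exp_ne (neg_ne_zero.2 hu)
  have h3 : exp (-(2 * π * -u)) * exp (-(2 * π * u)) = 1 := by
    rw [← exp_add]; simp
  unfold cth
  generalize exp (-(2 * π * -u)) = a at *
  generalize exp (-(2 * π * u)) = b at *
  field_simp
  linear_combination (-2) * h3

lemma kp_comp (j : ℕ) : (kp j).comp (-Polynomial.X) = Polynomial.C ((-1) ^ (j + 1)) * kp j := by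
  induction j with
  | zero => simp [kp]
  | succ j ih =>
    have h := congrArg Polynomial.derivative ih
    rw [Polynomial.derivative_comp] at h
    simp only [Polynomial.derivative_neg, Polynomial.derivative_X, Polynomial.derivative_mul,
      Polynomial.derivative_C, zero_mul, zero_add] at h
    simp only [kp, Polynomial.mul_comp, Polynomial.sub_comp, Polynomial.pow_comp,
      Polynomial.X_comp, Polynomial.C_comp]
    have e : (Polynomial.derivative (kp j)).comp (-Polynomial.X)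
        = -(Polynomial.C ((-1) ^ (j + 1)) * Polynomial.derivative (kp j)) := by
      rw [← h]; ring
    rw [e, pow_succ (-1 : ℝ) (j + 1), Polynomial.C_mul]
    simp only [map_neg, map_one]
    ring

lemma K_neg (j : ℕ) (u : ℝ) : K j (-u) = (-1) ^ (j + 1) * K j u := by
  by_cases hu : u = 0
  · simp [hu]
  rw [K_of_ne hu, K_of_ne (neg_ne_zero.2 hu), cth_neg]
  have := congrArg (Polynomial.eval (cth u)) (kp_comp j)
  simpa [Polynomial.eval_comp] using this

lemma cth_hasDerivAt {u : ℝ} (hu : u ≠ 0) :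
    HasDerivAt cth (-(2 * π) * (cth u ^ 2 - 1 / 4)) u := by
  have h1 := one_sub_exp_ne hu
  have he : HasDerivAt (fun u : ℝ => exp (-(2 * π * u))) (exp (-(2 * π * u)) * (-(2 * π))) u := by
    have := ((hasDerivAt_id' u).const_mul (2 * π)).neg.exp
    simpa using this
  have := (he.const_add 1).div ((he.const_sub 1).const_mul 2) (mul_ne_zero two_ne_zero h1)
  refine this.congr_deriv ?_
  unfold cth
  field_simp
  ring

lemma K_hasDerivAt (j : ℕ) {u : ℝ} (hu : u ≠ 0) :
    HasDerivAt (K j) (-(2 * π) * K (j + 1) u) u := by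
  have h := ((kp j).hasDerivAt (cth u)).comp u (cth_hasDerivAt hu)
  have e : K j =ᶠ[𝓝 u] (fun x => (kp j).eval x) ∘ cth := by
    filter_upwards [isOpen_ne.mem_nhds hu] with x hx
    exact K_of_ne hx j
  refine (h.congr_of_eventuallyEq e).congr_deriv ?_
  rw [K_of_ne hu]
  simp only [kp, Polynomial.eval_mul, Polynomial.eval_sub, Polynomial.eval_pow, Polynomial.eval_X,
    Polynomial.eval_C]
  ring

lemma exp_nat_form (d : ℕ) (u : ℝ) : exp (-(2 * π * d * u)) = exp (-(2 * π * u)) ^ d := by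
  rw [← exp_nat_mul]; congr 1; ring

lemma exp_lt_one' {u : ℝ} (hu : 0 < u) : exp (-(2 * π * u)) < 1 := by
  rw [exp_lt_one_iff]
  have : 0 < 2 * π * u := by positivity
  linarith

lemma summable_pow_exp (j : ℕ) {u : ℝ} (hu : 0 < u) :
    Summable fun d : ℕ => (d : ℝ) ^ j * exp (-(2 * π * d * u)) := by
  simp_rw [exp_nat_form]
  exact summable_pow_mul_geometric_of_norm_lt_one j
    (by rw [Real.norm_eq_abs, abs_of_pos (exp_pos _)]; exact exp_lt_one' hu)

lemma K_hasSum_aux (j : ℕ) : ∀ u : ℝ, 0 < u →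
    ∑' d : ℕ, (d : ℝ) ^ j * exp (-(2 * π * d * u)) = K j u + if j = 0 then 1 / 2 else 0 := by
  induction j with
  | zero =>
    intro u hu
    simp only [pow_zero, one_mul, exp_nat_form, if_true]
    rw [tsum_geometric_of_lt_one (exp_pos _).le (exp_lt_one' hu), K_of_ne hu.ne']
    have := one_sub_exp_ne hu.ne'
    simp only [kp, Polynomial.eval_X, cth]
    field_simp
    ring
  | succ j ih =>
    intro u hu
    have hd : HasDerivAt (fun z : ℝ => ∑' d : ℕ, (d : ℝ) ^ j * exp (-(2 * π * d * z)))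
        (∑' d : ℕ, -(2 * π) * ((d : ℝ) ^ (j + 1) * exp (-(2 * π * d * u)))) u := by
      refine hasDerivAt_tsum_of_isPreconnected
        (u := fun d : ℕ => 2 * π * ((d : ℝ) ^ (j + 1) * exp (-(2 * π * d * (u / 2)))))
        (g' := fun (d : ℕ) (z : ℝ) => -(2 * π) * ((d : ℝ) ^ (j + 1) * exp (-(2 * π * d * z))))
        (t := Ioi (u / 2)) (y₀ := u)
        ((summable_pow_exp (j + 1) (half_pos hu)).mul_left _) isOpen_Ioi isPreconnected_Ioi
        ?_ ?_ (by simp [hu]) (summable_pow_exp j hu) (by simp [hu])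
      · intro d z _
        have := (((hasDerivAt_id' z).const_mul (2 * π * d)).neg.exp).const_mul ((d : ℝ) ^ j)
        refine this.congr_deriv ?_
        simp only [Pi.neg_apply]
        ring
      · intro d z hz
        rw [norm_mul, norm_neg, Real.norm_of_nonneg (by positivity),
          Real.norm_of_nonneg (by positivity)]
        have hz' : u / 2 < z := hz
        gcongr
    have e : (fun z : ℝ => ∑' d : ℕ, (d : ℝ) ^ j * exp (-(2 * π * d * z)))
        =ᶠ[𝓝 u] fun z => K j z + if j = 0 then 1 / 2 else 0 := by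
      filter_upwards [Ioi_mem_nhds hu] with z hz
      exact ih z hz
    have h2 := ((K_hasDerivAt j hu.ne').add_const (if j = 0 then (1 / 2 : ℝ) else 0)).congr_of_eventuallyEq e
    have h3 := hd.unique h2
    rw [tsum_mul_left] at h3
    have hp : -(2 * π) ≠ 0 := neg_ne_zero.2 (by positivity)
    simpa using mul_left_cancel₀ hp h3

lemma K_hasSum {j : ℕ} (hj : 1 ≤ j) {u : ℝ} (hu : 0 < u) :
    HasSum (fun d : ℕ => (d : ℝ) ^ j * exp (-(2 * π * d * u))) (K j u) := by
  have h := (summable_pow_exp j hu).hasSum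
  rw [K_hasSum_aux j u hu, if_neg (by omega), add_zero] at h
  exact h

lemma K_nonneg {j : ℕ} (hj : 1 ≤ j) {u : ℝ} (hu : 0 < u) : 0 ≤ K j u :=
  (K_hasSum hj hu).nonneg fun d => by positivity

lemma abs_K {j : ℕ} (hj : 1 ≤ j) (u : ℝ) : |K j u| = K j |u| := by
  rcases lt_trichotomy u 0 with h | h | h
  · have : K j u = (-1) ^ (j + 1) * K j (-u) := by rw [← K_neg, neg_neg]
    rw [this, abs_mul, abs_pow, abs_neg, abs_one, one_pow, one_mul, abs_of_neg h,
      abs_of_nonneg (K_nonneg hj (neg_pos.2 h))]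
  · simp [h]
  · rw [abs_of_pos h, abs_of_nonneg (K_nonneg hj h)]

/-- exponential bound away from zero -/
lemma K_le_exp {j : ℕ} (hj : 1 ≤ j) {y0 : ℝ} (hy : 0 < y0) :
    ∃ C, 0 ≤ C ∧ ∀ u, y0 ≤ |u| → |K j u| ≤ C * exp (-(2 * π * |u|)) := by
  refine ⟨K j y0 * exp (2 * π * y0), mul_nonneg (K_nonneg hj hy) (exp_pos _).le, fun u hu => ?_⟩
  rw [abs_K hj]
  have hu0 : 0 < |u| := hy.trans_le hu
  refine hasSum_le (fun d => ?_) (K_hasSum hj hu0)
    (((K_hasSum hj hy).mul_right (exp (2 * π * y0))).mul_right (exp (-(2 * π * |u|))))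
  rcases Nat.eq_zero_or_pos d with h | h
  · subst h
    have : j ≠ 0 := by omega
    simp [this]
  · rw [mul_assoc ((d : ℝ) ^ j), mul_assoc ((d : ℝ) ^ j), ← exp_add, ← exp_add]
    have hd : (1 : ℝ) ≤ d := by exact_mod_cast h
    gcongr
    nlinarith [mul_nonneg (mul_nonneg pi_pos.le (sub_nonneg.2 hd)) (sub_nonneg.2 hu)]

lemma K_le_inv {j : ℕ} (hj : 1 ≤ j) {u : ℝ} (hu : 0 < u) :
    K j u ≤ (j.factorial : ℝ) * (1 + 1 / u) ^ (j + 1) := by
  have hx := exp_lt_one' hu
  have h1 := hasSum_choose_mul_geometric_of_norm_lt_one (𝕜 := ℝ) j (r := exp (-(2 * π * u)))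
    (by rw [Real.norm_eq_abs, abs_of_pos (exp_pos _)]; exact hx)
  have h2 : K j u ≤ (j.factorial : ℝ) * (1 / (1 - exp (-(2 * π * u))) ^ (j + 1)) := by
    refine hasSum_le (fun d => ?_) (K_hasSum hj hu) (h1.mul_left (j.factorial : ℝ))
    rw [exp_nat_form, ← mul_assoc]
    gcongr
    have : d ^ j ≤ j.factorial * (d + j).choose j := by
      rw [← Nat.ascFactorial_eq_factorial_mul_choose]
      exact (Nat.pow_le_pow_left (Nat.le_succ d) j).trans (Nat.pow_succ_le_ascFactorial _ _)
    exact_mod_cast this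
  refine h2.trans ?_
  rw [← one_div_pow]
  have h3 : 1 / (1 - exp (-(2 * π * u))) ≤ 1 + 1 / u := by
    have h4 : exp (-(2 * π * u)) ≤ 1 / (1 + u) := by
      rw [exp_neg, ← one_div]
      apply one_div_le_one_div_of_le (by positivity)
      have := add_one_le_exp (2 * π * u)
      nlinarith [pi_gt_three]
    rw [div_le_iff₀ (by linarith)]
    have h5 : (1 + 1 / u) * (1 - 1 / (1 + u)) = 1 := by field_simp; ring
    have h6 : 0 < 1 + 1 / u := by positivity
    nlinarith
  have h7 : 0 ≤ 1 / (1 - exp (-(2 * π * u))) := by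
    apply div_nonneg zero_le_one; linarith
  gcongr

/-- power bound on the whole half line -/
lemma K_le_pow {j : ℕ} (hj : 1 ≤ j) {N : ℕ} (hN : j + 1 ≤ N) :
    ∃ C, 0 ≤ C ∧ ∀ u, 0 < u → K j u ≤ C / u ^ N := by
  obtain ⟨C, hC, h⟩ := K_le_exp hj one_pos
  refine ⟨(j.factorial : ℝ) * 2 ^ (j + 1) + C * N.factorial, by positivity, fun u hu => ?_⟩
  rw [le_div_iff₀ (by positivity)]
  rcases le_total u 1 with h1 | h1
  · have h2 := K_le_inv hj hu
    have h3 : (1 + 1 / u) ^ (j + 1) * u ^ N ≤ 2 ^ (j + 1) := by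
      obtain ⟨k, rfl⟩ := Nat.exists_eq_add_of_le hN
      rw [pow_add u, ← mul_assoc, ← mul_pow]
      have e : (1 + 1 / u) * u = u + 1 := by field_simp
      rw [e]
      have h4 : u ^ k ≤ 1 := pow_le_one₀ hu.le h1
      have h5 : (u + 1) ^ (j + 1) ≤ 2 ^ (j + 1) := by gcongr; linarith
      nlinarith [pow_pos (show 0 < u + 1 by linarith) (j + 1)]
    have h6 : K j u * u ^ N ≤ (j.factorial : ℝ) * 2 ^ (j + 1) := by
      calc K j u * u ^ N ≤ (j.factorial : ℝ) * (1 + 1 / u) ^ (j + 1) * u ^ N := by gcongr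
        _ = (j.factorial : ℝ) * ((1 + 1 / u) ^ (j + 1) * u ^ N) := by ring
        _ ≤ _ := by gcongr
    have : 0 ≤ C * N.factorial := by positivity
    linarith
  · have h2 := h u (by rw [abs_of_pos hu]; exact h1)
    rw [abs_of_pos hu, abs_of_nonneg (K_nonneg hj hu)] at h2
    have h3 : exp (-(2 * π * u)) * u ^ N ≤ N.factorial := by
      have h4 := Real.pow_div_factorial_le_exp u hu.le N
      rw [div_le_iff₀ (by positivity)] at h4
      have h5 : exp (-(2 * π * u)) * exp u ≤ 1 := by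
        rw [← exp_add, exp_le_one_iff]; nlinarith [pi_gt_three]
      calc exp (-(2 * π * u)) * u ^ N ≤ exp (-(2 * π * u)) * (exp u * N.factorial) := by gcongr
        _ = (exp (-(2 * π * u)) * exp u) * N.factorial := by ring
        _ ≤ 1 * N.factorial := by gcongr
        _ = _ := one_mul _
    have h6 : K j u * u ^ N ≤ C * N.factorial := by
      calc K j u * u ^ N ≤ C * exp (-(2 * π * u)) * u ^ N := by gcongr
        _ = C * (exp (-(2 * π * u)) * u ^ N) := by ring
        _ ≤ _ := by gcongr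
    have : 0 ≤ (j.factorial : ℝ) * 2 ^ (j + 1) := by positivity
    linarith

end Pool.Agent.P.MP_8d0004_nt.LR
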