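import Pool.Agent.P.MP_8d0004_nt.LR.Stm

/-! A vanishing bound for modular forms of level six. -/

namespace Pool.Agent.P.MP_8d0004_nt.LR.M2

open UpperHalfPlane ModularForm Filter Asymptotics Complex
open scoped MatrixGroups Manifold Topology Real

/-- modular forms of level six, as a predicate -/
structure MF (k : ℤ) (f : ℍ → ℂ) : Prop where
  hol : MDifferentiable 𝓘(ℂ) 𝓘(ℂ) f
  inv : ∀ g : SL(2, ℤ), (6 : ℤ) ∣ g 1 0 → f ∣[k] g = f
  bdd : ∀ g : SL(2, ℤ), IsBoundedAtImInfty (f ∣[k] g)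

theorem MF.add {k : ℤ} {f g : ℍ → ℂ} (hf : MF k f) (hg : MF k g) : MF k (f + g) where
  hol := hf.hol.add hg.hol
  inv γ h := by rw [SlashAction.add_slash, hf.inv γ h, hg.inv γ h]
  bdd γ := by rw [SlashAction.add_slash]; exact (hf.bdd γ).add (hg.bdd γ)

theorem MF.smul {k : ℤ} {f : ℍ → ℂ} (c : ℂ) (hf : MF k f) : MF k (c • f) where
  hol := hf.hol.const_smul c
  inv γ h := by rw [SL_smul_slash, hf.inv γ h]
  bdd γ := by rw [SL_smul_slash]; exact (hf.bdd γ).smul c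

theorem MF.mul {k l m : ℤ} {f g : ℍ → ℂ} (hf : MF k f) (hg : MF l g) (h : k + l = m) :
    MF m (f * g) where
  hol := hf.hol.mul hg.hol
  inv γ h' := by rw [← h, mul_slash_SL2, hf.inv γ h', hg.inv γ h']
  bdd γ := by rw [← h, mul_slash_SL2]; exact (hf.bdd γ).mul (hg.bdd γ)

theorem MF.congr {k : ℤ} {f g : ℍ → ℂ} (hf : MF k f) (h : ∀ τ, g τ = f τ) : MF k g := by
  obtain rfl : g = f := funext h
  exact hf

theorem MF.slash_eq {k : ℤ} {f : ℍ → ℂ} (hf : MF k f) (A B : SL(2, ℤ))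
    (h : (6 : ℤ) ∣ A 1 0 * B 1 1 - A 1 1 * B 1 0) : f ∣[k] A = f ∣[k] B := by
  have h1 : A = (A * B⁻¹) * B := by group
  have h2 : (A * B⁻¹) 1 0 = A 1 0 * B 1 1 - A 1 1 * B 1 0 := by
    rw [Matrix.SpecialLinearGroup.SL2_inv_expl]
    simp [Matrix.mul_apply, Fin.sum_univ_two]
    ring
  rw [h1, SlashAction.slash_mul, hf.inv _ (h2 ▸ h)]

def ra : Fin 12 → ℤ := ![1, 0, 0, 0, 0, 0, 0, 1, 1, 1, 1, 2]
def rb : Fin 12 → ℤ := ![0, -1, -1, -1, -1, -1, -1, 0, 1, 2, 0, 1]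
def rc : Fin 12 → ℤ := ![0, 1, 1, 1, 1, 1, 1, 2, 2, 2, 3, 3]
def rd : Fin 12 → ℤ := ![1, 0, 1, 2, 3, 4, 5, 1, 3, 5, 1, 2]

theorem rdet : ∀ i, ra i * rd i - rb i * rc i = 1 := by decide

/-- coset representatives -/
def rep (i : Fin 12) : SL(2, ℤ) :=
  ⟨!![ra i, rb i; rc i, rd i], by rw [Matrix.det_fin_two_of]; exact rdet i⟩

def sT : Fin 12 → Fin 12 := ![0, 2, 3, 4, 5, 6, 1, 8, 9, 7, 11, 10]
def sS : Fin 12 → Fin 12 := ![1, 0, 6, 9, 10, 7, 2, 5, 11, 3, 4, 8]

theorem sT_bij : Function.Bijective sT := by decide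
theorem sS_bij : Function.Bijective sS := by decide
theorem sT_dvd : ∀ i, (6 : ℤ) ∣ rc i * rd (sT i) - (rc i + rd i) * rc (sT i) := by decide
theorem sS_dvd : ∀ i, (6 : ℤ) ∣ rd i * rd (sS i) - (-rc i) * rc (sS i) := by decide

theorem rep_zero : rep 0 = 1 := by
  ext i j
  fin_cases i <;> fin_cases j <;> rfl

theorem MF.rep_T {k : ℤ} {f : ℍ → ℂ} (hf : MF k f) (i : Fin 12) :
    (f ∣[k] rep i) ∣[k] ModularGroup.T = f ∣[k] rep (sT i) := by
  rw [← SlashAction.slash_mul]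
  refine hf.slash_eq _ _ ?_
  have := sT_dvd i
  simpa [rep, ModularGroup.T, Matrix.mul_apply, Fin.sum_univ_two] using this

theorem MF.rep_S {k : ℤ} {f : ℍ → ℂ} (hf : MF k f) (i : Fin 12) :
    (f ∣[k] rep i) ∣[k] ModularGroup.S = f ∣[k] rep (sS i) := by
  rw [← SlashAction.slash_mul]
  refine hf.slash_eq _ _ ?_
  have := sS_dvd i
  simpa [rep, ModularGroup.S, Matrix.mul_apply, Fin.sum_univ_two] using this

theorem prod_slash12 (k : ℤ) (F : Fin 12 → ℍ → ℂ) (g : SL(2, ℤ)) :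
    (∏ i, F i) ∣[k * 12] g = ∏ i, F i ∣[k] g := by
  have := ModularForm.prod_slash (k := k) (g := (g : GL (Fin 2) ℝ)) (f := F) (s := Finset.univ)
  simpa [SL_slash] using this

theorem MF.norm_inv {k : ℤ} {f : ℍ → ℂ} (hf : MF k f) (g : SL(2, ℤ)) :
    (∏ i, f ∣[k] rep i) ∣[k * 12] g = ∏ i, f ∣[k] rep i := by
  refine SlashInvariantForm.slash_action_generators_SL2Z ?_ ?_ g
  · rw [prod_slash12]
    simp_rw [hf.rep_S]
    exact Fintype.prod_bijective sS sS_bij _ _ fun _ => rfl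
  · rw [prod_slash12]
    simp_rw [hf.rep_T]
    exact Fintype.prod_bijective sT sT_bij _ _ fun _ => rfl

/-- the parameter at infinity -/
noncomputable def q (τ : ℍ) : ℂ := Function.Periodic.qParam 1 τ

theorem q_tendsto : Tendsto q atImInfty (𝓝 0) := qParam_tendsto_atImInfty zero_lt_one

theorem q_ne (τ : ℍ) : q τ ≠ 0 := Function.Periodic.qParam_ne_zero _

theorem q_isBigO : q =O[atImInfty] ModularForm.discriminant := by
  refine IsBigO.trans ?_ exp_isBigO_discriminant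
  refine IsBigO.of_bound 1 (Eventually.of_forall fun τ => le_of_eq ?_)
  simp [q, Function.Periodic.qParam, Complex.norm_exp]

theorem disc_pow_slash (n : ℕ) (g : SL(2, ℤ)) :
    (ModularForm.discriminant ^ n) ∣[(n : ℤ) * 12] g = ModularForm.discriminant ^ n := by
  have h := SlashInvariantForm.slash_action_generators_SL2Z discriminant_S_invariant
    discriminant_T_invariant g
  induction n with
  | zero => simpa using is_invariant_one g
  | succ n ih =>
    rw [pow_succ, show ((n + 1 : ℕ) : ℤ) * 12 = (n : ℤ) * 12 + 12 by push_cast; ring,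
      mul_slash_SL2, ih, h]

/-- level one vanishing -/
theorem level_one_zero (n : ℕ) (N : ℍ → ℂ) (hol : MDifferentiable 𝓘(ℂ) 𝓘(ℂ) N)
    (hinv : ∀ g : SL(2, ℤ), N ∣[(n : ℤ) * 12] g = N)
    (ho : N =o[atImInfty] fun τ => q τ ^ n) : N = 0 := by
  have hΔ : ∀ τ, (ModularForm.discriminant ^ n) τ ≠ 0 := fun τ =>
    pow_ne_zero n (discriminant_ne_zero τ)
  have hG : ∀ g : SL(2, ℤ), (N / ModularForm.discriminant ^ n) ∣[(0 : ℤ)] g
      = N / ModularForm.discriminant ^ n := by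
    intro g
    rw [← sub_self ((n : ℤ) * 12), div_slash_SL2, hinv, disc_pow_slash]
  have ht : Tendsto (N / ModularForm.discriminant ^ n) atImInfty (𝓝 0) :=
    (ho.trans_isBigO (q_isBigO.pow n)).tendsto_div_nhds_zero
  let G : ModularForm 𝒮ℒ 0 :=
    { toFun := N / ModularForm.discriminant ^ n
      slash_action_eq' := fun _ ⟨γ, hγ⟩ => hγ ▸ hG γ
      holo' := hol.div (CuspForm.discriminant.holo'.pow n) hΔ
      bdd_at_cusps' := fun {c} hc => by
        rw [OnePoint.isBoundedAt_iff_forall_SL2Z hc]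
        intro γ _
        rw [hG γ]
        exact ht.isBigO_one ℝ }
  obtain ⟨c, hc⟩ := ModularFormClass.levelOne_weight_zero_const G
  have hc' : N / ModularForm.discriminant ^ n = Function.const ℍ c := hc
  rw [hc'] at ht
  have hc0 : c = 0 := tendsto_nhds_unique tendsto_const_nhds ht
  ext τ
  have := congrFun hc' τ
  rw [hc0] at this
  simpa [hΔ τ, discriminant_ne_zero τ] using this

/-- the vanishing bound -/
theorem MF.sturm {n : ℕ} {f : ℍ → ℂ} (hf : MF n f) (hn : n ≤ 6)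
    (ho : f =O[atImInfty] fun τ => q τ ^ 7) : f = 0 := by
  have hN : (∏ i, f ∣[(n : ℤ)] rep i) = 0 := by
    refine level_one_zero n _ ?_ hf.norm_inv ?_
    · exact MDifferentiable.prod fun i _ => hf.hol.slash _ _
    · have h1 : (fun τ => q τ ^ 7) =o[atImInfty] fun τ => q τ ^ n :=
        (isLittleO_pow_pow (𝕜 := ℂ) (show n < 7 by omega)).comp_tendsto q_tendsto
      refine IsBigO.trans_isLittleO ?_ h1
      rw [Fin.prod_univ_succ, rep_zero, SlashAction.slash_one]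
      have h2 : (∏ i : Fin 11, f ∣[(n : ℤ)] rep i.succ) =O[atImInfty] (1 : ℍ → ℝ) :=
        BoundedAtFilter.prod _ fun i _ => hf.bdd _
      have h3 := ho.norm_right.mul h2
      simp only [Pi.one_apply, mul_one] at h3
      exact h3.of_norm_right
  obtain ⟨i, -, hi⟩ := (UpperHalfPlane.prod_eq_zero_iff
    (f := fun i => f ∣[(n : ℤ)] rep i) fun i _ => hf.hol.slash _ _).mp hN
  have := congrArg (fun F => F ∣[(n : ℤ)] (rep i)⁻¹) hi
  simpa [← SlashAction.slash_mul] using this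

end Pool.Agent.P.MP_8d0004_nt.LR.M2
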