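import Pool.Agent.P.MP_8d0004_nt.LR.M2a

/-! Generators of the ring of modular forms of level six. -/

namespace Pool.Agent.P.MP_8d0004_nt.LR.M2

open UpperHalfPlane ModularForm Filter Asymptotics Complex EisensteinSeries
open scoped MatrixGroups Manifold Topology Real

/-- the diagonal matrix -/
noncomputable def dm (t : ℕ+) : GL (Fin 2) ℝ :=
  Matrix.GeneralLinearGroup.mkOfDetNeZero !![((t : ℕ) : ℝ), 0; 0, 1]
    (by simp [Matrix.det_fin_two])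

theorem dm_coe (t : ℕ+) : ((dm t : GL (Fin 2) ℝ) : Matrix (Fin 2) (Fin 2) ℝ)
    = !![((t : ℕ) : ℝ), 0; 0, 1] := rfl

theorem dm_det (t : ℕ+) : (dm t).det.val = ((t : ℕ) : ℝ) := by
  simp [dm_coe, Matrix.det_fin_two]

theorem dm_det_pos (t : ℕ+) : 0 < (dm t).det.val := by
  rw [dm_det]; exact_mod_cast t.pos

theorem dm_10 (t : ℕ+) : dm t 1 0 = 0 := rfl

theorem dm_denom (t : ℕ+) (z : ℂ) : denom (dm t) z = 1 := by
  simp [denom, dm_coe]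

theorem dm_smul (t : ℕ+) (z : ℍ) : ((dm t • z : ℍ) : ℂ) = ((t : ℕ) : ℂ) * z := by
  rw [coe_smul_of_det_pos (dm_det_pos t), dm_denom]
  simp [num, dm_coe]

theorem dm_sigma (t : ℕ+) (z : ℂ) : σ (dm t) z = z := by
  rw [σ, if_pos (dm_det_pos t)]; rfl

theorem dm_slash (t : ℕ+) (k : ℤ) (f : ℍ → ℂ) (z : ℍ) :
    (f ∣[k] dm t) z = ((t : ℕ) : ℂ) ^ (k - 1) * f (dm t • z) := by
  rw [slash_apply, dm_sigma, dm_denom, dm_det, abs_of_nonneg (Nat.cast_nonneg _)]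
  simp [mul_comm]

theorem q_dm (t : ℕ+) (z : ℍ) : q (dm t • z) = q z ^ (t : ℕ) := by
  simp only [q, Function.Periodic.qParam, dm_smul, ← Complex.exp_nat_mul]
  congr 1
  ring

theorem exists_upper (t : ℕ+) (g : SL(2, ℤ)) : ∃ (g' : SL(2, ℤ)) (u : GL (Fin 2) ℝ),
    u 1 0 = 0 ∧ dm t * (g : GL (Fin 2) ℝ) = (g' : GL (Fin 2) ℝ) * u := by
  have hdet : g 0 0 * g 1 1 - g 0 1 * g 1 0 = 1 := by
    rw [← Matrix.det_fin_two]; exact g.det_coe
  have hpos : 0 < Int.gcd (((t : ℕ) : ℤ) * g 0 0) (g 1 0) := by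
    rw [Int.gcd_pos_iff]
    by_contra h
    push Not at h
    obtain ⟨h1, h2⟩ := h
    have ht : ((t : ℕ) : ℤ) ≠ 0 := by exact_mod_cast t.ne_zero
    have h3 : g 0 0 = 0 := (mul_eq_zero.mp h1).resolve_left ht
    rw [h2, h3] at hdet
    simp at hdet
  obtain ⟨x, w, hc, hx, hw⟩ := Int.exists_gcd_one hpos
  obtain ⟨g', h0, h1⟩ := (Int.isCoprime_iff_gcd_eq_one.mpr hc).exists_SL2_col 0
  refine ⟨g', (g' : GL (Fin 2) ℝ)⁻¹ * (dm t * (g : GL (Fin 2) ℝ)), ?_, by group⟩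
  have hinv : ((g' : GL (Fin 2) ℝ)⁻¹) = ((g'⁻¹ : SL(2, ℤ)) : GL (Fin 2) ℝ) :=
    (map_inv (Matrix.SpecialLinearGroup.mapGL ℝ) g').symm
  rw [hinv, Matrix.SpecialLinearGroup.SL2_inv_expl]
  obtain ⟨e, he⟩ : ∃ e : ℤ, e = (Int.gcd (((t : ℕ) : ℤ) * g 0 0) (g 1 0) : ℤ) := ⟨_, rfl⟩
  rw [← he] at hx hw
  have hx' : ((t : ℕ) : ℝ) * (g 0 0 : ℝ) = x * e := by exact_mod_cast hx
  have hw' : (g 1 0 : ℝ) = w * e := by exact_mod_cast hw
  simp [dm_coe, Matrix.mul_apply, Fin.sum_univ_two, h0, h1, Matrix.vecMul, dotProduct, hx', hw']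
  ring

theorem bdd_dm {k : ℤ} {f : ℍ → ℂ} (h : ∀ g : SL(2, ℤ), IsBoundedAtImInfty (f ∣[k] g))
    (t : ℕ+) (g : SL(2, ℤ)) : IsBoundedAtImInfty ((f ∣[k] dm t) ∣[k] g) := by
  obtain ⟨g', u, hu, he⟩ := exists_upper t g
  rw [SL_slash, ← SlashAction.slash_mul, he, SlashAction.slash_mul]
  exact (h g').slash k hu

theorem exists_conj (t : ℕ+) (g : SL(2, ℤ)) (h : ((t : ℕ) : ℤ) ∣ g 1 0) : ∃ g' : SL(2, ℤ),
    ((t : ℕ) : ℤ) * g' 1 0 = g 1 0 ∧ g' 1 1 = g 1 1 ∧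
      dm t * (g : GL (Fin 2) ℝ) = (g' : GL (Fin 2) ℝ) * dm t := by
  have hdet : g 0 0 * g 1 1 - g 0 1 * g 1 0 = 1 := by
    rw [← Matrix.det_fin_two]; exact g.det_coe
  obtain ⟨c, hc⟩ := h
  refine ⟨⟨!![g 0 0, ((t : ℕ) : ℤ) * g 0 1; c, g 1 1], ?_⟩, hc.symm, rfl, ?_⟩
  · rw [Matrix.det_fin_two_of]
    linear_combination hdet + g 0 1 * hc
  · ext i j
    fin_cases i <;> fin_cases j <;>
      simp [dm_coe, Matrix.mul_apply, Fin.sum_univ_two, hc, mul_comm]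

theorem MF_dm {k : ℤ} (f : ModularForm 𝒮ℒ k) (t : ℕ+) (ht : ((t : ℕ) : ℤ) ∣ 6) :
    MF k ((f : ℍ → ℂ) ∣[k] dm t) := by
  have hinv : ∀ g : SL(2, ℤ), (f : ℍ → ℂ) ∣[k] g = f := fun g =>
    f.slash_action_eq' (g : GL (Fin 2) ℝ) ⟨g, rfl⟩
  refine ⟨f.holo'.slash _ _, fun g hg => ?_, bdd_dm (fun g => ?_) t⟩
  · obtain ⟨g', -, -, he⟩ := exists_conj t g (ht.trans hg)
    rw [SL_slash, ← SlashAction.slash_mul, he, SlashAction.slash_mul, ← SL_slash, hinv]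
  · rw [hinv]
    exact ModularFormClass.bdd_at_infty f

theorem D2_bdd (g : SL(2, ℤ)) : IsBoundedAtImInfty (D2 g) := by
  rw [isBoundedAtImInfty_iff]
  refine ⟨2 * π, 1, fun z hz => ?_⟩
  have h1 : |((g 1 0 : ℤ) : ℝ)| ≤ ‖denom g z‖ := by
    refine le_trans ?_ (Complex.abs_im_le_norm _)
    have : (denom g z).im = ((g 1 0 : ℤ) : ℝ) * z.im := by simp [denom]
    rw [this, abs_mul]
    exact le_mul_of_one_le_right (abs_nonneg _) (hz.trans (le_abs_self _))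
  have h2 : 0 < ‖denom g z‖ := norm_pos_iff.mpr (denom_ne_zero g z)
  rw [D2, norm_div, div_le_iff₀ h2]
  have h3 : ‖(2 * π * Complex.I * (g 1 0 : ℤ) : ℂ)‖ = 2 * π * |((g 1 0 : ℤ) : ℝ)| := by
    simp [abs_of_pos Real.pi_pos]
  rw [h3]
  gcongr

theorem E2_bdd (g : SL(2, ℤ)) : IsBoundedAtImInfty (E2 ∣[(2 : ℤ)] g) := by
  rw [E2_slash_action, sub_eq_add_neg]
  exact isBoundedAtImInfty_E2.add ((D2_bdd g).smul _).neg

/-- the weight two generators -/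
noncomputable def U (t : ℕ+) : ℍ → ℂ := E2 ∣[(2 : ℤ)] dm t - E2

theorem U_apply (t : ℕ+) (z : ℍ) : U t z = ((t : ℕ) : ℂ) * E2 (dm t • z) - E2 z := by
  simp [U, dm_slash]

theorem MF_U (t : ℕ+) (ht : ((t : ℕ) : ℤ) ∣ 6) : MF 2 (U t) := by
  refine ⟨(E2_mdifferentiable.slash _ _).sub E2_mdifferentiable, fun g hg => ?_, fun g => ?_⟩
  · obtain ⟨g', h0, h1, he⟩ := exists_conj t g (ht.trans hg)
    have hD : ∀ z : ℍ, ((t : ℕ) : ℂ) * D2 g' (dm t • z) = D2 g z := by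
      intro z
      have h0' : ((t : ℕ) : ℂ) * (g' 1 0 : ℤ) = (g 1 0 : ℤ) := by exact_mod_cast h0
      have hd : denom g' (dm t • z : ℍ) = denom g z := by
        simp only [denom, dm_smul]
        simp [h1, ← h0']
        ring
      simp only [D2, hd, ← h0']
      ring
    rw [U, sub_eq_add_neg, SlashAction.add_slash, SlashAction.neg_slash, SL_slash (E2 ∣[_] _),
      ← SlashAction.slash_mul, he, SlashAction.slash_mul, ← SL_slash, E2_slash_action,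
      E2_slash_action]
    ext z
    simp only [Pi.add_apply, Pi.neg_apply, Pi.sub_apply, Pi.smul_apply, dm_slash, smul_eq_mul,
      ← hD z]
    norm_num
    ring
  · rw [U, sub_eq_add_neg, SlashAction.add_slash, SlashAction.neg_slash]
    exact (bdd_dm E2_bdd t g).add (E2_bdd g).neg

end Pool.Agent.P.MP_8d0004_nt.LR.M2
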