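import Pool.Agent.P.MP_8d0004_nt.LR.M2b

/-! Truncated expansions at infinity. -/

namespace Pool.Agent.P.MP_8d0004_nt.LR.M2

open UpperHalfPlane ModularForm Filter Asymptotics Complex EisensteinSeries
open scoped MatrixGroups Manifold Topology Real

/-- a polynomial of degree at most six -/
noncomputable def pl (a0 a1 a2 a3 a4 a5 a6 x : ℂ) : ℂ :=
  a0 + a1 * x + a2 * x ^ 2 + a3 * x ^ 3 + a4 * x ^ 4 + a5 * x ^ 5 + a6 * x ^ 6

/-- truncated expansion -/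
def Ap (f : ℍ → ℂ) (a0 a1 a2 a3 a4 a5 a6 : ℂ) : Prop :=
  (fun τ => f τ - pl a0 a1 a2 a3 a4 a5 a6 (q τ)) =O[atImInfty] fun τ => q τ ^ 7

theorem cont_bdd {p : ℂ → ℂ} (hp : Continuous p) :
    (fun τ => p (q τ)) =O[atImInfty] fun _ => (1 : ℂ) :=
  ((hp.tendsto 0).comp q_tendsto).isBigO_one ℂ

theorem poly_O {p : ℂ → ℂ} (hp : Continuous p) :
    (fun τ => q τ ^ 7 * p (q τ)) =O[atImInfty] fun τ => q τ ^ 7 := by
  simpa using (isBigO_refl (fun τ => q τ ^ 7) atImInfty).mul (cont_bdd hp)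

theorem pl_cont (a0 a1 a2 a3 a4 a5 a6 : ℂ) : Continuous (pl a0 a1 a2 a3 a4 a5 a6) := by
  unfold pl; fun_prop

section
variable {f g : ℍ → ℂ} {a0 a1 a2 a3 a4 a5 a6 b0 b1 b2 b3 b4 b5 b6 : ℂ}

theorem Ap.of {r : ℂ → ℂ} (p : ℂ → ℂ) (hp : Continuous p)
    (h : (fun τ => f τ - r (q τ)) =O[atImInfty] fun τ => q τ ^ 7)
    (hr : ∀ x, r x = pl a0 a1 a2 a3 a4 a5 a6 x + x ^ 7 * p x) : Ap f a0 a1 a2 a3 a4 a5 a6 :=
  (h.add (poly_O hp)).congr_left fun τ => by rw [hr]; ring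

theorem Ap.bdd (h : Ap f a0 a1 a2 a3 a4 a5 a6) : f =O[atImInfty] fun _ => (1 : ℂ) :=
  ((h.trans (cont_bdd (p := fun x => x ^ 7) (by fun_prop))).add
    (cont_bdd (pl_cont a0 a1 a2 a3 a4 a5 a6))).congr_left fun τ => by ring

theorem Ap.add (hf : Ap f a0 a1 a2 a3 a4 a5 a6) (hg : Ap g b0 b1 b2 b3 b4 b5 b6) :
    Ap (f + g) (a0 + b0) (a1 + b1) (a2 + b2) (a3 + b3) (a4 + b4) (a5 + b5) (a6 + b6) :=
  (IsBigO.add hf hg).congr_left fun τ => by simp only [pl, Pi.add_apply]; ring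

theorem Ap.smul (c : ℂ) (hf : Ap f a0 a1 a2 a3 a4 a5 a6) :
    Ap (c • f) (c * a0) (c * a1) (c * a2) (c * a3) (c * a4) (c * a5) (c * a6) :=
  (IsBigO.const_mul_left hf c).congr_left fun τ => by
    simp only [pl, Pi.smul_apply, smul_eq_mul]; ring

theorem Ap.mul (hf : Ap f a0 a1 a2 a3 a4 a5 a6) (hg : Ap g b0 b1 b2 b3 b4 b5 b6) :
    Ap (f * g) (a0 * b0) (a0 * b1 + a1 * b0) (a0 * b2 + a1 * b1 + a2 * b0)
      (a0 * b3 + a1 * b2 + a2 * b1 + a3 * b0) (a0 * b4 + a1 * b3 + a2 * b2 + a3 * b1 + a4 * b0)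
      (a0 * b5 + a1 * b4 + a2 * b3 + a3 * b2 + a4 * b1 + a5 * b0)
      (a0 * b6 + a1 * b5 + a2 * b4 + a3 * b3 + a4 * b2 + a5 * b1 + a6 * b0) := by
  refine Ap.of (r := fun x => pl a0 a1 a2 a3 a4 a5 a6 x * pl b0 b1 b2 b3 b4 b5 b6 x)
    (fun x => (a1 * b6 + a2 * b5 + a3 * b4 + a4 * b3 + a5 * b2 + a6 * b1)
      + (a2 * b6 + a3 * b5 + a4 * b4 + a5 * b3 + a6 * b2) * x
      + (a3 * b6 + a4 * b5 + a5 * b4 + a6 * b3) * x ^ 2 + (a4 * b6 + a5 * b5 + a6 * b4) * x ^ 3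
      + (a5 * b6 + a6 * b5) * x ^ 4 + a6 * b6 * x ^ 5) (by fun_prop) ?_
    (fun x => by simp only [pl]; ring)
  have h1 := IsBigO.mul hf hg.bdd
  have h2 := IsBigO.mul (cont_bdd (pl_cont a0 a1 a2 a3 a4 a5 a6)) hg
  simp only [mul_one, one_mul] at h1 h2
  exact (h1.add h2).congr_left fun τ => by simp only [Pi.mul_apply]; ring

theorem Ap.dm_aux (hf : Ap f a0 a1 a2 a3 a4 a5 a6) (t : ℕ+) :
    (fun τ => f (dm t • τ) - pl a0 a1 a2 a3 a4 a5 a6 (q τ ^ (t : ℕ))) =O[atImInfty]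
      fun τ => q τ ^ 7 := by
  have h1 := IsBigO.comp_tendsto hf (tendsto_smul_atImInfty (dm_10 t))
  simp only [Function.comp_def, q_dm] at h1
  refine h1.trans ((poly_O (p := fun x => x ^ (7 * ((t : ℕ) - 1))) (by fun_prop)).congr_left
    fun τ => ?_)
  rw [← pow_add, ← pow_mul]
  congr 1
  have := t.pos
  omega

theorem Ap.dm2 (hf : Ap f a0 a1 a2 a3 a4 a5 a6) :
    Ap (fun τ => f (dm 2 • τ)) a0 0 a1 0 a2 0 a3 := by
  have h := hf.dm_aux 2
  rw [show ((2 : ℕ+) : ℕ) = 2 from rfl] at h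
  exact Ap.of (r := fun x => pl a0 a1 a2 a3 a4 a5 a6 (x ^ 2))
    (fun x => a4 * x + a5 * x ^ 3 + a6 * x ^ 5) (by fun_prop) h fun x => by simp only [pl]; ring

theorem Ap.dm3 (hf : Ap f a0 a1 a2 a3 a4 a5 a6) :
    Ap (fun τ => f (dm 3 • τ)) a0 0 0 a1 0 0 a2 := by
  have h := hf.dm_aux 3
  rw [show ((3 : ℕ+) : ℕ) = 3 from rfl] at h
  exact Ap.of (r := fun x => pl a0 a1 a2 a3 a4 a5 a6 (x ^ 3))
    (fun x => a3 * x ^ 2 + a4 * x ^ 5 + a5 * x ^ 8 + a6 * x ^ 11)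
    (by fun_prop) h fun x => by simp only [pl]; ring

theorem Ap.dm6 (hf : Ap f a0 a1 a2 a3 a4 a5 a6) :
    Ap (fun τ => f (dm 6 • τ)) a0 0 0 0 0 0 a1 := by
  have h := hf.dm_aux 6
  rw [show ((6 : ℕ+) : ℕ) = 6 from rfl] at h
  exact Ap.of (r := fun x => pl a0 a1 a2 a3 a4 a5 a6 (x ^ 6))
    (fun x => a2 * x ^ 5 + a3 * x ^ 11 + a4 * x ^ 17 + a5 * x ^ 23 + a6 * x ^ 29)
    (by fun_prop) h fun x => by simp only [pl]; ring

theorem Ap.congr (hf : Ap f a0 a1 a2 a3 a4 a5 a6) (h : ∀ τ, g τ = f τ) (h0 : a0 = b0)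
    (h1 : a1 = b1) (h2 : a2 = b2) (h3 : a3 = b3) (h4 : a4 = b4) (h5 : a5 = b5) (h6 : a6 = b6) :
    Ap g b0 b1 b2 b3 b4 b5 b6 := by
  obtain rfl : g = f := funext h
  subst h0 h1 h2 h3 h4 h5 h6
  exact hf

end

theorem Ap_of_hasSum {f : ℍ → ℂ} {c : ℕ → ℂ} (h : ∀ τ, HasSum (fun m => c m * q τ ^ m) (f τ)) :
    Ap f (c 0) (c 1) (c 2) (c 3) (c 4) (c 5) (c 6) := by
  have hb : IsBoundedAtImInfty fun τ =>
      (f τ - pl (c 0) (c 1) (c 2) (c 3) (c 4) (c 5) (c 6) (q τ)) / q τ ^ 7 := by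
    refine isBoundedAtImInfty_of_hasSum_qExpansion (c := fun m => c (m + 7)) one_pos fun τ => ?_
    have h1 := ((hasSum_nat_add_iff' 7).mpr (h τ)).div_const (q τ ^ 7)
    have hq := q_ne τ
    have e1 : (fun m => c (m + 7) * q τ ^ (m + 7) / q τ ^ 7) = fun m => c (m + 7) * q τ ^ m := by
      ext m
      field_simp
      ring
    have e2 : ∑ i ∈ Finset.range 7, c i * q τ ^ i
        = pl (c 0) (c 1) (c 2) (c 3) (c 4) (c 5) (c 6) (q τ) := by
      simp only [pl, Finset.sum_range_succ, Finset.sum_range_zero]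
      ring
    rw [e1, e2] at h1
    exact h1
  have h2 := (isBigO_refl (fun τ => q τ ^ 7) atImInfty).norm_right.mul hb
  simp only [Pi.one_apply, mul_one] at h2
  refine h2.of_norm_right.congr_left fun τ => ?_
  have hq := q_ne τ
  field_simp

theorem Ap_E2 : Ap E2 1 (-24) (-72) (-96) (-168) (-144) (-288) := by
  have h := Ap_of_hasSum (f := E2)
    (c := fun m => if m = 0 then 1 else -24 * (ArithmeticFunction.sigma 1 m : ℂ)) fun τ => by
      simpa only [q, Function.Periodic.qParam, ofReal_one, div_one, smul_eq_mul]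
        using hasSum_qExpansion_E2 (z := τ)
  have s1 : ArithmeticFunction.sigma 1 1 = 1 := by decide +kernel
  have s2 : ArithmeticFunction.sigma 1 2 = 3 := by decide +kernel
  have s3 : ArithmeticFunction.sigma 1 3 = 4 := by decide +kernel
  have s4 : ArithmeticFunction.sigma 1 4 = 7 := by decide +kernel
  have s5 : ArithmeticFunction.sigma 1 5 = 6 := by decide +kernel
  have s6 : ArithmeticFunction.sigma 1 6 = 12 := by decide +kernel
  refine h.congr (fun _ => rfl) ?_ ?_ ?_ ?_ ?_ ?_ ?_ <;> norm_num [s1, s2, s3, s4, s5, s6]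

theorem Ap_E {k : ℕ} (hk : 3 ≤ k) (hk2 : Even k) (β : ℂ) (hβ : -(2 * k / bernoulli k : ℂ) = β) :
    Ap (E hk) 1 (β * ArithmeticFunction.sigma (k - 1) 1) (β * ArithmeticFunction.sigma (k - 1) 2)
      (β * ArithmeticFunction.sigma (k - 1) 3) (β * ArithmeticFunction.sigma (k - 1) 4)
      (β * ArithmeticFunction.sigma (k - 1) 5) (β * ArithmeticFunction.sigma (k - 1) 6) := by
  have h := Ap_of_hasSum (f := E hk) (c := fun m => (qExpansion 1 (E hk)).coeff m) fun τ =>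
    ModularForm.hasSum_qExpansion (E hk) one_pos one_mem_strictPeriods_SL τ
  simp only [E_qExpansion_coeff hk hk2, hβ] at h
  simpa using h

theorem Ap_E4 : Ap E₄ 1 240 2160 6720 17520 30240 60480 := by
  have h := Ap_E (k := 4) (by norm_num) ⟨2, rfl⟩ 240
    (by norm_num [show bernoulli 4 = -1 / 30 by decide +kernel])
  have s1 : ArithmeticFunction.sigma (4 - 1) 1 = 1 := by decide +kernel
  have s2 : ArithmeticFunction.sigma (4 - 1) 2 = 9 := by decide +kernel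
  have s3 : ArithmeticFunction.sigma (4 - 1) 3 = 28 := by decide +kernel
  have s4 : ArithmeticFunction.sigma (4 - 1) 4 = 73 := by decide +kernel
  have s5 : ArithmeticFunction.sigma (4 - 1) 5 = 126 := by decide +kernel
  have s6 : ArithmeticFunction.sigma (4 - 1) 6 = 252 := by decide +kernel
  rw [s1, s2, s3, s4, s5, s6] at h
  refine h.congr (fun _ => rfl) ?_ ?_ ?_ ?_ ?_ ?_ ?_ <;> norm_num

theorem Ap_E6 : Ap E₆ 1 (-504) (-16632) (-122976) (-532728) (-1575504) (-4058208) := by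
  have h := Ap_E (k := 6) (by norm_num) ⟨3, rfl⟩ (-504)
    (by norm_num [show bernoulli 6 = 1 / 42 by decide +kernel])
  have s1 : ArithmeticFunction.sigma (6 - 1) 1 = 1 := by decide +kernel
  have s2 : ArithmeticFunction.sigma (6 - 1) 2 = 33 := by decide +kernel
  have s3 : ArithmeticFunction.sigma (6 - 1) 3 = 244 := by decide +kernel
  have s4 : ArithmeticFunction.sigma (6 - 1) 4 = 1057 := by decide +kernel
  have s5 : ArithmeticFunction.sigma (6 - 1) 5 = 3126 := by decide +kernel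
  have s6 : ArithmeticFunction.sigma (6 - 1) 6 = 8052 := by decide +kernel
  rw [s1, s2, s3, s4, s5, s6] at h
  refine h.congr (fun _ => rfl) ?_ ?_ ?_ ?_ ?_ ?_ ?_ <;> norm_num

end Pool.Agent.P.MP_8d0004_nt.LR.M2
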