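import Pool.Agent.P.MP_8d0004_nt.LR.KB

/-! Summability, derivatives and decay of the weighted sums of kernels. -/

namespace Pool.Agent.P.MP_8d0004_nt.LR

open Real MeasureTheory Set Filter Topology

def PG1 (W : ℤ → ℝ) : Prop := ∃ (C : ℝ) (N : ℕ), ∀ a, |W a| ≤ C * (1 + |(a : ℝ)|) ^ N

def PG2 (W : ℤ → ℤ → ℝ) : Prop :=
  ∃ (C : ℝ) (N : ℕ), ∀ a b, |W a b| ≤ C * ((1 + |(a : ℝ)|) ^ N * (1 + |(b : ℝ)|) ^ N)

def PG3 (W : ℤ → ℤ → ℤ → ℝ) : Prop :=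
  ∃ (C : ℝ) (N : ℕ), ∀ a b c,
    |W a b c| ≤ C * ((1 + |(a : ℝ)|) ^ N * ((1 + |(b : ℝ)|) ^ N * (1 + |(c : ℝ)|) ^ N))

lemma PG1_of_bdd {W : ℤ → ℝ} (C : ℝ) (h : ∀ a, |W a| ≤ C) : PG1 W := ⟨C, 0, by simpa using h⟩
lemma PG2_of_bdd {W : ℤ → ℤ → ℝ} (C : ℝ) (h : ∀ a b, |W a b| ≤ C) : PG2 W :=
  ⟨C, 0, by simpa using h⟩
lemma PG3_of_bdd {W : ℤ → ℤ → ℤ → ℝ} (C : ℝ) (h : ∀ a b c, |W a b c| ≤ C) : PG3 W :=
  ⟨C, 0, by simpa using h⟩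

lemma one_le_wt (a : ℤ) (N : ℕ) : 1 ≤ (1 + |(a : ℝ)|) ^ N :=
  one_le_pow₀ (by linarith [abs_nonneg (a : ℝ)])

lemma abs_mul_wt (a : ℤ) (N : ℕ) : |(a : ℝ)| * (1 + |(a : ℝ)|) ^ N ≤ (1 + |(a : ℝ)|) ^ (N + 1) := by
  rw [pow_succ, mul_comm]
  gcongr
  linarith

lemma wt_succ (a : ℤ) (N : ℕ) : (1 + |(a : ℝ)|) ^ N ≤ (1 + |(a : ℝ)|) ^ (N + 1) :=
  pow_le_pow_right₀ (by linarith [abs_nonneg (a : ℝ)]) (Nat.le_succ N)

lemma PG1.nonneg {W : ℤ → ℝ} {C : ℝ} {N : ℕ} (h : ∀ a, |W a| ≤ C * (1 + |(a : ℝ)|) ^ N) : 0 ≤ C := by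
  have := (abs_nonneg _).trans (h 0)
  simpa using this

lemma PG1.mul1 {W : ℤ → ℝ} (h : PG1 W) : PG1 fun a => a * W a := by
  obtain ⟨C, N, h⟩ := h
  have hC := PG1.nonneg h
  refine ⟨C, N + 1, fun a => ?_⟩
  rw [abs_mul]
  calc |(a : ℝ)| * |W a| ≤ |(a : ℝ)| * (C * (1 + |(a : ℝ)|) ^ N) := by gcongr; exact h a
    _ = C * (|(a : ℝ)| * (1 + |(a : ℝ)|) ^ N) := by ring
    _ ≤ _ := by gcongr; exact abs_mul_wt a N

lemma PG2.nonneg {W : ℤ → ℤ → ℝ} {C : ℝ} {N : ℕ}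
    (h : ∀ a b, |W a b| ≤ C * ((1 + |(a : ℝ)|) ^ N * (1 + |(b : ℝ)|) ^ N)) : 0 ≤ C := by
  have := (abs_nonneg _).trans (h 0 0)
  simpa using this

lemma PG2.swap {W : ℤ → ℤ → ℝ} (h : PG2 W) : PG2 fun a b => W b a := by
  obtain ⟨C, N, h⟩ := h
  exact ⟨C, N, fun a b => by rw [mul_comm ((1 + |(a : ℝ)|) ^ N)]; exact h b a⟩

lemma PG2.mul1 {W : ℤ → ℤ → ℝ} (h : PG2 W) : PG2 fun a b => a * W a b := by
  obtain ⟨C, N, h⟩ := h
  have hC := PG2.nonneg h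
  refine ⟨C, N + 1, fun a b => ?_⟩
  rw [abs_mul]
  calc |(a : ℝ)| * |W a b| ≤ |(a : ℝ)| * (C * ((1 + |(a : ℝ)|) ^ N * (1 + |(b : ℝ)|) ^ N)) := by
        gcongr; exact h a b
    _ = C * ((|(a : ℝ)| * (1 + |(a : ℝ)|) ^ N) * (1 + |(b : ℝ)|) ^ N) := by ring
    _ ≤ _ := mul_le_mul_of_nonneg_left (mul_le_mul (abs_mul_wt a N) (wt_succ b N)
        (by positivity) (by positivity)) hC

lemma PG2.mul2 {W : ℤ → ℤ → ℝ} (h : PG2 W) : PG2 fun a b => b * W a b := h.swap.mul1.swap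

lemma PG3.nonneg {W : ℤ → ℤ → ℤ → ℝ} {C : ℝ} {N : ℕ}
    (h : ∀ a b c,
      |W a b c| ≤ C * ((1 + |(a : ℝ)|) ^ N * ((1 + |(b : ℝ)|) ^ N * (1 + |(c : ℝ)|) ^ N))) :
    0 ≤ C := by
  have := (abs_nonneg _).trans (h 0 0 0)
  simpa using this

lemma PG3.swap12 {W : ℤ → ℤ → ℤ → ℝ} (h : PG3 W) : PG3 fun a b c => W b a c := by
  obtain ⟨C, N, h⟩ := h
  exact ⟨C, N, fun a b c => (h b a c).trans_eq (by ring)⟩

lemma PG3.swap23 {W : ℤ → ℤ → ℤ → ℝ} (h : PG3 W) : PG3 fun a b c => W a c b := by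
  obtain ⟨C, N, h⟩ := h
  exact ⟨C, N, fun a b c => (h a c b).trans_eq (by ring)⟩

lemma PG3.mul1 {W : ℤ → ℤ → ℤ → ℝ} (h : PG3 W) : PG3 fun a b c => a * W a b c := by
  obtain ⟨C, N, h⟩ := h
  have hC := PG3.nonneg h
  refine ⟨C, N + 1, fun a b c => ?_⟩
  rw [abs_mul]
  calc |(a : ℝ)| * |W a b c| ≤ |(a : ℝ)| *
        (C * ((1 + |(a : ℝ)|) ^ N * ((1 + |(b : ℝ)|) ^ N * (1 + |(c : ℝ)|) ^ N))) := by
        gcongr; exact h a b c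
    _ = C * ((|(a : ℝ)| * (1 + |(a : ℝ)|) ^ N) * ((1 + |(b : ℝ)|) ^ N * (1 + |(c : ℝ)|) ^ N)) := by
        ring
    _ ≤ _ := mul_le_mul_of_nonneg_left (mul_le_mul (abs_mul_wt a N) (mul_le_mul (wt_succ b N)
        (wt_succ c N) (by positivity) (by positivity)) (by positivity) (by positivity)) hC

lemma PG3.mul2 {W : ℤ → ℤ → ℤ → ℝ} (h : PG3 W) : PG3 fun a b c => b * W a b c :=
  h.swap12.mul1.swap12

lemma PG3.mul3 {W : ℤ → ℤ → ℤ → ℝ} (h : PG3 W) : PG3 fun a b c => c * W a b c :=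
  h.swap23.mul2.swap23

lemma summable_wt_exp (N : ℕ) {a : ℝ} (ha : 0 < a) :
    Summable fun m : ℤ => (1 + |(m : ℝ)|) ^ N * exp (-(a * |(m : ℝ)|)) := by
  have h : Summable fun n : ℕ => (1 + (n : ℝ)) ^ N * exp (-(a * n)) := by
    have h1 := summable_pow_mul_geometric_of_norm_lt_one (R := ℝ) N (r := exp (-a))
      (by rw [Real.norm_eq_abs, abs_of_pos (exp_pos _), exp_lt_one_iff]; linarith)
    have h2 := ((summable_nat_add_iff 1).2 h1).mul_left (exp a)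
    refine h2.congr fun n => ?_
    rw [← exp_nat_mul]
    push_cast
    have : exp (-(a * n)) = exp a * exp ((n + 1) * -a) := by rw [← exp_add]; congr 1; ring
    rw [this]; ring
  apply Summable.of_nat_of_neg
  · simpa using h
  · simpa using h

lemma master {j : ℕ} (hj : 1 ≤ j) {y0 : ℝ} (hy : 0 < y0) (N : ℕ) :
    ∃ b : ℤ → ℝ, Summable b ∧ (∀ m, 0 ≤ b m) ∧ ∀ y, y0 ≤ y → ∀ m : ℤ,
      (1 + |(m : ℝ)|) ^ N * |K j (m * y)| ≤ b m * exp (-(2 * π * (y - y0))) := by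
  obtain ⟨C, hC, h⟩ := K_le_exp hj hy
  refine ⟨fun m => C * ((1 + |(m : ℝ)|) ^ N * exp (-(2 * π * y0 * |(m : ℝ)|))),
    (summable_wt_exp N (by positivity)).mul_left C, fun m => by positivity, fun y hyy m => ?_⟩
  by_cases hm : m = 0
  · subst hm
    simp only [Int.cast_zero, zero_mul, K_zero, abs_zero, mul_zero]
    positivity
  have hm1 : (1 : ℝ) ≤ |(m : ℝ)| := by exact_mod_cast Int.one_le_abs hm
  have hy1 : 0 < y := hy.trans_le hyy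
  have e : |(m : ℝ) * y| = |(m : ℝ)| * y := by rw [abs_mul, abs_of_pos hy1]
  have h1 := h (m * y) (by rw [e]; nlinarith)
  rw [e] at h1
  calc (1 + |(m : ℝ)|) ^ N * |K j (m * y)|
      ≤ (1 + |(m : ℝ)|) ^ N * (C * exp (-(2 * π * (|(m : ℝ)| * y)))) := by gcongr
    _ ≤ (1 + |(m : ℝ)|) ^ N * (C * (exp (-(2 * π * y0 * |(m : ℝ)|)) * exp (-(2 * π * (y - y0))))) := by
        rw [← exp_add]
        gcongr
        nlinarith [mul_nonneg (mul_nonneg pi_pos.le (sub_nonneg.2 hm1)) (sub_nonneg.2 hyy)]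
    _ = _ := by ring

lemma exp_le_one' {y y0 : ℝ} (h : y0 ≤ y) : exp (-(2 * π * (y - y0))) ≤ 1 := by
  rw [exp_le_one_iff]
  nlinarith [mul_nonneg pi_pos.le (sub_nonneg.2 h)]

lemma bd1 {W : ℤ → ℝ} (hW : PG1 W) {j : ℕ} (hj : 1 ≤ j) {y0 : ℝ} (hy : 0 < y0) :
    ∃ b : ℤ → ℝ, Summable b ∧ (∀ m, 0 ≤ b m) ∧ ∀ y, y0 ≤ y → ∀ m : ℤ,
      ‖W m * K j (m * y)‖ ≤ b m * exp (-(2 * π * (y - y0))) := by
  obtain ⟨C, N, h⟩ := hW
  have hC := PG1.nonneg h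
  obtain ⟨b, hb, hb0, hb1⟩ := master hj hy N
  refine ⟨fun m => C * b m, hb.mul_left C, fun m => mul_nonneg hC (hb0 m), fun y hyy m => ?_⟩
  rw [Real.norm_eq_abs, abs_mul]
  calc |W m| * |K j (m * y)| ≤ C * (1 + |(m : ℝ)|) ^ N * |K j (m * y)| := by gcongr; exact h m
    _ = C * ((1 + |(m : ℝ)|) ^ N * |K j (m * y)|) := by ring
    _ ≤ C * (b m * exp (-(2 * π * (y - y0)))) := mul_le_mul_of_nonneg_left (hb1 y hyy m) hC
    _ = _ := by ring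

lemma bd2 {W : ℤ → ℤ → ℝ} (hW : PG2 W) {i j : ℕ} (hi : 1 ≤ i) (hj : 1 ≤ j) {y0 : ℝ}
    (hy : 0 < y0) :
    ∃ b : ℤ × ℤ → ℝ, Summable b ∧ (∀ p, 0 ≤ b p) ∧ ∀ y, y0 ≤ y → ∀ p : ℤ × ℤ,
      ‖W p.1 p.2 * (K i (p.1 * y) * K j (p.2 * y))‖ ≤ b p * exp (-(2 * π * (y - y0))) := by
  obtain ⟨C, N, h⟩ := hW
  have hC := PG2.nonneg h
  obtain ⟨b, hb, hb0, hb1⟩ := master hi hy N
  obtain ⟨c, hc, hc0, hc1⟩ := master hj hy N
  refine ⟨fun p => C * (b p.1 * c p.2), (hb.mul_of_nonneg hc hb0 hc0).mul_left C,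
    fun p => mul_nonneg hC (mul_nonneg (hb0 _) (hc0 _)), fun y hyy p => ?_⟩
  rw [Real.norm_eq_abs, abs_mul, abs_mul]
  have h2 : (1 + |(p.2 : ℝ)|) ^ N * |K j (p.2 * y)| ≤ c p.2 :=
    (hc1 y hyy p.2).trans (mul_le_of_le_one_right (hc0 _) (exp_le_one' hyy))
  calc |W p.1 p.2| * (|K i (p.1 * y)| * |K j (p.2 * y)|)
      ≤ C * ((1 + |(p.1 : ℝ)|) ^ N * (1 + |(p.2 : ℝ)|) ^ N) * (|K i (p.1 * y)| * |K j (p.2 * y)|) := by
        gcongr; exact h _ _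
    _ = C * (((1 + |(p.1 : ℝ)|) ^ N * |K i (p.1 * y)|) * ((1 + |(p.2 : ℝ)|) ^ N * |K j (p.2 * y)|)) := by
        ring
    _ ≤ C * ((b p.1 * exp (-(2 * π * (y - y0)))) * c p.2) :=
        mul_le_mul_of_nonneg_left (mul_le_mul (hb1 y hyy _) h2 (by positivity)
          (mul_nonneg (hb0 p.1) (exp_pos _).le)) hC
    _ = _ := by ring

lemma bd3 {W : ℤ → ℤ → ℤ → ℝ} (hW : PG3 W) {i j k : ℕ} (hi : 1 ≤ i) (hj : 1 ≤ j) (hk : 1 ≤ k)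
    {y0 : ℝ} (hy : 0 < y0) :
    ∃ b : ℤ × ℤ × ℤ → ℝ, Summable b ∧ (∀ p, 0 ≤ b p) ∧ ∀ y, y0 ≤ y → ∀ p : ℤ × ℤ × ℤ,
      ‖W p.1 p.2.1 p.2.2 * (K i (p.1 * y) * (K j (p.2.1 * y) * K k (p.2.2 * y)))‖
        ≤ b p * exp (-(2 * π * (y - y0))) := by
  obtain ⟨C, N, h⟩ := hW
  have hC := PG3.nonneg h
  obtain ⟨b, hb, hb0, hb1⟩ := master hi hy N
  obtain ⟨c, hc, hc0, hc1⟩ := master hj hy N
  obtain ⟨d, hd, hd0, hd1⟩ := master hk hy N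
  have hcd := hc.mul_of_nonneg hd hc0 hd0
  refine ⟨fun p => C * (b p.1 * (c p.2.1 * d p.2.2)),
    (hb.mul_of_nonneg hcd hb0 (fun p => mul_nonneg (hc0 _) (hd0 _))).mul_left C,
    fun p => mul_nonneg hC (mul_nonneg (hb0 _) (mul_nonneg (hc0 _) (hd0 _))), fun y hyy p => ?_⟩
  rw [Real.norm_eq_abs, abs_mul, abs_mul, abs_mul]
  have h2 : (1 + |(p.2.1 : ℝ)|) ^ N * |K j (p.2.1 * y)| ≤ c p.2.1 :=
    (hc1 y hyy _).trans (mul_le_of_le_one_right (hc0 _) (exp_le_one' hyy))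
  have h3 : (1 + |(p.2.2 : ℝ)|) ^ N * |K k (p.2.2 * y)| ≤ d p.2.2 :=
    (hd1 y hyy _).trans (mul_le_of_le_one_right (hd0 _) (exp_le_one' hyy))
  calc |W p.1 p.2.1 p.2.2| * (|K i (p.1 * y)| * (|K j (p.2.1 * y)| * |K k (p.2.2 * y)|))
      ≤ C * ((1 + |(p.1 : ℝ)|) ^ N * ((1 + |(p.2.1 : ℝ)|) ^ N * (1 + |(p.2.2 : ℝ)|) ^ N))
        * (|K i (p.1 * y)| * (|K j (p.2.1 * y)| * |K k (p.2.2 * y)|)) := by
        gcongr; exact h _ _ _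
    _ = C * (((1 + |(p.1 : ℝ)|) ^ N * |K i (p.1 * y)|) * (((1 + |(p.2.1 : ℝ)|) ^ N * |K j (p.2.1 * y)|)
          * ((1 + |(p.2.2 : ℝ)|) ^ N * |K k (p.2.2 * y)|))) := by ring
    _ ≤ C * ((b p.1 * exp (-(2 * π * (y - y0)))) * (c p.2.1 * d p.2.2)) :=
        mul_le_mul_of_nonneg_left (mul_le_mul (hb1 y hyy _)
          (mul_le_mul h2 h3 (by positivity) (hc0 _)) (by positivity)
          (mul_nonneg (hb0 p.1) (exp_pos _).le)) hC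
    _ = _ := by ring

lemma summable_S1 {W : ℤ → ℝ} (hW : PG1 W) {j : ℕ} (hj : 1 ≤ j) {y : ℝ} (hy : 0 < y) :
    Summable fun m : ℤ => W m * K j (m * y) := by
  obtain ⟨b, hb, -, h⟩ := bd1 hW hj hy
  exact Summable.of_norm_bounded hb fun m => by simpa using h y le_rfl m

lemma summable_S2 {W : ℤ → ℤ → ℝ} (hW : PG2 W) {i j : ℕ} (hi : 1 ≤ i) (hj : 1 ≤ j) {y : ℝ}
    (hy : 0 < y) : Summable fun p : ℤ × ℤ => W p.1 p.2 * (K i (p.1 * y) * K j (p.2 * y)) := by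
  obtain ⟨b, hb, -, h⟩ := bd2 hW hi hj hy
  exact Summable.of_norm_bounded hb fun m => by simpa using h y le_rfl m

lemma summable_S3 {W : ℤ → ℤ → ℤ → ℝ} (hW : PG3 W) {i j k : ℕ} (hi : 1 ≤ i) (hj : 1 ≤ j)
    (hk : 1 ≤ k) {y : ℝ} (hy : 0 < y) : Summable fun p : ℤ × ℤ × ℤ =>
      W p.1 p.2.1 p.2.2 * (K i (p.1 * y) * (K j (p.2.1 * y) * K k (p.2.2 * y))) := by
  obtain ⟨b, hb, -, h⟩ := bd3 hW hi hj hk hy
  exact Summable.of_norm_bounded hb fun m => by simpa using h y le_rfl m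

lemma tendsto_of_bd {ι : Type*} {F : ι → ℝ → ℝ} {b : ι → ℝ} (hb : Summable b)
    (h : ∀ y, 1 ≤ y → ∀ p, ‖F p y‖ ≤ b p * exp (-(2 * π * (y - 1)))) :
    Tendsto (fun y => ∑' p, F p y) atTop (𝓝 0) := by
  have h1 : Tendsto (fun y : ℝ => (∑' p, b p) * exp (-(2 * π * (y - 1)))) atTop (𝓝 0) := by
    have : Tendsto (fun y : ℝ => exp (-(2 * π * (y - 1)))) atTop (𝓝 0) :=
      tendsto_exp_neg_atTop_nhds_zero.comp
        ((tendsto_atTop_add_const_right _ (-1) tendsto_id).const_mul_atTop (by positivity))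
    simpa using this.const_mul (∑' p, b p)
  refine squeeze_zero_norm' ?_ h1
  filter_upwards [eventually_ge_atTop 1] with y hy
  exact tsum_of_norm_bounded (hb.hasSum.mul_right _) (h y hy)

lemma S1_tendsto {W : ℤ → ℝ} (hW : PG1 W) {j : ℕ} (hj : 1 ≤ j) :
    Tendsto (S1 W j) atTop (𝓝 0) := by
  obtain ⟨b, hb, -, h⟩ := bd1 hW hj one_pos
  exact tendsto_of_bd (F := fun m y => W m * K j (m * y)) hb h

lemma S2_tendsto {W : ℤ → ℤ → ℝ} (hW : PG2 W) {i j : ℕ} (hi : 1 ≤ i) (hj : 1 ≤ j) :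
    Tendsto (S2 W i j) atTop (𝓝 0) := by
  obtain ⟨b, hb, -, h⟩ := bd2 hW hi hj one_pos
  exact tendsto_of_bd (F := fun p y => W p.1 p.2 * (K i (p.1 * y) * K j (p.2 * y))) hb h

lemma S3_tendsto {W : ℤ → ℤ → ℤ → ℝ} (hW : PG3 W) {i j k : ℕ} (hi : 1 ≤ i) (hj : 1 ≤ j)
    (hk : 1 ≤ k) : Tendsto (S3 W i j k) atTop (𝓝 0) := by
  obtain ⟨b, hb, -, h⟩ := bd3 hW hi hj hk one_pos
  exact tendsto_of_bd (F := fun p y =>
    W p.1 p.2.1 p.2.2 * (K i (p.1 * y) * (K j (p.2.1 * y) * K k (p.2.2 * y)))) hb h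

lemma Km_hasDerivAt (j : ℕ) (m : ℤ) {y : ℝ} (hy : 0 < y) :
    HasDerivAt (fun y => K j (m * y)) (-(2 * π) * (m * K (j + 1) (m * y))) y := by
  by_cases hm : m = 0
  · subst hm
    simpa using hasDerivAt_const y (0 : ℝ)
  · have h1 : (m : ℝ) * y ≠ 0 := mul_ne_zero (by exact_mod_cast hm) hy.ne'
    have := (K_hasDerivAt j h1).comp y ((hasDerivAt_id' y).const_mul (m : ℝ))
    exact this.congr_deriv (by ring)

lemma hasDerivAt_of_bd {ι : Type*} {F F' : ι → ℝ → ℝ} {b : ι → ℝ} {y : ℝ} (hy : 0 < y)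
    (hb : Summable b) (hb0 : ∀ p, 0 ≤ b p)
    (hF : ∀ p z, 0 < z → HasDerivAt (F p) (-(2 * π) * F' p z) z)
    (h : ∀ z, y / 2 ≤ z → ∀ p, ‖F' p z‖ ≤ b p * exp (-(2 * π * (z - y / 2))))
    (h0 : Summable fun p => F p y) :
    HasDerivAt (fun z => ∑' p, F p z) (-(2 * π) * ∑' p, F' p y) y := by
  rw [← tsum_mul_left]
  refine hasDerivAt_tsum_of_isPreconnected (u := fun p => 2 * π * b p)
    (g' := fun p z => -(2 * π) * F' p z) (t := Ioi (y / 2)) (y₀ := y) (hb.mul_left _) isOpen_Ioi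
    isPreconnected_Ioi (fun p z hz => hF p z ((half_pos hy).trans hz)) (fun p z hz => ?_)
    (by simp [hy]) h0 (by simp [hy])
  rw [norm_mul, norm_neg, Real.norm_of_nonneg (by positivity)]
  gcongr
  exact (h z (le_of_lt hz) p).trans (mul_le_of_le_one_right (hb0 p) (exp_le_one' (le_of_lt hz)))

lemma S1_hasDerivAt {W : ℤ → ℝ} (hW : PG1 W) {j : ℕ} (hj : 1 ≤ j) {y : ℝ} (hy : 0 < y) :
    HasDerivAt (S1 W j) (-(2 * π) * S1 (fun a => a * W a) (j + 1) y) y := by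
  obtain ⟨b, hb, hb0, h⟩ := bd1 hW.mul1 (j := j + 1) (by omega) (half_pos hy)
  exact hasDerivAt_of_bd (F := fun m y => W m * K j (m * y))
    (F' := fun m y => (m * W m) * K (j + 1) (m * y)) hy hb hb0
    (fun m z hz => ((Km_hasDerivAt j m hz).const_mul (W m)).congr_deriv (by ring)) h
    (summable_S1 hW hj hy)

lemma S2_hasDerivAt {W : ℤ → ℤ → ℝ} (hW : PG2 W) {i j : ℕ} (hi : 1 ≤ i) (hj : 1 ≤ j) {y : ℝ}
    (hy : 0 < y) : HasDerivAt (S2 W i j) (-(2 * π) *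
      (S2 (fun a b => a * W a b) (i + 1) j y + S2 (fun a b => b * W a b) i (j + 1) y)) y := by
  obtain ⟨b, hb, hb0, h⟩ := bd2 hW.mul1 (i := i + 1) (by omega) hj (half_pos hy)
  obtain ⟨c, hc, hc0, h'⟩ := bd2 hW.mul2 (j := j + 1) hi (by omega) (half_pos hy)
  unfold S2
  rw [← (summable_S2 hW.mul1 (i := i + 1) (by omega) hj hy).tsum_add
    (summable_S2 hW.mul2 (j := j + 1) hi (by omega) hy)]
  refine hasDerivAt_of_bd (F := fun p y => W p.1 p.2 * (K i (p.1 * y) * K j (p.2 * y)))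
    (F' := fun p y => (p.1 * W p.1 p.2) * (K (i + 1) (p.1 * y) * K j (p.2 * y))
      + (p.2 * W p.1 p.2) * (K i (p.1 * y) * K (j + 1) (p.2 * y))) hy (hb.add hc)
    (fun p => add_nonneg (hb0 p) (hc0 p))
    (fun p z hz => (((Km_hasDerivAt i p.1 hz).mul (Km_hasDerivAt j p.2 hz)).const_mul
      (W p.1 p.2)).congr_deriv (by ring)) (fun z hz p => ?_) (summable_S2 hW hi hj hy)
  rw [add_mul]
  exact (norm_add_le _ _).trans (add_le_add (h z hz p) (h' z hz p))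

lemma S3_hasDerivAt {W : ℤ → ℤ → ℤ → ℝ} (hW : PG3 W) {i j k : ℕ} (hi : 1 ≤ i) (hj : 1 ≤ j)
    (hk : 1 ≤ k) {y : ℝ} (hy : 0 < y) : HasDerivAt (S3 W i j k) (-(2 * π) *
      (S3 (fun a b c => a * W a b c) (i + 1) j k y + S3 (fun a b c => b * W a b c) i (j + 1) k y
        + S3 (fun a b c => c * W a b c) i j (k + 1) y)) y := by
  obtain ⟨b, hb, hb0, h⟩ := bd3 hW.mul1 (i := i + 1) (by omega) hj hk (half_pos hy)
  obtain ⟨c, hc, hc0, h'⟩ := bd3 hW.mul2 (j := j + 1) hi (by omega) hk (half_pos hy)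
  obtain ⟨d, hd, hd0, h''⟩ := bd3 hW.mul3 (k := k + 1) hi hj (by omega) (half_pos hy)
  have s1 := summable_S3 hW.mul1 (i := i + 1) (by omega) hj hk hy
  have s2 := summable_S3 hW.mul2 (j := j + 1) hi (by omega) hk hy
  have s3 := summable_S3 hW.mul3 (k := k + 1) hi hj (by omega) hy
  unfold S3
  rw [← s1.tsum_add s2, ← (s1.add s2).tsum_add s3]
  refine hasDerivAt_of_bd
    (F := fun p y => W p.1 p.2.1 p.2.2 * (K i (p.1 * y) * (K j (p.2.1 * y) * K k (p.2.2 * y))))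
    (F' := fun p y =>
      (p.1 * W p.1 p.2.1 p.2.2) * (K (i + 1) (p.1 * y) * (K j (p.2.1 * y) * K k (p.2.2 * y)))
      + (p.2.1 * W p.1 p.2.1 p.2.2) * (K i (p.1 * y) * (K (j + 1) (p.2.1 * y) * K k (p.2.2 * y)))
      + (p.2.2 * W p.1 p.2.1 p.2.2) * (K i (p.1 * y) * (K j (p.2.1 * y) * K (k + 1) (p.2.2 * y))))
    hy ((hb.add hc).add hd) (fun p => add_nonneg (add_nonneg (hb0 p) (hc0 p)) (hd0 p))
    (fun p z hz => (((Km_hasDerivAt i p.1 hz).mul ((Km_hasDerivAt j p.2.1 hz).mul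
      (Km_hasDerivAt k p.2.2 hz))).const_mul (W p.1 p.2.1 p.2.2)).congr_deriv
      (by simp only [Pi.mul_apply]; ring)) (fun z hz p => ?_) (summable_S3 hW hi hj hk hy)
  rw [add_mul, add_mul]
  exact (norm_add_le _ _).trans (add_le_add ((norm_add_le _ _).trans
    (add_le_add (h z hz p) (h' z hz p))) (h'' z hz p))

lemma abs_div_int_le (x : ℝ) (m : ℤ) : |x / m| ≤ |x| := by
  by_cases hm : m = 0
  · simp [hm]
  have hm1 : (1 : ℝ) ≤ |(m : ℝ)| := by exact_mod_cast Int.one_le_abs hm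
  rw [abs_div]
  exact div_le_self (abs_nonneg _) hm1

lemma PG1_inv_pow (e : ℕ) : PG1 fun m => 1 / (m : ℝ) ^ e :=
  PG1_of_bdd 1 fun m => by
    have := abs_div_int_le 1 (m ^ e)
    push_cast at this
    simpa using this

lemma S1_congr {W W' : ℤ → ℝ} (h : ∀ a, a ≠ 0 → W a = W' a) (j : ℕ) (y : ℝ) :
    S1 W j y = S1 W' j y := by
  refine tsum_congr fun m => ?_
  by_cases hm : m = 0
  · simp [hm]
  · rw [h m hm]

lemma T_tendsto {j : ℕ} (hj : 1 ≤ j) (e : ℕ) : Tendsto (T j e) atTop (𝓝 0) :=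
  S1_tendsto (PG1_inv_pow e) hj

lemma T_hasDerivAt {j : ℕ} (hj : 1 ≤ j) (e : ℕ) {y : ℝ} (hy : 0 < y) :
    HasDerivAt (T j (e + 1)) (-(2 * π) * T (j + 1) e y) y := by
  refine (S1_hasDerivAt (PG1_inv_pow (e + 1)) hj hy).congr_deriv ?_
  congr 1
  refine S1_congr (fun a ha => ?_) _ _
  have : (a : ℝ) ≠ 0 := by exact_mod_cast ha
  field_simp
  ring

end Pool.Agent.P.MP_8d0004_nt.LR
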